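import Pool.Agent.J6H16.PF.Tk

/-!
# Project PF (helper16): the bilinear forms as sums over the divisors
-/

set_option autoImplicit false

namespace Pool.Agent.J6H16.PF

open Finset Filter Topology MeasureTheory
open Pool.Agent.N782.GN Pool.Agent.N855.GN
open Pool.Agent.H304R3.HK (UH bb LamK CS)

/-- the number of the prime factors of the norm -/
def om (z : ZI) : ℕ := ArithmeticFunction.cardFactors (nn z)

theorem nn_ne_zero {z : ZI} (hz : z ≠ 0) : nn z ≠ 0 := by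
  intro h
  have h1 := nz_pos hz
  rw [nz_nn, h, Nat.cast_zero] at h1
  exact lt_irrefl _ h1

theorem om_mul {a b : ZI} (ha : a ≠ 0) (hb : b ≠ 0) : om (a * b) = om a + om b := by
  unfold om
  rw [nn_mul]
  exact ArithmeticFunction.cardFactors_mul (nn_ne_zero ha) (nn_ne_zero hb)

theorem om_np {a : ZI} (ha : np a) : om a = 1 := ArithmeticFunction.cardFactors_apply_prime ha

open Classical in
/-- the indicator of a class of `om` -/
noncomputable def ind (q : ℕ) (b : ZMod q) (z : ZI) : ℝ := if ((om z : ℕ) : ZMod q) = b then 1 else 0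

theorem ind_nonneg (q : ℕ) (b : ZMod q) (z : ZI) : 0 ≤ ind q b z := by
  unfold ind
  split_ifs <;> norm_num

theorem ind_le (q : ℕ) (b : ZMod q) (z : ZI) : ind q b z ≤ 1 := by
  unfold ind
  split_ifs <;> norm_num

theorem ind_mul {q : ℕ} {b : ZMod q} {w v : ZI} {j : ℕ} (hw : w ≠ 0) (hv : v ≠ 0) (hj : om w = j) :
    ind q (b + j) (w * v) = ind q b v := by
  unfold ind
  rw [om_mul hw hv, hj]
  push_cast
  have : ((j : ZMod q) + (om v : ZMod q) = b + j) ↔ ((om v : ZMod q) = b) := by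
    constructor
    · intro h
      have h2 : (om v : ZMod q) + j = b + j := by rw [← h]; ring
      exact add_right_cancel h2
    · intro h
      rw [h]; ring
  simp only [this]

/-- restriction to a cell -/
noncomputable def cellr (β : ZI → ℝ) (R R' : ℝ) (w : ZI) : ℝ := if R ^ 2 < nz w ∧ nz w ≤ R' ^ 2 then β w else 0

/-- the number of the multiples of `w` in a class -/
noncomputable def cb (A : Finset ℤ) (q : ℕ) (b : ZMod q) (l : ℤ) (w : ZI) : ℝ := ∑ m ∈ A, dvi w ⟨l, m⟩ * ind q b ⟨l, m⟩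

theorem cb_nonneg (A : Finset ℤ) (q : ℕ) (b : ZMod q) (l : ℤ) (w : ZI) : 0 ≤ cb A q b l w :=
  sum_nonneg fun m _ => mul_nonneg (dvi_nonneg _ _) (ind_nonneg _ _ _)

theorem nz_mk (l m : ℤ) : nz (⟨l, m⟩ : ZI) = (l : ℝ) ^ 2 + (m : ℝ) ^ 2 := by
  unfold Pool.Agent.N782.GN.nz
  rw [Zsqrtd.norm_def]
  push_cast
  ring

open Classical in
/-- one cell, the two inequalities -/
theorem cell_sand {β : ZI → ℝ} {q : ℕ} {b : ZMod q} {j : ℕ} (hβ : ∀ w, 0 ≤ β w) (hj : ∀ w, β w ≠ 0 → om w = j)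
    {R R' P X Y X' Y' ρ : ℝ} (hR : 0 < R) (hP : 0 < P) (hRR : R' = ρ * R) (hρ1 : 1 ≤ ρ)
    {l : ℤ} (hX : (l : ℝ) ^ 2 + X ^ 2 ≤ (R * P) ^ 2) (hX0 : 0 ≤ X) (hY : 2 * ρ * (R * P) ≤ Y)
    (hX' : ρ * (R * P) ≤ X') (hY' : (l : ℝ) ^ 2 + Y' ^ 2 ≤ 4 * (R * P) ^ 2) :
    Th (cellr β R R') (ind q b) R P l ≤ ∑ w ∈ bg (R ^ 2) (4 * R ^ 2), cellr β R R' w * cb (an X Y) q (b + j) l w ∧
    ∑ w ∈ bg (R ^ 2) (4 * R ^ 2), cellr β R R' w * cb (an X' Y') q (b + j) l w ≤ Th (cellr β R R') (ind q b) R P l := by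
  have hT : Th (cellr β R R') (ind q b) R P l = ∑ w ∈ bg (R ^ 2) (4 * R ^ 2), cellr β R R' w *
      ∑ v ∈ (bg (P ^ 2) (4 * P ^ 2)).filter (fun v => (w * v).re = l), ind q b v := by
    unfold Th
    rw [sum_comm]
    refine sum_congr rfl fun w _ => ?_
    rw [mul_sum, sum_filter]
    refine sum_congr rfl fun v _ => ?_
    split_ifs
    · ring
    · rfl
  have hN0 : 0 < R * P := by positivity
  rw [hT]
  have key : ∀ w ∈ bg (R ^ 2) (4 * R ^ 2), cellr β R R' w ≠ 0 →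
      (∑ v ∈ (bg (P ^ 2) (4 * P ^ 2)).filter (fun v => (w * v).re = l), ind q b v ≤ cb (an X Y) q (b + j) l w) ∧
      (cb (an X' Y') q (b + j) l w ≤ ∑ v ∈ (bg (P ^ 2) (4 * P ^ 2)).filter (fun v => (w * v).re = l), ind q b v) := by
    intro w hw hne
    have hw0 : w ≠ 0 := ((mem_bg).1 hw).1
    have hcell : R ^ 2 < nz w ∧ nz w ≤ R' ^ 2 ∧ β w ≠ 0 := by
      unfold cellr at hne
      split_ifs at hne with h
      · exact ⟨h.1, h.2, hne⟩
      · exact absurd rfl hne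
    have hom := hj w hcell.2.2
    set S := (bg (P ^ 2) (4 * P ^ 2)).filter (fun v => (w * v).re = l) with hS
    have hinj : Set.InjOn (fun v : ZI => (w * v).im) (S : Set ZI) := by
      intro v hv v' hv' h
      rw [hS, coe_filter, Set.mem_ofPred_eq] at hv hv'
      have h1 : w * v = w * v' := by
        apply Zsqrtd.ext
        · rw [hv.2, hv'.2]
        · exact h
      exact mul_left_cancel₀ hw0 h1
    have hval : ∀ v ∈ S, ind q b v = dvi w ⟨l, (w * v).im⟩ * ind q (b + j) ⟨l, (w * v).im⟩ := by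
      intro v hv
      rw [hS, mem_filter] at hv
      have h1 : (⟨l, (w * v).im⟩ : ZI) = w * v := by
        apply Zsqrtd.ext
        · exact hv.2.symm
        · rfl
      rw [h1, ind_mul hw0 ((mem_bg).1 hv.1).1 hom]
      unfold dvi
      rw [if_pos (dvd_mul_right w v), one_mul]
    have hsum : ∑ v ∈ S, ind q b v = ∑ m ∈ S.image (fun v => (w * v).im), dvi w ⟨l, m⟩ * ind q (b + j) ⟨l, m⟩ := by
      rw [sum_image hinj]
      exact sum_congr rfl hval
    rw [hsum]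
    have hg0 : ∀ m : ℤ, 0 ≤ dvi w ⟨l, m⟩ * ind q (b + j) ⟨l, m⟩ := fun m => mul_nonneg (dvi_nonneg _ _) (ind_nonneg _ _ _)
    constructor
    · -- upper bound
      unfold cb
      apply sum_le_sum_of_subset_of_nonneg
      · intro m hm
        rw [mem_image] at hm
        obtain ⟨v, hv, rfl⟩ := hm
        rw [hS, mem_filter, mem_bg] at hv
        obtain ⟨⟨hv0, hv1, hv2⟩, hv3⟩ := hv
        have h1 : nz (w * v) = (l : ℝ) ^ 2 + ((w * v).im : ℝ) ^ 2 := by
          rw [← nz_mk]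
          congr 1
          apply Zsqrtd.ext
          · exact hv3
          · rfl
        rw [Pool.Agent.N855.GN.nz_mul] at h1
        have hnw := nz_pos hw0
        have h2 : (R * P) ^ 2 < nz w * nz v := by
          rw [mul_pow]
          exact mul_lt_mul'' hcell.1 hv2 (sq_nonneg _) (sq_nonneg _)
        have h3 : nz w * nz v ≤ (2 * ρ * (R * P)) ^ 2 := by
          calc nz w * nz v ≤ R' ^ 2 * (4 * P ^ 2) := mul_le_mul hcell.2.1 hv1 (nz_nonneg _) (sq_nonneg _)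
            _ = _ := by rw [hRR]; ring
        rw [mem_an]
        constructor
        · have h4 : X ^ 2 < |((w * v).im : ℝ)| ^ 2 := by rw [sq_abs]; linarith
          exact lt_of_pow_lt_pow_left₀ 2 (abs_nonneg _) h4
        · refine le_trans ?_ hY
          apply abs_le_of_sq_le_sq _ (by positivity)
          nlinarith [sq_nonneg (l : ℝ)]
      · intro m _ _
        exact hg0 m
    · -- lower bound
      unfold cb
      have h5 : ∑ m ∈ an X' Y', dvi w ⟨l, m⟩ * ind q (b + j) ⟨l, m⟩ =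
          ∑ m ∈ (an X' Y').filter (fun m => w ∣ (⟨l, m⟩ : ZI)), dvi w ⟨l, m⟩ * ind q (b + j) ⟨l, m⟩ := by
        rw [sum_filter]
        refine sum_congr rfl fun m _ => ?_
        split_ifs with h
        · rfl
        · unfold dvi
          rw [if_neg h, zero_mul]
      rw [h5]
      apply sum_le_sum_of_subset_of_nonneg
      · intro m hm
        rw [mem_filter, mem_an] at hm
        obtain ⟨⟨h1, h2⟩, ⟨v, hv⟩⟩ := hm
        have hXp : 0 < X' := lt_of_lt_of_le (by positivity) hX'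
        have hm2 : X' ^ 2 < (m : ℝ) ^ 2 := by
          rw [← sq_abs (m : ℝ)]
          exact pow_lt_pow_left₀ h1 hXp.le (by norm_num)
        have hm3 : (m : ℝ) ^ 2 ≤ Y' ^ 2 := by
          rw [← sq_abs (m : ℝ)]
          exact pow_le_pow_left₀ (abs_nonneg _) h2 2
        have h3 : nz w * nz v = (l : ℝ) ^ 2 + (m : ℝ) ^ 2 := by
          rw [← Pool.Agent.N855.GN.nz_mul, ← hv, nz_mk]
        have hv0 : v ≠ 0 := by
          rintro rfl
          have h6 : (0 : ℝ) = (l : ℝ) ^ 2 + (m : ℝ) ^ 2 := by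
            rw [← h3]
            simp [Pool.Agent.N782.GN.nz]
          nlinarith [sq_nonneg (l : ℝ), sq_nonneg X']
        have hnw := nz_pos hw0
        have h7 : (ρ * (R * P)) ^ 2 ≤ X' ^ 2 := pow_le_pow_left₀ (by positivity) hX' 2
        rw [mem_image]
        refine ⟨v, ?_, by rw [← hv]⟩
        rw [hS, mem_filter, mem_bg]
        refine ⟨⟨hv0, ?_, ?_⟩, by rw [← hv]⟩
        · -- nz v ≤ 4 P^2
          by_contra hcon
          push Not at hcon
          have h8 : R ^ 2 * (4 * P ^ 2) < nz w * nz v := mul_lt_mul'' hcell.1 hcon (sq_nonneg _) (by positivity)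
          nlinarith
        · by_contra hcon
          push Not at hcon
          have h8 : nz w * nz v ≤ R' ^ 2 * P ^ 2 := mul_le_mul hcell.2.1 hcon (nz_nonneg _) (sq_nonneg _)
          rw [hRR] at h8
          have h9 : (ρ * R) ^ 2 * P ^ 2 = (ρ * (R * P)) ^ 2 := by ring
          nlinarith [sq_nonneg (l : ℝ)]
      · intro m _ _
        exact hg0 m
  constructor
  · refine sum_le_sum fun w hw => ?_
    by_cases h : cellr β R R' w = 0
    · rw [h, zero_mul, zero_mul]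
    · apply mul_le_mul_of_nonneg_left (key w hw h).1
      unfold cellr
      split_ifs
      · exact hβ w
      · exact le_rfl
  · refine sum_le_sum fun w hw => ?_
    by_cases h : cellr β R R' w = 0
    · rw [h, zero_mul, zero_mul]
    · apply mul_le_mul_of_nonneg_left (key w hw h).2
      unfold cellr
      split_ifs
      · exact hβ w
      · exact le_rfl

/-- the cells together -/
theorem cells_sum (β F : ZI → ℝ) {R₀ ρ : ℝ} (hR₀ : 0 < R₀) (hρ1 : 1 ≤ ρ) (hρ2 : ρ ≤ 2) (I : ℕ) :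
    ∑ i ∈ range I, ∑ w ∈ bg ((R₀ * ρ ^ i) ^ 2) (4 * (R₀ * ρ ^ i) ^ 2),
      cellr β (R₀ * ρ ^ i) (R₀ * ρ ^ (i + 1)) w * F w = ∑ w ∈ bg (R₀ ^ 2) ((R₀ * ρ ^ I) ^ 2), β w * F w := by
  classical
  induction I with
  | zero =>
    rw [range_zero, sum_empty, pow_zero, mul_one]
    symm
    refine sum_eq_zero fun w hw => ?_
    rw [mem_bg] at hw
    linarith [hw.2.1, hw.2.2]
  | succ I ih =>
    rw [sum_range_succ, ih]
    set R := R₀ * ρ ^ I with hR
    have hR0 : 0 < R := by positivity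
    have hR1 : R₀ * ρ ^ (I + 1) = ρ * R := by rw [hR, pow_succ]; ring
    rw [hR1]
    have h1 : R₀ ^ 2 ≤ R ^ 2 := by
      apply pow_le_pow_left₀ hR₀.le
      rw [hR]
      exact le_mul_of_one_le_right hR₀.le (one_le_pow₀ hρ1)
    have h2 : R ^ 2 ≤ (ρ * R) ^ 2 := pow_le_pow_left₀ hR0.le (le_mul_of_one_le_left hR0.le hρ1) 2
    have h3 : (ρ * R) ^ 2 ≤ 4 * R ^ 2 := by
      calc (ρ * R) ^ 2 ≤ (2 * R) ^ 2 := by gcongr
        _ = _ := by ring
    have e1 : ∑ w ∈ bg (R ^ 2) (4 * R ^ 2), cellr β R (ρ * R) w * F w = ∑ w ∈ bg (R ^ 2) ((ρ * R) ^ 2), β w * F w := by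
      have hsub : bg (R ^ 2) ((ρ * R) ^ 2) ⊆ bg (R ^ 2) (4 * R ^ 2) := by
        intro w hw
        rw [mem_bg] at hw ⊢
        exact ⟨hw.1, hw.2.1.trans h3, hw.2.2⟩
      rw [← sum_subset hsub (f := fun w => cellr β R (ρ * R) w * F w)]
      · refine sum_congr rfl fun w hw => ?_
        rw [mem_bg] at hw
        unfold cellr
        rw [if_pos ⟨hw.2.2, hw.2.1⟩]
      · intro w hw hw'
        unfold cellr
        rw [if_neg, zero_mul]
        intro h
        apply hw'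
        rw [mem_bg]
        exact ⟨((mem_bg).1 hw).1, h.2, h.1⟩
    rw [e1]
    have e2 : bg (R₀ ^ 2) ((ρ * R) ^ 2) = bg (R₀ ^ 2) (R ^ 2) ∪ bg (R ^ 2) ((ρ * R) ^ 2) := by
      ext w
      rw [mem_union, mem_bg, mem_bg, mem_bg]
      constructor
      · rintro ⟨g1, g2, g3⟩
        rcases le_or_gt (nz w) (R ^ 2) with h | h
        · exact Or.inl ⟨g1, h, g3⟩
        · exact Or.inr ⟨g1, g2, h⟩
      · rintro (⟨g1, g2, g3⟩ | ⟨g1, g2, g3⟩)
        · exact ⟨g1, g2.trans h2, g3⟩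
        · exact ⟨g1, g2, lt_of_le_of_lt h1 g3⟩
    rw [e2, sum_union]
    rw [disjoint_left]
    intro w hw hw'
    rw [mem_bg] at hw hw'
    linarith [hw.2.1, hw'.2.2]

/-- sums of a convolution -/
theorem cv_sum (f g H : ZI → ℝ) {X : ℝ} (hX : 1 ≤ X) (hH : ∀ t, t ∉ bl X → H t = 0) :
    ∑ t ∈ bl X, cv f g t * H t = ∑ a ∈ bl X, ∑ m ∈ bl X, f a * g m * H (a * m) := by
  classical
  rw [grp f g H (bl X) (bl X) (bl (X * X)) (fun a ha m hm => by
    rw [mem_bl] at ha hm ⊢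
    refine ⟨mul_ne_zero ha.1 hm.1, ?_⟩
    rw [Pool.Agent.N855.GN.nz_mul]
    exact mul_le_mul ha.2 hm.2 (nz_nonneg _) (by linarith))]
  have hsub : bl X ⊆ bl (X * X) := by
    intro t ht
    rw [mem_bl] at ht ⊢
    exact ⟨ht.1, by nlinarith [ht.2]⟩
  rw [← sum_subset hsub (f := fun t => cf f g (bl X) (bl X) t * H t) (fun t _ ht => by rw [hH t ht, mul_zero])]
  refine sum_congr rfl fun t ht => ?_
  rw [mem_bl] at ht
  rw [cf_cv ht.2 (fun a ha => ((mem_bl _ _).1 ha).1) (fun a ha ha' h => absurd ((mem_bl _ _).2 ⟨ha, ha'.trans ht.2⟩) h)]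

theorem bl_mul_out {X : ℝ} {a t : ZI} (ht : t ∉ bl X) : a * t ∉ bl X := by
  intro h
  apply ht
  rw [mem_bl, Pool.Agent.N855.GN.nz_mul] at h
  have ha : a ≠ 0 := left_ne_zero_of_mul h.1
  have ht0 : t ≠ 0 := right_ne_zero_of_mul h.1
  rw [mem_bl]
  refine ⟨ht0, ?_⟩
  have h1 := nz_one_le ha
  have h2 := nz_pos ht0
  nlinarith [h.2]

/-- the sums of `β_B` -/
theorem bB_sum (M c1 c2 c3 c4 E : ℝ) (H : ZI → ℝ) {X : ℝ} (hX : 1 ≤ X) (hH : ∀ t, t ∉ bl X → H t = 0) :
    ∑ t ∈ bl X, bB M c1 c2 c3 c4 E t * H t =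
      ∑ w ∈ bl X, ∑ b ∈ bl X, bA M c3 c4 E w * f2 M c1 c2 b * H (w * b) := by
  have e1 : ∑ t ∈ bl X, bB M c1 c2 c3 c4 E t * H t =
      ∑ a ∈ bl X, ∑ b ∈ bl X, ∑ m ∈ bl X, f1 M c3 c4 a * f2 M c1 c2 b * f1 M c4 E m * H (a * b * m) := by
    unfold bB
    rw [cv_sum _ _ H hX hH]
    refine sum_congr rfl fun a _ => ?_
    have h1 := cv_sum (f2 M c1 c2) (f1 M c4 E) (fun y => f1 M c3 c4 a * H (a * y)) hX
      (fun t ht => by rw [hH _ (bl_mul_out ht), mul_zero])
    have h2 : ∑ m ∈ bl X, f1 M c3 c4 a * gB M c1 c2 c4 E m * H (a * m) =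
        ∑ t ∈ bl X, cv (f2 M c1 c2) (f1 M c4 E) t * (f1 M c3 c4 a * H (a * t)) := by
      refine sum_congr rfl fun m _ => ?_
      unfold gB
      ring
    rw [h2, h1]
    refine sum_congr rfl fun b _ => sum_congr rfl fun m _ => ?_
    rw [mul_assoc a b m]
    ring
  have e2 : ∑ w ∈ bl X, ∑ b ∈ bl X, bA M c3 c4 E w * f2 M c1 c2 b * H (w * b) =
      ∑ b ∈ bl X, ∑ a ∈ bl X, ∑ m ∈ bl X, f1 M c3 c4 a * f2 M c1 c2 b * f1 M c4 E m * H (a * b * m) := by
    rw [sum_comm]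
    refine sum_congr rfl fun b _ => ?_
    have h1 := cv_sum (f1 M c3 c4) (f1 M c4 E) (fun w => f2 M c1 c2 b * H (w * b)) hX
      (fun t ht => by rw [hH _ (by rw [mul_comm]; exact bl_mul_out ht), mul_zero])
    have h2 : ∑ w ∈ bl X, bA M c3 c4 E w * f2 M c1 c2 b * H (w * b) =
        ∑ t ∈ bl X, cv (f1 M c3 c4) (f1 M c4 E) t * (f2 M c1 c2 b * H (t * b)) := by
      refine sum_congr rfl fun m _ => ?_
      unfold bA
      ring
    rw [h2, h1]
    refine sum_congr rfl fun a _ => sum_congr rfl fun m _ => ?_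
    rw [show a * m * b = a * b * m by ring]
    ring
  rw [e1, e2, sum_comm]

end Pool.Agent.J6H16.PF
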