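import Pool.Agent.J6H16.PF.Dn

/-!
# Project PF (helper16): the classes of the number of the prime factors, for a fixed `l`
-/

set_option autoImplicit false

namespace Pool.Agent.J6H16.PF

open Finset Filter Topology MeasureTheory
open Pool.Agent.N782.GN Pool.Agent.N855.GN
open Pool.Agent.H304R3.HK (UH bb LamK CS)

theorem Th_lin (β1 β2 γ : ZI → ℝ) (s R P : ℝ) (l : ℤ) :
    Th (fun w => β1 w - s * β2 w) γ R P l = Th β1 γ R P l - s * Th β2 γ R P l := by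
  classical
  unfold Th
  rw [mul_sum, ← sum_sub_distrib]
  refine sum_congr rfl fun v _ => ?_
  rw [mul_sum, ← sum_sub_distrib]
  refine sum_congr rfl fun w _ => ?_
  split_ifs <;> ring

theorem bc_cellr (M c1 c2 c3 c4 E R R' : ℝ) : bc M c1 c2 c3 c4 E R R' =
    fun w => cellr (bB M c1 c2 c3 c4 E) R R' w - s2 M c1 c2 * cellr (bA M c3 c4 E) R R' w := by
  funext w
  unfold bc cellr
  split_ifs <;> ring

theorem om_bA {M c3 c4 E : ℝ} {w : ZI} (h : bA M c3 c4 E w ≠ 0) : om w = 2 := by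
  obtain ⟨a, m, h1, h2, h3, h4, h5⟩ := bA_ne h
  rw [← h1, om_mul (np_ne h2.1) (np_ne h3), om_np h2.1, om_np h3]

theorem om_bB {M c1 c2 c3 c4 E : ℝ} {w : ZI} (h : bB M c1 c2 c3 c4 E w ≠ 0) : om w = 3 := by
  obtain ⟨a, b, m, h1, h2, h3, h4, h5, h6⟩ := bB_ne h
  rw [← h1, om_mul (np_ne h2.1) (mul_ne_zero (np_ne h3.1) (np_ne h4)), om_mul (np_ne h3.1) (np_ne h4), om_np h2.1,
    om_np h3.1, om_np h4]

/-- the weighted number of the elements of a class -/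
noncomputable def YY (M c3 c4 E D0 D1 : ℝ) (A : Finset ℤ) (q : ℕ) (b : ZMod q) (l : ℤ) : ℝ :=
  ∑ w ∈ bg D0 D1, bA M c3 c4 E w * cb A q b l w

/-- step 1 -/
theorem step1 {M c1 c2 c3 c4 E R₀ ρ X Y X' Y' η : ℝ} {q I : ℕ} {l : ℤ} (hM : 1 ≤ M) (hR₀ : 0 < R₀) (hρ1 : 1 ≤ ρ)
    (hρ2 : ρ ≤ 2) (hX : (l : ℝ) ^ 2 + X ^ 2 ≤ (M / 8) ^ 2) (hX0 : 0 ≤ X) (hY : 2 * ρ * (M / 8) ≤ Y)
    (hX' : ρ * (M / 8) ≤ X') (hY' : (l : ℝ) ^ 2 + Y' ^ 2 ≤ 4 * (M / 8) ^ 2)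
    (hT : ∀ b : ZMod q, |∑ i ∈ range I, Th (bc M c1 c2 c3 c4 E (R₀ * ρ ^ i) (R₀ * ρ ^ (i + 1))) (ind q b) (R₀ * ρ ^ i)
      (M / (8 * (R₀ * ρ ^ i))) l| ≤ η) (b : ZMod q) :
    s2 M c1 c2 * YY M c3 c4 E (R₀ ^ 2) ((R₀ * ρ ^ I) ^ 2) (an X' Y') q b l ≤
      ∑ w ∈ bg (R₀ ^ 2) ((R₀ * ρ ^ I) ^ 2), bB M c1 c2 c3 c4 E w * cb (an X Y) q (b + 1) l w + η := by
  have hs := s2_nonneg M c1 c2
  set a : ZMod q := b - 2 with ha
  have ha2 : a + ((2 : ℕ) : ZMod q) = b := by rw [ha]; push_cast; ring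
  have ha3 : a + ((3 : ℕ) : ZMod q) = b + 1 := by rw [ha]; push_cast; ring
  have hcell : ∀ i ∈ range I,
      Th (cellr (bB M c1 c2 c3 c4 E) (R₀ * ρ ^ i) (R₀ * ρ ^ (i + 1))) (ind q a) (R₀ * ρ ^ i) (M / (8 * (R₀ * ρ ^ i))) l ≤
        ∑ w ∈ bg ((R₀ * ρ ^ i) ^ 2) (4 * (R₀ * ρ ^ i) ^ 2),
          cellr (bB M c1 c2 c3 c4 E) (R₀ * ρ ^ i) (R₀ * ρ ^ (i + 1)) w * cb (an X Y) q (b + 1) l w ∧
      ∑ w ∈ bg ((R₀ * ρ ^ i) ^ 2) (4 * (R₀ * ρ ^ i) ^ 2),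
          cellr (bA M c3 c4 E) (R₀ * ρ ^ i) (R₀ * ρ ^ (i + 1)) w * cb (an X' Y') q b l w ≤
      Th (cellr (bA M c3 c4 E) (R₀ * ρ ^ i) (R₀ * ρ ^ (i + 1))) (ind q a) (R₀ * ρ ^ i) (M / (8 * (R₀ * ρ ^ i))) l := by
    intro i _
    have hR : 0 < R₀ * ρ ^ i := by positivity
    have hP : 0 < M / (8 * (R₀ * ρ ^ i)) := by positivity
    have hRP : R₀ * ρ ^ i * (M / (8 * (R₀ * ρ ^ i))) = M / 8 := by field_simp
    have hRR : R₀ * ρ ^ (i + 1) = ρ * (R₀ * ρ ^ i) := by rw [pow_succ]; ring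
    have k1 := (cell_sand (β := bB M c1 c2 c3 c4 E) (q := q) (b := a) (j := 3) (bB_nonneg hM _ _ _ _ _)
      (fun w hw => om_bB hw) hR hP hRR hρ1 (l := l) (X := X) (Y := Y) (X' := X') (Y' := Y')
      (by rw [hRP]; exact hX) hX0 (by rw [hRP]; exact hY) (by rw [hRP]; exact hX') (by rw [hRP]; exact hY')).1
    have k2 := (cell_sand (β := bA M c3 c4 E) (q := q) (b := a) (j := 2) (bA_nonneg hM _ _ _)
      (fun w hw => om_bA hw) hR hP hRR hρ1 (l := l) (X := X) (Y := Y) (X' := X') (Y' := Y')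
      (by rw [hRP]; exact hX) hX0 (by rw [hRP]; exact hY) (by rw [hRP]; exact hX') (by rw [hRP]; exact hY')).2
    rw [ha3] at k1
    rw [ha2] at k2
    exact ⟨k1, k2⟩
  have e1 := cells_sum (bB M c1 c2 c3 c4 E) (fun w => cb (an X Y) q (b + 1) l w) hR₀ hρ1 hρ2 I
  have e2 := cells_sum (bA M c3 c4 E) (fun w => cb (an X' Y') q b l w) hR₀ hρ1 hρ2 I
  have h1 := sum_le_sum fun i hi => (hcell i hi).1
  have h2 := sum_le_sum fun i hi => (hcell i hi).2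
  rw [e1] at h1
  rw [e2] at h2
  have h3 := hT a
  simp only [bc_cellr, Th_lin] at h3
  rw [sum_sub_distrib, ← mul_sum] at h3
  have h4 := (abs_le.1 h3).1
  unfold YY
  have h5 := mul_le_mul_of_nonneg_left h2 hs
  linarith

/-- step 2 -/
theorem step2 {M c1 c2 c3 c4 E D0 D1 : ℝ} (hM : 1 ≤ M) (hD1 : 1 ≤ D1) (F : ZI → ℝ) (hF : ∀ w, 0 ≤ F w) :
    ∑ w ∈ bg D0 D1, bB M c1 c2 c3 c4 E w * F w ≤
      ∑ w ∈ bg (D0 / M ^ c2) D1, bA M c3 c4 E w * ∑ b ∈ bg (M ^ c1) (M ^ c2), f2 M c1 c2 b * F (w * b) := by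
  classical
  have hM0 : 0 < M := by linarith
  set H : ZI → ℝ := fun t => if t ∈ bg D0 D1 then F t else 0 with hH
  have hH0 : ∀ t, 0 ≤ H t := by
    intro t
    simp only [hH]
    split_ifs
    · exact hF t
    · exact le_rfl
  have hsub : bg D0 D1 ⊆ bl D1 := by
    intro t ht
    rw [mem_bg] at ht
    exact (mem_bl _ _).2 ⟨ht.1, ht.2.1⟩
  have h1 : ∑ w ∈ bg D0 D1, bB M c1 c2 c3 c4 E w * F w = ∑ t ∈ bl D1, bB M c1 c2 c3 c4 E t * H t := by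
    rw [← sum_subset hsub (f := fun t => bB M c1 c2 c3 c4 E t * H t)]
    · refine sum_congr rfl fun t ht => ?_
      simp only [hH]
      rw [if_pos ht]
    · intro t _ ht
      simp only [hH]
      rw [if_neg ht, mul_zero]
  rw [h1, bB_sum M c1 c2 c3 c4 E H hD1 (fun t ht => by
    simp only [hH]
    rw [if_neg fun h => ht (hsub h)])]
  have hterm : ∀ w b : ZI, 0 ≤ bA M c3 c4 E w * f2 M c1 c2 b * H (w * b) := fun w b =>
    mul_nonneg (mul_nonneg (bA_nonneg hM _ _ _ _) (f2_nonneg _ _ _ _)) (hH0 _)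
  calc ∑ w ∈ bl D1, ∑ b ∈ bl D1, bA M c3 c4 E w * f2 M c1 c2 b * H (w * b) ≤
        ∑ w ∈ bl D1, (if w ∈ bg (D0 / M ^ c2) D1 then bA M c3 c4 E w *
          ∑ b ∈ bg (M ^ c1) (M ^ c2), f2 M c1 c2 b * F (w * b) else 0) := by
        refine sum_le_sum fun w hw => ?_
        rw [mem_bl] at hw
        have hnw := nz_pos hw.1
        -- the nonzero terms
        have hnz : ∀ b, bA M c3 c4 E w * f2 M c1 c2 b * H (w * b) ≠ 0 → b ∈ bg (M ^ c1) (M ^ c2) ∧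
            w ∈ bg (D0 / M ^ c2) D1 ∧ H (w * b) = F (w * b) := by
          intro b hb
          have h2 : f2 M c1 c2 b ≠ 0 := right_ne_zero_of_mul (left_ne_zero_of_mul hb)
          have h3 : H (w * b) ≠ 0 := right_ne_zero_of_mul hb
          have h4 := f2_ne h2
          have h5 : w * b ∈ bg D0 D1 := by
            by_contra hcon
            apply h3
            simp only [hH]
            rw [if_neg hcon]
          have h6 : H (w * b) = F (w * b) := by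
            simp only [hH]
            rw [if_pos h5]
          rw [mem_bg, Pool.Agent.N855.GN.nz_mul] at h5
          have hb0 : b ≠ 0 := np_ne h4.1
          refine ⟨(mem_bg).2 ⟨hb0, h4.2.2, h4.2.1⟩, (mem_bg).2 ⟨hw.1, hw.2, ?_⟩, h6⟩
          rw [div_lt_iff₀ (by positivity)]
          calc D0 < nz w * nz b := h5.2.2
            _ ≤ nz w * M ^ c2 := mul_le_mul_of_nonneg_left h4.2.2 hnw.le
        split_ifs with hcase
        · rw [mul_sum]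
          have h7 : ∀ b ∈ bl D1, bA M c3 c4 E w * f2 M c1 c2 b * H (w * b) ≤
              (if b ∈ bg (M ^ c1) (M ^ c2) then bA M c3 c4 E w * (f2 M c1 c2 b * F (w * b)) else 0) := by
            intro b _
            by_cases h0 : bA M c3 c4 E w * f2 M c1 c2 b * H (w * b) = 0
            · rw [h0]
              split_ifs
              · exact mul_nonneg (bA_nonneg hM _ _ _ _) (mul_nonneg (f2_nonneg _ _ _ _) (hF _))
              · exact le_rfl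
            · obtain ⟨g1, g2, g3⟩ := hnz b h0
              rw [if_pos g1, g3, mul_assoc]
          refine (sum_le_sum h7).trans ?_
          rw [← sum_filter]
          apply sum_le_sum_of_subset_of_nonneg
          · intro b hb
            exact (mem_filter.1 hb).2
          · intro b _ _
            exact mul_nonneg (bA_nonneg hM _ _ _ _) (mul_nonneg (f2_nonneg _ _ _ _) (hF _))
        · refine le_of_eq (sum_eq_zero fun b _ => ?_)
          by_contra h0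
          exact hcase (hnz b h0).2.1
    _ ≤ ∑ w ∈ bg (D0 / M ^ c2) D1, bA M c3 c4 E w * ∑ b ∈ bg (M ^ c1) (M ^ c2), f2 M c1 c2 b * F (w * b) := by
        rw [← sum_filter]
        apply sum_le_sum_of_subset_of_nonneg
        · intro w hw
          exact (mem_filter.1 hw).2
        · intro w _ _
          exact mul_nonneg (bA_nonneg hM _ _ _ _) (sum_nonneg fun b _ => mul_nonneg (f2_nonneg _ _ _ _) (hF _))

/-- step 3 -/
theorem step3 {β f : ZI → ℝ} {W Q : Finset ZI} (hβ : ∀ a, 0 ≤ β a) (hf0 : ∀ a, 0 ≤ f a) (A : Finset ℤ) (q : ℕ)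
    (b : ZMod q) (l : ℤ) {σ τ : ℝ} (hτ : 0 < τ) :
    ∑ w ∈ W, β w * ∑ a ∈ Q, f a * cb A q b l (w * a) ≤ σ * ∑ w ∈ W, β w * cb A q b l w +
      τ / 2 * ∑ w ∈ W, β w * ∑ m ∈ A, dvi w ⟨l, m⟩ +
      1 / (2 * τ) * ∑ w ∈ W, β w * ∑ m ∈ A, dvi w ⟨l, m⟩ * (∑ a ∈ Q, f a * dvi (w * a) ⟨l, m⟩ - σ) ^ 2 := by
  rw [mul_sum, mul_sum, mul_sum, ← sum_add_distrib, ← sum_add_distrib]
  refine sum_le_sum fun w _ => ?_
  have h1 : ∑ a ∈ Q, f a * cb A q b l (w * a) ≤ σ * cb A q b l w + τ / 2 * ∑ m ∈ A, dvi w ⟨l, m⟩ +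
      1 / (2 * τ) * ∑ m ∈ A, dvi w ⟨l, m⟩ * (∑ a ∈ Q, f a * dvi (w * a) ⟨l, m⟩ - σ) ^ 2 := by
    unfold cb
    simp only [mul_sum]
    rw [sum_comm, ← sum_add_distrib, ← sum_add_distrib]
    refine sum_le_sum fun m _ => ?_
    set x := ∑ a ∈ Q, f a * dvi (w * a) ⟨l, m⟩ with hx
    have h2 : ∑ a ∈ Q, f a * (dvi (w * a) ⟨l, m⟩ * ind q b ⟨l, m⟩) = x * ind q b ⟨l, m⟩ := by
      rw [hx, sum_mul]
      exact sum_congr rfl fun a _ => by ring
    rw [h2]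
    have g1 := ind_nonneg q b (⟨l, m⟩ : ZI)
    have g2 := ind_le q b (⟨l, m⟩ : ZI)
    have g3 : 0 ≤ x := sum_nonneg fun a _ => mul_nonneg (hf0 a) (dvi_nonneg _ _)
    by_cases h4 : w ∣ (⟨l, m⟩ : ZI)
    · have h5 : dvi w ⟨l, m⟩ = 1 := by unfold dvi; rw [if_pos h4]
      rw [h5]
      have h6 : x - σ ≤ τ / 2 + 1 / (2 * τ) * (x - σ) ^ 2 := by
        have h7 : (x - σ) * (2 * τ) ≤ τ ^ 2 + (x - σ) ^ 2 := by nlinarith [sq_nonneg (x - σ - τ)]
        have h8 : x - σ ≤ (τ ^ 2 + (x - σ) ^ 2) / (2 * τ) := by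
          rw [le_div_iff₀ (by positivity)]
          exact h7
        refine h8.trans (le_of_eq ?_)
        field_simp
      have h9 : 0 ≤ τ / 2 + 1 / (2 * τ) * (x - σ) ^ 2 := by positivity
      have h10 : (x - σ) * ind q b ⟨l, m⟩ ≤ τ / 2 + 1 / (2 * τ) * (x - σ) ^ 2 := by
        rcases le_or_gt (x - σ) 0 with h | h
        · nlinarith
        · nlinarith
      nlinarith
    · have h5 : dvi w ⟨l, m⟩ = 0 := by unfold dvi; rw [if_neg h4]
      have h6 : x = 0 := by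
        rw [hx]
        refine sum_eq_zero fun a _ => ?_
        unfold dvi
        rw [if_neg (fun h => h4 (dvd_of_mul_right_dvd h)), mul_zero]
      rw [h5, h6]
      simp
  calc β w * ∑ a ∈ Q, f a * cb A q b l (w * a) ≤ β w * (σ * cb A q b l w + τ / 2 * ∑ m ∈ A, dvi w ⟨l, m⟩ +
      1 / (2 * τ) * ∑ m ∈ A, dvi w ⟨l, m⟩ * (∑ a ∈ Q, f a * dvi (w * a) ⟨l, m⟩ - σ) ^ 2) :=
        mul_le_mul_of_nonneg_left h1 (hβ w)
    _ = _ := by ring

theorem ind_sum (q : ℕ) [NeZero q] (z : ZI) : ∑ b : ZMod q, ind q b z = 1 := by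
  unfold ind
  rw [sum_ite_eq]
  simp

theorem cb_sum (A : Finset ℤ) (q : ℕ) [NeZero q] (l : ℤ) (w : ZI) :
    ∑ b : ZMod q, cb A q b l w = ∑ m ∈ A, dvi w ⟨l, m⟩ := by
  unfold cb
  rw [sum_comm]
  refine sum_congr rfl fun m _ => ?_
  rw [← mul_sum, ind_sum, mul_one]

theorem YY_sum (M c3 c4 E D0 D1 X Y : ℝ) (q : ℕ) [NeZero q] (l : ℤ) :
    ∑ b : ZMod q, YY M c3 c4 E D0 D1 (an X Y) q b l = ∑ w ∈ bg D0 D1, bA M c3 c4 E w * ca X Y l w := by
  unfold YY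
  rw [sum_comm]
  refine sum_congr rfl fun w _ => ?_
  rw [← mul_sum, cb_sum, ca_dvi]

theorem YY_mono {M c3 c4 E D0 D0' D1 X Y X' Y' : ℝ} (hM : 1 ≤ M) (hD : D0' ≤ D0) (hX : X ≤ X') (hY : Y' ≤ Y)
    (q : ℕ) (b : ZMod q) (l : ℤ) :
    YY M c3 c4 E D0 D1 (an X' Y') q b l ≤ YY M c3 c4 E D0' D1 (an X Y) q b l := by
  unfold YY
  have h1 : bg D0 D1 ⊆ bg D0' D1 := by
    intro w hw
    rw [mem_bg] at hw ⊢
    exact ⟨hw.1, hw.2.1, lt_of_le_of_lt hD hw.2.2⟩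
  have h2 : an X' Y' ⊆ an X Y := by
    intro m hm
    rw [mem_an] at hm ⊢
    exact ⟨lt_of_le_of_lt hX hm.1, hm.2.trans hY⟩
  refine (sum_le_sum fun w _ => mul_le_mul_of_nonneg_left (?_ : cb (an X' Y') q b l w ≤ cb (an X Y) q b l w)
    (bA_nonneg hM _ _ _ _)).trans (sum_le_sum_of_subset_of_nonneg h1 fun w _ _ =>
    mul_nonneg (bA_nonneg hM _ _ _ _) (cb_nonneg _ _ _ _ _))
  unfold cb
  exact sum_le_sum_of_subset_of_nonneg h2 fun m _ _ => mul_nonneg (dvi_nonneg _ _) (ind_nonneg _ _ _)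

theorem YY_nonneg {M c3 c4 E D0 D1 : ℝ} (hM : 1 ≤ M) (A : Finset ℤ) (q : ℕ) (b : ZMod q) (l : ℤ) :
    0 ≤ YY M c3 c4 E D0 D1 A q b l :=
  sum_nonneg fun w _ => mul_nonneg (bA_nonneg hM _ _ _ _) (cb_nonneg _ _ _ _ _)

/-- around the circle -/
theorem circle {q : ℕ} [NeZero q] {y : ZMod q → ℝ} {ξ S : ℝ} (hξ : 0 ≤ ξ) (h : ∀ b, y b ≤ y (b + 1) + ξ)
    (hS : S ≤ ∑ b : ZMod q, y b) (b : ZMod q) : S / q - q * ξ ≤ y b := by
  have hq : 0 < (q : ℝ) := by exact_mod_cast Nat.pos_of_ne_zero (NeZero.ne q)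
  have h1 : ∀ k : ℕ, ∀ c : ZMod q, y c ≤ y (c + k) + k * ξ := by
    intro k
    induction k with
    | zero => intro c; simp
    | succ k ih =>
      intro c
      have h2 := ih c
      have h3 := h (c + k)
      push_cast
      rw [← add_assoc]
      linarith
  have h2 : ∀ c : ZMod q, y c ≤ y b + q * ξ := by
    intro c
    have h3 := h1 (b - c).val c
    rw [ZMod.natCast_zmod_val, add_sub_cancel] at h3
    have h4 : (((b - c).val : ℕ) : ℝ) ≤ q := by exact_mod_cast (ZMod.val_lt (b - c)).le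
    have h5 : (((b - c).val : ℕ) : ℝ) * ξ ≤ q * ξ := mul_le_mul_of_nonneg_right h4 hξ
    linarith
  have h3 : S ≤ q * (y b + q * ξ) := by
    refine hS.trans ((sum_le_sum fun c _ => h2 c).trans (le_of_eq ?_))
    rw [sum_const, card_univ, ZMod.card, nsmul_eq_mul]
  have h4 : S / q ≤ y b + q * ξ := by
    rw [div_le_iff₀ hq]
    linarith
  linarith

end Pool.Agent.J6H16.PF
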