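import Pool.Agent.J6H16.PF.Mr

/-!
# Project PF (helper16): uniformity in the length
-/

set_option autoImplicit false

namespace Pool.Agent.J6H16.PF

open Finset Filter Topology MeasureTheory
open Pool.Agent.N782.GN Pool.Agent.N855.GN
open Pool.Agent.H304R3.HK (UH bb LamK CS)

theorem om_neg (l m : ℤ) : om (⟨l, -m⟩ : ZI) = om (⟨l, m⟩ : ZI) := by
  unfold om nn
  rw [Zsqrtd.norm_def, Zsqrtd.norm_def]
  simp

open Classical in
/-- the two signs -/
theorem an_half (q : ℕ) (b : ZMod q) (l : ℤ) (Y : ℝ) :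
    (((an 0 Y).filter (fun m : ℤ => ((om (⟨l, m⟩ : ZI) : ℕ) : ZMod q) = b)).card : ℝ) ≤
      2 * (((Icc (1 : ℤ) ⌊Y⌋).filter (fun m : ℤ => ((om (⟨l, m⟩ : ZI) : ℕ) : ZMod q) = b)).card : ℝ) := by
  set T := (Icc (1 : ℤ) ⌊Y⌋).filter (fun m : ℤ => ((om (⟨l, m⟩ : ZI) : ℕ) : ZMod q) = b) with hT
  have hsub : (an 0 Y).filter (fun m : ℤ => ((om (⟨l, m⟩ : ZI) : ℕ) : ZMod q) = b) ⊆ T ∪ T.image (fun m => -m) := by
    intro m hm
    rw [mem_filter, mem_an] at hm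
    obtain ⟨⟨h1, h2⟩, h3⟩ := hm
    rw [mem_union]
    rcases lt_or_ge 0 m with h | h
    · left
      rw [hT, mem_filter, mem_Icc]
      refine ⟨⟨h, ?_⟩, h3⟩
      rw [Int.le_floor]
      exact (le_abs_self _).trans h2
    · right
      rw [mem_image]
      refine ⟨-m, ?_, neg_neg m⟩
      rw [hT, mem_filter, mem_Icc, om_neg]
      refine ⟨⟨?_, ?_⟩, h3⟩
      · have : m ≠ 0 := by
          rintro rfl
          simp at h1
        omega
      · rw [Int.le_floor]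
        push_cast
        exact (neg_le_abs _).trans h2
  have h1 := (card_le_card hsub).trans (card_union_le _ _)
  have h2 : (T.image (fun m => -m)).card ≤ T.card := card_image_le
  have h3 : ((an 0 Y).filter (fun m : ℤ => ((om (⟨l, m⟩ : ZI) : ℕ) : ZMod q) = b)).card ≤ 2 * T.card := by omega
  exact_mod_cast h3

open Classical in
/-- **all lengths at once** -/
theorem fin_main (ε E : ℝ) (hε : 0 < ε) : ∃ c : ℝ, 0 < c ∧ ∀ q A : ℕ, 1 ≤ q → ∀ᶠ K : ℝ in atTop,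
    (((Icc (1 : ℤ) ⌊K⌋).filter (fun l => ¬ ∀ N : ℝ, K ^ (1 + ε) ≤ N → N ≤ K ^ E → ∀ b : ZMod q, c / q * N ≤
      (((Icc (1 : ℤ) ⌊N⌋).filter (fun m : ℤ => ((om (⟨l, m⟩ : ZI) : ℕ) : ZMod q) = b)).card : ℝ))).card : ℝ) ≤
      K / (Real.log K) ^ A := by
  obtain ⟨E', hE'⟩ : ∃ x : ℝ, x = max E 1 := ⟨_, rfl⟩
  have hE'1 : 1 ≤ E' := by rw [hE']; exact le_max_right _ _
  have hEE' : E ≤ E' := by rw [hE']; exact le_max_left _ _
  obtain ⟨c, hc, hmain⟩ := main_avg (ε := ε / (1 + ε)) (θ := 1 / (E' + 1)) (by positivity)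
    (by rw [div_le_one (by positivity)]; linarith) (by positivity) (by rw [div_le_one (by positivity)]; linarith)
  refine ⟨c, hc, ?_⟩
  intro q A hq
  have hqR : (1 : ℝ) ≤ q := by exact_mod_cast hq
  obtain ⟨M₁, hM₁⟩ := eventually_atTop.1 (hmain q (A + 2) hq)
  filter_upwards [eventually_ge_atTop (max M₁ 4), ev_log (2 * E' + 1)] with K hKm hlog
  have hK1 : M₁ ≤ K := (le_max_left _ _).trans hKm
  have hK4 : 4 ≤ K := (le_max_right _ _).trans hKm
  have hK0 : 0 < K := by linarith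
  have hK1' : 1 ≤ K := by linarith
  set ℓ := Real.log K with hℓ
  have hℓ1 : 1 ≤ ℓ := by linarith
  have hℓ0 : 0 < ℓ := by linarith
  set J := (range (⌊2 * E' * ℓ⌋₊ + 1)).filter (fun j => K ^ (1 + ε) ≤ 2 * 2 ^ j ∧ (2 : ℝ) ^ j ≤ K ^ E') with hJ
  set S := Icc (1 : ℤ) ⌊K⌋ with hS
  set bad : ℕ → Finset ℤ := fun j => S.filter (fun l => ¬ ∀ b : ZMod q, c / q * (4 * 2 ^ j) ≤
        (((an 0 (4 * 2 ^ j / 4)).filter (fun m : ℤ => ((om (⟨l, m⟩ : ZI) : ℕ) : ZMod q) = b)).card : ℝ)) with hbad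
  have hbadc : ∀ j ∈ J, ((bad j).card : ℝ) ≤ K / ℓ ^ (A + 2) := by
    intro j hj
    rw [hJ, mem_filter] at hj
    obtain ⟨-, h1, h2⟩ := hj
    have h2j : (0 : ℝ) < 2 ^ j := by positivity
    have hKM : K ^ (1 + ε) ≤ 4 * 2 ^ j := by linarith
    have hKM' : K ≤ 4 * 2 ^ j := by
      refine le_trans ?_ hKM
      calc K = K ^ (1 : ℝ) := (Real.rpow_one K).symm
        _ ≤ K ^ (1 + ε) := Real.rpow_le_rpow_of_exponent_le hK1' (by linarith)
    have h3 := hM₁ (4 * 2 ^ j) (hK1.trans hKM') K ?_ ?_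
    · refine h3.trans ?_
      apply div_le_div_of_nonneg_left hK0.le (by positivity)
      exact pow_le_pow_left₀ hℓ0.le (Real.log_le_log hK0 hKM') _
    · calc (4 * 2 ^ j : ℝ) ^ (1 / (E' + 1)) ≤ (K ^ (E' + 1)) ^ (1 / (E' + 1)) := by
            apply Real.rpow_le_rpow (by positivity) _ (by positivity)
            rw [Real.rpow_add hK0, Real.rpow_one]
            nlinarith [Real.rpow_pos_of_pos hK0 E']
        _ = K := by
            rw [← Real.rpow_mul hK0.le, mul_one_div_cancel (by positivity), Real.rpow_one]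
    · calc K = (K ^ (1 + ε)) ^ (1 - ε / (1 + ε)) := by
            rw [← Real.rpow_mul hK0.le]
            have : (1 + ε) * (1 - ε / (1 + ε)) = 1 := by field_simp; ring
            rw [this, Real.rpow_one]
        _ ≤ (4 * 2 ^ j) ^ (1 - ε / (1 + ε)) := by
            apply Real.rpow_le_rpow (by positivity) hKM
            rw [sub_nonneg, div_le_one (by positivity)]
            linarith
  have hsub : S.filter (fun l => ¬ ∀ N : ℝ, K ^ (1 + ε) ≤ N → N ≤ K ^ E → ∀ b : ZMod q, c / q * N ≤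
      (((Icc (1 : ℤ) ⌊N⌋).filter (fun m : ℤ => ((om (⟨l, m⟩ : ZI) : ℕ) : ZMod q) = b)).card : ℝ)) ⊆ J.biUnion bad := by
    intro l hl
    rw [mem_filter] at hl
    obtain ⟨hlS, hl⟩ := hl
    by_contra hnot
    apply hl
    intro N hN1 hN2 b
    have hKε : 1 ≤ K ^ (1 + ε) := Real.one_le_rpow hK1' (by linarith)
    have hN1' : 1 ≤ N := hKε.trans hN1
    obtain ⟨j, hj1, hj2⟩ := exists_nat_pow_near hN1' (by norm_num : (1 : ℝ) < 2)
    rw [pow_succ] at hj2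
    have h2j : (0 : ℝ) < 2 ^ j := by positivity
    have hjE : (2 : ℝ) ^ j ≤ K ^ E' := hj1.trans (hN2.trans (Real.rpow_le_rpow_of_exponent_le hK1' hEE'))
    have hjJ : j ∈ J := by
      rw [hJ, mem_filter, mem_range]
      refine ⟨?_, by linarith, hjE⟩
      rw [Nat.lt_succ_iff]
      apply Nat.le_floor
      have h1 := Real.log_le_log h2j hjE
      rw [Real.log_pow, Real.log_rpow hK0, ← hℓ] at h1
      have h2 := Real.log_two_gt_d9
      have h3 : (0 : ℝ) ≤ j := Nat.cast_nonneg j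
      nlinarith
    have hgood : ∀ b : ZMod q, c / q * (4 * 2 ^ j) ≤
        (((an 0 (4 * 2 ^ j / 4)).filter (fun m : ℤ => ((om (⟨l, m⟩ : ZI) : ℕ) : ZMod q) = b)).card : ℝ) := by
      by_contra hcon
      apply hnot
      rw [mem_biUnion]
      refine ⟨j, hjJ, ?_⟩
      simp only [hbad, mem_filter]
      exact ⟨hlS, hcon⟩
    have h1 := hgood b
    have h2 := an_half q b l (4 * 2 ^ j / 4)
    have h3 : (((Icc (1 : ℤ) ⌊(4 * 2 ^ j / 4 : ℝ)⌋).filter (fun m : ℤ => ((om (⟨l, m⟩ : ZI) : ℕ) : ZMod q) = b)).card : ℝ) ≤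
        (((Icc (1 : ℤ) ⌊N⌋).filter (fun m : ℤ => ((om (⟨l, m⟩ : ZI) : ℕ) : ZMod q) = b)).card : ℝ) := by
      have : (Icc (1 : ℤ) ⌊(4 * 2 ^ j / 4 : ℝ)⌋).filter (fun m : ℤ => ((om (⟨l, m⟩ : ZI) : ℕ) : ZMod q) = b) ⊆
          (Icc (1 : ℤ) ⌊N⌋).filter (fun m : ℤ => ((om (⟨l, m⟩ : ZI) : ℕ) : ZMod q) = b) := by
        apply filter_subset_filter
        apply Icc_subset_Icc le_rfl
        apply Int.floor_le_floor
        linarith
      exact_mod_cast card_le_card this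
    have hcq : 0 < c / q := by positivity
    nlinarith
  have h1 : ((S.filter (fun l => ¬ ∀ N : ℝ, K ^ (1 + ε) ≤ N → N ≤ K ^ E → ∀ b : ZMod q, c / q * N ≤
      (((Icc (1 : ℤ) ⌊N⌋).filter (fun m : ℤ => ((om (⟨l, m⟩ : ZI) : ℕ) : ZMod q) = b)).card : ℝ))).card : ℝ) ≤
      ∑ j ∈ J, ((bad j).card : ℝ) := by
    have := (card_le_card hsub).trans card_biUnion_le
    exact_mod_cast this
  refine h1.trans ((sum_le_sum hbadc).trans ?_)
  rw [sum_const, nsmul_eq_mul]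
  have hJc : (J.card : ℝ) ≤ ℓ ^ 2 := by
    have h2 : J.card ≤ ⌊2 * E' * ℓ⌋₊ + 1 := (card_filter_le _ _).trans (by rw [card_range])
    have h3 : (J.card : ℝ) ≤ (⌊2 * E' * ℓ⌋₊ : ℝ) + 1 := by exact_mod_cast h2
    have h4 : (⌊2 * E' * ℓ⌋₊ : ℝ) ≤ 2 * E' * ℓ := Nat.floor_le (by positivity)
    nlinarith
  calc (J.card : ℝ) * (K / ℓ ^ (A + 2)) ≤ ℓ ^ 2 * (K / ℓ ^ (A + 2)) := mul_le_mul_of_nonneg_right hJc (by positivity)
    _ = K / ℓ ^ A := by
        rw [pow_add]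
        field_simp

end Pool.Agent.J6H16.PF
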