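import Pool.Agent.J6H16.PF.Ti

/-!
# Project PF (helper16): the inequality of Turán and Kubilius
-/

set_option autoImplicit false

namespace Pool.Agent.J6H16.PF

open Finset Filter Topology MeasureTheory
open Pool.Agent.N782.GN Pool.Agent.N855.GN
open Pool.Agent.H304R3.HK (UH bb LamK CS)

theorem nn_nat (p : ℕ) : nn ((p : ℕ) : ZI) = p * p := by
  unfold nn
  rw [Zsqrtd.norm_def]
  simp
  rw [← Int.natCast_mul, Int.natAbs_natCast]

theorem dvd_nn (a : ZI) : a ∣ ((nn a : ℕ) : ZI) := by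
  refine ⟨star a, ?_⟩
  rw [← Zsqrtd.norm_eq_mul_conj]
  unfold nn
  have h : 0 ≤ Zsqrtd.norm a := GaussianInt.norm_nonneg a
  have h2 : ((Zsqrtd.norm a).natAbs : ℤ) = Zsqrtd.norm a := Int.natAbs_of_nonneg h
  have h3 : (((Zsqrtd.norm a).natAbs : ℕ) : ZI) = (((Zsqrtd.norm a).natAbs : ℤ) : ZI) := (Int.cast_natCast _).symm
  rw [h3, h2]

open Classical in
/-- at most eight numbers with the same prime norm -/
theorem eight (S : Finset ZI) (p : ℕ) (hp : p.Prime) : ((S.filter (fun t => nn t = p)).card : ℝ) ≤ 8 := by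
  have hp0 : ((p : ℕ) : ZI) ≠ 0 := by exact_mod_cast hp.ne_zero
  have h1 := div_Lp hp0
  have h2 : nz ((p : ℕ) : ZI) = (p : ℝ) ^ 2 := by
    rw [nz_nn, nn_nat]
    push_cast
    ring
  have hlp : 0 < Real.log p := Real.log_pos (by exact_mod_cast hp.one_lt)
  rw [h2, Real.log_pow] at h1
  have h3 : ∑ t ∈ S.filter (fun t => nn t = p), Real.log p ≤ ∑ a ∈ Dv ((p : ℕ) : ZI), Lp a := by
    have h4 : ∀ t ∈ S.filter (fun t => nn t = p), Real.log p = Lp t := by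
      intro t ht
      have ht' := (mem_filter.1 ht).2
      unfold Lp np
      rw [if_pos (by rw [show (Zsqrtd.norm t).natAbs = nn t from rfl, ht']; exact hp), nz_nn, ht']
    rw [sum_congr rfl h4]
    apply sum_le_sum_of_subset_of_nonneg
    · intro t ht
      have ht' := (mem_filter.1 ht).2
      rw [mem_Dv hp0, ← ht']
      exact dvd_nn t
    · intro t _ _
      exact Lp_nonneg t
  rw [sum_const, nsmul_eq_mul] at h3
  have h5 : ((S.filter (fun t => nn t = p)).card : ℝ) * Real.log p ≤ 8 * Real.log p := by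
    push_cast at h1
    linarith
  exact le_of_mul_le_mul_right h5 hlp

theorem cop_pp {a b : ZI} (ha : np a) (hb : np b) (h : nn a ≠ nn b) : IsCoprime a b := by
  have h1 := np_prime ha
  have h2 := np_prime hb
  rw [h1.irreducible.coprime_iff_not_dvd]
  intro h3
  apply h
  have h4 := h1.associated_of_dvd h2 h3
  obtain ⟨u, hu⟩ := h4
  rw [← hu, nn_mul]
  have h5 : nn (u : ZI) = 1 := by
    have := Zsqrtd.norm_eq_one_iff.2 u.isUnit
    exact this
  rw [h5, mul_one]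

open Classical in
/-- the indicator of the divisibility -/
noncomputable def dvi (a : ZI) (z : ZI) : ℝ := if a ∣ z then 1 else 0

theorem dvi_nonneg (a z : ZI) : 0 ≤ dvi a z := by
  unfold dvi
  split_ifs <;> norm_num

theorem ca_dvi (X Y : ℝ) (l : ℤ) (a : ZI) : ca X Y l a = ∑ m ∈ an X Y, dvi a ⟨l, m⟩ := by
  classical
  unfold ca dvi
  rw [← sum_filter, sum_const, nsmul_eq_mul, mul_one]

theorem ca_nonneg (X Y : ℝ) (l : ℤ) (a : ZI) : 0 ≤ ca X Y l a := by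
  unfold ca
  exact Nat.cast_nonneg _

open Classical in
/-- the square of the number of the prime divisors -/
theorem sq_dvi {f : ZI → ℝ} {Q : Finset ZI} (hf0 : ∀ a, 0 ≤ f a) (hf1 : ∀ a, f a ≤ 1) (hfp : ∀ a, f a ≠ 0 → np a)
    {w : ZI} (hw : w ≠ 0) (z : ZI) :
    (∑ a ∈ Q, f a * dvi (w * a) z) ^ 2 ≤
      ∑ a ∈ Q, ∑ b ∈ Q, (if nn a ≠ nn b then f a * f b else 0) * dvi (w * (a * b)) z +
        8 * ∑ a ∈ Q, f a * dvi (w * a) z := by
  rw [sq, sum_mul_sum, mul_sum, ← sum_add_distrib]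
  refine sum_le_sum fun a _ => ?_
  by_cases ha : f a = 0
  · rw [ha]
    simp
  have hpa := hfp a ha
  have h1 : ∀ b ∈ Q, f a * dvi (w * a) z * (f b * dvi (w * b) z) ≤
      (if nn a ≠ nn b then f a * f b else 0) * dvi (w * (a * b)) z + (if nn b = nn a then f a * dvi (w * a) z else 0) := by
    intro b _
    have g1 := hf0 a
    have g2 := hf0 b
    have g3 := dvi_nonneg (w * a) z
    have g4 := dvi_nonneg (w * b) z
    by_cases hb : f b = 0
    · rw [hb, zero_mul, mul_zero]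
      have : 0 ≤ (if nn b = nn a then f a * dvi (w * a) z else 0) := by
        split_ifs
        · positivity
        · exact le_rfl
      have h2 : 0 ≤ (if nn a ≠ nn b then f a * 0 else 0) * dvi (w * (a * b)) z := by
        simp
      linarith
    have hpb := hfp b hb
    by_cases hab : nn a = nn b
    · rw [if_neg (not_not.2 hab), if_pos hab.symm, zero_mul, zero_add]
      have : f b * dvi (w * b) z ≤ 1 := by
        have h3 : dvi (w * b) z ≤ 1 := by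
          unfold dvi
          split_ifs <;> norm_num
        calc f b * dvi (w * b) z ≤ 1 * 1 := mul_le_mul (hf1 b) h3 g4 zero_le_one
          _ = 1 := by norm_num
      calc f a * dvi (w * a) z * (f b * dvi (w * b) z) ≤ f a * dvi (w * a) z * 1 :=
            mul_le_mul_of_nonneg_left this (by positivity)
        _ = _ := mul_one _
    · rw [if_pos hab, if_neg (fun h => hab h.symm), add_zero]
      have h3 : dvi (w * a) z * dvi (w * b) z ≤ dvi (w * (a * b)) z := by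
        unfold dvi
        by_cases k1 : w * a ∣ z
        · by_cases k2 : w * b ∣ z
          · rw [if_pos k1, if_pos k2, if_pos]
            · norm_num
            · obtain ⟨y, hy⟩ := dvd_of_mul_right_dvd k1
              rw [hy] at k1 k2 ⊢
              rw [mul_dvd_mul_iff_left hw] at k1 k2 ⊢
              exact (cop_pp hpa hpb hab).mul_dvd k1 k2
          · rw [if_neg k2, mul_zero]
            split_ifs <;> norm_num
        · rw [if_neg k1, zero_mul]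
          split_ifs <;> norm_num
      calc f a * dvi (w * a) z * (f b * dvi (w * b) z) = f a * f b * (dvi (w * a) z * dvi (w * b) z) := by ring
        _ ≤ _ := mul_le_mul_of_nonneg_left h3 (by positivity)
  refine (sum_le_sum h1).trans ?_
  rw [sum_add_distrib]
  apply add_le_add le_rfl
  rw [← sum_filter, sum_const, nsmul_eq_mul]
  exact mul_le_mul_of_nonneg_right (eight Q (nn a) hpa) (mul_nonneg (hf0 a) (dvi_nonneg _ _))

open Classical in
/-- **the inequality of Turán and Kubilius** -/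
theorem tk {β f : ZI → ℝ} {W Q : Finset ZI} (hβ : ∀ a, 0 ≤ β a) (hW : ∀ w ∈ W, w ≠ 0) (hf0 : ∀ a, 0 ≤ f a)
    (hf1 : ∀ a, f a ≤ 1) (hfp : ∀ a, f a ≠ 0 → np a) (X Y : ℝ) (hXY : X ≤ Y) (l : ℤ) {σ : ℝ}
    (hσ : σ = ∑ a ∈ Q, f a / nz a) :
    ∑ w ∈ W, β w * ∑ m ∈ an X Y, dvi w ⟨l, m⟩ * (∑ a ∈ Q, f a * dvi (w * a) ⟨l, m⟩ - σ) ^ 2 ≤
      8 * (2 * (Y - X)) * (∑ w ∈ W, β w / nz w) * σ +
      |∑ i ∈ W ×ˢ Q ×ˢ Q, (β i.1 * (if nn i.2.1 ≠ nn i.2.2 then f i.2.1 * f i.2.2 else 0)) *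
        (ca X Y l (i.1 * (i.2.1 * i.2.2)) - 2 * (Y - X) / nz (i.1 * (i.2.1 * i.2.2)))| +
      (8 + 2 * σ) * |∑ i ∈ W ×ˢ Q ×ˢ ({1} : Finset ZI), (β i.1 * f i.2.1) *
        (ca X Y l (i.1 * i.2.1) - 2 * (Y - X) / nz (i.1 * i.2.1))| +
      σ ^ 2 * |∑ i ∈ W ×ˢ ({1} : Finset ZI) ×ˢ ({1} : Finset ZI), β i.1 * (ca X Y l i.1 - 2 * (Y - X) / nz i.1)| := by
  set Δ := 2 * (Y - X) with hΔ
  have hΔ0 : 0 ≤ Δ := by rw [hΔ]; linarith
  have hσ0 : 0 ≤ σ := by rw [hσ]; exact sum_nonneg fun a _ => div_nonneg (hf0 a) (nz_nonneg a)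
  -- for every `w`
  have h1 : ∀ w ∈ W, ∑ m ∈ an X Y, dvi w ⟨l, m⟩ * (∑ a ∈ Q, f a * dvi (w * a) ⟨l, m⟩ - σ) ^ 2 ≤
      ∑ a ∈ Q, ∑ b ∈ Q, (if nn a ≠ nn b then f a * f b else 0) * ca X Y l (w * (a * b)) +
        8 * ∑ a ∈ Q, f a * ca X Y l (w * a) - 2 * σ * ∑ a ∈ Q, f a * ca X Y l (w * a) + σ ^ 2 * ca X Y l w := by
    intro w hw
    have h2 : ∀ m ∈ an X Y, dvi w ⟨l, m⟩ * (∑ a ∈ Q, f a * dvi (w * a) ⟨l, m⟩ - σ) ^ 2 ≤
        ∑ a ∈ Q, ∑ b ∈ Q, (if nn a ≠ nn b then f a * f b else 0) * dvi (w * (a * b)) ⟨l, m⟩ +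
        8 * ∑ a ∈ Q, f a * dvi (w * a) ⟨l, m⟩ - 2 * σ * ∑ a ∈ Q, f a * dvi (w * a) ⟨l, m⟩ +
        σ ^ 2 * dvi w ⟨l, m⟩ := by
      intro m _
      have h3 := sq_dvi (Q := Q) hf0 hf1 hfp (hW w hw) ⟨l, m⟩
      by_cases h4 : w ∣ (⟨l, m⟩ : ZI)
      · have h5 : dvi w ⟨l, m⟩ = 1 := by unfold dvi; rw [if_pos h4]
        rw [h5]
        nlinarith
      · have h5 : dvi w ⟨l, m⟩ = 0 := by unfold dvi; rw [if_neg h4]
        have h6 : ∑ a ∈ Q, f a * dvi (w * a) ⟨l, m⟩ = 0 := by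
          refine sum_eq_zero fun a _ => ?_
          unfold dvi
          rw [if_neg (fun h => h4 (dvd_of_mul_right_dvd h)), mul_zero]
        rw [h6] at h3 ⊢
        rw [h5]
        nlinarith
    refine (sum_le_sum h2).trans (le_of_eq ?_)
    rw [sum_add_distrib, sum_sub_distrib, sum_add_distrib, ← mul_sum, ← mul_sum, ← mul_sum, ca_dvi]
    have h3 : ∑ m ∈ an X Y, ∑ a ∈ Q, f a * dvi (w * a) ⟨l, m⟩ = ∑ a ∈ Q, f a * ca X Y l (w * a) := by
      rw [sum_comm]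
      refine sum_congr rfl fun a _ => ?_
      rw [← mul_sum, ca_dvi]
    have h4 : ∑ m ∈ an X Y, ∑ a ∈ Q, ∑ b ∈ Q, (if nn a ≠ nn b then f a * f b else 0) * dvi (w * (a * b)) ⟨l, m⟩ =
        ∑ a ∈ Q, ∑ b ∈ Q, (if nn a ≠ nn b then f a * f b else 0) * ca X Y l (w * (a * b)) := by
      rw [sum_comm]
      refine sum_congr rfl fun a _ => ?_
      rw [sum_comm]
      refine sum_congr rfl fun b _ => ?_
      rw [← mul_sum, ca_dvi]
    rw [h3, h4]
  -- the three sums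
  set sA := ∑ w ∈ W, β w / nz w with hsA
  set E2 := ∑ i ∈ W ×ˢ Q ×ˢ Q, (β i.1 * (if nn i.2.1 ≠ nn i.2.2 then f i.2.1 * f i.2.2 else 0)) *
        (ca X Y l (i.1 * (i.2.1 * i.2.2)) - Δ / nz (i.1 * (i.2.1 * i.2.2))) with hE2
  set E1 := ∑ i ∈ W ×ˢ Q ×ˢ ({1} : Finset ZI), (β i.1 * f i.2.1) *
        (ca X Y l (i.1 * i.2.1) - Δ / nz (i.1 * i.2.1)) with hE1
  set E0 := ∑ i ∈ W ×ˢ ({1} : Finset ZI) ×ˢ ({1} : Finset ZI), β i.1 * (ca X Y l i.1 - Δ / nz i.1) with hE0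
  have hsA0 : 0 ≤ sA := sum_nonneg fun w _ => div_nonneg (hβ w) (nz_nonneg w)
  have e0 : ∑ w ∈ W, β w * ca X Y l w = Δ * sA + E0 := by
    rw [hE0, sum_product, hsA, mul_sum, ← sum_add_distrib]
    refine sum_congr rfl fun w _ => ?_
    rw [sum_product, sum_singleton, sum_singleton]
    ring
  have e1 : ∑ w ∈ W, β w * ∑ a ∈ Q, f a * ca X Y l (w * a) = Δ * (sA * σ) + E1 := by
    rw [hE1, sum_product, hsA, hσ, sum_mul_sum, mul_sum, ← sum_add_distrib]
    refine sum_congr rfl fun w _ => ?_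
    rw [sum_product, mul_sum, mul_sum, ← sum_add_distrib]
    refine sum_congr rfl fun a _ => ?_
    rw [sum_singleton, Pool.Agent.N855.GN.nz_mul]
    rw [show β w / nz w * (f a / nz a) = β w * f a * (1 / (nz w * nz a)) by
      rw [div_mul_div_comm, mul_one_div]]
    ring
  have e2 : ∑ w ∈ W, β w * ∑ a ∈ Q, ∑ b ∈ Q, (if nn a ≠ nn b then f a * f b else 0) * ca X Y l (w * (a * b)) ≤
      Δ * (sA * σ ^ 2) + E2 := by
    have h2 : ∑ w ∈ W, β w * ∑ a ∈ Q, ∑ b ∈ Q, (if nn a ≠ nn b then f a * f b else 0) * ca X Y l (w * (a * b)) =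
        ∑ w ∈ W, ∑ a ∈ Q, ∑ b ∈ Q, (β w * (if nn a ≠ nn b then f a * f b else 0)) * (Δ / nz (w * (a * b))) + E2 := by
      rw [hE2, sum_product, ← sum_add_distrib]
      refine sum_congr rfl fun w _ => ?_
      rw [sum_product, mul_sum, ← sum_add_distrib]
      refine sum_congr rfl fun a _ => ?_
      rw [mul_sum, ← sum_add_distrib]
      refine sum_congr rfl fun b _ => ?_
      ring
    rw [h2]
    apply add_le_add _ le_rfl
    rw [hsA, hσ, sq, sum_mul_sum, sum_mul_sum, mul_sum]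
    refine sum_le_sum fun w _ => ?_
    rw [mul_sum]
    refine sum_le_sum fun a _ => ?_
    rw [mul_sum, mul_sum]
    refine sum_le_sum fun b _ => ?_
    rw [Pool.Agent.N855.GN.nz_mul, Pool.Agent.N855.GN.nz_mul]
    have g1 : (if nn a ≠ nn b then f a * f b else 0) ≤ f a * f b := by
      split_ifs
      · exact le_rfl
      · exact mul_nonneg (hf0 a) (hf0 b)
    have g2 : 0 ≤ Δ / (nz w * (nz a * nz b)) :=
      div_nonneg hΔ0 (mul_nonneg (nz_nonneg w) (mul_nonneg (nz_nonneg a) (nz_nonneg b)))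
    calc β w * (if nn a ≠ nn b then f a * f b else 0) * (Δ / (nz w * (nz a * nz b))) ≤
          β w * (f a * f b) * (Δ / (nz w * (nz a * nz b))) :=
          mul_le_mul_of_nonneg_right (mul_le_mul_of_nonneg_left g1 (hβ w)) g2
      _ = Δ * (β w / nz w * (f a / nz a * (f b / nz b))) := by
          rw [div_mul_div_comm, div_mul_div_comm]
          ring
  calc ∑ w ∈ W, β w * ∑ m ∈ an X Y, dvi w ⟨l, m⟩ * (∑ a ∈ Q, f a * dvi (w * a) ⟨l, m⟩ - σ) ^ 2
      ≤ ∑ w ∈ W, β w * (∑ a ∈ Q, ∑ b ∈ Q, (if nn a ≠ nn b then f a * f b else 0) * ca X Y l (w * (a * b)) +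
        8 * ∑ a ∈ Q, f a * ca X Y l (w * a) - 2 * σ * ∑ a ∈ Q, f a * ca X Y l (w * a) + σ ^ 2 * ca X Y l w) :=
        sum_le_sum fun w hw => mul_le_mul_of_nonneg_left (h1 w hw) (hβ w)
    _ = ∑ w ∈ W, β w * ∑ a ∈ Q, ∑ b ∈ Q, (if nn a ≠ nn b then f a * f b else 0) * ca X Y l (w * (a * b)) +
        (8 - 2 * σ) * ∑ w ∈ W, β w * ∑ a ∈ Q, f a * ca X Y l (w * a) + σ ^ 2 * ∑ w ∈ W, β w * ca X Y l w := by
        rw [mul_sum, mul_sum, ← sum_add_distrib, ← sum_add_distrib]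
        refine sum_congr rfl fun w _ => ?_
        ring
    _ ≤ (Δ * (sA * σ ^ 2) + E2) + (8 - 2 * σ) * (Δ * (sA * σ) + E1) + σ ^ 2 * (Δ * sA + E0) := by
        rw [e0, e1]
        linarith
    _ = 8 * Δ * sA * σ + E2 + (8 * E1 - 2 * σ * E1) + σ ^ 2 * E0 := by ring
    _ ≤ 8 * Δ * sA * σ + |E2| + (8 + 2 * σ) * |E1| + σ ^ 2 * |E0| := by
        have g1 := le_abs_self E2
        have g2 := le_abs_self E1
        have g3 := neg_abs_le E1
        have g4 := mul_le_mul_of_nonneg_left (le_abs_self E0) (sq_nonneg σ)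
        nlinarith

end Pool.Agent.J6H16.PF
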