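import Pool.Agent.J6H16.PF.Hy

/-!
# Project PF (helper16): linear sums with general weights, for almost all `l`
-/

set_option autoImplicit false

namespace Pool.Agent.J6H16.PF

open Finset Filter Topology MeasureTheory
open Pool.Agent.N782.GN Pool.Agent.N855.GN
open Pool.Agent.H304R3.HK (UH bb LamK CS)
open Pool.Agent.J6H16.TH (c_tg2)

/-- the integers `m` with `X < |m| ≤ Y` -/
noncomputable def an (X Y : ℝ) : Finset ℤ := (Icc ⌈-Y⌉ ⌊Y⌋).filter (fun m => X < |(m : ℝ)|)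

theorem mem_an {X Y : ℝ} {m : ℤ} : m ∈ an X Y ↔ X < |(m : ℝ)| ∧ |(m : ℝ)| ≤ Y := by
  unfold an
  rw [mem_filter, mem_Icc, Int.ceil_le, Int.le_floor, abs_le]
  tauto

open Classical in
/-- the number of the `m` with `X < |m| ≤ Y` and `a ∣ l + i m` -/
noncomputable def ca (X Y : ℝ) (l : ℤ) (a : ZI) : ℝ := (((an X Y).filter (fun m : ℤ => a ∣ (⟨l, m⟩ : ZI))).card : ℝ)

theorem ca_nm {X Y : ℝ} (hX : 0 ≤ X) (hXY : X ≤ Y) (l : ℤ) (a : ZI) : ca X Y l a = nm Y a l - nm X a l := by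
  classical
  rw [eq_sub_iff_add_eq]
  unfold ca nm
  rw [← Nat.cast_add, ← card_union_of_disjoint]
  · congr 2
    ext m
    rw [mem_union, mem_filter, mem_filter, mem_filter, mem_an, mem_Icc, mem_Icc, Int.ceil_le, Int.le_floor, Int.ceil_le,
      Int.le_floor, ← or_and_right]
    apply and_congr_left
    intro _
    rw [abs_le]
    constructor
    · rintro (h | h)
      · exact h.2
      · exact ⟨by push_cast; linarith [h.1], by linarith [h.2]⟩
    · intro h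
      rcases lt_or_ge X |(m : ℝ)| with h1 | h1
      · exact Or.inl ⟨h1, h⟩
      · rw [abs_le] at h1
        exact Or.inr h1
  · rw [disjoint_left]
    intro m h1 h2
    rw [mem_filter, mem_an] at h1
    rw [mem_filter, mem_Icc, Int.ceil_le, Int.le_floor] at h2
    have : |(m : ℝ)| ≤ X := abs_le.2 h2.1
    linarith [h1.1.1]

theorem kap_one {l : ℤ} {a : ZI} (h : ct a = 1) : kap l a = 1 := by
  unfold kap
  rw [h]
  simp

/-- **linear sums with general weights** -/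
theorem ti_fam {ε : ℝ} (hε : 0 < ε) (hε1 : ε ≤ 1 / 4) : ∀ᶠ M : ℝ in atTop, ∀ (L D X Y F : ℝ) (S : Finset (ZI × ZI × ZI))
    (a : ZI × ZI × ZI → ZI) (φ : ZI × ZI × ZI → ℝ), 1 ≤ L → L ≤ M ^ (1 - 2 * ε) → 1 ≤ D → D ≤ L * M ^ (1 - 2 * ε) →
    M / 16 ≤ X → X ≤ Y → Y ≤ M → 0 ≤ F → (∀ i ∈ S, φ i ≠ 0 → ct (a i) = 1 ∧ nz (a i) ≤ D) →
    (∀ t, ∑ i ∈ S.filter (fun i => a i = t), |φ i| ≤ F) →
    ∑ l ∈ Icc (1 : ℤ) ⌊L⌋, |∑ i ∈ S, φ i * (ca X Y l (a i) - 2 * (Y - X) / nz (a i))| ≤ F * (L * M ^ (1 - ε / 20)) := by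
  classical
  obtain ⟨C, hC, hti⟩ := c_ti ε hε
  filter_upwards [ev_rp hε 16, ev_rp (show 0 < ε / 20 by positivity) (2 * C), eventually_ge_atTop (64 : ℝ)]
    with M hM1 hM2 hM64
  intro L D X Y F S a φ hL1 hLM hD1 hDL hX hXY hY hF hsupp hmult
  have hM0 : 0 < M := by linarith
  have hM1' : 1 ≤ M := by linarith
  have hX0 : 0 < X := by linarith
  have hY0 : 0 < Y := by linarith
  -- sizes
  have hsz : ∀ Z : ℝ, M / 16 ≤ Z → M ^ (1 - 2 * ε) ≤ Z ^ (1 - ε) := by
    intro Z hZ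
    have h1 : M / M ^ ε ≤ Z := by
      refine le_trans ?_ hZ
      exact div_le_div_of_nonneg_left hM0.le (by norm_num) hM1
    have h2 : M ^ (1 - ε) ≤ Z := by
      rw [Real.rpow_sub hM0, Real.rpow_one]
      exact h1
    calc M ^ (1 - 2 * ε) ≤ M ^ ((1 - ε) * (1 - ε)) :=
          Real.rpow_le_rpow_of_exponent_le hM1' (by nlinarith)
      _ = (M ^ (1 - ε)) ^ (1 - ε) := by rw [← Real.rpow_mul hM0.le]
      _ ≤ Z ^ (1 - ε) := Real.rpow_le_rpow (by positivity) h2 (by linarith)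
  set E : ℤ → ZI → ℝ := fun l t => ca X Y l t - 2 * (Y - X) / nz t with hE
  set lam : ℤ → ℝ := fun l => if l ∈ Icc (1 : ℤ) ⌊L⌋ then (if 0 ≤ ∑ i ∈ S, φ i * E l (a i) then 1 else -1) else 0 with hlam
  have hlamL : Lm L lam := by
    constructor
    · intro l
      simp only [hlam]
      split_ifs <;> simp
    · intro l hl
      simp only [hlam]
      rw [if_neg]
      rw [mem_Icc]
      rintro ⟨h1, h2⟩
      rcases hl with h | h
      · omega
      · exact absurd (Int.le_floor.1 h2) (not_le.2 h)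
  have hlam1 : ∀ l ∈ Icc (1 : ℤ) ⌊L⌋, |∑ i ∈ S, φ i * E l (a i)| = lam l * ∑ i ∈ S, φ i * E l (a i) := by
    intro l hl
    simp only [hlam]
    rw [if_pos hl]
    split_ifs with h
    · rw [abs_of_nonneg h, one_mul]
    · rw [abs_of_neg (not_le.1 h)]; ring
  have k1 := hti Y L D lam (by linarith) hL1 (hLM.trans (hsz Y (hX.trans hXY))) hD1
    (hDL.trans (mul_le_mul_of_nonneg_left (hsz Y (hX.trans hXY)) (by linarith))) hlamL
  have k2 := hti X L D lam (by linarith) hL1 (hLM.trans (hsz X hX)) hD1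
    (hDL.trans (mul_le_mul_of_nonneg_left (hsz X hX) (by linarith))) hlamL
  set G : ZI → ℝ := fun t => |∑ l ∈ Icc (1 : ℤ) ⌊L⌋, lam l * (nm Y t l - 2 * Y * (kap l t / nz t))| +
    |∑ l ∈ Icc (1 : ℤ) ⌊L⌋, lam l * (nm X t l - 2 * X * (kap l t / nz t))| with hG
  have hG0 : ∀ t, 0 ≤ G t := fun t => by simp only [hG]; positivity
  have hEG : ∀ t, ct t = 1 → |∑ l ∈ Icc (1 : ℤ) ⌊L⌋, lam l * E l t| ≤ G t := by
    intro t ht
    have h1 : ∑ l ∈ Icc (1 : ℤ) ⌊L⌋, lam l * E l t = ∑ l ∈ Icc (1 : ℤ) ⌊L⌋, lam l * (nm Y t l - 2 * Y * (kap l t / nz t)) -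
        ∑ l ∈ Icc (1 : ℤ) ⌊L⌋, lam l * (nm X t l - 2 * X * (kap l t / nz t)) := by
      rw [← sum_sub_distrib]
      refine sum_congr rfl fun l _ => ?_
      simp only [hE]
      rw [ca_nm hX0.le hXY, kap_one ht]
      ring
    rw [h1]
    exact abs_sub _ _
  calc ∑ l ∈ Icc (1 : ℤ) ⌊L⌋, |∑ i ∈ S, φ i * E l (a i)| = ∑ l ∈ Icc (1 : ℤ) ⌊L⌋, lam l * ∑ i ∈ S, φ i * E l (a i) :=
        sum_congr rfl hlam1
    _ = ∑ i ∈ S, φ i * ∑ l ∈ Icc (1 : ℤ) ⌊L⌋, lam l * E l (a i) := by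
        simp only [mul_sum]
        rw [sum_comm]
        refine sum_congr rfl fun i _ => sum_congr rfl fun l _ => by ring
    _ ≤ ∑ i ∈ S.filter (fun i => a i ∈ bl D), |φ i| * G (a i) := by
        have h1 : ∑ i ∈ S, φ i * ∑ l ∈ Icc (1 : ℤ) ⌊L⌋, lam l * E l (a i) ≤
            ∑ i ∈ S, (if a i ∈ bl D then |φ i| * G (a i) else 0) := by
          refine sum_le_sum fun i hi => ?_
          by_cases h0 : φ i = 0
          · rw [h0, zero_mul]
            split_ifs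
            · rw [abs_zero, zero_mul]
            · exact le_rfl
          · have h2 := hsupp i hi h0
            have h3 : a i ≠ 0 := by
              intro h
              rw [h] at h2
              simp [ct] at h2
            rw [if_pos ((mem_bl _ _).2 ⟨h3, h2.2⟩)]
            calc φ i * ∑ l ∈ Icc (1 : ℤ) ⌊L⌋, lam l * E l (a i) ≤ |φ i * ∑ l ∈ Icc (1 : ℤ) ⌊L⌋, lam l * E l (a i)| :=
                  le_abs_self _
              _ = |φ i| * |∑ l ∈ Icc (1 : ℤ) ⌊L⌋, lam l * E l (a i)| := abs_mul _ _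
              _ ≤ _ := mul_le_mul_of_nonneg_left (hEG _ h2.1) (abs_nonneg _)
        rwa [← sum_filter] at h1
    _ = ∑ t ∈ bl D, ∑ i ∈ (S.filter (fun i => a i ∈ bl D)).filter (fun i => a i = t), |φ i| * G (a i) := by
        rw [sum_fiberwise_of_maps_to]
        intro i hi
        exact (mem_filter.1 hi).2
    _ ≤ ∑ t ∈ bl D, F * G t := by
        refine sum_le_sum fun t ht => ?_
        have h1 : ∑ i ∈ (S.filter (fun i => a i ∈ bl D)).filter (fun i => a i = t), |φ i| * G (a i) =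
            (∑ i ∈ S.filter (fun i => a i = t), |φ i|) * G t := by
          rw [sum_mul]
          have h2 : (S.filter (fun i => a i ∈ bl D)).filter (fun i => a i = t) = S.filter (fun i => a i = t) := by
            ext i
            rw [mem_filter, mem_filter, mem_filter]
            constructor
            · rintro ⟨⟨h1, -⟩, h3⟩
              exact ⟨h1, h3⟩
            · rintro ⟨h1, h3⟩
              exact ⟨⟨h1, by rw [h3]; exact ht⟩, h3⟩
          rw [h2]
          refine sum_congr rfl fun i hi => ?_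
          rw [(mem_filter.1 hi).2]
        rw [h1]
        exact mul_le_mul_of_nonneg_right (hmult t) (hG0 t)
    _ = F * (∑ t ∈ bl D, |∑ l ∈ Icc (1 : ℤ) ⌊L⌋, lam l * (nm Y t l - 2 * Y * (kap l t / nz t))| +
        ∑ t ∈ bl D, |∑ l ∈ Icc (1 : ℤ) ⌊L⌋, lam l * (nm X t l - 2 * X * (kap l t / nz t))|) := by
        rw [← mul_sum, ← sum_add_distrib]
    _ ≤ F * (C * L * Y ^ (1 - ε / 10) + C * L * X ^ (1 - ε / 10)) := mul_le_mul_of_nonneg_left (add_le_add k1 k2) hF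
    _ ≤ F * (C * L * M ^ (1 - ε / 10) + C * L * M ^ (1 - ε / 10)) := by
        have h1 : Y ^ (1 - ε / 10) ≤ M ^ (1 - ε / 10) := Real.rpow_le_rpow hY0.le hY (by linarith)
        have h2 : X ^ (1 - ε / 10) ≤ M ^ (1 - ε / 10) := Real.rpow_le_rpow hX0.le (hXY.trans hY) (by linarith)
        gcongr
    _ = F * (L * ((2 * C) * M ^ (1 - ε / 10))) := by ring
    _ ≤ F * (L * (M ^ (ε / 20) * M ^ (1 - ε / 10))) := by gcongr
    _ = _ := by rw [← Real.rpow_add hM0]; ring_nf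

end Pool.Agent.J6H16.PF
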