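import Pool.Agent.J6H16.PF.Fx

/-!
# Project PF (helper16): the errors of the linear sums on average
-/

set_option autoImplicit false

namespace Pool.Agent.J6H16.PF

open Finset Filter Topology MeasureTheory
open Pool.Agent.N782.GN Pool.Agent.N855.GN
open Pool.Agent.H304R3.HK (UH bb LamK CS)

open Classical in
/-- the multiplicity -/
theorem mult {W Q1 Q2 : Finset ZI} {φ : ZI × ZI × ZI → ℝ} {g h : ZI → ℝ} {B G H : ℝ} (hB : 0 ≤ B)
    (hG0 : 0 ≤ G) (hφ : ∀ i ∈ W ×ˢ Q1 ×ˢ Q2, |φ i| ≤ B * (|g i.2.1| * |h i.2.2|)) {t : ZI} (ht : t ≠ 0)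
    (hG : ∑ x ∈ Q1.filter (fun x => x ∣ t), |g x| ≤ G) (hH : ∑ x ∈ Q2.filter (fun x => x ∣ t), |h x| ≤ H) :
    ∑ i ∈ (W ×ˢ Q1 ×ˢ Q2).filter (fun i => i.1 * (i.2.1 * i.2.2) = t), |φ i| ≤ B * (G * H) := by
  set S := (W ×ˢ Q1 ×ˢ Q2).filter (fun i => i.1 * (i.2.1 * i.2.2) = t) with hS
  have hinj : Set.InjOn (fun i : ZI × ZI × ZI => i.2) (S : Set (ZI × ZI × ZI)) := by
    intro i hi j hj hij
    rw [hS, coe_filter, Set.mem_ofPred_eq] at hi hj
    have hij' : i.2 = j.2 := hij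
    have h1 : i.2.1 * i.2.2 ≠ 0 := fun h0 => ht (by rw [← hi.2, h0, mul_zero])
    have h2 : i.1 * (i.2.1 * i.2.2) = j.1 * (i.2.1 * i.2.2) := by rw [hi.2, hij', hj.2]
    exact Prod.ext (mul_right_cancel₀ h1 h2) hij'
  calc ∑ i ∈ S, |φ i| ≤ ∑ i ∈ S, B * (|g i.2.1| * |h i.2.2|) :=
        sum_le_sum fun i hi => hφ i (mem_filter.1 hi).1
    _ = ∑ p ∈ S.image (fun i : ZI × ZI × ZI => i.2), B * (|g p.1| * |h p.2|) := by
        rw [sum_image hinj]
    _ ≤ ∑ p ∈ (Q1.filter (fun x => x ∣ t)) ×ˢ (Q2.filter (fun x => x ∣ t)), B * (|g p.1| * |h p.2|) := by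
        apply sum_le_sum_of_subset_of_nonneg
        · intro p hp
          rw [mem_image] at hp
          obtain ⟨i, hi, rfl⟩ := hp
          rw [hS, mem_filter, mem_product, mem_product] at hi
          rw [mem_product, mem_filter, mem_filter]
          refine ⟨⟨hi.1.2.1, ?_⟩, ⟨hi.1.2.2, ?_⟩⟩
          · rw [← hi.2]
            exact Dvd.dvd.mul_left (dvd_mul_right _ _) _
          · rw [← hi.2]
            exact Dvd.dvd.mul_left (dvd_mul_left _ _) _
        · intro p _ _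
          positivity
    _ = B * ((∑ x ∈ Q1.filter (fun x => x ∣ t), |g x|) * ∑ x ∈ Q2.filter (fun x => x ∣ t), |h x|) := by
        rw [sum_product, sum_mul_sum, mul_sum]
        refine sum_congr rfl fun x _ => ?_
        rw [mul_sum]
    _ ≤ B * (G * H) := by
        apply mul_le_mul_of_nonneg_left _ hB
        exact mul_le_mul hG hH (sum_nonneg fun x _ => abs_nonneg _) hG0

open Classical in
theorem f2_div {M c1 c2 : ℝ} (hM : 1 < M) (hc1 : 0 < c1) {t : ZI} (ht : t ≠ 0) (ht2 : nz t ≤ M ^ 2) (Q : Finset ZI) :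
    ∑ x ∈ Q.filter (fun x => x ∣ t), |f2 M c1 c2 x| ≤ 8 / c1 := by
  have hl := Real.log_pos hM
  have h1 : ∑ x ∈ Q.filter (fun x => x ∣ t), |f2 M c1 c2 x| ≤ ∑ x ∈ Dv t, 1 / (c1 * Real.log M) * Lp x := by
    calc ∑ x ∈ Q.filter (fun x => x ∣ t), |f2 M c1 c2 x| ≤ ∑ x ∈ Q.filter (fun x => x ∣ t), 1 / (c1 * Real.log M) * Lp x :=
          sum_le_sum fun x _ => f2_le hM hc1 x
      _ ≤ _ := by
          apply sum_le_sum_of_subset_of_nonneg
          · intro x hx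
            rw [mem_Dv ht]
            exact (mem_filter.1 hx).2
          · intro x _ _
            have := Lp_nonneg x
            positivity
  refine h1.trans ?_
  rw [← mul_sum]
  have h2 := div_Lp ht
  have h3 : Real.log (nz t) ≤ 2 * Real.log M := by
    have := Real.log_le_log (nz_pos ht) ht2
    rw [Real.log_pow] at this
    exact_mod_cast this
  calc 1 / (c1 * Real.log M) * ∑ x ∈ Dv t, Lp x ≤ 1 / (c1 * Real.log M) * (4 * (2 * Real.log M)) := by
        apply mul_le_mul_of_nonneg_left _ (by positivity)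
        linarith
    _ = _ := by field_simp; ring

open Classical in
/-- the errors on average -/
theorem e_av {ε c1 c2 c3 c4 : ℝ} (hε : 0 < ε) (hε1 : ε ≤ 1 / 4) (hc1 : 0 < c1) (h12 : c1 ≤ c2) (h23 : c2 ≤ c3)
    (h34 : c3 < c4) : ∃ F : ℝ, 0 < F ∧ ∀ᶠ M : ℝ in atTop, ∀ L D0 D1 X Y : ℝ, 1 ≤ L → L ≤ M ^ (1 - 2 * ε) →
      1 ≤ D0 → 1 ≤ D1 → D1 * M ^ (2 * c2) ≤ L * M ^ (1 - 2 * ε) → M / 16 ≤ X → X ≤ Y → Y ≤ M →
      (∑ l ∈ Icc (1 : ℤ) ⌊L⌋, |∑ i ∈ (bg D0 D1) ×ˢ (bg (M ^ c1) (M ^ c2)) ×ˢ (bg (M ^ c1) (M ^ c2)),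
        (bA M c3 c4 3 i.1 * (if nn i.2.1 ≠ nn i.2.2 then f2 M c1 c2 i.2.1 * f2 M c1 c2 i.2.2 else 0)) *
        (ca X Y l (i.1 * (i.2.1 * i.2.2)) - 2 * (Y - X) / nz (i.1 * (i.2.1 * i.2.2)))| ≤ F * (L * M ^ (1 - ε / 20))) ∧
      (∑ l ∈ Icc (1 : ℤ) ⌊L⌋, |∑ i ∈ (bg D0 D1) ×ˢ (bg (M ^ c1) (M ^ c2)) ×ˢ ({1} : Finset ZI),
        (bA M c3 c4 3 i.1 * f2 M c1 c2 i.2.1) *
        (ca X Y l (i.1 * i.2.1) - 2 * (Y - X) / nz (i.1 * i.2.1))| ≤ F * (L * M ^ (1 - ε / 20))) ∧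
      (∑ l ∈ Icc (1 : ℤ) ⌊L⌋, |∑ i ∈ (bg D0 D1) ×ˢ ({1} : Finset ZI) ×ˢ ({1} : Finset ZI),
        bA M c3 c4 3 i.1 * (ca X Y l i.1 - 2 * (Y - X) / nz i.1)| ≤ F * (L * M ^ (1 - ε / 20))) := by
  have hc2 : 0 < c2 := by linarith
  have hc3 : 0 < c3 := by linarith
  have hc4 : 0 < c4 := by linarith
  set B : ℝ := 3 * (4 * (c4 + 3)) with hB
  have hB0 : 0 < B := by positivity
  set F : ℝ := B * (8 / c1 + 1) * (8 / c1 + 1) with hF
  have h8 : 0 < 8 / c1 := by positivity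
  have hF0 : 0 < F := by positivity
  refine ⟨F, hF0, ?_⟩
  filter_upwards [ti_fam hε hε1, eventually_ge_atTop (3 : ℝ)] with M hti hM3
  intro L D0 D1 X Y hL1 hLM hD0 hD1 hD hX hXY hY
  have hM0 : 0 < M := by linarith
  have hM1 : 1 ≤ M := by linarith
  have hM1' : 1 < M := by linarith
  have hMc : 1 ≤ M ^ (2 * c2) := Real.one_le_rpow hM1 (by positivity)
  have hDM : 1 ≤ D1 * M ^ (2 * c2) := by nlinarith
  have hDM2 : D1 * M ^ (2 * c2) ≤ M ^ 2 := by
    refine hD.trans ?_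
    calc L * M ^ (1 - 2 * ε) ≤ M ^ (1 - 2 * ε) * M ^ (1 - 2 * ε) := by gcongr
      _ = M ^ (2 - 4 * ε) := by rw [← Real.rpow_add hM0]; ring_nf
      _ ≤ M ^ (2 : ℝ) := Real.rpow_le_rpow_of_exponent_le hM1 (by linarith)
      _ = M ^ 2 := by norm_num
  have hMcc : M ^ (2 * c2) = M ^ c2 * M ^ c2 := by rw [← Real.rpow_add hM0]; ring_nf
  have hMc2 : 1 ≤ M ^ c2 := Real.one_le_rpow hM1 hc2.le
  have hbA : ∀ w, |bA M c3 c4 3 w| ≤ B := fun w => bA_bd hM1' hc4.le (by norm_num) w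
  have e23 : M ^ c2 ≤ M ^ c3 := Real.rpow_le_rpow_of_exponent_le hM1 h23
  have e34 : M ^ c3 ≤ M ^ c4 := Real.rpow_le_rpow_of_exponent_le hM1 h34.le
  -- general multiplicity: the elements outside
  have hout : ∀ (S : Finset (ZI × ZI × ZI)) (φ : ZI × ZI × ZI → ℝ),
      (∀ i ∈ S, i.1 ≠ 0 ∧ i.2.1 ≠ 0 ∧ i.2.2 ≠ 0 ∧ nz i.1 ≤ D1 ∧ nz i.2.1 ≤ M ^ c2 ∧ nz i.2.2 ≤ M ^ c2) →
      ∀ t : ZI, (t = 0 ∨ M ^ 2 < nz t) → ∑ i ∈ S.filter (fun i => i.1 * (i.2.1 * i.2.2) = t), |φ i| = 0 := by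
    intro S φ hS t ht
    rw [filter_false_of_mem, sum_empty]
    intro i hi h
    obtain ⟨g1, g2, g3, g4, g5, g6⟩ := hS i hi
    have h1 : t ≠ 0 := by rw [← h]; exact mul_ne_zero g1 (mul_ne_zero g2 g3)
    rcases ht with ht | ht
    · exact h1 ht
    · rw [← h, Pool.Agent.N855.GN.nz_mul, Pool.Agent.N855.GN.nz_mul] at ht
      have h2 : nz i.1 * (nz i.2.1 * nz i.2.2) ≤ D1 * (M ^ c2 * M ^ c2) :=
        mul_le_mul g4 (mul_le_mul g5 g6 (nz_nonneg _) (by positivity)) (mul_nonneg (nz_nonneg _) (nz_nonneg _))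
          (by linarith)
      rw [← hMcc] at h2
      linarith
  have hone : nz (1 : ZI) = 1 := by
    unfold Pool.Agent.N782.GN.nz
    simp
  have hsz : ∀ i : ZI × ZI × ZI, nz i.1 ≤ D1 → nz i.2.1 ≤ M ^ c2 → nz i.2.2 ≤ M ^ c2 →
      nz (i.1 * (i.2.1 * i.2.2)) ≤ D1 * M ^ (2 * c2) := by
    intro i g4 g5 g6
    rw [Pool.Agent.N855.GN.nz_mul, Pool.Agent.N855.GN.nz_mul, hMcc]
    exact mul_le_mul g4 (mul_le_mul g5 g6 (nz_nonneg _) (by positivity)) (mul_nonneg (nz_nonneg _) (nz_nonneg _))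
          (by linarith)
  refine ⟨?_, ?_, ?_⟩
  · -- second moments
    refine hti L (D1 * M ^ (2 * c2)) X Y F _ (fun i => i.1 * (i.2.1 * i.2.2)) _ hL1 hLM hDM hD hX hXY hY hF0.le ?_ ?_
    · intro i hi hne
      rw [mem_product, mem_product, mem_bg, mem_bg, mem_bg] at hi
      refine ⟨?_, hsz i hi.1.2.1 hi.2.1.2.1 hi.2.2.2.1⟩
      have h1 := left_ne_zero_of_mul hne
      have h2 := right_ne_zero_of_mul hne
      have h3 : nn i.2.1 ≠ nn i.2.2 ∧ f2 M c1 c2 i.2.1 * f2 M c1 c2 i.2.2 ≠ 0 := by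
        split_ifs at h2 with h
        · exact ⟨h, h2⟩
        · exact absurd rfl h2
      have h4 := f2_ne (left_ne_zero_of_mul h3.2)
      have h5 := f2_ne (right_ne_zero_of_mul h3.2)
      apply ct_sqf
      rw [nn_mul]
      have h6 : Squarefree (nn (i.2.1 * i.2.2)) := sqf2 h4.1 h5.1 (fun h => h3.1 (by
        rw [nz_nn, nz_nn] at h
        exact_mod_cast h))
      refine (Nat.squarefree_mul ?_).2 ⟨bA_sqf h1, h6⟩
      obtain ⟨a, m, k1, k2, k3, k4, k5⟩ := bA_ne h1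
      rw [← k1, nn_mul, nn_mul]
      have hcop : ∀ x y : ZI, np x → np y → nz x ≠ nz y → Nat.Coprime (nn x) (nn y) := by
        intro x y hx hy hxy
        rw [Nat.coprime_primes (show (nn x).Prime from hx) (show (nn y).Prime from hy)]
        intro h
        exact hxy (by rw [nz_nn, nz_nn]; exact_mod_cast h)
      have ha1 := hcop a i.2.1 k2.1 h4.1 (by intro h; linarith [k2.2.1, h4.2.2])
      have ha2 := hcop a i.2.2 k2.1 h5.1 (by intro h; linarith [k2.2.1, h5.2.2])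
      have hm1 := hcop m i.2.1 k3 h4.1 (by intro h; linarith [h4.2.2])
      have hm2 := hcop m i.2.2 k3 h5.1 (by intro h; linarith [h5.2.2])
      exact Nat.Coprime.mul_left (Nat.Coprime.mul_right ha1 ha2) (Nat.Coprime.mul_right hm1 hm2)
    · intro t
      by_cases ht : t = 0 ∨ M ^ 2 < nz t
      · rw [hout _ _ (fun i hi => ?_) t ht]
        · exact hF0.le
        · rw [mem_product, mem_product, mem_bg, mem_bg, mem_bg] at hi
          exact ⟨hi.1.1, hi.2.1.1, hi.2.2.1, hi.1.2.1, hi.2.1.2.1, hi.2.2.2.1⟩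
      · push Not at ht
        have h1 := f2_div (c2 := c2) hM1' hc1 ht.1 ht.2 (bg (M ^ c1) (M ^ c2))
        refine (mult (g := f2 M c1 c2) (h := f2 M c1 c2) hB0.le h8.le (fun i _ => ?_) ht.1 h1 h1).trans ?_
        · rw [abs_mul]
          apply mul_le_mul (hbA _) _ (abs_nonneg _) hB0.le
          split_ifs
          · rw [abs_mul]
          · rw [abs_zero]; positivity
        · rw [hF]
          have : 0 ≤ B * (8 / c1) := by positivity
          nlinarith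
  · -- first moments
    have e1 : ∀ l : ℤ, ∑ i ∈ (bg D0 D1) ×ˢ (bg (M ^ c1) (M ^ c2)) ×ˢ ({1} : Finset ZI),
        (bA M c3 c4 3 i.1 * f2 M c1 c2 i.2.1) * (ca X Y l (i.1 * i.2.1) - 2 * (Y - X) / nz (i.1 * i.2.1)) =
        ∑ i ∈ (bg D0 D1) ×ˢ (bg (M ^ c1) (M ^ c2)) ×ˢ ({1} : Finset ZI),
        (bA M c3 c4 3 i.1 * f2 M c1 c2 i.2.1) * (ca X Y l (i.1 * (i.2.1 * i.2.2)) -
          2 * (Y - X) / nz (i.1 * (i.2.1 * i.2.2))) := by
      intro l
      refine sum_congr rfl fun i hi => ?_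
      rw [mem_product, mem_product, mem_singleton] at hi
      rw [hi.2.2, mul_one]
    simp only [e1]
    refine hti L (D1 * M ^ (2 * c2)) X Y F _ (fun i => i.1 * (i.2.1 * i.2.2)) _ hL1 hLM hDM hD hX hXY hY hF0.le ?_ ?_
    · intro i hi hne
      rw [mem_product, mem_product, mem_bg, mem_bg, mem_singleton] at hi
      refine ⟨?_, hsz i hi.1.2.1 hi.2.1.2.1 (by rw [hi.2.2, hone]; exact hMc2)⟩
      rw [hi.2.2, mul_one]
      have h1 := left_ne_zero_of_mul hne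
      have h4 := f2_ne (right_ne_zero_of_mul hne)
      apply ct_sqf
      rw [nn_mul]
      refine (Nat.squarefree_mul ?_).2 ⟨bA_sqf h1, (show (nn i.2.1).Prime from h4.1).prime.irreducible.squarefree⟩
      obtain ⟨a, m, k1, k2, k3, k4, k5⟩ := bA_ne h1
      rw [← k1, nn_mul]
      have hcop : ∀ x y : ZI, np x → np y → nz x ≠ nz y → Nat.Coprime (nn x) (nn y) := by
        intro x y hx hy hxy
        rw [Nat.coprime_primes (show (nn x).Prime from hx) (show (nn y).Prime from hy)]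
        intro h
        exact hxy (by rw [nz_nn, nz_nn]; exact_mod_cast h)
      have ha1 := hcop a i.2.1 k2.1 h4.1 (by intro h; linarith [k2.2.1, h4.2.2])
      have hm1 := hcop m i.2.1 k3 h4.1 (by intro h; linarith [h4.2.2])
      exact Nat.Coprime.mul_left ha1 hm1
    · intro t
      by_cases ht : t = 0 ∨ M ^ 2 < nz t
      · rw [hout _ _ (fun i hi => ?_) t ht]
        · exact hF0.le
        · rw [mem_product, mem_product, mem_bg, mem_bg, mem_singleton] at hi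
          refine ⟨hi.1.1, hi.2.1.1, ?_, hi.1.2.1, hi.2.1.2.1, ?_⟩
          · rw [hi.2.2]; exact one_ne_zero
          · rw [hi.2.2, hone]; exact hMc2
      · push Not at ht
        have h1 := f2_div (c2 := c2) hM1' hc1 ht.1 ht.2 (bg (M ^ c1) (M ^ c2))
        have h2 : ∑ x ∈ ({1} : Finset ZI).filter (fun x => x ∣ t), |(fun _ => (1 : ℝ)) x| ≤ 1 := by
          calc _ ≤ ∑ x ∈ ({1} : Finset ZI), |(fun _ => (1 : ℝ)) x| :=
                sum_le_sum_of_subset_of_nonneg (filter_subset _ _) fun _ _ _ => abs_nonneg _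
            _ = 1 := by simp
        refine (mult (g := f2 M c1 c2) (h := fun _ => 1) hB0.le h8.le (fun i _ => ?_) ht.1 h1 h2).trans ?_
        · rw [abs_mul, abs_one, mul_one]
          exact mul_le_mul_of_nonneg_right (hbA _) (abs_nonneg _)
        · rw [hF]
          have : 0 ≤ B * (8 / c1) := by positivity
          nlinarith
  · -- no moments
    have e1 : ∀ l : ℤ, ∑ i ∈ (bg D0 D1) ×ˢ ({1} : Finset ZI) ×ˢ ({1} : Finset ZI),
        bA M c3 c4 3 i.1 * (ca X Y l i.1 - 2 * (Y - X) / nz i.1) =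
        ∑ i ∈ (bg D0 D1) ×ˢ ({1} : Finset ZI) ×ˢ ({1} : Finset ZI),
        bA M c3 c4 3 i.1 * (ca X Y l (i.1 * (i.2.1 * i.2.2)) - 2 * (Y - X) / nz (i.1 * (i.2.1 * i.2.2))) := by
      intro l
      refine sum_congr rfl fun i hi => ?_
      rw [mem_product, mem_product, mem_singleton, mem_singleton] at hi
      rw [hi.2.2, hi.2.1, mul_one, mul_one]
    simp only [e1]
    refine hti L (D1 * M ^ (2 * c2)) X Y F _ (fun i => i.1 * (i.2.1 * i.2.2)) _ hL1 hLM hDM hD hX hXY hY hF0.le ?_ ?_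
    · intro i hi hne
      rw [mem_product, mem_product, mem_bg, mem_singleton, mem_singleton] at hi
      refine ⟨?_, hsz i hi.1.2.1 (by rw [hi.2.1, hone]; exact hMc2) (by rw [hi.2.2, hone]; exact hMc2)⟩
      rw [hi.2.2, hi.2.1, mul_one, mul_one]
      exact ct_sqf (bA_sqf hne)
    · intro t
      by_cases ht : t = 0 ∨ M ^ 2 < nz t
      · rw [hout _ _ (fun i hi => ?_) t ht]
        · exact hF0.le
        · rw [mem_product, mem_product, mem_bg, mem_singleton, mem_singleton] at hi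
          refine ⟨hi.1.1, ?_, ?_, hi.1.2.1, ?_, ?_⟩
          · rw [hi.2.1]; exact one_ne_zero
          · rw [hi.2.2]; exact one_ne_zero
          · rw [hi.2.1, hone]; exact hMc2
          · rw [hi.2.2, hone]; exact hMc2
      · push Not at ht
        have h2 : ∑ x ∈ ({1} : Finset ZI).filter (fun x => x ∣ t), |(fun _ => (1 : ℝ)) x| ≤ 1 := by
          calc _ ≤ ∑ x ∈ ({1} : Finset ZI), |(fun _ => (1 : ℝ)) x| :=
                sum_le_sum_of_subset_of_nonneg (filter_subset _ _) fun _ _ _ => abs_nonneg _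
            _ = 1 := by simp
        refine (mult (g := fun _ => 1) (h := fun _ => 1) hB0.le zero_le_one (fun i _ => ?_) ht.1 h2 h2).trans ?_
        · rw [abs_one, mul_one, mul_one]
          exact hbA _
        · rw [hF]
          have : 0 ≤ B * (8 / c1) := by positivity
          nlinarith

end Pool.Agent.J6H16.PF
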