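import Pool.Agent.J6H16.PF.Gc

/-!
# Project PF (helper16): convolutions on the Gaussian integers, supports
-/

set_option autoImplicit false

namespace Pool.Agent.J6H16.PF

open Finset Filter Topology MeasureTheory
open Pool.Agent.N782.GN Pool.Agent.N855.GN
open Pool.Agent.H304R3.HK (UH bb LamK CS)

/-- the convolution -/
noncomputable def cv (f g : ZI → ℝ) (t : ZI) : ℝ := cf f g (bl (nz t)) (bl (nz t)) t

theorem cf_cv {f g : ZI → ℝ} {S : Finset ZI} {V : ℝ} {t : ZI} (hV : nz t ≤ V) (hS : ∀ a ∈ S, a ≠ 0)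
    (hf : ∀ a, a ≠ 0 → nz a ≤ nz t → a ∉ S → f a = 0) : cf f g S (bl V) t = cv f g t := by
  classical
  unfold cv cf
  apply sum_subset
  · intro p hp
    rw [mem_filter, mem_product, mem_bl] at hp
    obtain ⟨⟨h1, h2, h3⟩, h4⟩ := hp
    have h5 := hS _ h1
    have h6 : nz p.1 * nz p.2 = nz t := by rw [← Pool.Agent.N855.GN.nz_mul, h4]
    have h7 := nz_one_le h5
    have h8 := nz_one_le h2
    rw [mem_filter, mem_product, mem_bl, mem_bl]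
    exact ⟨⟨⟨h5, by nlinarith⟩, ⟨h2, by nlinarith⟩⟩, h4⟩
  · intro p hp hp'
    rw [mem_filter, mem_product, mem_bl, mem_bl] at hp
    obtain ⟨⟨⟨h1, h2⟩, ⟨h3, h4⟩⟩, h5⟩ := hp
    rw [hf p.1 h1 h2, zero_mul]
    intro h
    apply hp'
    rw [mem_filter, mem_product, mem_bl]
    exact ⟨⟨h, h3, h4.trans hV⟩, h5⟩

theorem cv_ne {f g : ZI → ℝ} {t : ZI} (h : cv f g t ≠ 0) : ∃ a m : ZI, a * m = t ∧ f a ≠ 0 ∧ g m ≠ 0 ∧ a ≠ 0 ∧ m ≠ 0 := by
  classical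
  unfold cv cf at h
  obtain ⟨p, hp, hne⟩ := exists_ne_zero_of_sum_ne_zero h
  rw [mem_filter, mem_product, mem_bl, mem_bl] at hp
  exact ⟨p.1, p.2, hp.2, left_ne_zero_of_mul hne, right_ne_zero_of_mul hne, hp.1.1.1, hp.1.2.1⟩

theorem cf_ne {f g : ZI → ℝ} {S T : Finset ZI} {t : ZI} (h : cf f g S T t ≠ 0) :
    ∃ a m : ZI, a ∈ S ∧ m ∈ T ∧ a * m = t ∧ f a ≠ 0 ∧ g m ≠ 0 := by
  classical
  unfold cf at h
  obtain ⟨p, hp, hne⟩ := exists_ne_zero_of_sum_ne_zero h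
  rw [mem_filter, mem_product] at hp
  exact ⟨p.1, p.2, hp.1.1, hp.1.2, hp.2, left_ne_zero_of_mul hne, right_ne_zero_of_mul hne⟩

/-- the divisor sum of `Lp` -/
theorem div_Lp {t : ZI} (ht : t ≠ 0) : ∑ a ∈ Dv t, Lp a ≤ 4 * Real.log (nz t) := by
  rw [← c_mub.2.2.2.2.1 t ht]
  unfold Dv
  exact sum_le_sum fun a _ => Lp_le_LamK a

theorem cf_bd {f g : ZI → ℝ} {S T : Finset ZI} {κ C1 : ℝ} (hκ : 0 ≤ κ) (hC1 : 0 ≤ C1) (hf : ∀ a, |f a| ≤ κ * Lp a)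
    (hg : ∀ m, |g m| ≤ C1) {t : ZI} (ht : t ≠ 0) :
    cf (fun a => |f a|) (fun m => |g m|) S T t ≤ C1 * κ * (4 * Real.log (nz t)) := by
  classical
  unfold cf
  set F := (S ×ˢ T).filter (fun p => p.1 * p.2 = t) with hF
  have hinj : Set.InjOn Prod.fst (F : Set (ZI × ZI)) := by
    intro p hp p' hp' h
    rw [hF, coe_filter, Set.mem_ofPred_eq] at hp hp'
    have h1 : p.1 ≠ 0 := fun h0 => ht (by rw [← hp.2, h0, zero_mul])
    have h2 : p.1 * p.2 = p.1 * p'.2 := by rw [hp.2, h, hp'.2]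
    exact Prod.ext h (mul_left_cancel₀ h1 h2)
  calc ∑ p ∈ F, |f p.1| * |g p.2| ≤ ∑ p ∈ F, C1 * (κ * Lp p.1) := by
        refine sum_le_sum fun p _ => ?_
        calc |f p.1| * |g p.2| ≤ (κ * Lp p.1) * C1 := mul_le_mul (hf _) (hg _) (abs_nonneg _)
              (mul_nonneg hκ (Lp_nonneg _))
          _ = _ := by ring
    _ = ∑ a ∈ F.image Prod.fst, C1 * (κ * Lp a) := by rw [sum_image hinj]
    _ ≤ ∑ a ∈ Dv t, C1 * (κ * Lp a) := by
        apply sum_le_sum_of_subset_of_nonneg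
        · intro a ha
          rw [mem_image] at ha
          obtain ⟨p, hp, rfl⟩ := ha
          rw [hF, mem_filter] at hp
          rw [mem_Dv ht]
          exact ⟨p.2, hp.2.symm⟩
        · intro a _ _
          exact mul_nonneg hC1 (mul_nonneg hκ (Lp_nonneg _))
    _ = C1 * κ * ∑ a ∈ Dv t, Lp a := by rw [mul_sum]; exact sum_congr rfl fun a _ => by ring
    _ ≤ _ := mul_le_mul_of_nonneg_left (div_Lp ht) (mul_nonneg hC1 hκ)

theorem cf_abs (f g : ZI → ℝ) (S T : Finset ZI) (t : ZI) :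
    |cf f g S T t| ≤ cf (fun a => |f a|) (fun m => |g m|) S T t := by
  unfold cf
  refine (abs_sum_le_sum_abs _ _).trans (le_of_eq ?_)
  exact sum_congr rfl fun p _ => abs_mul _ _

theorem cf_nonneg {f g : ZI → ℝ} (hf : ∀ a, 0 ≤ f a) (hg : ∀ a, 0 ≤ g a) (S T : Finset ZI) (t : ZI) :
    0 ≤ cf f g S T t := by
  unfold cf
  exact sum_nonneg fun p _ => mul_nonneg (hf _) (hg _)

theorem cv_zero (f g : ZI → ℝ) : cv f g 0 = 0 := by
  classical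
  by_contra h
  obtain ⟨a, m, h1, -, -, h2, h3⟩ := cv_ne h
  exact mul_ne_zero h2 h3 h1

theorem cv_bd {f g : ZI → ℝ} {κ C1 : ℝ} (hκ : 0 ≤ κ) (hC1 : 0 ≤ C1) (hf : ∀ a, |f a| ≤ κ * Lp a)
    (hg : ∀ m, |g m| ≤ C1) {t : ZI} (ht : t ≠ 0) : |cv f g t| ≤ C1 * κ * (4 * Real.log (nz t)) :=
  (cf_abs _ _ _ _ _).trans (cf_bd hκ hC1 hf hg ht)

/-- the norm as a natural number -/
def nn (t : ZI) : ℕ := (Zsqrtd.norm t).natAbs

theorem nn_mul (a b : ZI) : nn (a * b) = nn a * nn b := by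
  unfold nn
  rw [Zsqrtd.norm_mul, Int.natAbs_mul]

theorem nz_nn (t : ZI) : nz t = (nn t : ℝ) := nz_natAbs t

theorem ct_sqf {t : ZI} (h : Squarefree (nn t)) : ct t = 1 := by
  have h0 : nn t ≠ 0 := h.ne_zero
  have h1 : ((ct t : ℤ)) ∣ t.re := Int.gcd_dvd_left _ _
  have h2 : ((ct t : ℤ)) ∣ t.im := Int.gcd_dvd_right _ _
  have h3 : ct t * ct t ∣ nn t := by
    obtain ⟨x, hx⟩ := h1
    obtain ⟨y, hy⟩ := h2
    unfold nn
    rw [← Int.natCast_dvd]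
    refine ⟨x * x + y * y, ?_⟩
    rw [Zsqrtd.norm_def, hx, hy]
    push_cast
    ring
  exact Nat.isUnit_iff.1 (h _ h3)

theorem nn_ne {t : ZI} (h : np t) : nn t ≠ 0 := Nat.Prime.ne_zero h

/-- a product of two primes of different norms -/
theorem sqf2 {a b : ZI} (ha : np a) (hb : np b) (h : nz a ≠ nz b) : Squarefree (nn (a * b)) := by
  have h1 : Nat.Prime (nn a) := ha
  have h2 : Nat.Prime (nn b) := hb
  have h3 : nn a ≠ nn b := fun h' => h (by rw [nz_nn, nz_nn, h'])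
  rw [nn_mul, Nat.squarefree_mul ((Nat.coprime_primes h1 h2).2 h3)]
  exact ⟨h1.squarefree, h2.squarefree⟩

theorem sqf_mul {a b : ZI} (ha : np a) (hb : Squarefree (nn b)) (h : ¬ (nn a ∣ nn b)) : Squarefree (nn (a * b)) := by
  have h1 : Nat.Prime (nn a) := ha
  rw [nn_mul, Nat.squarefree_mul ((Nat.Prime.coprime_iff_not_dvd h1).2 h)]
  exact ⟨h1.squarefree, hb⟩

theorem cop_mul {a b : ZI} {q : ℕ} (ha : IsCoprime a ((q : ℕ) : ZI)) (hb : IsCoprime b ((q : ℕ) : ZI)) :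
    IsCoprime (a * b) ((q : ℕ) : ZI) := IsCoprime.mul_left ha hb

/-- the elements of a class which are coprime to the modulus -/
theorem cop_cls {q : ℕ} {r t : ZI} {Z : ℝ} (ht : t ∈ cls q r Z) (hc : IsCoprime t ((q : ℕ) : ZI)) :
    IsCoprime r ((q : ℕ) : ZI) := by
  classical
  unfold cls at ht
  rw [mem_filter] at ht
  obtain ⟨x, hx⟩ := ht.2
  obtain ⟨u, v, huv⟩ := hc
  refine ⟨u, v + u * x, ?_⟩
  have : t = r + ((q : ℕ) : ZI) * x := by linear_combination hx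
  rw [this] at huv
  linear_combination huv

/-! ### the functions -/

/-- primes with `M^c < N(a) ≤ M^{c'}`, weighted -/
noncomputable def f1 (M c c' : ℝ) (a : ZI) : ℝ := if M ^ c < nz a ∧ nz a ≤ M ^ c' then Lp a / Real.log M else 0

open Classical in
/-- the indicator of the primes with `M^c < N(a) ≤ M^{c'}` -/
noncomputable def f2 (M c c' : ℝ) (a : ZI) : ℝ := if M ^ c < nz a ∧ nz a ≤ M ^ c' ∧ np a then 1 else 0

theorem f1_ne {M c c' : ℝ} {a : ZI} (h : f1 M c c' a ≠ 0) : np a ∧ M ^ c < nz a ∧ nz a ≤ M ^ c' := by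
  unfold f1 at h
  split_ifs at h with h1
  · refine ⟨?_, h1⟩
    by_contra h2
    apply h
    unfold Lp
    rw [if_neg h2, zero_div]
  · exact absurd rfl h

theorem f2_ne {M c c' : ℝ} {a : ZI} (h : f2 M c c' a ≠ 0) : np a ∧ M ^ c < nz a ∧ nz a ≤ M ^ c' := by
  unfold f2 at h
  split_ifs at h with h1
  · exact ⟨h1.2.2, h1.1, h1.2.1⟩
  · exact absurd rfl h

theorem f1_nonneg {M : ℝ} (hM : 1 ≤ M) (c c' : ℝ) (a : ZI) : 0 ≤ f1 M c c' a := by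
  unfold f1
  split_ifs
  · exact div_nonneg (Lp_nonneg _) (Real.log_nonneg hM)
  · exact le_rfl

theorem f2_nonneg (M c c' : ℝ) (a : ZI) : 0 ≤ f2 M c c' a := by
  unfold f2
  split_ifs <;> norm_num

theorem f1_le {M : ℝ} (hM : 1 < M) (c c' : ℝ) (a : ZI) : |f1 M c c' a| ≤ 1 / Real.log M * Lp a := by
  have hl := Real.log_pos hM
  rw [abs_of_nonneg (f1_nonneg hM.le _ _ _)]
  unfold f1
  have := Lp_nonneg a
  split_ifs
  · rw [one_div, div_eq_inv_mul]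
  · positivity

theorem f2_le {M c c' : ℝ} (hM : 1 < M) (hc : 0 < c) (a : ZI) : |f2 M c c' a| ≤ 1 / (c * Real.log M) * Lp a := by
  have hl := Real.log_pos hM
  have := Lp_nonneg a
  unfold f2
  split_ifs with h
  · rw [abs_one, one_div, ← div_eq_inv_mul, le_div_iff₀ (by positivity), one_mul]
    unfold Lp
    rw [if_pos h.2.2, ← Real.log_rpow (by linarith)]
    exact Real.log_le_log (by positivity) h.1.le
  · rw [abs_zero]; positivity

/-- bounded -/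
theorem f1_bd {M c c' : ℝ} (hM : 1 < M) (hc' : 0 ≤ c') (a : ZI) : |f1 M c c' a| ≤ c' := by
  have hl := Real.log_pos hM
  rw [abs_of_nonneg (f1_nonneg hM.le _ _ _)]
  by_cases h : f1 M c c' a = 0
  · rw [h]; exact hc'
  · have h1 := f1_ne h
    have h2 : Lp a ≤ c' * Real.log M := by
      refine (Lp_le (np_ne h1.1)).trans ?_
      rw [← Real.log_rpow (by linarith)]
      exact Real.log_le_log (nz_pos (np_ne h1.1)) h1.2.2
    unfold f1
    rw [if_pos h1.2, div_le_iff₀ hl]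
    exact h2

/-- the second factor of `β_B` -/
noncomputable def gB (M c1 c2 c4 E : ℝ) (t : ZI) : ℝ := cv (f2 M c1 c2) (f1 M c4 E) t

noncomputable def bA (M c3 c4 E : ℝ) (t : ZI) : ℝ := cv (f1 M c3 c4) (f1 M c4 E) t

noncomputable def bB (M c1 c2 c3 c4 E : ℝ) (t : ZI) : ℝ := cv (f1 M c3 c4) (gB M c1 c2 c4 E) t

theorem gB_bd {M c1 c2 c4 E : ℝ} (hM : 1 < M) (hc1 : 0 < c1) (hc2 : 0 ≤ c2) (hE : 0 ≤ E) (t : ZI) :
    |gB M c1 c2 c4 E t| ≤ E * (1 / c1) * (4 * (c2 + E)) := by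
  have hl := Real.log_pos hM
  have hM0 : 0 < M := by linarith
  by_cases h : gB M c1 c2 c4 E t = 0
  · rw [h, abs_zero]; positivity
  · obtain ⟨a, m, h1, h2, h3, h4, h5⟩ := cv_ne h
    have ht : t ≠ 0 := by rw [← h1]; exact mul_ne_zero h4 h5
    have h6 := f2_ne h2
    have h7 := f1_ne h3
    have h8 : nz t ≤ M ^ (c2 + E) := by
      rw [← h1, Pool.Agent.N855.GN.nz_mul, Real.rpow_add hM0]
      exact mul_le_mul h6.2.2 h7.2.2 (nz_nonneg _) (by positivity)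
    have h9 : Real.log (nz t) ≤ (c2 + E) * Real.log M := by
      rw [← Real.log_rpow hM0]
      exact Real.log_le_log (nz_pos ht) h8
    have h10 := cv_bd (f := f2 M c1 c2) (g := f1 M c4 E) (κ := 1 / (c1 * Real.log M)) (C1 := E) (by positivity) hE
      (f2_le hM hc1) (f1_bd hM hE) ht
    refine h10.trans ?_
    calc E * (1 / (c1 * Real.log M)) * (4 * Real.log (nz t)) ≤
          E * (1 / (c1 * Real.log M)) * (4 * ((c2 + E) * Real.log M)) := by gcongr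
      _ = _ := by field_simp

theorem gB_ne {M c1 c2 c4 E : ℝ} {t : ZI} (h : gB M c1 c2 c4 E t ≠ 0) : ∃ a m : ZI, a * m = t ∧
    (np a ∧ M ^ c1 < nz a ∧ nz a ≤ M ^ c2) ∧ np m ∧ M ^ c4 < nz m ∧ nz m ≤ M ^ E := by
  obtain ⟨a, m, h1, h2, h3, h4, h5⟩ := cv_ne h
  exact ⟨a, m, h1, f2_ne h2, (f1_ne h3).1, (f1_ne h3).2.1, (f1_ne h3).2.2⟩

theorem bA_ne {M c3 c4 E : ℝ} {t : ZI} (h : bA M c3 c4 E t ≠ 0) : ∃ a m : ZI, a * m = t ∧
    (np a ∧ M ^ c3 < nz a ∧ nz a ≤ M ^ c4) ∧ np m ∧ M ^ c4 < nz m ∧ nz m ≤ M ^ E := by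
  obtain ⟨a, m, h1, h2, h3, h4, h5⟩ := cv_ne h
  exact ⟨a, m, h1, f1_ne h2, (f1_ne h3).1, (f1_ne h3).2.1, (f1_ne h3).2.2⟩

theorem bB_ne {M c1 c2 c3 c4 E : ℝ} {t : ZI} (h : bB M c1 c2 c3 c4 E t ≠ 0) : ∃ a b m : ZI, a * (b * m) = t ∧
    (np a ∧ M ^ c3 < nz a ∧ nz a ≤ M ^ c4) ∧ (np b ∧ M ^ c1 < nz b ∧ nz b ≤ M ^ c2) ∧
    np m ∧ M ^ c4 < nz m ∧ nz m ≤ M ^ E := by
  obtain ⟨a, y, h1, h2, h3, h4, h5⟩ := cv_ne h
  obtain ⟨b, m, h6, h7, h8, h9, h10⟩ := gB_ne h3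
  exact ⟨a, b, m, by rw [h6, h1], f1_ne h2, h7, h8, h9, h10⟩

theorem not_dvd_of_lt {a b : ZI} (ha : np a) (hb : np b) (h : nz a ≠ nz b) : ¬ (nn a ∣ nn b) := by
  intro h1
  rw [Nat.prime_dvd_prime_iff_eq (show (nn a).Prime from ha) (show (nn b).Prime from hb)] at h1
  exact h (by rw [nz_nn, nz_nn, h1])

theorem gB_sqf {M c1 c2 c4 E : ℝ} (hM : 1 ≤ M) (h24 : c2 ≤ c4) {t : ZI} (h : gB M c1 c2 c4 E t ≠ 0) :
    Squarefree (nn t) := by
  obtain ⟨a, m, h1, h2, h3, h4, h5⟩ := gB_ne h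
  rw [← h1]
  refine sqf2 h2.1 h3 ?_
  have : M ^ c2 ≤ M ^ c4 := Real.rpow_le_rpow_of_exponent_le hM h24
  intro h6
  linarith [h2.2.2]

theorem bA_sqf {M c3 c4 E : ℝ} {t : ZI} (h : bA M c3 c4 E t ≠ 0) : Squarefree (nn t) := by
  obtain ⟨a, m, h1, h2, h3, h4, h5⟩ := bA_ne h
  rw [← h1]
  refine sqf2 h2.1 h3 ?_
  intro h6
  linarith [h2.2.2]

theorem bB_sqf {M c1 c2 c3 c4 E : ℝ} (hM : 1 ≤ M) (h23 : c2 ≤ c3) (h34 : c3 ≤ c4) {t : ZI}
    (h : bB M c1 c2 c3 c4 E t ≠ 0) : Squarefree (nn t) := by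
  obtain ⟨a, b, m, h1, h2, h3, h4, h5, h6⟩ := bB_ne h
  have e1 : M ^ c2 ≤ M ^ c3 := Real.rpow_le_rpow_of_exponent_le hM h23
  have e2 : M ^ c3 ≤ M ^ c4 := Real.rpow_le_rpow_of_exponent_le hM h34
  rw [← h1]
  refine sqf_mul h2.1 (sqf2 h3.1 h4 (fun h => by linarith [h3.2.2])) ?_
  rw [nn_mul, (Nat.Prime.dvd_mul (show (nn a).Prime from h2.1))]
  rintro (h7 | h7)
  · exact not_dvd_of_lt h2.1 h3.1 (fun h => by linarith [h3.2.2, h2.2.1]) h7
  · exact not_dvd_of_lt h2.1 h4 (fun h => by linarith [h2.2.2]) h7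

/-- everything is coprime to small moduli -/
theorem bA_cop {M c3 c4 E : ℝ} (hM : 1 ≤ M) (h34 : c3 ≤ c4) {q : ℕ} (hq : 1 ≤ q) (hqM : (q : ℝ) ≤ M ^ c3) {t : ZI}
    (h : bA M c3 c4 E t ≠ 0) : IsCoprime t ((q : ℕ) : ZI) := by
  obtain ⟨a, m, h1, h2, h3, h4, h5⟩ := bA_ne h
  have e2 : M ^ c3 ≤ M ^ c4 := Real.rpow_le_rpow_of_exponent_le hM h34
  rw [← h1]
  exact cop_mul (cop_np h2.1 hq (by linarith)) (cop_np h3 hq (by linarith))

theorem bB_cop {M c1 c2 c3 c4 E : ℝ} (hM : 1 ≤ M) (h13 : c1 ≤ c3) (h34 : c3 ≤ c4) {q : ℕ} (hq : 1 ≤ q)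
    (hqM : (q : ℝ) ≤ M ^ c1) {t : ZI} (h : bB M c1 c2 c3 c4 E t ≠ 0) : IsCoprime t ((q : ℕ) : ZI) := by
  obtain ⟨a, b, m, h1, h2, h3, h4, h5, h6⟩ := bB_ne h
  have e1 : M ^ c1 ≤ M ^ c3 := Real.rpow_le_rpow_of_exponent_le hM h13
  have e2 : M ^ c3 ≤ M ^ c4 := Real.rpow_le_rpow_of_exponent_le hM h34
  rw [← h1]
  exact cop_mul (cop_np h2.1 hq (by linarith)) (cop_mul (cop_np h3.1 hq (by linarith)) (cop_np h4 hq (by linarith)))

theorem bA_bd {M c3 c4 E : ℝ} (hM : 1 < M) (hc4 : 0 ≤ c4) (hE : 0 ≤ E) (t : ZI) :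
    |bA M c3 c4 E t| ≤ E * (4 * (c4 + E)) := by
  have hl := Real.log_pos hM
  have hM0 : 0 < M := by linarith
  by_cases h : bA M c3 c4 E t = 0
  · rw [h, abs_zero]; positivity
  · obtain ⟨a, m, h1, h2, h3, h4, h5⟩ := bA_ne h
    have ht : t ≠ 0 := by rw [← h1]; exact mul_ne_zero (np_ne h2.1) (np_ne h3)
    have h8 : nz t ≤ M ^ (c4 + E) := by
      rw [← h1, Pool.Agent.N855.GN.nz_mul, Real.rpow_add hM0]
      exact mul_le_mul h2.2.2 h5 (nz_nonneg _) (by positivity)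
    have h9 : Real.log (nz t) ≤ (c4 + E) * Real.log M := by
      rw [← Real.log_rpow hM0]
      exact Real.log_le_log (nz_pos ht) h8
    have h10 := cv_bd (f := f1 M c3 c4) (g := f1 M c4 E) (κ := 1 / Real.log M) (C1 := E) (by positivity) hE
      (f1_le hM _ _) (f1_bd hM hE) ht
    refine h10.trans ?_
    calc E * (1 / Real.log M) * (4 * Real.log (nz t)) ≤
          E * (1 / Real.log M) * (4 * ((c4 + E) * Real.log M)) := by gcongr
      _ = _ := by field_simp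

theorem bB_bd {M c1 c2 c3 c4 E : ℝ} (hM : 1 < M) (hc1 : 0 < c1) (hc2 : 0 ≤ c2) (hc4 : 0 ≤ c4) (hE : 0 ≤ E) (t : ZI) :
    |bB M c1 c2 c3 c4 E t| ≤ (E * (1 / c1) * (4 * (c2 + E))) * (4 * (c4 + (c2 + E))) := by
  have hl := Real.log_pos hM
  have hM0 : 0 < M := by linarith
  by_cases h : bB M c1 c2 c3 c4 E t = 0
  · rw [h, abs_zero]; positivity
  · obtain ⟨a, b, m, h1, h2, h3, h4, h5, h6⟩ := bB_ne h
    have ht : t ≠ 0 := by rw [← h1]; exact mul_ne_zero (np_ne h2.1) (mul_ne_zero (np_ne h3.1) (np_ne h4))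
    have h8 : nz t ≤ M ^ (c4 + (c2 + E)) := by
      rw [← h1, Pool.Agent.N855.GN.nz_mul, Pool.Agent.N855.GN.nz_mul, Real.rpow_add hM0, Real.rpow_add hM0]
      exact mul_le_mul h2.2.2 (mul_le_mul h3.2.2 h6 (nz_nonneg _) (by positivity))
        (mul_nonneg (nz_nonneg _) (nz_nonneg _)) (by positivity)
    have h9 : Real.log (nz t) ≤ (c4 + (c2 + E)) * Real.log M := by
      rw [← Real.log_rpow hM0]
      exact Real.log_le_log (nz_pos ht) h8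
    have h10 := cv_bd (f := f1 M c3 c4) (g := gB M c1 c2 c4 E) (κ := 1 / Real.log M)
      (C1 := E * (1 / c1) * (4 * (c2 + E))) (by positivity) (by positivity)
      (f1_le hM _ _) (gB_bd hM hc1 hc2 hE) ht
    refine h10.trans ?_
    calc (E * (1 / c1) * (4 * (c2 + E))) * (1 / Real.log M) * (4 * Real.log (nz t)) ≤
          (E * (1 / c1) * (4 * (c2 + E))) * (1 / Real.log M) * (4 * ((c4 + (c2 + E)) * Real.log M)) := by gcongr
      _ = _ := by field_simp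

end Pool.Agent.J6H16.PF
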