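import Pool.Agent.J6H16.PF.Sd

/-!
# Project PF (helper16): bounds for the densities
-/

set_option autoImplicit false

namespace Pool.Agent.J6H16.PF

open Finset Filter Topology MeasureTheory
open Pool.Agent.N782.GN Pool.Agent.N855.GN
open Pool.Agent.H304R3.HK (UH bb LamK CS)

/-- dyadic upper bound -/
theorem dyad_up2 {w V : ℝ} (hw : 1 ≤ w) (hwV : w ≤ V) (f : ZI → ℝ) (hf : ∀ t, 0 ≤ f t) {c : ℝ}
    (hc : ∀ Z : ℝ, w ≤ Z → Z ≤ V → ∑ t ∈ bl Z, f t ≤ c * Z) :
    ∑ t ∈ bg w V, f t / nz t ≤ 2 * c * (2 * Real.log (V / w) + 1) := by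
  classical
  have hV1 : 1 ≤ V := hw.trans hwV
  have hc0 : 0 ≤ c := by
    have h1 := hc w le_rfl hwV
    have h2 : 0 ≤ ∑ t ∈ bl w, f t := sum_nonneg fun t _ => hf t
    by_contra hcon
    push Not at hcon
    nlinarith
  set I := ⌈2 * Real.log (V / w)⌉₊ with hI
  have hVw1 : 1 ≤ V / w := by rw [le_div_iff₀ (by linarith)]; linarith
  have hlV : 0 ≤ Real.log (V / w) := Real.log_nonneg hVw1
  have hI1 : 2 * Real.log (V / w) / 1 ≤ I := by
    rw [div_one]
    exact Nat.le_ceil _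
  have hI2 : (I : ℝ) ≤ 2 * Real.log (V / w) + 1 := (Nat.ceil_lt_add_one (by positivity)).le
  have hbig : V ≤ w * (1 + 1) ^ I := by
    have := big_pow hVw1 one_pos le_rfl hI1
    rw [div_le_iff₀ (by linarith)] at this
    linarith
  have hstep : ∀ t ∈ bg w V, f t / nz t ≤ ∑ i ∈ range I, (if t ∈ bl (As w V 1 (i + 1)) then f t / As w V 1 i else 0) := by
    intro t ht
    rw [mem_bg] at ht
    obtain ⟨i, hiI, hi⟩ := cellidx (η := 1) (by linarith) hwV zero_le_one hbig ht.2.2 ht.2.1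
    have hi0 := (hi i hiI).2 rfl
    have hAi : w ≤ As w V 1 i := As_ge hwV (by linarith) zero_le_one i
    refine le_trans ?_ (single_le_sum (f := fun i => if t ∈ bl (As w V 1 (i + 1)) then f t / As w V 1 i else 0)
      (fun j _ => ?_) hiI)
    · rw [if_pos ((mem_bl _ _).2 ⟨ht.1, hi0.2⟩)]
      exact div_le_div_of_nonneg_left (hf t) (by linarith) hi0.1.le
    · split_ifs
      · exact div_nonneg (hf t) (by linarith [As_ge hwV (by linarith) (zero_le_one : (0 : ℝ) ≤ 1) j])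
      · exact le_rfl
  refine (sum_le_sum hstep).trans ?_
  rw [sum_comm]
  have hterm : ∀ i ∈ range I, ∑ t ∈ bg w V, (if t ∈ bl (As w V 1 (i + 1)) then f t / As w V 1 i else 0) ≤ 2 * c := by
    intro i _
    have hAi : w ≤ As w V 1 i := As_ge hwV (by linarith) zero_le_one i
    have hAi0 : 0 < As w V 1 i := by linarith
    have hAi1 : w ≤ As w V 1 (i + 1) := As_ge hwV (by linarith) zero_le_one (i + 1)
    have h1 : ∑ t ∈ bg w V, (if t ∈ bl (As w V 1 (i + 1)) then f t / As w V 1 i else 0) ≤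
        ∑ t ∈ bl (As w V 1 (i + 1)), f t / As w V 1 i := by
      rw [← sum_filter]
      refine sum_le_sum_of_subset_of_nonneg (fun t ht => (mem_filter.1 ht).2) fun t _ _ => div_nonneg (hf t) hAi0.le
    refine h1.trans ?_
    rw [← sum_div, div_le_iff₀ hAi0]
    have h2 := hc _ hAi1 (As_le w V 1 (i + 1))
    have h3 := As_succ (w := w) (V := V) (η := 1) (by linarith) zero_le_one i
    calc ∑ t ∈ bl (As w V 1 (i + 1)), f t ≤ c * As w V 1 (i + 1) := h2
      _ ≤ c * ((1 + 1) * As w V 1 i) := mul_le_mul_of_nonneg_left h3 hc0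
      _ = _ := by ring
  refine (sum_le_sum hterm).trans ?_
  rw [sum_const, card_range, nsmul_eq_mul]
  calc (I : ℝ) * (2 * c) ≤ (2 * Real.log (V / w) + 1) * (2 * c) := mul_le_mul_of_nonneg_right hI2 (by positivity)
    _ = _ := by ring


theorem bg_sum {R : Type} [AddCommGroup R] (F : ZI → R) {x y : ℝ} (h : x ≤ y) :
    ∑ t ∈ bg x y, F t = ∑ t ∈ bl y, F t - ∑ t ∈ bl x, F t := by
  classical
  rw [eq_sub_iff_add_eq, add_comm, ← sum_filter_add_sum_filter_not (bl y) (fun t => nz t ≤ x)]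
  congr 1
  · refine sum_congr ?_ fun _ _ => rfl
    ext t
    rw [mem_filter, mem_bl, mem_bl]
    constructor
    · rintro ⟨h1, h2⟩
      exact ⟨⟨h1, h2.trans h⟩, h2⟩
    · rintro ⟨⟨h1, h2⟩, h4⟩
      exact ⟨h1, h4⟩
  · refine sum_congr ?_ fun _ _ => rfl
    unfold bg
    ext t
    rw [mem_filter, mem_filter, not_le]

theorem cop_one1 : IsCoprime (1 : ZI) (((1 : ℕ) : ℕ) : ZI) := by
  rw [Nat.cast_one]
  exact isCoprime_one_left

/-- **the density is bounded above** -/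
theorem dn_up {ε : ℝ} (hε : 0 < ε) (hε1 : ε ≤ 1 / 2) : ∀ᶠ M : ℝ in atTop, dn (M ^ (ε / 4)) 1 ≤ 1300 := by
  classical
  obtain ⟨C, hC, h⟩ := p2m hε 1 0 1
  filter_upwards [h, ev_log (100 * C + 1000), eventually_ge_atTop (3 : ℝ)] with M h hlog hM3
  have hM0 : 0 < M := by linarith
  have hM1 : 1 ≤ M := by linarith
  set ℓ := Real.log M with hℓ
  have hℓ0 : 0 < ℓ := by linarith
  have hM' : M ^ ε ≤ M := by
    calc M ^ ε ≤ M ^ (1 : ℝ) := Real.rpow_le_rpow_of_exponent_le hM1 (by linarith)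
      _ = M := Real.rpow_one M
  set d := dn (M ^ (ε / 4)) 1 with hd
  have hS : ∀ Z : ℝ, M ^ ε ≤ Z → Z ≤ M → |∑ t ∈ bl Z, Lp t - d * Z| ≤ C * Z / ℓ := by
    intro Z h1 h2
    have := h Z 1 1 h1 (by rw [pow_one]; exact h2) le_rfl (by simp) cop_one1
    rwa [cls_one, pow_one] at this
  by_contra hcon
  push Not at hcon
  have hc : ∀ Z : ℝ, M ^ ε ≤ Z → 2 * Z ≤ M → (1299 : ℝ) * Z ≤ ∑ t ∈ bg Z (2 * Z), Lp t := by
    intro Z h1 h2
    have hZ0 : 0 < Z := lt_of_lt_of_le (by positivity) h1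
    have k1 := hS Z h1 (by linarith)
    have k2 := hS (2 * Z) (by linarith) h2
    rw [bg_sum _ (by linarith)]
    rw [abs_le] at k1 k2
    have k3 : C * Z / ℓ ≤ Z / 100 := by
      rw [div_le_div_iff₀ hℓ0 (by norm_num)]
      nlinarith
    have k4 : C * (2 * Z) / ℓ = 2 * (C * Z / ℓ) := by ring
    nlinarith
  have k5 := dyad_lo (w := M ^ ε) (V := M) (Real.one_le_rpow hM1 hε.le) hM' Lp Lp_nonneg (by norm_num) hc
  have k6 := sum_Lp_nz (x := M ^ ε) hM1
  have k7 : Real.log (M / M ^ ε) = (1 - ε) * ℓ := by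
    rw [Real.log_div (by positivity) (by positivity), Real.log_rpow hM0]
    ring
  rw [k7] at k5
  have k8 : (1 - ε) * ℓ ≥ ℓ / 2 := by nlinarith
  nlinarith

/-- sums over an interval, from above and from below -/
theorem Lp_win {ε : ℝ} (hε : 0 < ε) (hε1 : ε ≤ 1 / 2) (E : ℕ) : ∀ᶠ M : ℝ in atTop, ∀ w V : ℝ, M ^ ε ≤ w → w ≤ V →
    V ≤ M ^ E → ∑ t ∈ bg w V, Lp t / nz t ≤ 6000 * (Real.log (V / w) + 1) ∧
      1 / 12000 * (Real.log (V / w) - 1) ≤ ∑ t ∈ bg w V, Lp t / nz t := by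
  classical
  obtain ⟨C, hC, h⟩ := p2m hε 1 0 E
  filter_upwards [h, dn_up hε hε1, dn_lo hε (by linarith), ev_log (100000 * C + 1000), eventually_ge_atTop (3 : ℝ)]
    with M h hup hlo hlog hM3
  intro w V hw hwV hVE
  have hM0 : 0 < M := by linarith
  have hM1 : 1 ≤ M := by linarith
  set ℓ := Real.log M with hℓ
  have hℓ0 : 0 < ℓ := by linarith
  set d := dn (M ^ (ε / 4)) 1 with hd
  have hw1 : 1 ≤ w := (Real.one_le_rpow hM1 hε.le).trans hw
  have hS : ∀ Z : ℝ, M ^ ε ≤ Z → Z ≤ M ^ E → |∑ t ∈ bl Z, Lp t - d * Z| ≤ C * Z / ℓ := by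
    intro Z h1 h2
    have := h Z 1 1 h1 h2 le_rfl (by simp) cop_one1
    rwa [cls_one, pow_one] at this
  have hsm : ∀ Z : ℝ, 0 < Z → C * Z / ℓ ≤ Z / 100000 := by
    intro Z hZ
    rw [div_le_div_iff₀ hℓ0 (by norm_num)]
    nlinarith
  constructor
  · have k1 := dyad_up2 (w := w) (V := V) hw1 hwV Lp Lp_nonneg (c := 1301) (fun Z h1 h2 => by
      have hZ0 : 0 < Z := by linarith
      have k2 := hS Z (hw.trans h1) (h2.trans hVE)
      have k3 := hsm Z hZ0
      rw [abs_le] at k2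
      nlinarith)
    have hl : 0 ≤ Real.log (V / w) := Real.log_nonneg (by rw [le_div_iff₀ (by linarith)]; linarith)
    linarith
  · have k1 := dyad_lo (w := w) (V := V) hw1 hwV Lp Lp_nonneg (c := 1 / 6000) (by norm_num) (fun Z h1 h2 => by
      have hZ0 : 0 < Z := by linarith
      have k2 := hS Z (hw.trans h1) (by linarith)
      have k2' := hS (2 * Z) (by linarith) (h2.trans hVE)
      have k3 := hsm Z hZ0
      have k4 : C * (2 * Z) / ℓ = 2 * (C * Z / ℓ) := by ring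
      rw [bg_sum _ (by linarith)]
      rw [abs_le] at k2 k2'
      nlinarith)
    linarith

/-- the sum of `β_A(w) / N(w)` over an interval -/
noncomputable def sA (M c3 c4 E D0 D1 : ℝ) : ℝ := ∑ w ∈ bg D0 D1, bA M c3 c4 E w / nz w

theorem bA_nonneg {M : ℝ} (hM : 1 ≤ M) (c3 c4 E : ℝ) (w : ZI) : 0 ≤ bA M c3 c4 E w := by
  unfold bA cv
  exact cf_nonneg (f1_nonneg hM _ _) (f1_nonneg hM _ _) _ _ _

theorem gB_nonneg {M : ℝ} (hM : 1 ≤ M) (c1 c2 c4 E : ℝ) (w : ZI) : 0 ≤ gB M c1 c2 c4 E w := by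
  unfold gB cv
  exact cf_nonneg (f2_nonneg _ _ _) (f1_nonneg hM _ _) _ _ _

theorem bB_nonneg {M : ℝ} (hM : 1 ≤ M) (c1 c2 c3 c4 E : ℝ) (w : ZI) : 0 ≤ bB M c1 c2 c3 c4 E w := by
  unfold bB cv
  exact cf_nonneg (f1_nonneg hM _ _) (gB_nonneg hM _ _ _ _) _ _ _

open Classical in
/-- the sum over an interval as a double sum -/
theorem sA_eq {M c3 c4 D0 D1 : ℝ} {E : ℕ} (hM : 1 < M) (hc3 : 0 ≤ c3) (hD0 : 1 ≤ D0) (hD1 : 1 ≤ D1) (hDE : D1 ≤ M ^ E)
    (hD04 : M ^ c4 * M ^ c4 ≤ D0) :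
    sA M c3 c4 E D0 D1 = ∑ a ∈ bg (M ^ c3) (M ^ c4), f1 M c3 c4 a / nz a *
      ((∑ m ∈ bg (D0 / nz a) (D1 / nz a), Lp m / nz m) / Real.log M) := by
  have hM0 : 0 < M := by linarith
  set H : ZI → ℝ := fun t => if t ∈ bg D0 D1 then 1 / nz t else 0 with hH
  have h1 : sA M c3 c4 E D0 D1 = ∑ t ∈ bl D1, cv (f1 M c3 c4) (f1 M c4 E) t * H t := by
    have hsub : bg D0 D1 ⊆ bl D1 := by
      intro t ht
      rw [mem_bg] at ht
      exact (mem_bl _ _).2 ⟨ht.1, ht.2.1⟩
    rw [← sum_subset hsub (f := fun t => cv (f1 M c3 c4) (f1 M c4 E) t * H t)]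
    · unfold sA bA
      refine sum_congr rfl fun t ht => ?_
      simp only [hH]
      rw [if_pos ht, mul_one_div]
    · intro t _ ht
      simp only [hH]
      rw [if_neg ht, mul_zero]
  rw [h1, cv_sum _ _ H hD1 (fun t ht => by
    simp only [hH]
    rw [if_neg]
    intro h
    rw [mem_bg] at h
    exact ht ((mem_bl _ _).2 ⟨h.1, h.2.1⟩))]
  have h2 : ∀ a, a ≠ 0 → M ^ c3 < nz a → nz a ≤ M ^ c4 → ∑ m ∈ bl D1, f1 M c3 c4 a * f1 M c4 E m * H (a * m) =
      f1 M c3 c4 a / nz a * ((∑ m ∈ bg (D0 / nz a) (D1 / nz a), Lp m / nz m) / Real.log M) := by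
    intro a ha h3 h4
    have hna := nz_pos ha
    have hn1 := nz_one_le ha
    have hsub : bg (D0 / nz a) (D1 / nz a) ⊆ bl D1 := by
      intro m hm
      rw [mem_bg] at hm
      rw [mem_bl]
      exact ⟨hm.1, hm.2.1.trans (div_le_self (by linarith) hn1)⟩
    rw [sum_div, mul_sum, ← sum_subset hsub (f := fun m => f1 M c3 c4 a * f1 M c4 E m * H (a * m))]
    · refine sum_congr rfl fun m hm => ?_
      rw [mem_bg, div_lt_iff₀ hna, le_div_iff₀ hna] at hm
      have hnm := nz_pos hm.1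
      have e1 : H (a * m) = 1 / (nz a * nz m) := by
        simp only [hH]
        rw [if_pos, Pool.Agent.N855.GN.nz_mul]
        rw [mem_bg, Pool.Agent.N855.GN.nz_mul]
        exact ⟨mul_ne_zero ha hm.1, by linarith [hm.2.1], by linarith [hm.2.2]⟩
      have e2 : f1 M c4 E m = Lp m / Real.log M := by
        unfold f1
        rw [if_pos]
        constructor
        · have : M ^ c4 * nz a < nz m * nz a := by
            calc M ^ c4 * nz a ≤ M ^ c4 * M ^ c4 := by gcongr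
              _ ≤ D0 := hD04
              _ < _ := hm.2.2
          exact lt_of_mul_lt_mul_right this hna.le
        · rw [Real.rpow_natCast]
          refine le_trans ?_ hDE
          nlinarith [hm.2.1]
      rw [e1, e2]
      field_simp
    · intro m hm hm'
      have e1 : H (a * m) = 0 := by
        simp only [hH]
        rw [if_neg]
        rw [mem_bg, Pool.Agent.N855.GN.nz_mul]
        rintro ⟨g1, g2, g3⟩
        apply hm'
        rw [mem_bg, div_lt_iff₀ hna, le_div_iff₀ hna]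
        exact ⟨right_ne_zero_of_mul g1, by linarith, by linarith⟩
      rw [e1, mul_zero]
  by_cases hc : M ^ c4 ≤ D1
  · have hsub : bg (M ^ c3) (M ^ c4) ⊆ bl D1 := by
      intro a ha
      rw [mem_bg] at ha
      exact (mem_bl _ _).2 ⟨ha.1, ha.2.1.trans hc⟩
    rw [← sum_subset hsub (f := fun a => ∑ m ∈ bl D1, f1 M c3 c4 a * f1 M c4 E m * H (a * m))]
    · refine sum_congr rfl fun a ha => ?_
      rw [mem_bg] at ha
      exact h2 a ha.1 ha.2.2 ha.2.1
    · intro a ha ha'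
      have : f1 M c3 c4 a = 0 := by
        by_contra hcon
        apply ha'
        rw [mem_bg]
        exact ⟨((mem_bl _ _).1 ha).1, (f1_ne hcon).2.2, (f1_ne hcon).2.1⟩
      rw [this]
      exact sum_eq_zero fun m _ => by ring
  · push Not at hc
    have hM4 : 1 ≤ M ^ c4 := by linarith
    have hDD : D1 ≤ D0 := by nlinarith
    have hz : ∀ a : ZI, a ≠ 0 → ∑ m ∈ bg (D0 / nz a) (D1 / nz a), Lp m / nz m = 0 := by
      intro a ha
      refine sum_eq_zero fun m hm => ?_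
      rw [mem_bg] at hm
      have := div_le_div_of_nonneg_right hDD (nz_pos ha).le
      linarith [hm.2.1, hm.2.2]
    rw [sum_eq_zero, sum_eq_zero]
    · intro a ha
      rw [mem_bg] at ha
      rw [hz a ha.1, zero_div, mul_zero]
    · intro a ha
      refine sum_eq_zero fun m _ => ?_
      have e1 : H (a * m) = 0 := by
        simp only [hH]
        rw [if_neg]
        rw [mem_bg]
        rintro ⟨g1, g2, g3⟩
        linarith
      rw [e1, mul_zero]

/-- **bounds for `sA`** -/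
theorem sA_bd {c3 c4 : ℝ} (hc3 : 0 ≤ c3) (h34 : c3 < c4) (h4 : c4 ≤ 1 / 2) (E : ℕ) : ∀ᶠ M : ℝ in atTop, ∀ D0 D1 : ℝ,
    M ^ c4 * M ^ c4 ≤ D0 → D0 ≤ D1 → D1 ≤ M ^ E →
      sA M c3 c4 E D0 D1 ≤ s1 M c3 c4 * (6000 * (Real.log (D1 / D0) + 1) / Real.log M) ∧
      s1 M c3 c4 * (1 / 12000 * (Real.log (D1 / D0) - 1) / Real.log M) ≤ sA M c3 c4 E D0 D1 := by
  have hc4 : 0 < c4 := by linarith
  filter_upwards [Lp_win hc4 h4 E, eventually_ge_atTop (3 : ℝ)] with M hw hM3
  intro D0 D1 h1 h2 h3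
  have hM0 : 0 < M := by linarith
  have hM1 : 1 ≤ M := by linarith
  have hℓ0 : 0 < Real.log M := Real.log_pos (by linarith)
  have hMc : 1 ≤ M ^ c4 := Real.one_le_rpow hM1 hc4.le
  have hD0 : 1 ≤ D0 := by nlinarith
  rw [sA_eq (by linarith) hc3 hD0 (hD0.trans h2) h3 h1]
  unfold s1
  rw [sum_mul, sum_mul]
  have key : ∀ a ∈ bg (M ^ c3) (M ^ c4), ∑ t ∈ bg (D0 / nz a) (D1 / nz a), Lp t / nz t ≤ 6000 * (Real.log (D1 / D0) + 1) ∧
      1 / 12000 * (Real.log (D1 / D0) - 1) ≤ ∑ t ∈ bg (D0 / nz a) (D1 / nz a), Lp t / nz t := by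
    intro a ha
    rw [mem_bg] at ha
    have hna := nz_pos ha.1
    have hn1 := nz_one_le ha.1
    have := hw (D0 / nz a) (D1 / nz a) (by
      rw [le_div_iff₀ hna]
      refine le_trans ?_ h1
      exact mul_le_mul_of_nonneg_left ha.2.1 (by positivity)) (by gcongr)
      ((div_le_self (by linarith) hn1).trans h3)
    rwa [div_div_div_cancel_right₀ hna.ne'] at this
  constructor
  · refine sum_le_sum fun a ha => ?_
    apply mul_le_mul_of_nonneg_left _ (div_nonneg (f1_nonneg hM1 _ _ _) (nz_nonneg _))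
    exact div_le_div_of_nonneg_right (key a ha).1 hℓ0.le
  · refine sum_le_sum fun a ha => ?_
    apply mul_le_mul_of_nonneg_left _ (div_nonneg (f1_nonneg hM1 _ _ _) (nz_nonneg _))
    exact div_le_div_of_nonneg_right (key a ha).2 hℓ0.le

/-- a lower bound for `s1` -/
theorem s1_lo {c3 c4 : ℝ} (hc3 : 0 < c3) (h34 : c3 < c4) (h4 : c4 ≤ 1 / 2) :
    ∀ᶠ M : ℝ in atTop, (c4 - c3) / 24000 ≤ s1 M c3 c4 := by
  filter_upwards [Lp_win hc3 (by linarith) 1, ev_log (2 / (c4 - c3)), eventually_ge_atTop (3 : ℝ)] with M hw hlog hM3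
  have hM0 : 0 < M := by linarith
  have hM1 : 1 ≤ M := by linarith
  have hℓ0 : 0 < Real.log M := Real.log_pos (by linarith)
  have h43 : 0 < c4 - c3 := by linarith
  have h1 := (hw (M ^ c3) (M ^ c4) le_rfl (Real.rpow_le_rpow_of_exponent_le hM1 h34.le) (by
    rw [pow_one]
    calc M ^ c4 ≤ M ^ (1 : ℝ) := Real.rpow_le_rpow_of_exponent_le hM1 (by linarith)
      _ = M := Real.rpow_one M)).2
  have h2 : Real.log (M ^ c4 / M ^ c3) = (c4 - c3) * Real.log M := by
    rw [Real.log_div (by positivity) (by positivity), Real.log_rpow hM0, Real.log_rpow hM0]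
    ring
  rw [h2] at h1
  have h3 : s1 M c3 c4 = (∑ t ∈ bg (M ^ c3) (M ^ c4), Lp t / nz t) / Real.log M := by
    unfold s1
    rw [sum_div]
    refine sum_congr rfl fun a ha => ?_
    rw [mem_bg] at ha
    unfold f1
    rw [if_pos ⟨ha.2.2, ha.2.1⟩]
    ring
  rw [h3, le_div_iff₀ hℓ0]
  rw [div_le_iff₀ h43] at hlog
  nlinarith

open Classical in
/-- a lower bound for `s2` -/
theorem s2_lo {c2 : ℝ} (hc2 : 0 < c2) (h2 : c2 ≤ 1 / 2) (K : ℕ) :
    ∀ᶠ M : ℝ in atTop, (K : ℝ) / 48000 ≤ s2 M (c2 / 2 ^ K) c2 := by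
  have hstep : ∀ j : ℕ, ∀ᶠ M : ℝ in atTop, 1 / 48000 ≤
      ∑ a ∈ bg (M ^ (c2 / 2 ^ (j + 1))) (M ^ (c2 / 2 ^ j)), (if np a then 1 else 0) / nz a := by
    intro j
    have hj : 0 < c2 / 2 ^ (j + 1) := by positivity
    have hjj : c2 / 2 ^ j = 2 * (c2 / 2 ^ (j + 1)) := by rw [pow_succ]; field_simp
    have hj1 : c2 / 2 ^ j ≤ c2 := div_le_self hc2.le (one_le_pow₀ (by norm_num))
    filter_upwards [Lp_win hj (by linarith) 1, ev_log (4 / (c2 / 2 ^ (j + 1))), eventually_ge_atTop (3 : ℝ)]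
      with M hw hlog hM3
    have hM0 : 0 < M := by linarith
    have hM1 : 1 ≤ M := by linarith
    have hℓ0 : 0 < Real.log M := Real.log_pos (by linarith)
    set y := c2 / 2 ^ (j + 1) with hy
    rw [hjj] at hj1 ⊢
    have h1 := (hw (M ^ y) (M ^ (2 * y)) le_rfl (Real.rpow_le_rpow_of_exponent_le hM1 (by linarith)) (by
      rw [pow_one]
      calc M ^ (2 * y) ≤ M ^ (1 : ℝ) := Real.rpow_le_rpow_of_exponent_le hM1 (by linarith)
        _ = M := Real.rpow_one M)).2
    have h2 : Real.log (M ^ (2 * y) / M ^ y) = y * Real.log M := by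
      rw [Real.log_div (by positivity) (by positivity), Real.log_rpow hM0, Real.log_rpow hM0]
      ring
    rw [h2] at h1
    have h3 : (∑ t ∈ bg (M ^ y) (M ^ (2 * y)), Lp t / nz t) ≤ (∑ a ∈ bg (M ^ y) (M ^ (2 * y)),
        (if np a then 1 else 0) / nz a) * (2 * y * Real.log M) := by
      rw [sum_mul]
      refine sum_le_sum fun a ha => ?_
      rw [mem_bg] at ha
      have hna := nz_pos ha.1
      have h4 : Lp a ≤ (if np a then 1 else 0) * (2 * y * Real.log M) := by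
        unfold Lp
        split_ifs
        · rw [one_mul, ← Real.log_rpow hM0]
          exact Real.log_le_log hna ha.2.1
        · rw [zero_mul]
      calc Lp a / nz a ≤ (if np a then 1 else 0) * (2 * y * Real.log M) / nz a := div_le_div_of_nonneg_right h4 hna.le
        _ = _ := by ring
    have h5 : 1 / 24000 * (y * Real.log M) ≤ (∑ a ∈ bg (M ^ y) (M ^ (2 * y)),
        (if np a then 1 else 0) / nz a) * (2 * y * Real.log M) := by
      have : 4 ≤ y * Real.log M := by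
        rw [div_le_iff₀ hj] at hlog
        linarith
      refine le_trans ?_ h3
      linarith
    have h6 : 0 < y * Real.log M := by positivity
    by_contra hcon
    push Not at hcon
    nlinarith
  have hmain : ∀ᶠ M : ℝ in atTop, (K : ℝ) / 48000 ≤ ∑ a ∈ bg (M ^ (c2 / 2 ^ K)) (M ^ c2), (if np a then 1 else 0) / nz a := by
    induction K with
    | zero =>
      filter_upwards with M
      rw [Nat.cast_zero, zero_div]
      refine sum_nonneg fun a _ => div_nonneg ?_ (nz_nonneg _)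
      split_ifs <;> norm_num
    | succ K ih =>
      filter_upwards [ih, hstep K, eventually_ge_atTop (3 : ℝ)] with M h1 h2 hM3
      have hM1 : 1 ≤ M := by linarith
      have e1 : c2 / 2 ^ (K + 1) ≤ c2 / 2 ^ K := by
        apply div_le_div_of_nonneg_left hc2.le (by positivity)
        exact pow_le_pow_right₀ (by norm_num) (Nat.le_succ K)
      have e2 : c2 / 2 ^ K ≤ c2 := div_le_self hc2.le (one_le_pow₀ (by norm_num))
      have g1 := Real.rpow_le_rpow_of_exponent_le hM1 e1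
      have g2 := Real.rpow_le_rpow_of_exponent_le hM1 e2
      rw [bg_sum _ (g1.trans g2)]
      rw [bg_sum _ g1] at h2
      rw [bg_sum _ g2] at h1
      push_cast
      linarith
  filter_upwards [hmain] with M h
  unfold s2
  refine h.trans (le_of_eq ?_)
  refine sum_congr rfl fun a ha => ?_
  rw [mem_bg] at ha
  unfold f2
  by_cases hp : np a
  · rw [if_pos hp, if_pos ⟨ha.2.2, ha.2.1, hp⟩]
  · rw [if_neg hp, if_neg fun h => hp h.2.2]

end Pool.Agent.J6H16.PF
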