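import Pool.Agent.J6H16.PF.Ph
import Pool.Agent.J6H16.TH.AllA

/-!
# Project PF (helper16): the bilinear forms with coefficients of small mean square in the classes
-/

set_option autoImplicit false

namespace Pool.Agent.J6H16.PF

open Finset Filter Topology MeasureTheory
open Pool.Agent.N782.GN Pool.Agent.N855.GN
open Pool.Agent.H304R3.HK (UH bb LamK CS)
open Pool.Agent.J6H16.TH (c_tg2)

open Classical in
/-- the bilinear form -/
noncomputable def Th (β γ : ZI → ℝ) (R P : ℝ) (l : ℤ) : ℝ :=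
  ∑ v ∈ bg (P ^ 2) (4 * P ^ 2), ∑ w ∈ bg (R ^ 2) (4 * R ^ 2), if (w * v).re = l then γ v * β w else 0

open Classical in
/-- the general comparison, deduced from the dispersion -/
theorem gc (ε : ℝ) (A : ℕ) (b : ℝ) (hε : 0 < ε) (hb : 0 < b) : ∃ (A' B' : ℕ) (C M0 : ℝ), 0 < C ∧ ∀ (M L R : ℝ)
    (β : ZI → ℝ), M0 ≤ M → 1 ≤ L → L ≤ M ^ (1 - ε) → 0 < R → M ^ (1 + ε) ≤ R ^ 2 * L → R ^ 2 ≤ L * M ^ (1 - ε) →
    (∀ w, |β w| ≤ b) → (∀ w, ct w ≠ 1 → β w = 0) →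
    (∀ (q : ℕ) (r : ZI) (Y1 Y2 : ℝ) (K : ℕ), 1 ≤ q → (q : ℝ) ≤ (Real.log M) ^ B' → 0 ≤ Y1 → Y1 ≤ Y2 →
      Y2 ≤ 4 * R ^ 2 → 1 ≤ K → (K : ℝ) ≤ M / L * (Real.log M) ^ B' →
      ∑ k ∈ Icc (-(K : ℤ)) K, ‖∑ t ∈ (cls q r Y2).filter (fun t => Y1 < nz t), (β t : ℂ) * ph k 0 t‖ ^ 2 ≤
        R ^ 4 / (Real.log M) ^ A') →
    ∀ γ : ZI → ℝ, (∀ v, |γ v| ≤ 1) →
      ∑ l ∈ Icc (1 : ℤ) ⌊L⌋, |Th β γ R (M / (8 * R)) l| ≤ C * L * M / (Real.log M) ^ A := by
  obtain ⟨A1, B1, C1, hC1, hTG⟩ := c_tg2 ε (2 * A) 1 hε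
  obtain ⟨CF, D, hCF, hFT⟩ := c_ft
  set B2 : ℕ := D + A1 + 1 with hB2
  have hev : ∀ᶠ M : ℝ in atTop, 24 * 3 ^ D ≤ M ^ ε ∧ 576 * 3 ^ D * CF + 3 * CF / b ^ 2 + 24 * 3 ^ D * CF + 8 ≤ Real.log M ∧
      4 + 24 * 3 ^ D * CF ≤ M ^ ε ∧ (64 : ℝ) ≤ M ^ ε := by
    have h1 : Tendsto (fun M : ℝ => M ^ ε) atTop atTop := tendsto_rpow_atTop hε
    filter_upwards [h1.eventually_ge_atTop (24 * 3 ^ D),
      Real.tendsto_log_atTop.eventually_ge_atTop (576 * 3 ^ D * CF + 3 * CF / b ^ 2 + 24 * 3 ^ D * CF + 8),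
      h1.eventually_ge_atTop (4 + 24 * 3 ^ D * CF), h1.eventually_ge_atTop 64] with M a c d e
    exact ⟨a, c, d, e⟩
  obtain ⟨M0, hM0⟩ := eventually_atTop.1 hev
  refine ⟨A1 + 1, B1 + B2, b * (Real.sqrt C1) + 1, max M0 3, by positivity, ?_⟩
  intro M L R β hM hL1 hLM hR hRL hRL2 hβ hβct hX γ hγ
  obtain ⟨-, hlog8, hMe2, hMe3⟩ := hM0 M ((le_max_left _ _).trans hM)
  have hM3 : 3 ≤ M := (le_max_right _ _).trans hM
  have hM0' : 0 < M := by linarith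
  have hL0 : 0 < L := by linarith
  set ℓ := Real.log M with hℓ
  have hc1 : 0 ≤ 3 * CF / b ^ 2 := by positivity
  have hc2 : 0 ≤ 576 * 3 ^ D * CF := by positivity
  have hc3 : 0 ≤ 24 * 3 ^ D * CF := by positivity
  have hℓ8 : 8 ≤ ℓ := by linarith
  have hℓ0 : 0 < ℓ := by linarith
  have hℓ1 : 1 ≤ ℓ := by linarith
  -- sizes
  have hLM' : L * M ^ ε ≤ M := by
    calc L * M ^ ε ≤ M ^ (1 - ε) * M ^ ε := by gcongr
      _ = M := by rw [← Real.rpow_add hM0']; simp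
  have hMe1 : 1 ≤ M ^ ε := by linarith
  have hLltM : L ≤ M := (le_mul_of_one_le_right hL0.le hMe1).trans hLM'
  have hε1 : M ^ (1 + ε) = M * M ^ ε := by rw [Real.rpow_add hM0', Real.rpow_one]
  have hRbig : M ^ ε ≤ L / M * R ^ 2 := by
    rw [div_mul_eq_mul_div, le_div_iff₀ hM0']
    rw [hε1] at hRL
    linarith
  have hR22 : R ^ 2 * (M ^ ε) ^ 2 ≤ M ^ 2 := by
    have h1 : R ^ 2 * M ^ ε ≤ L * M := by
      calc R ^ 2 * M ^ ε ≤ L * M ^ (1 - ε) * M ^ ε := by gcongr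
        _ = L * M := by rw [mul_assoc, ← Real.rpow_add hM0']; simp
    calc R ^ 2 * (M ^ ε) ^ 2 = (R ^ 2 * M ^ ε) * M ^ ε := by ring
      _ ≤ (L * M) * M ^ ε := by gcongr
      _ = (L * M ^ ε) * M := by ring
      _ ≤ M * M := by gcongr
      _ = M ^ 2 := by ring
  have hRM : R * M ^ ε ≤ M := by
    have : (R * M ^ ε) ^ 2 ≤ M ^ 2 := by rw [mul_pow]; exact hR22
    exact (abs_le_of_sq_le_sq' this hM0'.le).2
  have hR1 : 1 ≤ R ^ 2 := by
    have h1 : L / M ≤ 1 := (div_le_one hM0').2 hLltM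
    calc (1 : ℝ) ≤ M ^ ε := hMe1
      _ ≤ L / M * R ^ 2 := hRbig
      _ ≤ 1 * R ^ 2 := mul_le_mul_of_nonneg_right h1 (sq_nonneg R)
      _ = R ^ 2 := one_mul _
  have hR4M : 4 * R ^ 2 ≤ M ^ 3 := by
    have h1 : 4 * R ^ 2 ≤ R ^ 2 * (M ^ ε) ^ 2 := by
      rw [mul_comm 4]
      apply mul_le_mul_of_nonneg_left _ (sq_nonneg R)
      have h4 : (2 : ℝ) ≤ M ^ ε := by linarith
      calc (4 : ℝ) = 2 ^ 2 := by norm_num
        _ ≤ (M ^ ε) ^ 2 := pow_le_pow_left₀ (by norm_num) h4 2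
    have h2 : M ^ 2 ≤ M ^ 3 := pow_le_pow_right₀ (by linarith) (by norm_num)
    linarith
  -- the bilinear form
  set P : ℝ := M / (8 * R) with hP
  have hP0 : 0 < P := by positivity
  have hRP : R * P = M / 8 := by rw [hP]; field_simp
  have hP1 : 1 ≤ P := by
    rw [hP, le_div_iff₀ (by positivity)]
    refine le_trans ?_ hRM
    rw [one_mul, mul_comm R]
    exact mul_le_mul_of_nonneg_right (by linarith) hR.le
  -- the hypothesis of the dispersion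
  have hyp : ∀ (q : ℕ) (r : ZI) (Y1 Y2 : ℝ), 1 ≤ q → (q : ℝ) ≤ (Real.log M) ^ B1 → 0 ≤ Y1 → Y1 ≤ Y2 → Y2 ≤ 4 * R ^ 2 →
      ∫ x in (0 : ℝ)..(2 * Real.pi), (∑ t ∈ (cls q r Y2).filter (fun t => Y1 < nz t),
        (β t / b) * sc (L / M / (Real.log M) ^ B1) x t) ^ 2 ≤ (L / M) ^ 2 * R ^ 4 / (Real.log M) ^ A1 := by
    intro q r Y1 Y2 hq hqM hY1 hY12 hY2
    rw [← hℓ] at hqM ⊢
    set c : ZI → ℝ := fun t => if t ∈ (cls q r Y2).filter (fun t => Y1 < nz t) then β t / b else 0 with hc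
    have hsub : (cls q r Y2).filter (fun t => Y1 < nz t) ⊆ bl (4 * R ^ 2) := by
      intro t ht
      rw [mem_filter] at ht
      have := (mem_bl _ _).1 (cls_sub q r Y2 ht.1)
      rw [mem_bl]
      exact ⟨this.1, this.2.trans hY2⟩
    have hcabs : ∀ t, |c t| ≤ (dv t : ℝ) ^ 2 := by
      intro t
      simp only [hc]
      split_ifs with h
      · have ht := (mem_bl _ _).1 (hsub h)
        have h1 := dv_one_le ht.1
        have h2 : (1 : ℝ) ≤ (dv t : ℝ) := by exact_mod_cast h1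
        have h3 : |β t / b| ≤ 1 := by
          rw [abs_div, abs_of_pos hb, div_le_one hb]
          exact hβ t
        exact h3.trans (one_le_pow₀ h2)
      · rw [abs_zero]; positivity
    set K : ℕ := ⌊M / L * ℓ ^ B2⌋₊ with hK
    have hML : M ^ ε ≤ M / L := by
      rw [le_div_iff₀ hL0]
      linarith
    have hℓB2 : 1 ≤ ℓ ^ B2 := one_le_pow₀ hℓ1
    have hx64 : 64 ≤ M / L * ℓ ^ B2 := by
      calc (64 : ℝ) ≤ M / L := by linarith
        _ ≤ M / L * ℓ ^ B2 := le_mul_of_one_le_right (by positivity) hℓB2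
    have hK1 : M / L * ℓ ^ B2 / 2 ≤ K := by
      have := (Nat.lt_floor_add_one (M / L * ℓ ^ B2)).le
      rw [hK]
      linarith
    have hK2 : (K : ℝ) ≤ M / L * ℓ ^ B2 := Nat.floor_le (by positivity)
    have hK0 : 1 ≤ K := by
      rw [hK]
      apply Nat.le_floor
      push_cast
      linarith
    have hδ1 : L / M / ℓ ^ B1 ≤ 1 := by
      rw [div_div, div_le_one (by positivity)]
      have : 1 ≤ ℓ ^ B1 := one_le_pow₀ hℓ1
      exact hLltM.trans (le_mul_of_one_le_right hM0'.le this)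
    have hft := hFT (4 * R ^ 2) (L / M / ℓ ^ B1) K c (by linarith) (by positivity) hδ1 hK0 hcabs
    have e1 : ∀ x : ℝ, ∑ t ∈ bl (4 * R ^ 2), c t * sc (L / M / ℓ ^ B1) x t =
        ∑ t ∈ (cls q r Y2).filter (fun t => Y1 < nz t), (β t / b) * sc (L / M / ℓ ^ B1) x t := by
      intro x
      rw [← sum_subset hsub (f := fun t => c t * sc (L / M / ℓ ^ B1) x t)]
      · exact sum_congr rfl fun t ht => by simp only [hc]; rw [if_pos ht]
      · intro t _ ht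
        simp only [hc]
        rw [if_neg ht, zero_mul]
    have e2 : ∀ k : ℤ, ∑ t ∈ bl (4 * R ^ 2), (c t : ℂ) * ph k 0 t =
        (1 / (b : ℂ)) * ∑ t ∈ (cls q r Y2).filter (fun t => Y1 < nz t), (β t : ℂ) * ph k 0 t := by
      intro k
      rw [← sum_subset hsub (f := fun t => (c t : ℂ) * ph k 0 t), mul_sum]
      · refine sum_congr rfl fun t ht => ?_
        simp only [hc]
        rw [if_pos ht]
        push_cast
        ring
      · intro t _ ht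
        simp only [hc]
        rw [if_neg ht]
        push_cast
        ring
    simp only [e1] at hft
    refine hft.trans ?_
    simp only [e2]
    have e3 : ∑ k ∈ Icc (-(K : ℤ)) K, ‖(1 / (b : ℂ)) * ∑ t ∈ (cls q r Y2).filter (fun t => Y1 < nz t),
        (β t : ℂ) * ph k 0 t‖ ^ 2 ≤ 1 / b ^ 2 * (R ^ 4 / ℓ ^ (A1 + 1)) := by
      have e4 : ∀ k : ℤ, ‖(1 / (b : ℂ)) * ∑ t ∈ (cls q r Y2).filter (fun t => Y1 < nz t),
        (β t : ℂ) * ph k 0 t‖ ^ 2 = 1 / b ^ 2 * ‖∑ t ∈ (cls q r Y2).filter (fun t => Y1 < nz t),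
        (β t : ℂ) * ph k 0 t‖ ^ 2 := by
        intro k
        rw [norm_mul, mul_pow, norm_div, norm_one, Complex.norm_real, Real.norm_eq_abs, abs_of_pos hb, div_pow, one_pow]
      rw [sum_congr rfl fun k _ => e4 k, ← mul_sum]
      apply mul_le_mul_of_nonneg_left _ (by positivity)
      refine hX q r Y1 Y2 K hq (hqM.trans ?_) hY1 hY12 hY2 hK0 (hK2.trans ?_)
      · exact pow_le_pow_right₀ hℓ1 (by omega)
      · apply mul_le_mul_of_nonneg_left _ (by positivity)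
        exact pow_le_pow_right₀ hℓ1 (by omega)
    have hlogV : Real.log (4 * R ^ 2) ≤ 3 * ℓ := by
      have := Real.log_le_log (by positivity) hR4M
      rwa [Real.log_pow] at this
    have hlogV0 : 0 ≤ Real.log (4 * R ^ 2) := Real.log_nonneg (by linarith)
    have g1 : (L / M / ℓ ^ B1) ^ 2 * (1 / b ^ 2 * (R ^ 4 / ℓ ^ (A1 + 1))) * CF ≤ (L / M) ^ 2 * R ^ 4 / ℓ ^ A1 / 3 := by
      have h1 : (L / M / ℓ ^ B1) ^ 2 ≤ (L / M) ^ 2 := by
        apply pow_le_pow_left₀ (by positivity)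
        exact div_le_self (by positivity) (one_le_pow₀ hℓ1)
      calc (L / M / ℓ ^ B1) ^ 2 * (1 / b ^ 2 * (R ^ 4 / ℓ ^ (A1 + 1))) * CF ≤
            (L / M) ^ 2 * (1 / b ^ 2 * (R ^ 4 / ℓ ^ (A1 + 1))) * CF := by gcongr
        _ = (L / M) ^ 2 * R ^ 4 / ℓ ^ A1 / 3 * (3 * CF / b ^ 2 / ℓ) := by
            rw [pow_succ]
            field_simp
            try ring
        _ ≤ (L / M) ^ 2 * R ^ 4 / ℓ ^ A1 / 3 * 1 := by
            apply mul_le_mul_of_nonneg_left _ (by positivity)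
            rw [div_le_one hℓ0]
            linarith
        _ = _ := mul_one _
    have hKpos : (0 : ℝ) < K := by exact_mod_cast hK0
    have hiK : 1 / (K : ℝ) ≤ 2 * (L / M) / ℓ ^ B2 := by
      rw [div_le_div_iff₀ hKpos (by positivity), one_mul]
      have h1 : 2 * (L / M) * (M / L * ℓ ^ B2 / 2) ≤ 2 * (L / M) * K := mul_le_mul_of_nonneg_left hK1 (by positivity)
      have h2 : 2 * (L / M) * (M / L * ℓ ^ B2 / 2) = ℓ ^ B2 := by field_simp
      linarith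
    have hpow : ℓ ^ B2 = ℓ ^ D * ℓ ^ A1 * ℓ := by rw [hB2, pow_succ, pow_add]
    have g2 : 4 * R ^ 2 * (3 * ℓ) ^ D * (2 * (L / M) / ℓ ^ B2) * CF ≤ (L / M) ^ 2 * R ^ 4 / ℓ ^ A1 / 3 := by
      calc 4 * R ^ 2 * (3 * ℓ) ^ D * (2 * (L / M) / ℓ ^ B2) * CF =
            ((24 * 3 ^ D * CF) * (L / M) * R ^ 2) / ℓ ^ A1 / 3 / ℓ := by
            rw [hpow, mul_pow]
            field_simp
            ring
        _ ≤ ((24 * 3 ^ D * CF) * (L / M) * R ^ 2) / ℓ ^ A1 / 3 := div_le_self (by positivity) hℓ1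
        _ ≤ ((L / M * R ^ 2) * (L / M) * R ^ 2) / ℓ ^ A1 / 3 := by
            have : 24 * 3 ^ D * CF ≤ L / M * R ^ 2 := by linarith
            gcongr
        _ = _ := by ring
    have g3 : 4 * R ^ 2 * (3 * ℓ) ^ D * (4 * R ^ 2 * (2 * (L / M) / ℓ ^ B2) ^ 2) * CF ≤ (L / M) ^ 2 * R ^ 4 / ℓ ^ A1 / 3 := by
      calc 4 * R ^ 2 * (3 * ℓ) ^ D * (4 * R ^ 2 * (2 * (L / M) / ℓ ^ B2) ^ 2) * CF =
            (L / M) ^ 2 * R ^ 4 / ℓ ^ A1 / 3 * ((192 * 3 ^ D * CF) / (ℓ ^ D * ℓ ^ A1 * ℓ ^ 2)) := by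
            rw [hpow, mul_pow]
            field_simp
            ring
        _ ≤ (L / M) ^ 2 * R ^ 4 / ℓ ^ A1 / 3 * 1 := by
            apply mul_le_mul_of_nonneg_left _ (by positivity)
            rw [div_le_one (by positivity)]
            have h1 : 1 ≤ ℓ ^ D := one_le_pow₀ hℓ1
            have h2 : 1 ≤ ℓ ^ A1 := one_le_pow₀ hℓ1
            have h3 : ℓ ≤ ℓ ^ D * ℓ ^ A1 * ℓ ^ 2 := by
              calc ℓ = 1 * 1 * ℓ := by ring
                _ ≤ ℓ ^ D * ℓ ^ A1 * ℓ ^ 2 := by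
                  have h5 : ℓ ≤ ℓ ^ 2 := le_self_pow₀ hℓ1 (by norm_num)
                  gcongr
            linarith
        _ = _ := mul_one _
    have hKsq : 1 / (K : ℝ) ^ 2 ≤ (2 * (L / M) / ℓ ^ B2) ^ 2 := by
      have := pow_le_pow_left₀ (by positivity) hiK 2
      rwa [div_pow, one_pow] at this
    calc CF * ((L / M / ℓ ^ B1) ^ 2 * ∑ k ∈ Icc (-(K : ℤ)) K, ‖(1 / (b : ℂ)) * ∑ t ∈ (cls q r Y2).filter
          (fun t => Y1 < nz t), (β t : ℂ) * ph k 0 t‖ ^ 2 +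
          4 * R ^ 2 * Real.log (4 * R ^ 2) ^ D * (1 / K + 4 * R ^ 2 / K ^ 2))
        ≤ CF * ((L / M / ℓ ^ B1) ^ 2 * (1 / b ^ 2 * (R ^ 4 / ℓ ^ (A1 + 1))) +
          4 * R ^ 2 * (3 * ℓ) ^ D * (2 * (L / M) / ℓ ^ B2 + 4 * R ^ 2 * (2 * (L / M) / ℓ ^ B2) ^ 2)) := by
          apply mul_le_mul_of_nonneg_left _ hCF.le
          apply add_le_add
          · exact mul_le_mul_of_nonneg_left e3 (by positivity)
          · apply mul_le_mul
            · gcongr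
            · apply add_le_add hiK
              rw [div_eq_mul_one_div]
              exact mul_le_mul_of_nonneg_left hKsq (by positivity)
            · positivity
            · positivity
      _ ≤ (L / M) ^ 2 * R ^ 4 / ℓ ^ A1 := by linarith [g1, g2, g3]
  -- signs
  set lam : ℤ → ℝ := fun l => if l ∈ Icc (1 : ℤ) ⌊L⌋ then (if 0 ≤ Th β γ R P l then 1 else -1) else 0 with hlam
  have hlamL : Lm L lam := by
    constructor
    · intro l
      simp only [hlam]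
      split_ifs <;> simp
    · intro l hl
      simp only [hlam]
      rw [if_neg]
      rw [mem_Icc]
      rintro ⟨h1, h2⟩
      rcases hl with h | h
      · omega
      · exact absurd (Int.le_floor.1 h2) (not_le.2 h)
  have hlam1 : ∀ l ∈ Icc (1 : ℤ) ⌊L⌋, |Th β γ R P l| = lam l * Th β γ R P l := by
    intro l hl
    simp only [hlam]
    rw [if_pos hl]
    split_ifs with h
    · rw [abs_of_nonneg h, one_mul]
    · rw [abs_of_neg (not_le.1 h)]; ring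
  have key := hTG M L R P 2 (fun t => β t / b) lam hM3 hL1 hLM hR hRL hRL2
    (by
      rw [hRP, pow_one, ← hℓ]
      exact div_le_div_of_nonneg_left hM0'.le (by norm_num) hℓ8) (by rw [hRP]; linarith)
    (by norm_num) (by rw [pow_one, ← hℓ]; linarith)
    (fun w => by rw [abs_div, abs_of_pos hb, div_le_one hb]; exact hβ w)
    (fun w hw => by rw [hβct w hw, zero_div]) hlamL hyp
  -- the sum over `l`
  set inner : ZI → ℝ := fun v => ∑ w ∈ (bl (4 * R ^ 2)).filter (fun w => R ^ 2 < nz w),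
    (β w / b) * lam (w * v).re * psi 2 (Real.sqrt (nz (w * v)) / M) with hinner
  have hpsi : ∀ v ∈ bg (P ^ 2) (4 * P ^ 2), ∀ w ∈ bg (R ^ 2) (4 * R ^ 2), psi 2 (Real.sqrt (nz (w * v)) / M) = 1 := by
    intro v hv w hw
    rw [mem_bg] at hv hw
    have h1 : Real.sqrt (nz (w * v)) ≤ M / 2 := by
      apply Real.sqrt_le_iff.2
      refine ⟨by positivity, ?_⟩
      rw [Pool.Agent.N855.GN.nz_mul]
      calc nz w * nz v ≤ (4 * R ^ 2) * (4 * P ^ 2) := mul_le_mul hw.2.1 hv.2.1 (nz_nonneg _) (by positivity)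
        _ = 16 * (R * P) ^ 2 := by ring
        _ = (M / 2) ^ 2 := by rw [hRP]; ring
    have h2 : Real.sqrt (nz (w * v)) / M ≤ 1 / 2 := by
      rw [div_le_iff₀ hM0']
      linarith
    unfold psi
    rw [min_eq_left (by linarith), max_eq_right (by norm_num)]
  have hPhi : ∀ v ∈ bg (P ^ 2) (4 * P ^ 2), Phi (Real.sqrt (nz v) / P) = 1 := by
    intro v hv
    rw [mem_bg] at hv
    apply Pool.Agent.N277.GN.Phi_one
    · rw [le_div_iff₀ hP0, one_mul]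
      exact Real.le_sqrt_of_sq_le hv.2.2.le
    · rw [div_le_iff₀ hP0]
      apply Real.sqrt_le_iff.2
      refine ⟨by linarith, ?_⟩
      calc nz v ≤ 4 * P ^ 2 := hv.2.1
        _ = (2 * P) ^ 2 := by ring
  have hS : ∑ l ∈ Icc (1 : ℤ) ⌊L⌋, |Th β γ R P l| = b * ∑ v ∈ bg (P ^ 2) (4 * P ^ 2), γ v * inner v := by
    rw [sum_congr rfl hlam1]
    unfold Th
    simp only [mul_sum]
    rw [sum_comm]
    refine sum_congr rfl fun v hv => ?_
    rw [sum_comm]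
    simp only [hinner]
    rw [mul_sum, mul_sum]
    refine sum_congr rfl fun w hw => ?_
    rw [hpsi v hv w hw]
    simp only [mul_ite, mul_zero]
    rw [sum_ite_eq]
    split_ifs with h
    · field_simp
    · simp only [hlam]
      rw [if_neg h]
      ring
  have hT : ∑ v ∈ bg (P ^ 2) (4 * P ^ 2), inner v ^ 2 ≤ C1 * L ^ 2 * R ^ 2 / ℓ ^ (2 * A) := by
    refine le_trans ?_ key
    have s1 : bg (P ^ 2) (4 * P ^ 2) ⊆ bl (9 * P ^ 2) := by
      intro v hv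
      rw [mem_bg] at hv
      rw [mem_bl]
      refine ⟨hv.1, hv.2.1.trans ?_⟩
      linarith [sq_nonneg P]
    refine le_trans (le_of_eq ?_) (sum_le_sum_of_subset_of_nonneg s1 ?_)
    · apply sum_congr rfl
      intro v hv
      rw [hPhi v hv, one_mul]
    · intro v _ _
      exact mul_nonneg (Pool.Agent.N277.GN.Phi_nonneg _) (sq_nonneg _)
  have hG : ∑ v ∈ bg (P ^ 2) (4 * P ^ 2), γ v ^ 2 ≤ 36 * P ^ 2 := by
    calc ∑ v ∈ bg (P ^ 2) (4 * P ^ 2), γ v ^ 2 ≤ ∑ v ∈ bg (P ^ 2) (4 * P ^ 2), 1 := by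
          refine sum_le_sum fun v _ => ?_
          rw [← sq_abs]
          exact pow_le_one₀ (abs_nonneg _) (hγ v)
      _ = ((bg (P ^ 2) (4 * P ^ 2)).card : ℝ) := by rw [sum_const, nsmul_eq_mul, mul_one]
      _ ≤ ((bl (4 * P ^ 2)).card : ℝ) := by exact_mod_cast card_filter_le _ _
      _ ≤ 9 * (4 * P ^ 2) := card_bl (by
          have h5 : (1 : ℝ) ≤ P ^ 2 := one_le_pow₀ hP1
          linarith)
      _ = _ := by ring
  have hCS : (∑ v ∈ bg (P ^ 2) (4 * P ^ 2), γ v * inner v) ^ 2 ≤ (6 * Real.sqrt C1 * (L * (R * P)) / ℓ ^ A) ^ 2 := by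
    refine (sum_mul_sq_le_sq_mul_sq _ _ _).trans ?_
    refine (mul_le_mul hG hT (sum_nonneg fun v _ => sq_nonneg _) (by positivity)).trans (le_of_eq ?_)
    have e5 : (6 * Real.sqrt C1 * (L * (R * P)) / ℓ ^ A) ^ 2 = 36 * (Real.sqrt C1) ^ 2 * (L ^ 2 * (R ^ 2 * P ^ 2)) / ℓ ^ (2 * A) := by
      rw [div_pow, ← pow_mul, mul_comm A 2]
      ring
    rw [e5, Real.sq_sqrt hC1.le]
    ring
  have hCS' : |∑ v ∈ bg (P ^ 2) (4 * P ^ 2), γ v * inner v| ≤ 6 * Real.sqrt C1 * (L * (R * P)) / ℓ ^ A :=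
    abs_le_of_sq_le_sq hCS (by positivity)
  rw [hS]
  calc b * ∑ v ∈ bg (P ^ 2) (4 * P ^ 2), γ v * inner v ≤ b * (6 * Real.sqrt C1 * (L * (R * P)) / ℓ ^ A) :=
        mul_le_mul_of_nonneg_left ((le_abs_self _).trans hCS') hb.le
    _ = (b * Real.sqrt C1) * (6 / 8) * (L * M / ℓ ^ A) := by rw [hRP]; ring
    _ ≤ (b * Real.sqrt C1 + 1) * (L * M / ℓ ^ A) := by
        apply mul_le_mul_of_nonneg_right _ (by positivity)
        have : 0 ≤ b * Real.sqrt C1 := by positivity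
        linarith
    _ = _ := by ring

end Pool.Agent.J6H16.PF
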