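import Pool.Agent.J6H16.PF.K1

/-!
# Project PF (helper16): the comparison in a cell
-/

set_option autoImplicit false

namespace Pool.Agent.J6H16.PF

open Finset Filter Topology MeasureTheory
open Pool.Agent.N782.GN Pool.Agent.N855.GN
open Pool.Agent.H304R3.HK (UH bb LamK CS)

theorem ff_sqf {M c3 c4 E : ℝ} {a m : ZI} (ha : f1 M c3 c4 a ≠ 0) (hm : f1 M c4 E m ≠ 0) : Squarefree (nn (a * m)) := by
  have h1 := f1_ne ha
  have h2 := f1_ne hm
  exact sqf2 h1.1 h2.1 (fun h => by linarith [h1.2.2, h2.2.1])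

theorem fg_sqf {M c1 c2 c3 c4 E : ℝ} (hM : 1 ≤ M) (h23 : c2 ≤ c3) (h34 : c3 ≤ c4) {a y : ZI}
    (ha : f1 M c3 c4 a ≠ 0) (hy : gB M c1 c2 c4 E y ≠ 0) : Squarefree (nn (a * y)) := by
  obtain ⟨b, m, h1, h3, h4, h5, h6⟩ := gB_ne hy
  have h2 := f1_ne ha
  have e1 : M ^ c2 ≤ M ^ c3 := Real.rpow_le_rpow_of_exponent_le hM h23
  have e2 : M ^ c3 ≤ M ^ c4 := Real.rpow_le_rpow_of_exponent_le hM h34
  rw [← h1]
  refine sqf_mul h2.1 (sqf2 h3.1 h4 (fun h => by linarith [h3.2.2])) ?_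
  rw [nn_mul, (Nat.Prime.dvd_mul (show (nn a).Prime from h2.1))]
  rintro (h7 | h7)
  · exact not_dvd_of_lt h2.1 h3.1 (fun h => by linarith [h3.2.2, h2.2.1]) h7
  · exact not_dvd_of_lt h2.1 h4 (fun h => by linarith [h2.2.2]) h7

/-- the difference in a cell -/
noncomputable def bc (M c1 c2 c3 c4 E R R' : ℝ) (t : ZI) : ℝ :=
  if R ^ 2 < nz t ∧ nz t ≤ R' ^ 2 then bB M c1 c2 c3 c4 E t - s2 M c1 c2 * bA M c3 c4 E t else 0

theorem bc_ne {M c1 c2 c3 c4 E R R' : ℝ} {t : ZI} (h : bc M c1 c2 c3 c4 E R R' t ≠ 0) :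
    (R ^ 2 < nz t ∧ nz t ≤ R' ^ 2) ∧ (bB M c1 c2 c3 c4 E t ≠ 0 ∨ bA M c3 c4 E t ≠ 0) := by
  unfold bc at h
  split_ifs at h with h1
  · refine ⟨h1, ?_⟩
    by_contra hcon
    push Not at hcon
    apply h
    rw [hcon.1, hcon.2]
    ring
  · exact absurd rfl h

theorem bc_sqf {M c1 c2 c3 c4 E R R' : ℝ} (hM : 1 ≤ M) (h23 : c2 ≤ c3) (h34 : c3 ≤ c4) {t : ZI}
    (h : bc M c1 c2 c3 c4 E R R' t ≠ 0) : Squarefree (nn t) := by
  rcases (bc_ne h).2 with h1 | h1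
  · exact bB_sqf hM h23 h34 h1
  · exact bA_sqf h1

theorem bc_cop {M c1 c2 c3 c4 E R R' : ℝ} (hM : 1 ≤ M) (h13 : c1 ≤ c3) (h34 : c3 ≤ c4) {q : ℕ} (hq : 1 ≤ q)
    (hqM : (q : ℝ) ≤ M ^ c1) {t : ZI} (h : bc M c1 c2 c3 c4 E R R' t ≠ 0) : IsCoprime t ((q : ℕ) : ZI) := by
  rcases (bc_ne h).2 with h1 | h1
  · exact bB_cop hM h13 h34 hq hqM h1
  · exact bA_cop hM h34 hq (hqM.trans (Real.rpow_le_rpow_of_exponent_le hM h13)) h1

open Classical in
/-- **the comparison in a cell** -/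
theorem cell {ε c1 c2 c3 c4 : ℝ} (hc1 : 0 < c1) (h12 : c1 ≤ c2) (h23 : c2 ≤ c3) (h34 : c3 < c4)
    (h4 : c4 ≤ ε / 2) (hε1 : ε ≤ 1) (A : ℕ) : ∃ C : ℝ, 0 < C ∧ ∀ᶠ M : ℝ in atTop, ∀ L R R' : ℝ, 1 ≤ L → L ≤ M ^ (1 - ε) →
      0 < R → M ^ (1 + ε) ≤ R ^ 2 * L → R ^ 2 ≤ L * M ^ (1 - ε) → R ≤ R' → R' ≤ 2 * R →
      ∀ γ : ZI → ℝ, (∀ v, |γ v| ≤ 1) →
      ∑ l ∈ Icc (1 : ℤ) ⌊L⌋, |Th (bc M c1 c2 c3 c4 3 R R') γ R (M / (8 * R)) l| ≤ C * L * M / (Real.log M) ^ A := by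
  have hc2 : 0 < c2 := by linarith
  have hc3 : 0 < c3 := by linarith
  have hc4 : 0 < c4 := by linarith
  have hε : 0 < ε := by linarith
  set bBb : ℝ := (3 * (1 / c1) * (4 * (c2 + 3))) * (4 * (c4 + (c2 + 3))) with hbBb
  set S0 : ℝ := 288 * c2 / c1 with hS0
  set bAb : ℝ := 3 * (4 * (c4 + 3)) with hbAb
  have hbBb0 : 0 ≤ bBb := by positivity
  have hS00 : 0 ≤ S0 := by positivity
  have hbAb0 : 0 ≤ bAb := by positivity
  obtain ⟨A', B', C, M0, hC, hgc⟩ := gc ε A (bBb + S0 * bAb + 1) hε (by positivity)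
  refine ⟨C, hC, ?_⟩
  have hcE : c4 ≤ ((3 : ℕ) : ℝ) := by push_cast; linarith
  have k1 := msk hc3 h34 3 (by norm_num) (A' + 1) B' 3 hcE
  have k2 := msk hc3 h34 (3 * (1 / c1) * (4 * (c2 + 3))) (by positivity) (A' + 1) B' 3 hcE
  have k3 := cmp0 hc1 h12 h23 h34 (A' + 1) B' 3
  filter_upwards [k1, k2, k3, ev_log (16 + 32 * (1 + S0 ^ 2)), eventually_ge_atTop (3 : ℝ), ev_qM hc1 B',
    ev_qM (show 0 < ε / 2 by positivity) B', ev_rp hε 4, eventually_ge_atTop M0] with M k1 k2 k3 hlog hM3 hqM hqM2 hMe hMM0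
  intro L R R' hL1 hLM hR hRL hRL2 hRR' hR'2 γ hγ
  have hM0 : 0 < M := by linarith
  have hM1 : 1 ≤ M := by linarith
  have hM1' : 1 < M := by linarith
  refine hgc M L R _ hMM0 hL1 hLM hR hRL hRL2 ?_ ?_ ?_ γ hγ
  · -- the bound
    intro w
    unfold bc
    split_ifs
    · have h1 := bB_bd (c3 := c3) (c4 := c4) (c1 := c1) (c2 := c2) (E := 3) hM1' hc1 hc2.le hc4.le (by norm_num) w
      have h2 := bA_bd (c3 := c3) (c4 := c4) (E := 3) hM1' hc4.le (by norm_num) w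
      have h3 := s2_le (c2 := c2) hM1' hc1 hc2.le
      have h3' := s2_nonneg M c1 c2
      calc |bB M c1 c2 c3 c4 3 w - s2 M c1 c2 * bA M c3 c4 3 w| ≤ |bB M c1 c2 c3 c4 3 w| + |s2 M c1 c2 * bA M c3 c4 3 w| :=
            abs_sub _ _
        _ ≤ bBb + S0 * bAb := by
            apply add_le_add h1
            rw [abs_mul, abs_of_nonneg h3']
            exact mul_le_mul h3 h2 (abs_nonneg _) hS00
        _ ≤ _ := by linarith
    · rw [abs_zero]; positivity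
  · intro w hw
    by_contra hcon
    exact hw (ct_sqf (bc_sqf hM1 h23 h34.le hcon))
  · intro q r Y1 Y2 K hq hqB hY1 hY12 hY2 hK hKM
    set ℓ := Real.log M with hℓ
    have hS0' : 0 ≤ S0 ^ 2 := sq_nonneg _
    have hℓ1 : 1 ≤ ℓ := by linarith
    have hℓ0 : 0 < ℓ := by linarith
    set Y1' := max Y1 (R ^ 2) with hY1'
    set Y2' := min Y2 (R' ^ 2) with hY2'
    by_cases hcase : IsCoprime r ((q : ℕ) : ZI) ∧ Y1' ≤ Y2'
    swap
    · -- trivial cases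
      have h0 : ∀ t ∈ (cls q r Y2).filter (fun t => Y1 < nz t), bc M c1 c2 c3 c4 3 R R' t = 0 := by
        intro t ht
        by_contra hcon
        rw [mem_filter] at ht
        apply hcase
        refine ⟨cop_cls ht.1 (bc_cop hM1 (by linarith) h34.le hq (hqB.trans hqM) hcon), ?_⟩
        have h1 := (bc_ne hcon).1
        have h2 := ((mem_bl _ _).1 (cls_sub q r Y2 ht.1)).2
        exact (max_le ht.2.le h1.1.le).trans (le_min h2 h1.2)
      rw [sum_eq_zero]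
      · positivity
      · intro k _
        rw [sum_eq_zero, norm_zero]
        · norm_num
        · intro t ht
          rw [h0 t ht]
          push_cast
          ring
    obtain ⟨hr, hYY⟩ := hcase
    have hR2' : R' ^ 2 ≤ 4 * R ^ 2 := by nlinarith
    have hY2'' : Y2' ≤ 4 * R ^ 2 := (min_le_left _ _).trans hY2
    have hY1'' : R ^ 2 ≤ Y1' := le_max_right _ _
    have e1 : ∀ k : ℤ, ∑ t ∈ (cls q r Y2).filter (fun t => Y1 < nz t), (bc M c1 c2 c3 c4 3 R R' t : ℂ) * ph k 0 t =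
        ∑ t ∈ ci q r Y1' Y2', (cv (f1 M c3 c4) (gB M c1 c2 c4 3) t : ℂ) * ph k 0 t -
        (s2 M c1 c2 : ℂ) * ∑ t ∈ ci q r Y1' Y2', (cv (f1 M c3 c4) (f1 M c4 3) t : ℂ) * ph k 0 t := by
      intro k
      rw [mul_sum, ← sum_sub_distrib]
      have hsub : ci q r Y1' Y2' ⊆ (cls q r Y2).filter (fun t => Y1 < nz t) := by
        intro t ht
        rw [mem_ci] at ht
        have : t ∈ ci q r Y1 Y2 := by
          rw [mem_ci]
          exact ⟨ht.1, ht.2.1.trans (min_le_left _ _), ht.2.2.1, lt_of_le_of_lt (le_max_left _ _) ht.2.2.2⟩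
        unfold ci at this
        exact this
      rw [← sum_subset hsub (f := fun t => (bc M c1 c2 c3 c4 3 R R' t : ℂ) * ph k 0 t)]
      · refine sum_congr rfl fun t ht => ?_
        rw [mem_ci] at ht
        unfold bc
        rw [if_pos ⟨lt_of_le_of_lt (le_max_right _ _) ht.2.2.2, ht.2.1.trans (min_le_right _ _)⟩]
        unfold bB bA
        push_cast
        ring
      · intro t ht ht'
        have : bc M c1 c2 c3 c4 3 R R' t = 0 := by
          by_contra hcon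
          apply ht'
          have h1 := (bc_ne hcon).1
          have h2 : t ∈ ci q r Y1 Y2 := by unfold ci; exact ht
          rw [mem_ci] at h2 ⊢
          exact ⟨h2.1, le_min h2.2.1 h1.2, h2.2.2.1, max_lt h2.2.2.2 h1.1⟩
        rw [this]
        push_cast
        ring
    -- sizes
    have hL0 : 0 < L := by linarith
    have hRe : M ^ (2 * ε) ≤ R ^ 2 := by
      have h1 : M ^ (2 * ε) * L ≤ R ^ 2 * L := by
        refine le_trans ?_ hRL
        calc M ^ (2 * ε) * L ≤ M ^ (2 * ε) * M ^ (1 - ε) := by gcongr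
          _ = M ^ (1 + ε) := by rw [← Real.rpow_add hM0]; ring_nf
      exact le_of_mul_le_mul_right h1 hL0
    have hR2M : 4 * R ^ 2 ≤ M ^ 3 := by
      have h1 : R ^ 2 ≤ M ^ (2 - 2 * ε) := by
        refine hRL2.trans ?_
        calc L * M ^ (1 - ε) ≤ M ^ (1 - ε) * M ^ (1 - ε) := by gcongr
          _ = M ^ (2 - 2 * ε) := by rw [← Real.rpow_add hM0]; ring_nf
      calc 4 * R ^ 2 ≤ M ^ ε * M ^ (2 - 2 * ε) := by gcongr
        _ = M ^ (2 - ε) := by rw [← Real.rpow_add hM0]; ring_nf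
        _ ≤ M ^ (3 : ℝ) := Real.rpow_le_rpow_of_exponent_le hM1 (by linarith)
        _ = M ^ 3 := by norm_num
    have hKV : (K : ℝ) ≤ 4 * R ^ 2 / M ^ c4 := by
      rw [le_div_iff₀ (by positivity)]
      have h1 : M ^ c4 ≤ M ^ (ε / 2) := Real.rpow_le_rpow_of_exponent_le hM1 h4
      calc (K : ℝ) * M ^ c4 ≤ (M / L * ℓ ^ B') * M ^ (ε / 2) := by gcongr
        _ ≤ (M / L * M ^ (ε / 2)) * M ^ (ε / 2) := by gcongr
        _ = M / L * M ^ ε := by rw [mul_assoc, ← Real.rpow_add hM0]; ring_nf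
        _ = M ^ (1 + ε) / L := by rw [Real.rpow_add hM0, Real.rpow_one]; ring
        _ ≤ R ^ 2 := by rw [div_le_iff₀ hL0]; exact hRL
        _ ≤ 4 * R ^ 2 := by nlinarith [sq_nonneg R]
    have hV4 : M ^ (2 * c4) ≤ 4 * R ^ 2 := by
      have : M ^ (2 * c4) ≤ M ^ (2 * ε) := Real.rpow_le_rpow_of_exponent_le hM1 (by linarith)
      nlinarith [sq_nonneg R]
    have hY1p : 0 ≤ Y1' := hY1.trans (le_max_left _ _)
    have m1 := k1 (f1 M c4 3) (fun m => f1_bd hM1' (by norm_num) m)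
      (fun m hm => by
        by_contra hcon
        exact hm (ct_sqf (Nat.Prime.prime (f1_ne hcon).1).irreducible.squarefree))
      (fun a m ha hm => ct_sqf (ff_sqf ha hm)) q K r (4 * R ^ 2) Y1' Y2' hq hqB hr hK hKV hR2M hV4 hY1p hYY hY2''
    have m2 := k2 (gB M c1 c2 c4 3) (fun m => gB_bd hM1' hc1 hc2.le (by norm_num) m)
      (fun m hm => by
        by_contra hcon
        exact hm (ct_sqf (gB_sqf hM1 (by linarith) hcon)))
      (fun a m ha hm => ct_sqf (fg_sqf hM1 h23 h34.le ha hm)) q K r (4 * R ^ 2) Y1' Y2' hq hqB hr hK hKV hR2M hV4 hY1p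
        hYY hY2''
    have m3 := k3 q hq hqB r hr Y1' Y2' (by
      refine le_trans ?_ hY1''
      refine le_trans ?_ hRe
      exact Real.rpow_le_rpow_of_exponent_le hM1 (by linarith)) hYY (by
      refine hY2''.trans (hR2M.trans (le_of_eq ?_))
      norm_num)
    have hS := s2_le (c2 := c2) hM1' hc1 hc2.le
    have hS' := s2_nonneg M c1 c2
    rw [← hS0] at hS
    -- the zero frequency
    have h0mem : (0 : ℤ) ∈ Icc (-(K : ℤ)) K := by rw [mem_Icc]; constructor <;> omega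
    rw [← add_sum_erase _ _ h0mem]
    have z1 : ‖∑ t ∈ (cls q r Y2).filter (fun t => Y1 < nz t), (bc M c1 c2 c3 c4 3 R R' t : ℂ) * ph 0 0 t‖ ^ 2 ≤
        16 * (R ^ 4 / ℓ ^ (A' + 1)) := by
      rw [e1 0]
      have h1 : ∀ t, ph 0 0 t = 1 := by
        intro t
        unfold ph
        simp
      simp only [h1, mul_one]
      have h2 : ∑ t ∈ ci q r Y1' Y2', (cv (f1 M c3 c4) (gB M c1 c2 c4 3) t : ℂ) -
          (s2 M c1 c2 : ℂ) * ∑ t ∈ ci q r Y1' Y2', (cv (f1 M c3 c4) (f1 M c4 3) t : ℂ) =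
          ((∑ t ∈ ci q r Y1' Y2', (bB M c1 c2 c3 c4 (3 : ℕ) t - s2 M c1 c2 * bA M c3 c4 (3 : ℕ) t) : ℝ) : ℂ) := by
        unfold bB bA
        push_cast
        rw [sum_sub_distrib, mul_sum]
      rw [h2, Complex.norm_real, Real.norm_eq_abs]
      calc |∑ t ∈ ci q r Y1' Y2', (bB M c1 c2 c3 c4 (3 : ℕ) t - s2 M c1 c2 * bA M c3 c4 (3 : ℕ) t)| ^ 2 ≤
            (1 / ℓ ^ (A' + 1) * (4 * R ^ 2)) ^ 2 := by
            apply pow_le_pow_left₀ (abs_nonneg _)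
            refine m3.trans ?_
            gcongr
        _ = 16 * (R ^ 4 / ℓ ^ (A' + 1)) * (1 / ℓ ^ (A' + 1)) := by
            field_simp
            ring
        _ ≤ 16 * (R ^ 4 / ℓ ^ (A' + 1)) * 1 := by
            apply mul_le_mul_of_nonneg_left _ (by positivity)
            rw [div_le_one (by positivity)]
            exact one_le_pow₀ hℓ1
        _ = _ := mul_one _
    have z2 : ∑ k ∈ (Icc (-(K : ℤ)) K).erase 0, ‖∑ t ∈ (cls q r Y2).filter (fun t => Y1 < nz t),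
        (bc M c1 c2 c3 c4 3 R R' t : ℂ) * ph k 0 t‖ ^ 2 ≤ 32 * (1 + S0 ^ 2) * (R ^ 4 / ℓ ^ (A' + 1)) := by
      calc ∑ k ∈ (Icc (-(K : ℤ)) K).erase 0, ‖∑ t ∈ (cls q r Y2).filter (fun t => Y1 < nz t),
            (bc M c1 c2 c3 c4 3 R R' t : ℂ) * ph k 0 t‖ ^ 2
          ≤ ∑ k ∈ (Icc (-(K : ℤ)) K).erase 0, (2 * ‖∑ t ∈ ci q r Y1' Y2',
            (cv (f1 M c3 c4) (gB M c1 c2 c4 3) t : ℂ) * ph k 0 t‖ ^ 2 + 2 * S0 ^ 2 * ‖∑ t ∈ ci q r Y1' Y2',
            (cv (f1 M c3 c4) (f1 M c4 3) t : ℂ) * ph k 0 t‖ ^ 2) := by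
            refine sum_le_sum fun k _ => ?_
            rw [e1 k, sub_eq_add_neg]
            refine (norm_add_sq_le _ _).trans ?_
            rw [norm_neg, norm_mul, mul_pow, Complex.norm_real, Real.norm_eq_abs, sq_abs]
            have h5 : s2 M c1 c2 ^ 2 ≤ S0 ^ 2 := pow_le_pow_left₀ hS' hS 2
            have h6 := mul_le_mul_of_nonneg_right h5 (sq_nonneg ‖∑ t ∈ ci q r Y1' Y2',
              (cv (f1 M c3 c4) (f1 M c4 3) t : ℂ) * ph k 0 t‖)
            linarith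
        _ = 2 * ∑ k ∈ (Icc (-(K : ℤ)) K).erase 0, ‖∑ t ∈ ci q r Y1' Y2',
            (cv (f1 M c3 c4) (gB M c1 c2 c4 3) t : ℂ) * ph k 0 t‖ ^ 2 + 2 * S0 ^ 2 *
            ∑ k ∈ (Icc (-(K : ℤ)) K).erase 0, ‖∑ t ∈ ci q r Y1' Y2',
            (cv (f1 M c3 c4) (f1 M c4 3) t : ℂ) * ph k 0 t‖ ^ 2 := by
            rw [sum_add_distrib, ← mul_sum, ← mul_sum]
        _ ≤ 2 * ((4 * R ^ 2) ^ 2 / ℓ ^ (A' + 1)) + 2 * S0 ^ 2 * ((4 * R ^ 2) ^ 2 / ℓ ^ (A' + 1)) := by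
            apply add_le_add
            · exact mul_le_mul_of_nonneg_left m2 (by norm_num)
            · exact mul_le_mul_of_nonneg_left m1 (by positivity)
        _ = _ := by ring
    calc _ ≤ 16 * (R ^ 4 / ℓ ^ (A' + 1)) + 32 * (1 + S0 ^ 2) * (R ^ 4 / ℓ ^ (A' + 1)) := add_le_add z1 z2
      _ = (16 + 32 * (1 + S0 ^ 2)) * (R ^ 4 / ℓ ^ (A' + 1)) := by ring
      _ ≤ ℓ * (R ^ 4 / ℓ ^ (A' + 1)) := mul_le_mul_of_nonneg_right hlog (by positivity)
      _ = R ^ 4 / ℓ ^ A' := by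
          rw [pow_succ]
          field_simp
          try ring

end Pool.Agent.J6H16.PF
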