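import Pool.Agent.J6H16.PF.Rg

/-!
# Project PF (helper16): the sums over the classes, without frequencies
-/

set_option autoImplicit false

namespace Pool.Agent.J6H16.PF

open Finset Filter Topology MeasureTheory
open Pool.Agent.N782.GN Pool.Agent.N855.GN
open Pool.Agent.H304R3.HK (UH bb LamK CS)

theorem ci_sum {R : Type} [AddCommGroup R] (F : ZI → R) (q : ℕ) (s : ZI) {Y1 Y2 : ℝ} (h : Y1 ≤ Y2) :
    ∑ t ∈ ci q s Y1 Y2, F t = ∑ t ∈ cls q s Y2, F t - ∑ t ∈ cls q s Y1, F t := by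
  classical
  rw [eq_sub_iff_add_eq, add_comm, ← sum_filter_add_sum_filter_not (cls q s Y2) (fun t => nz t ≤ Y1)]
  congr 1
  · refine sum_congr ?_ fun _ _ => rfl
    ext t
    unfold cls
    rw [mem_filter, mem_filter, mem_filter, mem_bl, mem_bl]
    constructor
    · rintro ⟨⟨h1, h2⟩, h3⟩
      exact ⟨⟨⟨h1, h2.trans h⟩, h3⟩, h2⟩
    · rintro ⟨⟨⟨h1, h2⟩, h3⟩, h4⟩
      exact ⟨⟨h1, h4⟩, h3⟩
  · refine sum_congr ?_ fun _ _ => rfl
    ext t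
    unfold ci
    rw [mem_filter, mem_filter, not_le]

/-- the base case -/
theorem reg_f1 {c : ℝ} (hc : 0 < c) (A B E : ℕ) : ∀ᶠ M : ℝ in atTop, ∀ q : ℕ, 1 ≤ q → (q : ℝ) ≤ (Real.log M) ^ B →
    Reg (f1 M c E) q (dn (M ^ (c / 4)) q / Real.log M) (1 / (Real.log M) ^ A) (M ^ c) (M ^ (E : ℝ)) := by
  obtain ⟨C, hC, h⟩ := p2m hc A B E
  filter_upwards [h, ev_log (2 * C + 1), eventually_ge_atTop (3 : ℝ)] with M h hlog hM3
  intro q hq hqB s hs Y1 Y2 hY1 hY12 hY2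
  have hM0 : 0 < M := by linarith
  have hℓ0 : 0 < Real.log M := by linarith
  have hY0 : 0 < Y1 := lt_of_lt_of_le (by positivity) hY1
  rw [Real.rpow_natCast] at hY2
  have e1 : ∑ t ∈ ci q s Y1 Y2, f1 M c E t = (∑ t ∈ ci q s Y1 Y2, Lp t) / Real.log M := by
    rw [sum_div]
    refine sum_congr rfl fun t ht => ?_
    rw [mem_ci] at ht
    unfold f1
    rw [if_pos]
    rw [Real.rpow_natCast]
    exact ⟨lt_of_le_of_lt hY1 ht.2.2.2, ht.2.1.trans hY2⟩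
  rw [e1, ci_sum Lp q s hY12]
  have h1 := h Y1 q s hY1 (hY12.trans hY2) hq hqB hs
  have h2 := h Y2 q s (hY1.trans hY12) hY2 hq hqB hs
  set S1 := ∑ t ∈ cls q s Y1, Lp t
  set S2 := ∑ t ∈ cls q s Y2, Lp t
  set d := dn (M ^ (c / 4)) q
  have e2 : (S2 - S1) / Real.log M - d / Real.log M * (Y2 - Y1) = ((S2 - d * Y2) - (S1 - d * Y1)) / Real.log M := by
    field_simp
    ring
  rw [e2, abs_div, abs_of_pos hℓ0, div_le_iff₀ hℓ0]
  have h3 : C * Y1 / Real.log M ^ A ≤ C * Y2 / Real.log M ^ A := by gcongr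
  calc |S2 - d * Y2 - (S1 - d * Y1)| ≤ |S2 - d * Y2| + |S1 - d * Y1| := abs_sub _ _
    _ ≤ 2 * C * (Y2 / Real.log M ^ A) := by
        have : C * Y2 / Real.log M ^ A = C * (Y2 / Real.log M ^ A) := by ring
        linarith
    _ ≤ Real.log M * (Y2 / Real.log M ^ A) := by
        apply mul_le_mul_of_nonneg_right _ (div_nonneg (by linarith) (by positivity))
        linarith
    _ = _ := by ring

/-- the sum of `f(a) / N(a)` -/
noncomputable def s1 (M c3 c4 : ℝ) : ℝ := ∑ a ∈ bg (M ^ c3) (M ^ c4), f1 M c3 c4 a / nz a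

noncomputable def s2 (M c1 c2 : ℝ) : ℝ := ∑ a ∈ bg (M ^ c1) (M ^ c2), f2 M c1 c2 a / nz a

theorem s1_nonneg {M : ℝ} (hM : 1 ≤ M) (c3 c4 : ℝ) : 0 ≤ s1 M c3 c4 :=
  sum_nonneg fun a _ => div_nonneg (f1_nonneg hM _ _ _) (nz_nonneg _)

theorem s2_nonneg (M c1 c2 : ℝ) : 0 ≤ s2 M c1 c2 :=
  sum_nonneg fun a _ => div_nonneg (f2_nonneg _ _ _ _) (nz_nonneg _)

theorem sum_Lp_nz {x y : ℝ} (hy : 1 ≤ y) : ∑ a ∈ bg x y, Lp a / nz a ≤ 288 * Real.log y := by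
  refine le_trans ?_ (mert_up hy)
  refine (sum_le_sum_of_subset_of_nonneg (t := bl y) (fun a ha => ?_) fun a _ _ =>
    div_nonneg (Lp_nonneg _) (nz_nonneg _)).trans (sum_le_sum fun a ha => ?_)
  · rw [mem_bg] at ha
    rw [mem_bl]
    exact ⟨ha.1, ha.2.1⟩
  · exact div_le_div_of_nonneg_right (Lp_le_LamK a) (nz_nonneg a)

theorem s1_le {M c3 c4 : ℝ} (hM : 1 < M) (hc4 : 0 ≤ c4) : s1 M c3 c4 ≤ 288 * c4 := by
  have hl := Real.log_pos hM
  have h1 := sum_Lp_nz (x := M ^ c3) (y := M ^ c4) (Real.one_le_rpow hM.le hc4)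
  rw [Real.log_rpow (by linarith)] at h1
  unfold s1
  have h2 : ∀ a ∈ bg (M ^ c3) (M ^ c4), f1 M c3 c4 a / nz a = (Lp a / nz a) / Real.log M := by
    intro a ha
    rw [mem_bg] at ha
    unfold f1
    rw [if_pos ⟨ha.2.2, ha.2.1⟩]
    ring
  rw [sum_congr rfl h2, ← sum_div, div_le_iff₀ hl]
  linarith

theorem s2_le {M c1 c2 : ℝ} (hM : 1 < M) (hc1 : 0 < c1) (hc2 : 0 ≤ c2) : s2 M c1 c2 ≤ 288 * c2 / c1 := by
  have hl := Real.log_pos hM
  have h1 := sum_Lp_nz (x := M ^ c1) (y := M ^ c2) (Real.one_le_rpow hM.le hc2)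
  rw [Real.log_rpow (by linarith)] at h1
  unfold s2
  have h2 : ∀ a ∈ bg (M ^ c1) (M ^ c2), f2 M c1 c2 a / nz a ≤ (Lp a / nz a) / (c1 * Real.log M) := by
    intro a ha
    rw [mem_bg] at ha
    have h3 := f2_le (c' := c2) hM hc1 a
    rw [abs_of_nonneg (f2_nonneg _ _ _ _)] at h3
    calc f2 M c1 c2 a / nz a ≤ (1 / (c1 * Real.log M) * Lp a) / nz a := div_le_div_of_nonneg_right h3 (nz_nonneg _)
      _ = _ := by ring
  refine (sum_le_sum h2).trans ?_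
  rw [← sum_div, div_le_div_iff₀ (by positivity) hc1]
  calc (∑ a ∈ bg (M ^ c1) (M ^ c2), Lp a / nz a) * c1 ≤ 288 * (c2 * Real.log M) * c1 :=
        mul_le_mul_of_nonneg_right h1 hc1.le
    _ = _ := by ring

theorem ev_qM {c : ℝ} (hc : 0 < c) (B : ℕ) : ∀ᶠ M : ℝ in atTop, (Real.log M) ^ B ≤ M ^ c := by
  filter_upwards [logpow B hc one_pos] with M h
  simpa using h

/-- **the comparison of the sums over the classes** -/
theorem cmp0 {c1 c2 c3 c4 : ℝ} (hc1 : 0 < c1) (h12 : c1 ≤ c2) (h23 : c2 ≤ c3) (h34 : c3 < c4) (A B E : ℕ) :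
    ∀ᶠ M : ℝ in atTop, ∀ q : ℕ, 1 ≤ q → (q : ℝ) ≤ (Real.log M) ^ B → ∀ s : ZI, IsCoprime s ((q : ℕ) : ZI) →
      ∀ Y1 Y2 : ℝ, M ^ (3 * c4) ≤ Y1 → Y1 ≤ Y2 → Y2 ≤ M ^ (E : ℝ) →
      |∑ t ∈ ci q s Y1 Y2, (bB M c1 c2 c3 c4 E t - s2 M c1 c2 * bA M c3 c4 E t)| ≤ 1 / (Real.log M) ^ A * Y2 := by
  have hc4 : 0 < c4 := by linarith
  filter_upwards [reg_f1 hc4 (A + 1) B E, ev_log (2 * (288 * c2 / c1 * (288 * c4)) + 1), eventually_ge_atTop (3 : ℝ),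
    ev_qM hc1 B] with M hreg hlog hM3 hqM
  intro q hq hqB s hs Y1 Y2 hY1 hY12 hY2
  have hM0 : 0 < M := by linarith
  have hM1 : 1 ≤ M := by linarith
  have hℓ0 : 0 < Real.log M := Real.log_pos (by linarith)
  have hY0 : 0 < Y1 := lt_of_lt_of_le (by positivity) hY1
  have e1 : M ^ c1 ≤ M ^ c3 := Real.rpow_le_rpow_of_exponent_le hM1 (by linarith)
  have hf1c : ∀ a, f1 M c3 c4 a ≠ 0 → IsCoprime a ((q : ℕ) : ZI) := by
    intro a ha
    have := f1_ne ha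
    exact cop_np this.1 hq (by linarith [this.2.1])
  have hf2c : ∀ a, f2 M c1 c2 a ≠ 0 → IsCoprime a ((q : ℕ) : ZI) := by
    intro a ha
    have := f2_ne ha
    exact cop_np this.1 hq (by linarith [this.2.1])
  have h0 := hreg q hq hqB
  have hA := reg_step (f := f1 M c3 c4) (w0 := M ^ c3) (w1 := M ^ c4) (Real.one_le_rpow hM1 (by linarith)) (by positivity)
    (f1_nonneg hM1 _ _) (fun a ha => (f1_ne ha).2) hf1c h0
  have hB1 := reg_step (f := f2 M c1 c2) (w0 := M ^ c1) (w1 := M ^ c2) (Real.one_le_rpow hM1 (by linarith)) (by positivity)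
    (f2_nonneg _ _ _) (fun a ha => (f2_ne ha).2) hf2c h0
  have hB := reg_step (f := f1 M c3 c4) (w0 := M ^ c3) (w1 := M ^ c4) (Real.one_le_rpow hM1 (by linarith)) (by positivity)
    (f1_nonneg hM1 _ _) (fun a ha => (f1_ne ha).2) hf1c hB1
  have hx1 : M ^ c4 * M ^ c4 ≤ Y1 := by
    refine le_trans ?_ hY1
    rw [← Real.rpow_add hM0]
    exact Real.rpow_le_rpow_of_exponent_le hM1 (by linarith)
  have hx2 : M ^ c4 * M ^ c2 * M ^ c4 ≤ Y1 := by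
    refine le_trans ?_ hY1
    rw [← Real.rpow_add hM0, ← Real.rpow_add hM0]
    exact Real.rpow_le_rpow_of_exponent_le hM1 (by linarith)
  have kA := hA s hs Y1 Y2 hx1 hY12 hY2
  have kB := hB s hs Y1 Y2 hx2 hY12 hY2
  rw [show (∑ a ∈ bg (M ^ c3) (M ^ c4), f1 M c3 c4 a / nz a) = s1 M c3 c4 from rfl] at kA kB
  rw [show (∑ a ∈ bg (M ^ c1) (M ^ c2), f2 M c1 c2 a / nz a) = s2 M c1 c2 from rfl] at kB
  set d := dn (M ^ (c4 / 4)) q / Real.log M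
  set T := s2 M c1 c2
  set S := s1 M c3 c4
  have hT0 : 0 ≤ T := s2_nonneg _ _ _
  have hS0 : 0 ≤ S := s1_nonneg hM1 _ _
  have hTS : T * S ≤ 288 * c2 / c1 * (288 * c4) :=
    mul_le_mul (s2_le (by linarith) hc1 (by linarith)) (s1_le (by linarith) hc4.le) hS0
      (div_nonneg (by linarith) hc1.le)
  have e2 : ∑ t ∈ ci q s Y1 Y2, (bB M c1 c2 c3 c4 E t - T * bA M c3 c4 E t) =
      (∑ t ∈ ci q s Y1 Y2, cv (f1 M c3 c4) (cv (f2 M c1 c2) (f1 M c4 E)) t - d * T * S * (Y2 - Y1)) -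
      T * (∑ t ∈ ci q s Y1 Y2, cv (f1 M c3 c4) (f1 M c4 E) t - d * S * (Y2 - Y1)) := by
    rw [sum_sub_distrib, ← mul_sum]
    unfold bB bA gB
    ring
  rw [e2]
  calc |(∑ t ∈ ci q s Y1 Y2, cv (f1 M c3 c4) (cv (f2 M c1 c2) (f1 M c4 E)) t - d * T * S * (Y2 - Y1)) -
      T * (∑ t ∈ ci q s Y1 Y2, cv (f1 M c3 c4) (f1 M c4 E) t - d * S * (Y2 - Y1))| ≤
      |∑ t ∈ ci q s Y1 Y2, cv (f1 M c3 c4) (cv (f2 M c1 c2) (f1 M c4 E)) t - d * T * S * (Y2 - Y1)| +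
      |T * (∑ t ∈ ci q s Y1 Y2, cv (f1 M c3 c4) (f1 M c4 E) t - d * S * (Y2 - Y1))| := abs_sub _ _
    _ ≤ 1 / Real.log M ^ (A + 1) * T * S * Y2 + T * (1 / Real.log M ^ (A + 1) * S * Y2) := by
        apply add_le_add kB
        rw [abs_mul, abs_of_nonneg hT0]
        exact mul_le_mul_of_nonneg_left kA hT0
    _ = 2 * (T * S) * (1 / Real.log M ^ (A + 1) * Y2) := by ring
    _ ≤ Real.log M * (1 / Real.log M ^ (A + 1) * Y2) := by
        apply mul_le_mul_of_nonneg_right _ (mul_nonneg (by positivity) (by linarith))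
        linarith
    _ = _ := by
        rw [pow_succ]
        field_simp

end Pool.Agent.J6H16.PF
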