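import Pool.Agent.J6H16.PF.K0

/-!
# Project PF (helper16): the mean square over the frequencies for the products
-/

set_option autoImplicit false

namespace Pool.Agent.J6H16.PF

open Finset Filter Topology MeasureTheory
open Pool.Agent.N782.GN Pool.Agent.N855.GN
open Pool.Agent.H304R3.HK (UH bb LamK CS)

/-- the sums of the first factor -/
theorem f1_freq {c3 c4 : ℝ} (hc3 : 0 < c3) (h34 : c3 < c4) (A B E : ℕ) (hE : c4 ≤ E) : ∃ C : ℝ, 0 < C ∧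
    ∀ᶠ M : ℝ in atTop, ∀ (q : ℕ) (s : ZI) (k : ℤ) (A0 A1 : ℝ), 1 ≤ q → (q : ℝ) ≤ (Real.log M) ^ B →
      IsCoprime s ((q : ℕ) : ZI) → k ≠ 0 → |(k : ℝ)| ≤ M ^ E → M ^ c3 ≤ A0 → A0 ≤ A1 → A1 ≤ 2 * A0 →
      ‖∑ a ∈ SA q s A0 A1, (f1 M c3 c4 a : ℂ) * ph k 0 a‖ ≤ C / (Real.log M) ^ A * A0 := by
  classical
  obtain ⟨C, hC, h⟩ := p1m hc3 A B E
  refine ⟨3 * C, by positivity, ?_⟩
  filter_upwards [h, ev_log 1, eventually_ge_atTop (3 : ℝ)] with M h hlog hM3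
  intro q s k A0 A1 hq hqB hs hk hkE hA0 hA01 hA1
  have hM0 : 0 < M := by linarith
  have hM1 : 1 ≤ M := by linarith
  have hℓ0 : 0 < Real.log M := by linarith
  have hA00 : 0 < A0 := lt_of_lt_of_le (by positivity) hA0
  rcases le_or_gt (M ^ c4) A0 with hcase | hcase
  · rw [sum_eq_zero]
    · rw [norm_zero]; positivity
    · intro a ha
      rw [mem_SA] at ha
      have : f1 M c3 c4 a = 0 := by
        by_contra hcon
        have := (f1_ne hcon).2.2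
        linarith [ha.2.2.2]
      rw [this]
      push_cast
      ring
  · set A1' := min A1 (M ^ c4) with hA1'
    have h01 : A0 ≤ A1' := le_min hA01 hcase.le
    have hsub : ci q s A0 A1' ⊆ SA q s A0 A1 := by
      intro a ha
      rw [mem_ci] at ha
      rw [mem_SA]
      exact ⟨ha.1, ha.2.1.trans (min_le_left _ _), ha.2.2.1, ha.2.2.2⟩
    have e1 : ∑ a ∈ SA q s A0 A1, (f1 M c3 c4 a : ℂ) * ph k 0 a =
        (∑ a ∈ ci q s A0 A1', (Lp a : ℂ) * ph k 0 a) / (Real.log M : ℂ) := by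
      rw [← sum_subset hsub (f := fun a => (f1 M c3 c4 a : ℂ) * ph k 0 a), sum_div]
      · refine sum_congr rfl fun a ha => ?_
        rw [mem_ci] at ha
        unfold f1
        rw [if_pos ⟨lt_of_le_of_lt hA0 ha.2.2.2, ha.2.1.trans (min_le_right _ _)⟩]
        push_cast
        ring
      · intro a ha ha'
        rw [mem_SA] at ha
        have : f1 M c3 c4 a = 0 := by
          by_contra hcon
          apply ha'
          rw [mem_ci]
          exact ⟨ha.1, le_min ha.2.1 (f1_ne hcon).2.2, ha.2.2.1, ha.2.2.2⟩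
        rw [this]
        push_cast
        ring
    have hM4 : M ^ c4 ≤ M ^ E := by
      rw [← Real.rpow_natCast]
      exact Real.rpow_le_rpow_of_exponent_le hM1 hE
    have k1 := h A0 q s k hA0 (hcase.le.trans hM4) hq hqB hs hk hkE
    have k2 := h A1' q s k (hA0.trans h01) ((min_le_right _ _).trans hM4) hq hqB hs hk hkE
    rw [e1, ci_sum (fun a => (Lp a : ℂ) * ph k 0 a) q s h01, norm_div, Complex.norm_real, Real.norm_eq_abs,
      abs_of_pos hℓ0]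
    have hA1'' : A1' ≤ 2 * A0 := (min_le_left _ _).trans hA1
    have k3 : C * A1' / Real.log M ^ A ≤ C * (2 * A0) / Real.log M ^ A := by gcongr
    calc ‖∑ a ∈ cls q s A1', (Lp a : ℂ) * ph k 0 a - ∑ a ∈ cls q s A0, (Lp a : ℂ) * ph k 0 a‖ / Real.log M ≤
          ‖∑ a ∈ cls q s A1', (Lp a : ℂ) * ph k 0 a - ∑ a ∈ cls q s A0, (Lp a : ℂ) * ph k 0 a‖ :=
          div_le_self (norm_nonneg _) hlog
      _ ≤ ‖∑ a ∈ cls q s A1', (Lp a : ℂ) * ph k 0 a‖ + ‖∑ a ∈ cls q s A0, (Lp a : ℂ) * ph k 0 a‖ := norm_sub_le _ _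
      _ ≤ C * (2 * A0) / Real.log M ^ A + C * A0 / Real.log M ^ A := by linarith
      _ = _ := by ring

/-- **the mean square over the frequencies `k ≠ 0`** -/
theorem msk {c3 c4 : ℝ} (hc3 : 0 < c3) (h34 : c3 < c4) (C1 : ℝ) (hC1 : 0 ≤ C1) (A B E : ℕ) (hE : c4 ≤ E) :
    ∀ᶠ M : ℝ in atTop, ∀ (g : ZI → ℝ), (∀ m, |g m| ≤ C1) → (∀ m, ct m ≠ 1 → g m = 0) →
      (∀ a m, f1 M c3 c4 a ≠ 0 → g m ≠ 0 → ct (a * m) = 1) → ∀ (q K : ℕ) (r : ZI) (V Y1 Y2 : ℝ), 1 ≤ q →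
      (q : ℝ) ≤ (Real.log M) ^ B → IsCoprime r ((q : ℕ) : ZI) → 1 ≤ K → (K : ℝ) ≤ V / M ^ c4 → V ≤ M ^ E →
      M ^ (2 * c4) ≤ V → 0 ≤ Y1 → Y1 ≤ Y2 → Y2 ≤ V →
      ∑ k ∈ (Icc (-(K : ℤ)) K).erase 0, ‖∑ t ∈ ci q r Y1 Y2, (cv (f1 M c3 c4) g t : ℂ) * ph k 0 t‖ ^ 2 ≤
        V ^ 2 / (Real.log M) ^ A := by
  classical
  obtain ⟨Cs, hCs, hms⟩ := ms_ne
  set A3 : ℕ := (A + 4 + 4 * B) + (A + 1) with hA3
  obtain ⟨C, hC, hf⟩ := f1_freq hc3 h34 A3 B E hE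
  have hc4 : 0 < c4 := by linarith
  filter_upwards [hf, ev_log (2 * Cs * C ^ 2 * C1 ^ 2 + 4 * Cs * (C1 * (4 * (E + 1))) ^ 2 + (2 * E + 2)), eventually_ge_atTop (3 : ℝ),
    ev_qM hc4 (A + 2), ev_rp hc4 2, ev_rp hc3 1] with M hf hlog hM3 hqM hM2 hMc3
  intro g hg hgp hfg q K r V Y1 Y2 hq hqB hr hK hKV hVE hVc hY1 hY12 hY2
  have hM0 : 0 < M := by linarith
  have hM1 : 1 ≤ M := by linarith
  set ℓ := Real.log M with hℓ
  have hx1 : 0 ≤ 2 * Cs * C ^ 2 * C1 ^ 2 := by positivity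
  have hx2 : 0 ≤ 4 * Cs * (C1 * (4 * (E + 1))) ^ 2 := by positivity
  have hE0 : (0 : ℝ) ≤ E := Nat.cast_nonneg E
  have hℓ2 : 2 ≤ ℓ := by linarith
  have hℓ1 : 1 ≤ ℓ := by linarith
  have hℓ0 : 0 < ℓ := by linarith
  have hV0 : 0 < V := lt_of_lt_of_le (by positivity) hVc
  have hM2c : M ^ (2 * c4) = M ^ c4 * M ^ c4 := by rw [← Real.rpow_add hM0]; ring_nf
  have hVM : M ^ c4 ≤ V / M ^ c4 := by
    rw [le_div_iff₀ (by positivity), ← hM2c]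
    exact hVc
  have hw34 : M ^ c3 ≤ M ^ c4 := Real.rpow_le_rpow_of_exponent_le hM1 h34.le
  have hMV : M ^ c4 ≤ V := by
    have : (1 : ℝ) ≤ M ^ c4 := by linarith
    exact hVM.trans (div_le_self hV0.le this)
  have hV1 : 1 ≤ V := by linarith
  -- parameters
  set η : ℝ := 1 / ℓ ^ (A + 2) with hη
  have hη0 : 0 < η := by positivity
  have hη1 : η ≤ 1 := by
    rw [hη, div_le_one (by positivity)]
    exact one_le_pow₀ hℓ1
  set I : ℕ := ⌈2 * Real.log V / η⌉₊ with hI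
  have hlogV : Real.log V ≤ E * ℓ := by
    have := Real.log_le_log hV0 hVE
    rwa [Real.log_pow] at this
  have hlogV0 : 0 ≤ Real.log V := Real.log_nonneg hV1
  have hI1 : 2 * Real.log V / η ≤ I := Nat.le_ceil _
  have hI2 : (I : ℝ) ≤ ℓ ^ (A + 4) := by
    have h1 := (Nat.ceil_lt_add_one (show 0 ≤ 2 * Real.log V / η by positivity)).le
    have h2 : 2 * Real.log V / η = 2 * Real.log V * ℓ ^ (A + 2) := by
      rw [hη]
      field_simp
    have h3 : 1 ≤ ℓ ^ (A + 2) := one_le_pow₀ hℓ1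
    calc (I : ℝ) ≤ 2 * Real.log V * ℓ ^ (A + 2) + 1 := by rw [← h2]; exact h1
      _ ≤ 2 * (E * ℓ) * ℓ ^ (A + 2) + 1 * ℓ * ℓ ^ (A + 2) := by
          apply add_le_add
          · gcongr
          · rw [one_mul]
            exact one_le_mul_of_one_le_of_one_le hℓ1 h3
      _ = (2 * E + 1) * (ℓ * ℓ ^ (A + 2)) := by ring
      _ ≤ ℓ * (ℓ * ℓ ^ (A + 2)) := by
          apply mul_le_mul_of_nonneg_right _ (by positivity)
          linarith
      _ = _ := by rw [show A + 4 = (A + 2) + 1 + 1 by ring, pow_succ, pow_succ]; ring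
  have hbig : V ≤ M ^ c3 * (1 + η) ^ I :=
    (big_pow hV1 hη0 hη1 hI1).trans (le_mul_of_one_le_left (by positivity) hMc3)
  -- the bound of the coefficients
  set C0 : ℝ := C1 * (4 * (E + 1)) with hC0
  have hC00 : 0 ≤ C0 := by positivity
  have hcf : ∀ t ∈ bl (2 * V), cf (fun a => |f1 M c3 c4 a|) (fun m => |g m|) (bg (M ^ c3) (M ^ c4)) (bl V) t ≤ C0 := by
    intro t ht
    rw [mem_bl] at ht
    have h1 := cf_bd (f := f1 M c3 c4) (g := g) (S := bg (M ^ c3) (M ^ c4)) (T := bl V) (κ := 1 / ℓ) (C1 := C1)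
      (by positivity) hC1 (f1_le (by linarith) _ _) hg ht.1
    refine h1.trans ?_
    have h2 : Real.log (nz t) ≤ (E + 1) * ℓ := by
      have h3 := Real.log_le_log (nz_pos ht.1) ht.2
      rw [Real.log_mul (by norm_num) hV0.ne'] at h3
      have h4 := Real.log_two_lt_d9
      linarith
    calc C1 * (1 / ℓ) * (4 * Real.log (nz t)) ≤ C1 * (1 / ℓ) * (4 * ((E + 1) * ℓ)) := by gcongr
      _ = C0 := by rw [hC0]; field_simp
  have hKE : ∀ k : ℤ, |(k : ℝ)| ≤ K → |(k : ℝ)| ≤ M ^ E := by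
    intro k hk
    refine hk.trans (hKV.trans ((div_le_self hV0.le (by linarith)).trans hVE))
  have key := hms (f1 M c3 c4) g q r K I (M ^ c3) (M ^ c4) V η Y1 Y2 (C / ℓ ^ A3) C0 C1 hq hr hMc3 hMV (hw34.trans hMV)
    hη0 hη1 hbig hY1 hY12 hY2 (by positivity) hC00 hC1 hK hKV (by linarith) (hM2.trans hVM)
    (fun a ha => (f1_ne ha).2.2)
    (fun k hk hkK s hs A0 A1 hA0 hA01 hA1 => hf q s k A0 A1 hq hqB hs hk (hKE k hkK) hA0 hA01 hA1)
    hg hgp hfg hcf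
  have e1 : ∀ k : ℤ, ∑ t ∈ ci q r Y1 Y2, (cv (f1 M c3 c4) g t : ℂ) * ph k 0 t =
      ∑ t ∈ (cls q r Y2).filter (fun t => Y1 < nz t), (cf (f1 M c3 c4) g (bg (M ^ c3) (M ^ c4)) (bl V) t : ℂ) * ph k 0 t := by
    intro k
    unfold ci
    refine sum_congr rfl fun t ht => ?_
    rw [mem_filter] at ht
    have ht' := (mem_bl _ _).1 (cls_sub q r Y2 ht.1)
    rw [cf_cv (ht'.2.trans hY2)]
    · intro a ha
      exact ((mem_bg).1 ha).1
    · intro a ha _ h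
      by_contra hcon
      apply h
      rw [mem_bg]
      exact ⟨ha, (f1_ne hcon).2.2, (f1_ne hcon).2.1⟩
  simp only [e1]
  refine key.trans ?_
  have g1 : Cs * (((I : ℝ) * q ^ 4) ^ 2 * (C / ℓ ^ A3) ^ 2 * C1 ^ 2 * V ^ 2) ≤ V ^ 2 / ℓ ^ A / 2 := by
    have h1 : ((I : ℝ) * q ^ 4) ^ 2 ≤ (ℓ ^ (A + 4 + 4 * B)) ^ 2 := by
      apply pow_le_pow_left₀ (by positivity)
      rw [pow_add, pow_mul' ℓ 4 B]
      gcongr
    have h2 : ℓ ^ A3 = ℓ ^ (A + 4 + 4 * B) * ℓ ^ A * ℓ := by rw [hA3, pow_add ℓ (A + 4 + 4 * B) (A + 1), pow_succ]; ring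
    calc Cs * (((I : ℝ) * q ^ 4) ^ 2 * (C / ℓ ^ A3) ^ 2 * C1 ^ 2 * V ^ 2) ≤
          Cs * ((ℓ ^ (A + 4 + 4 * B)) ^ 2 * (C / ℓ ^ A3) ^ 2 * C1 ^ 2 * V ^ 2) := by gcongr
      _ = V ^ 2 / ℓ ^ A / 2 * ((2 * Cs * C ^ 2 * C1 ^ 2) / (ℓ ^ A * ℓ ^ 2)) := by
          rw [h2]
          field_simp
      _ ≤ V ^ 2 / ℓ ^ A / 2 * 1 := by
          apply mul_le_mul_of_nonneg_left _ (by positivity)
          rw [div_le_one (by positivity)]
          have h3 : 1 ≤ ℓ ^ A := one_le_pow₀ hℓ1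
          have h4 : ℓ ≤ ℓ ^ A * ℓ ^ 2 := by
            calc ℓ = 1 * ℓ ^ 1 := by ring
              _ ≤ ℓ ^ A * ℓ ^ 2 := mul_le_mul h3 (pow_le_pow_right₀ hℓ1 (by norm_num)) (by positivity) (by positivity)
          linarith
      _ = _ := mul_one _
  have hsq : Real.sqrt V ≤ V / ℓ ^ (A + 2) := by
    rw [le_div_iff₀ (by positivity)]
    have h1 : ℓ ^ (A + 2) ≤ Real.sqrt V := by
      apply Real.le_sqrt_of_sq_le
      calc (ℓ ^ (A + 2)) ^ 2 ≤ (M ^ c4) ^ 2 := by gcongr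
        _ = M ^ c4 * M ^ c4 := by ring
        _ ≤ V := by rw [← hM2c]; exact hVc
    calc Real.sqrt V * ℓ ^ (A + 2) ≤ Real.sqrt V * Real.sqrt V := mul_le_mul_of_nonneg_left h1 (Real.sqrt_nonneg _)
      _ = V := Real.mul_self_sqrt hV0.le
  have g2 : Cs * (C0 ^ 2 * V * (η * V + Real.sqrt V)) ≤ V ^ 2 / ℓ ^ A / 2 := by
    calc Cs * (C0 ^ 2 * V * (η * V + Real.sqrt V)) ≤ Cs * (C0 ^ 2 * V * (1 / ℓ ^ (A + 2) * V + V / ℓ ^ (A + 2))) := by
          rw [hη]; gcongr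
      _ = V ^ 2 / ℓ ^ A / 2 * ((4 * Cs * C0 ^ 2) / ℓ ^ 2) := by
          rw [pow_add]
          field_simp
          ring
      _ ≤ V ^ 2 / ℓ ^ A / 2 * 1 := by
          apply mul_le_mul_of_nonneg_left _ (by positivity)
          rw [div_le_one (by positivity)]
          have h4 : ℓ ≤ ℓ ^ 2 := by
            calc ℓ = ℓ ^ 1 := by ring
              _ ≤ ℓ ^ 2 := pow_le_pow_right₀ hℓ1 (by norm_num)
          linarith
      _ = _ := mul_one _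
  calc Cs * (((I : ℝ) * q ^ 4) ^ 2 * (C / ℓ ^ A3) ^ 2 * C1 ^ 2 * V ^ 2 + C0 ^ 2 * V * (η * V + Real.sqrt V)) =
        Cs * (((I : ℝ) * q ^ 4) ^ 2 * (C / ℓ ^ A3) ^ 2 * C1 ^ 2 * V ^ 2) + Cs * (C0 ^ 2 * V * (η * V + Real.sqrt V)) := by ring
    _ ≤ _ := by linarith

end Pool.Agent.J6H16.PF
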