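import Pool.Agent.J6H16.PF.Av

/-!
# Project PF (helper16): the classes of the number of the prime factors
-/

set_option autoImplicit false

namespace Pool.Agent.J6H16.PF

open Finset Filter Topology MeasureTheory
open Pool.Agent.N782.GN Pool.Agent.N855.GN
open Pool.Agent.H304R3.HK (UH bb LamK CS)

/-- elementary inequalities of the windows -/
theorem mp_geo {N ρ κ u : ℝ} (hN0 : 0 < N) (hκ : 0 < κ) (hκ1 : κ ≤ 1 / 10) (hρ : ρ = 1 + κ) (hu : u ≤ 1)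
    (hu2 : 1 - κ ≤ u) :
    N * u ≤ ρ * N ∧ 2 * N * u ≤ 2 * ρ * N ∧ N * u ≤ 2 * ρ * N ∧ ρ * N ≤ 2 * N * u ∧
      2 * (2 * ρ * N - N * u) ≤ 5 * N ∧ 2 * (2 * N * u - ρ * N) ≤ 2 * N ∧ N ≤ 2 * (2 * N * u - ρ * N) ∧
      2 * (2 * ρ * N - N * u) - 2 * (2 * N * u - ρ * N) ≤ 12 * κ * N := by
  have h1 : N * u ≤ N * 1 := mul_le_mul_of_nonneg_left hu hN0.le
  have h2 : N * (1 - κ) ≤ N * u := mul_le_mul_of_nonneg_left hu2 hN0.le
  have h3 : N * κ ≤ N * (1 / 10) := mul_le_mul_of_nonneg_left hκ1 hN0.le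
  have h4 : 0 ≤ N * κ := by positivity
  subst hρ
  refine ⟨?_, ?_, ?_, ?_, ?_, ?_, ?_, ?_⟩ <;> linarith

theorem mp_l {N X l : ℝ} (hl : l ^ 2 + X ^ 2 ≤ N ^ 2) : l ^ 2 + 4 * X ^ 2 ≤ 4 * N ^ 2 := by
  have := sq_nonneg l
  linarith

theorem mp_u {κ : ℝ} (hκ : 0 < κ) : 1 - κ ≤ 1 / (1 + κ) := by
  rw [le_div_iff₀ (by linarith)]
  nlinarith

theorem mp_s {σ : ℝ} (hs : 1 ≤ σ) : 9 + 2 * σ + σ ^ 2 ≤ 12 * σ ^ 2 := by nlinarith

open Classical in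
/-- a fixed `l` -/
theorem fixl {M c1 c2 c3 c4 R₀ ρ κ η cA CA δA : ℝ} {q I : ℕ} [NeZero q] {l : ℤ} (hM : 1 ≤ M) (hR₀ : 0 < R₀)
    (hκ : 0 < κ) (hκ1 : κ ≤ 1 / 10) (hρ : ρ = 1 + κ) (hD1 : 1 ≤ (R₀ * ρ ^ I) ^ 2) (hMc : 1 ≤ M ^ c2) (hη : 0 ≤ η)
    (hl : (l : ℝ) ^ 2 + (M / 8 / ρ) ^ 2 ≤ (M / 8) ^ 2)
    (hs : 1 ≤ s2 M c1 c2) (hCA : sA M c3 c4 3 (R₀ ^ 2 / M ^ c2) ((R₀ * ρ ^ I) ^ 2) ≤ CA)
    (hδA : sA M c3 c4 3 (R₀ ^ 2 / M ^ c2) ((R₀ * ρ ^ I) ^ 2) - sA M c3 c4 3 (R₀ ^ 2) ((R₀ * ρ ^ I) ^ 2) ≤ δA)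
    (hcA : cA ≤ sA M c3 c4 3 (R₀ ^ 2) ((R₀ * ρ ^ I) ^ 2)) (hcA0 : 0 ≤ cA)
    (hT : ∀ b : ZMod q, |∑ i ∈ range I, Th (bc M c1 c2 c3 c4 3 (R₀ * ρ ^ i) (R₀ * ρ ^ (i + 1))) (ind q b) (R₀ * ρ ^ i)
      (M / (8 * (R₀ * ρ ^ i))) l| ≤ η)
    (hE2 : |∑ i ∈ (bg (R₀ ^ 2 / M ^ c2) ((R₀ * ρ ^ I) ^ 2)) ×ˢ (bg (M ^ c1) (M ^ c2)) ×ˢ (bg (M ^ c1) (M ^ c2)),
        (bA M c3 c4 3 i.1 * (if nn i.2.1 ≠ nn i.2.2 then f2 M c1 c2 i.2.1 * f2 M c1 c2 i.2.2 else 0)) *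
        (ca (M / 8 / ρ) (2 * ρ * (M / 8)) l (i.1 * (i.2.1 * i.2.2)) -
          2 * (2 * ρ * (M / 8) - M / 8 / ρ) / nz (i.1 * (i.2.1 * i.2.2)))| ≤ η)
    (hE1 : |∑ i ∈ (bg (R₀ ^ 2 / M ^ c2) ((R₀ * ρ ^ I) ^ 2)) ×ˢ (bg (M ^ c1) (M ^ c2)) ×ˢ ({1} : Finset ZI),
        (bA M c3 c4 3 i.1 * f2 M c1 c2 i.2.1) *
        (ca (M / 8 / ρ) (2 * ρ * (M / 8)) l (i.1 * i.2.1) - 2 * (2 * ρ * (M / 8) - M / 8 / ρ) / nz (i.1 * i.2.1))| ≤ η)
    (hE0 : |∑ i ∈ (bg (R₀ ^ 2 / M ^ c2) ((R₀ * ρ ^ I) ^ 2)) ×ˢ ({1} : Finset ZI) ×ˢ ({1} : Finset ZI),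
        bA M c3 c4 3 i.1 * (ca (M / 8 / ρ) (2 * ρ * (M / 8)) l i.1 - 2 * (2 * ρ * (M / 8) - M / 8 / ρ) / nz i.1)| ≤ η)
    (hE0' : |∑ i ∈ (bg (R₀ ^ 2) ((R₀ * ρ ^ I) ^ 2)) ×ˢ ({1} : Finset ZI) ×ˢ ({1} : Finset ZI),
        bA M c3 c4 3 i.1 * (ca (ρ * (M / 8)) (2 * (M / 8) / ρ) l i.1 -
          2 * (2 * (M / 8) / ρ - ρ * (M / 8)) / nz i.1)| ≤ η) (b : ZMod q) :
    (M / 8 * cA - η) / q - q * (M / 8 * CA * (29 / 2 * κ + 20 / (κ * s2 M c1 c2)) + 2 * (M / 8) * δA +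
      η * (3 + κ / 2 + 6 / κ)) ≤
      YY M c3 c4 3 (R₀ ^ 2) ((R₀ * ρ ^ I) ^ 2) (an (ρ * (M / 8)) (2 * (M / 8) / ρ)) q b l := by
  set N := M / 8 with hN
  have hN0 : 0 < N := by positivity
  set D0 := R₀ ^ 2 with hD0
  set D1 := (R₀ * ρ ^ I) ^ 2 with hD1'
  set D0' := D0 / M ^ c2 with hD0'
  set W := bg D0' D1 with hW
  set Q := bg (M ^ c1) (M ^ c2) with hQ
  set σ := s2 M c1 c2 with hσ
  set X := N / ρ with hX
  set Y := 2 * ρ * N with hY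
  set X' := ρ * N with hX'
  set Y' := 2 * N / ρ with hY'
  have hρ0 : 0 < ρ := by rw [hρ]; linarith
  have hρ1 : 1 ≤ ρ := by rw [hρ]; linarith
  have hρ2 : ρ ≤ 2 := by rw [hρ]; linarith
  have hρ11 : ρ ≤ 11 / 10 := by rw [hρ]; linarith
  have hσ0 : 0 < σ := by linarith
  have hD00 : D0' ≤ D0 := div_le_self (by positivity) hMc
  have hinv : 1 / ρ ≤ 1 := by rw [div_le_one hρ0]; exact hρ1
  have hinv2 : 1 - κ ≤ 1 / ρ := by
    rw [hρ]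
    exact mp_u hκ
  have hXN : X = N * (1 / ρ) := by rw [hX]; ring
  have hYN' : Y' = 2 * N * (1 / ρ) := by rw [hY']; ring
  obtain ⟨g1, g2, g3, g4, g5, g6, g7, g8⟩ := mp_geo hN0 hκ hκ1 hρ hinv hinv2
  have hXX' : X ≤ X' := by
    rw [hXN, hX']
    exact g1
  have hYY' : Y' ≤ Y := by
    rw [hYN', hY]
    exact g2
  have hXY : X ≤ Y := by
    rw [hXN, hY]
    exact g3
  have hX'Y' : X' ≤ Y' := by
    rw [hYN', hX']
    exact g4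
  have hlY : (l : ℝ) ^ 2 + Y' ^ 2 ≤ 4 * N ^ 2 := by
    have h1 : Y' ^ 2 = 4 * X ^ 2 := by rw [hYN', hXN]; ring
    rw [h1]
    exact mp_l hl
  have hX0 : 0 ≤ X := by positivity
  -- masses
  have hU0 : ∑ w ∈ W, bA M c3 c4 3 w * ca X Y l w ≤ 2 * (Y - X) * sA M c3 c4 3 D0' D1 + η := by
    have h1 := (abs_le.1 hE0).2
    rw [sum_product] at h1
    have h2 : ∑ w ∈ W, bA M c3 c4 3 w * ca X Y l w = 2 * (Y - X) * sA M c3 c4 3 D0' D1 +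
        ∑ x ∈ W, ∑ y ∈ ({1} : Finset ZI) ×ˢ ({1} : Finset ZI), bA M c3 c4 3 (x, y).1 *
        (ca X Y l (x, y).1 - 2 * (Y - X) / nz (x, y).1) := by
      unfold sA
      rw [mul_sum, ← sum_add_distrib]
      refine sum_congr rfl fun w _ => ?_
      rw [sum_product, sum_singleton, sum_singleton]
      ring
    linarith
  have hU0' : 2 * (Y' - X') * sA M c3 c4 3 D0 D1 - η ≤ ∑ w ∈ bg D0 D1, bA M c3 c4 3 w * ca X' Y' l w := by
    have h1 := (abs_le.1 hE0').1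
    rw [sum_product] at h1
    have h2 : ∑ w ∈ bg D0 D1, bA M c3 c4 3 w * ca X' Y' l w = 2 * (Y' - X') * sA M c3 c4 3 D0 D1 +
        ∑ x ∈ bg D0 D1, ∑ y ∈ ({1} : Finset ZI) ×ˢ ({1} : Finset ZI), bA M c3 c4 3 (x, y).1 *
        (ca X' Y' l (x, y).1 - 2 * (Y' - X') / nz (x, y).1) := by
      unfold sA
      rw [mul_sum, ← sum_add_distrib]
      refine sum_congr rfl fun w _ => ?_
      rw [sum_product, sum_singleton, sum_singleton]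
      ring
    linarith
  have hsA0 : ∀ x y : ℝ, 0 ≤ sA M c3 c4 3 x y := fun x y =>
    sum_nonneg fun w _ => div_nonneg (bA_nonneg hM _ _ _ _) (nz_nonneg _)
  have hV := tk (β := bA M c3 c4 3) (f := f2 M c1 c2) (W := W) (Q := Q) (bA_nonneg hM _ _ _)
    (fun w hw => ((mem_bg).1 hw).1) (f2_nonneg _ _ _) (fun a => by unfold f2; split_ifs <;> norm_num)
    (fun a ha => (f2_ne ha).1) X Y hXY l (σ := σ) rfl
  rw [show (∑ w ∈ W, bA M c3 c4 3 w / nz w) = sA M c3 c4 3 D0' D1 from rfl] at hV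
  set V := ∑ w ∈ W, bA M c3 c4 3 w * ∑ m ∈ an X Y, dvi w ⟨l, m⟩ *
    (∑ a ∈ Q, f2 M c1 c2 a * dvi (w * a) ⟨l, m⟩ - σ) ^ 2 with hVdef
  set U := ∑ w ∈ W, bA M c3 c4 3 w * ca X Y l w with hU
  set sA' := sA M c3 c4 3 D0' D1 with hsA'
  set sA₀ := sA M c3 c4 3 D0 D1 with hsA₀
  have hsA'0 : 0 ≤ sA' := hsA0 _ _
  have hsA₀0 : 0 ≤ sA₀ := hsA0 _ _
  have hCA0 : 0 ≤ CA := hsA'0.trans hCA
  have hΔo : 2 * (Y - X) ≤ 5 * N := by
    rw [hXN, hY]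
    exact g5
  have hΔi : 2 * (Y' - X') ≤ 2 * N := by
    rw [hYN', hX']
    exact g6
  have hΔi2 : N ≤ 2 * (Y' - X') := by
    rw [hYN', hX']
    exact g7
  have hΔd : 2 * (Y - X) - 2 * (Y' - X') ≤ 12 * κ * N := by
    rw [hXN, hY, hYN', hX']
    exact g8
  have hUle : U ≤ 5 * N * CA + η := by
    refine hU0.trans ?_
    have : 2 * (Y - X) * sA' ≤ 5 * N * CA := mul_le_mul hΔo hCA hsA'0 (by positivity)
    linarith
  have hVle : V ≤ 40 * N * CA * σ + η * (9 + 2 * σ + σ ^ 2) := by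
    refine hV.trans ?_
    have h1 : 8 * (2 * (Y - X)) * sA' * σ ≤ 40 * N * CA * σ := by
      have : 2 * (Y - X) * sA' ≤ 5 * N * CA := mul_le_mul hΔo hCA hsA'0 (by positivity)
      have h5 := mul_le_mul_of_nonneg_right this (show 0 ≤ 8 * σ by positivity)
      linarith
    have h2 := mul_le_mul_of_nonneg_left hE1 (show 0 ≤ 8 + 2 * σ by positivity)
    have h3 := mul_le_mul_of_nonneg_left hE0 (show 0 ≤ σ ^ 2 by positivity)
    linarith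
  -- the shift by one
  have hstep : ∀ b : ZMod q, YY M c3 c4 3 D0 D1 (an X' Y') q b l ≤ YY M c3 c4 3 D0 D1 (an X' Y') q (b + 1) l +
      (N * CA * (29 / 2 * κ + 20 / (κ * σ)) + 2 * N * δA + η * (3 + κ / 2 + 6 / κ)) := by
    intro b
    have k1 := step1 (c1 := c1) (c2 := c2) (c3 := c3) (c4 := c4) (E := 3) (q := q) (l := l) hM hR₀ hρ1 hρ2 hl hX0 le_rfl
      le_rfl hlY hT b
    have k2 := step2 (M := M) (c1 := c1) (c2 := c2) (c3 := c3) (c4 := c4) (E := 3) (D0 := D0) (D1 := D1) hM hD1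
      (fun w => cb (an X Y) q (b + 1) l w) (fun w => cb_nonneg _ _ _ _ _)
    have k3 := step3 (β := bA M c3 c4 3) (f := f2 M c1 c2) (W := W) (Q := Q) (bA_nonneg hM _ _ _) (f2_nonneg _ _ _)
      (an X Y) q (b + 1) l (σ := σ) (τ := κ * σ) (by positivity)
    rw [show (∑ w ∈ W, bA M c3 c4 3 w * cb (an X Y) q (b + 1) l w) = YY M c3 c4 3 D0' D1 (an X Y) q (b + 1) l from rfl] at k3
    have hUU : ∑ w ∈ W, bA M c3 c4 3 w * ∑ m ∈ an X Y, dvi w ⟨l, m⟩ = U := by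
      rw [hU]
      exact sum_congr rfl fun w _ => by rw [ca_dvi]
    rw [hUU, ← hVdef] at k3
    -- the two masses
    have k4 : YY M c3 c4 3 D0' D1 (an X Y) q (b + 1) l - YY M c3 c4 3 D0 D1 (an X' Y') q (b + 1) l ≤
        12 * κ * N * CA + 2 * N * δA + 2 * η := by
      have h1 : YY M c3 c4 3 D0' D1 (an X Y) q (b + 1) l - YY M c3 c4 3 D0 D1 (an X' Y') q (b + 1) l ≤
          ∑ b' : ZMod q, (YY M c3 c4 3 D0' D1 (an X Y) q b' l - YY M c3 c4 3 D0 D1 (an X' Y') q b' l) :=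
        single_le_sum (f := fun b' => YY M c3 c4 3 D0' D1 (an X Y) q b' l - YY M c3 c4 3 D0 D1 (an X' Y') q b' l)
          (fun b' _ => sub_nonneg.2 (YY_mono hM hD00 hXX' hYY' q b' l)) (mem_univ (b + 1))
      rw [sum_sub_distrib, YY_sum, YY_sum] at h1
      have h2 : 2 * (Y - X) * sA' - 2 * (Y' - X') * sA₀ ≤ 12 * κ * N * CA + 2 * N * δA := by
        have h3 : (2 * (Y - X) - 2 * (Y' - X')) * sA' ≤ 12 * κ * N * CA := by
          calc (2 * (Y - X) - 2 * (Y' - X')) * sA' ≤ 12 * κ * N * sA' := mul_le_mul_of_nonneg_right hΔd hsA'0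
            _ ≤ 12 * κ * N * CA := mul_le_mul_of_nonneg_left hCA (by positivity)
        have h4 : 2 * (Y' - X') * (sA' - sA₀) ≤ 2 * N * δA := by
          have h5 : 0 ≤ sA' - sA₀ := by
            rw [sub_nonneg]
            refine sum_le_sum_of_subset_of_nonneg ?_ fun w _ _ => div_nonneg (bA_nonneg hM _ _ _ _) (nz_nonneg _)
            intro w hw
            rw [mem_bg] at hw ⊢
            exact ⟨hw.1, hw.2.1, lt_of_le_of_lt hD00 hw.2.2⟩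
          calc 2 * (Y' - X') * (sA' - sA₀) ≤ 2 * N * (sA' - sA₀) := mul_le_mul_of_nonneg_right hΔi h5
            _ ≤ 2 * N * δA := mul_le_mul_of_nonneg_left hδA (by positivity)
        linarith
      linarith
    have k5 : σ * YY M c3 c4 3 D0 D1 (an X' Y') q b l ≤ σ * YY M c3 c4 3 D0' D1 (an X Y) q (b + 1) l +
        κ * σ / 2 * U + 1 / (2 * (κ * σ)) * V + η := by linarith
    have k6 : YY M c3 c4 3 D0 D1 (an X' Y') q b l ≤ YY M c3 c4 3 D0' D1 (an X Y) q (b + 1) l + κ / 2 * U +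
        1 / (2 * κ * σ ^ 2) * V + η / σ := by
      have h1 : σ * YY M c3 c4 3 D0 D1 (an X' Y') q b l ≤ σ * (YY M c3 c4 3 D0' D1 (an X Y) q (b + 1) l + κ / 2 * U +
        1 / (2 * κ * σ ^ 2) * V + η / σ) := by
        refine k5.trans (le_of_eq ?_)
        field_simp
      exact le_of_mul_le_mul_left h1 hσ0
    have k7 : κ / 2 * U ≤ κ / 2 * (5 * N * CA + η) := mul_le_mul_of_nonneg_left hUle (by positivity)
    have k8 : 1 / (2 * κ * σ ^ 2) * V ≤ 20 * N * CA / (κ * σ) + 6 / κ * η := by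
      calc 1 / (2 * κ * σ ^ 2) * V ≤ 1 / (2 * κ * σ ^ 2) * (40 * N * CA * σ + η * (9 + 2 * σ + σ ^ 2)) :=
            mul_le_mul_of_nonneg_left hVle (by positivity)
        _ = 20 * N * CA / (κ * σ) + η * (9 + 2 * σ + σ ^ 2) / (2 * κ * σ ^ 2) := by
            field_simp
            ring
        _ ≤ 20 * N * CA / (κ * σ) + 6 / κ * η := by
            have : η * (9 + 2 * σ + σ ^ 2) / (2 * κ * σ ^ 2) ≤ 6 / κ * η := by
              rw [div_le_iff₀ (by positivity)]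
              have h2 : 6 / κ * η * (2 * κ * σ ^ 2) = η * (12 * σ ^ 2) := by field_simp; ring
              rw [h2]
              exact mul_le_mul_of_nonneg_left (mp_s hs) hη
            linarith
    have k9 : η / σ ≤ η := div_le_self hη hs
    have k10 : 20 * N * CA / (κ * σ) = N * CA * (20 / (κ * σ)) := by ring
    linarith
  have hδ0 : 0 ≤ δA := by
    refine le_trans ?_ hδA
    rw [sub_nonneg]
    refine sum_le_sum_of_subset_of_nonneg ?_ fun w _ _ => div_nonneg (bA_nonneg hM _ _ _ _) (nz_nonneg _)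
    intro w hw
    rw [mem_bg] at hw ⊢
    exact ⟨hw.1, hw.2.1, lt_of_le_of_lt hD00 hw.2.2⟩
  refine circle (q := q) (y := fun b => YY M c3 c4 3 D0 D1 (an X' Y') q b l) (by positivity) hstep ?_ b
  rw [YY_sum]
  refine le_trans ?_ hU0'
  have h1 : N * cA ≤ 2 * (Y' - X') * sA₀ := mul_le_mul hΔi2 hcA hcA0 (by linarith)
  linarith

end Pool.Agent.J6H16.PF
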