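import Pool.Agent.J6H16.PF.Mp

/-!
# Project PF (helper16): the classes of the number of the prime factors, for almost all `l`
-/

set_option autoImplicit false

namespace Pool.Agent.J6H16.PF

open Finset Filter Topology MeasureTheory
open Pool.Agent.N782.GN Pool.Agent.N855.GN
open Pool.Agent.H304R3.HK (UH bb LamK CS)

/-- the divisor sums of a convolution -/
theorem cv_div {f g : ZI → ℝ} (hf : ∀ a, 0 ≤ f a) (hg : ∀ a, 0 ≤ g a) {z : ZI} (hz : z ≠ 0) :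
    ∑ w ∈ Dv z, cv f g w ≤ (∑ a ∈ Dv z, f a) * ∑ m ∈ Dv z, g m := by
  classical
  rw [sum_mul_sum, ← sum_product']
  have h1 : ∀ w ∈ Dv z, cv f g w ≤ ∑ p ∈ ((Dv z ×ˢ Dv z).filter (fun p => p.1 * p.2 ∈ Dv z)).filter
      (fun p => p.1 * p.2 = w), f p.1 * g p.2 := by
    intro w hw
    have hw' := hw
    rw [mem_Dv hz] at hw
    unfold cv cf
    apply sum_le_sum_of_subset_of_nonneg
    · intro p hp
      rw [mem_filter] at hp
      rw [mem_filter, mem_filter]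
      refine ⟨⟨?_, by rw [hp.2]; exact hw'⟩, hp.2⟩
      rw [mem_product, mem_Dv hz, mem_Dv hz]
      rw [← hp.2] at hw
      exact ⟨dvd_of_mul_right_dvd hw, dvd_of_mul_left_dvd hw⟩
    · intro p _ _
      exact mul_nonneg (hf _) (hg _)
  refine (sum_le_sum h1).trans ?_
  rw [sum_fiberwise_of_maps_to (s := (Dv z ×ˢ Dv z).filter (fun p => p.1 * p.2 ∈ Dv z)) (t := Dv z)
    (g := fun p => p.1 * p.2) (fun p hp => (mem_filter.1 hp).2)]
  exact sum_le_sum_of_subset_of_nonneg (filter_subset _ _) fun p _ _ => mul_nonneg (hf _) (hg _)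

theorem f1_div {M c c' : ℝ} (hM : 1 < M) {z : ZI} (hz : z ≠ 0) (hz3 : nz z ≤ M ^ 3) : ∑ a ∈ Dv z, f1 M c c' a ≤ 12 := by
  have hl := Real.log_pos hM
  have h1 : ∑ a ∈ Dv z, f1 M c c' a ≤ ∑ a ∈ Dv z, 1 / Real.log M * Lp a := by
    refine sum_le_sum fun a _ => ?_
    have := f1_le hM c c' a
    rwa [abs_of_nonneg (f1_nonneg hM.le _ _ _)] at this
  refine h1.trans ?_
  rw [← mul_sum]
  have h2 := div_Lp hz
  have h3 : Real.log (nz z) ≤ 3 * Real.log M := by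
    have := Real.log_le_log (nz_pos hz) hz3
    rw [Real.log_pow] at this
    exact_mod_cast this
  calc 1 / Real.log M * ∑ a ∈ Dv z, Lp a ≤ 1 / Real.log M * (4 * (3 * Real.log M)) := by
        apply mul_le_mul_of_nonneg_left _ (by positivity)
        linarith
    _ = 12 := by field_simp; norm_num

/-- the weight of an element -/
theorem wt_le {M c3 c4 D0 D1 : ℝ} (hM : 1 < M) {z : ZI} (hz : z ≠ 0) (hz3 : nz z ≤ M ^ 3) :
    ∑ w ∈ bg D0 D1, bA M c3 c4 3 w * dvi w z ≤ 144 := by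
  classical
  have h1 : ∑ w ∈ bg D0 D1, bA M c3 c4 3 w * dvi w z ≤ ∑ w ∈ Dv z, bA M c3 c4 3 w := by
    calc ∑ w ∈ bg D0 D1, bA M c3 c4 3 w * dvi w z = ∑ w ∈ (bg D0 D1).filter (fun w => w ∣ z), bA M c3 c4 3 w := by
          rw [sum_filter]
          refine sum_congr rfl fun w _ => ?_
          unfold dvi
          split_ifs <;> ring
      _ ≤ _ := by
          apply sum_le_sum_of_subset_of_nonneg
          · intro w hw
            rw [mem_Dv hz]
            exact (mem_filter.1 hw).2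
          · intro w _ _
            exact bA_nonneg hM.le _ _ _ _
  refine h1.trans ?_
  unfold bA
  refine (cv_div (f1_nonneg hM.le _ _) (f1_nonneg hM.le _ _) hz).trans ?_
  have h2 := f1_div (c := c3) (c' := c4) hM hz hz3
  have h3 := f1_div (c := c4) (c' := 3) hM hz hz3
  have h4 : 0 ≤ ∑ m ∈ Dv z, f1 M c4 3 m := sum_nonneg fun m _ => f1_nonneg hM.le _ _ _
  calc (∑ a ∈ Dv z, f1 M c3 c4 a) * ∑ m ∈ Dv z, f1 M c4 3 m ≤ 12 * 12 := mul_le_mul h2 h3 h4 (by norm_num)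
    _ = 144 := by norm_num

open Classical in
/-- from the weighted number to the number -/
theorem YY_card {M c3 c4 D0 D1 X Y : ℝ} (hM : 2 ≤ M) (hX0 : 0 ≤ X) (hY : Y ≤ M) {q : ℕ} (b : ZMod q) {l : ℤ}
    (hl : |(l : ℝ)| ≤ M) : YY M c3 c4 3 D0 D1 (an X Y) q b l ≤
      144 * (((an X Y).filter (fun m : ℤ => ((om (⟨l, m⟩ : ZI) : ℕ) : ZMod q) = b)).card : ℝ) := by
  have h1 : YY M c3 c4 3 D0 D1 (an X Y) q b l = ∑ m ∈ an X Y, ind q b ⟨l, m⟩ *
      ∑ w ∈ bg D0 D1, bA M c3 c4 3 w * dvi w ⟨l, m⟩ := by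
    unfold YY cb
    simp only [mul_sum]
    rw [sum_comm]
    refine sum_congr rfl fun m _ => sum_congr rfl fun w _ => by ring
  rw [h1]
  have h2 : ∀ m ∈ an X Y, ind q b ⟨l, m⟩ * ∑ w ∈ bg D0 D1, bA M c3 c4 3 w * dvi w ⟨l, m⟩ ≤
      ind q b ⟨l, m⟩ * 144 := by
    intro m hm
    rw [mem_an] at hm
    apply mul_le_mul_of_nonneg_left _ (ind_nonneg _ _ _)
    have hnz : nz (⟨l, m⟩ : ZI) = (l : ℝ) ^ 2 + (m : ℝ) ^ 2 := nz_mk l m
    have hm0 : 0 < (m : ℝ) ^ 2 := by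
      rw [← sq_abs]
      have : 0 < |(m : ℝ)| := lt_of_le_of_lt hX0 hm.1
      positivity
    apply wt_le (by linarith)
    · intro h
      rw [h] at hnz
      have : nz (0 : ZI) = 0 := by simp [Pool.Agent.N782.GN.nz]
      rw [this] at hnz
      nlinarith [sq_nonneg (l : ℝ)]
    · rw [hnz, ← sq_abs (l : ℝ), ← sq_abs (m : ℝ)]
      have e1 : |(l : ℝ)| ^ 2 ≤ M ^ 2 := pow_le_pow_left₀ (abs_nonneg _) hl 2
      have e2 : |(m : ℝ)| ^ 2 ≤ M ^ 2 := pow_le_pow_left₀ (abs_nonneg _) (hm.2.trans hY) 2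
      calc |(l : ℝ)| ^ 2 + |(m : ℝ)| ^ 2 ≤ 2 * M ^ 2 := by linarith
        _ ≤ M * M ^ 2 := by nlinarith [sq_nonneg M]
        _ = M ^ 3 := by ring
  refine (sum_le_sum h2).trans (le_of_eq ?_)
  rw [← sum_mul, mul_comm]
  congr 1
  unfold ind
  rw [← sum_filter, sum_const, nsmul_eq_mul, mul_one]

/-- Markov -/
theorem markov {S : Finset ℤ} {F : ℤ → ℝ} (hF : ∀ l ∈ S, 0 ≤ F l) {η B : ℝ} (hη : 0 < η) (h : ∑ l ∈ S, F l ≤ B) :
    ((S.filter (fun l => η < F l)).card : ℝ) ≤ B / η := by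
  rw [le_div_iff₀ hη]
  calc ((S.filter (fun l => η < F l)).card : ℝ) * η = ∑ l ∈ S.filter (fun l => η < F l), η := by
        rw [sum_const, nsmul_eq_mul]
    _ ≤ ∑ l ∈ S.filter (fun l => η < F l), F l := sum_le_sum fun l hl => (mem_filter.1 hl).2.le
    _ ≤ ∑ l ∈ S, F l := sum_le_sum_of_subset_of_nonneg (filter_subset _ _) fun l hl _ => hF l hl
    _ ≤ B := h

theorem sA_sub {M c3 c4 E x y z : ℝ} (hxy : x ≤ y) (hyz : y ≤ z) :
    sA M c3 c4 E x z - sA M c3 c4 E y z = sA M c3 c4 E x y := by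
  unfold sA
  rw [bg_sum _ (hxy.trans hyz), bg_sum _ hyz, bg_sum _ hxy]
  ring

end Pool.Agent.J6H16.PF
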