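import Pool.Agent.J6H16.PF.Mq

/-!
# Project PF (helper16): the classes of the number of the prime factors, the average over `l ≤ L`
-/

set_option autoImplicit false

namespace Pool.Agent.J6H16.PF

open Finset Filter Topology MeasureTheory
open Pool.Agent.N782.GN Pool.Agent.N855.GN
open Pool.Agent.H304R3.HK (UH bb LamK CS)

/-- the final arithmetic -/
theorem fin_arith {M cA CA κ σ c2 η q : ℝ} (hM : 0 < M) (hcA : 0 < cA) (hCA : 0 < CA) (hκ : 0 < κ) (hq : 1 ≤ q)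
    (hσ : 0 < σ) (h1 : κ ≤ cA / (480 * CA * q ^ 2)) (h2 : 640 * CA * q ^ 2 / (κ * cA) ≤ σ)
    (h3 : c2 ≤ cA / (64 * CA * q ^ 2)) (h4 : η * (3 + κ / 2 + 6 / κ) ≤ M / 8 * cA / (32 * q ^ 2))
    (h5 : η ≤ M / 8 * cA / 8) :
    M / 8 * cA / (2 * q) ≤ (M / 8 * cA - η) / q - q * (M / 8 * CA * (29 / 2 * κ + 20 / (κ * σ)) +
      2 * (M / 8) * (CA * c2) + η * (3 + κ / 2 + 6 / κ)) := by
  have hq0 : 0 < q := by linarith
  set u := M / 8 * cA / (32 * q ^ 2) with hu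
  have k1 : M / 8 * CA * (29 / 2 * κ) ≤ u := by
    rw [le_div_iff₀ (by positivity)] at h1
    rw [hu, le_div_iff₀ (by positivity)]
    nlinarith [mul_le_mul_of_nonneg_left h1 hM.le]
  have k2 : M / 8 * CA * (20 / (κ * σ)) ≤ u := by
    rw [div_le_iff₀ (by positivity)] at h2
    have h6 : M / 8 * CA * (20 / (κ * σ)) = M / 8 * CA * 20 / (κ * σ) := by ring
    rw [h6, hu, div_le_div_iff₀ (by positivity) (by positivity)]
    nlinarith [mul_le_mul_of_nonneg_left h2 hM.le]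
  have k3 : 2 * (M / 8) * (CA * c2) ≤ u := by
    rw [le_div_iff₀ (by positivity)] at h3
    rw [hu, le_div_iff₀ (by positivity)]
    nlinarith [mul_le_mul_of_nonneg_left h3 hM.le]
  have k4 : q * (M / 8 * CA * (29 / 2 * κ + 20 / (κ * σ)) + 2 * (M / 8) * (CA * c2) + η * (3 + κ / 2 + 6 / κ)) ≤
      q * (4 * u) := by
    apply mul_le_mul_of_nonneg_left _ hq0.le
    have : M / 8 * CA * (29 / 2 * κ + 20 / (κ * σ)) = M / 8 * CA * (29 / 2 * κ) + M / 8 * CA * (20 / (κ * σ)) := by ring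
    rw [this]
    linarith
  have k5 : q * (4 * u) = M / 8 * cA / (8 * q) := by
    rw [hu]
    field_simp
    ring
  have k6 : (M / 8 * cA - η) / q ≥ (M / 8 * cA - M / 8 * cA / 8) / q := by
    apply div_le_div_of_nonneg_right _ hq0.le
    linarith
  have k7 : (M / 8 * cA - M / 8 * cA / 8) / q - M / 8 * cA / (8 * q) = 3 / 4 * (M / 8 * cA / q) := by
    field_simp
    ring
  have k8 : M / 8 * cA / (2 * q) = 1 / 2 * (M / 8 * cA / q) := by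
    field_simp
  have k9 : 0 ≤ M / 8 * cA / q := by positivity
  linarith

/-- the cells -/
theorem par {ρ θ : ℝ} (hρ1 : 1 < ρ) (hρ2 : ρ ≤ 2) (hθ : 0 < θ) (hθ1 : θ ≤ 1) {M : ℝ} (hM : 3 ≤ M) :
    ∃ (R₀ : ℝ) (I : ℕ), 0 < R₀ ∧ R₀ ^ 2 = M ^ (1 - θ / 2) ∧ (R₀ * ρ ^ I) ^ 2 ≤ M ∧ M / 4 ≤ (R₀ * ρ ^ I) ^ 2 ∧
      (I : ℝ) ≤ Real.log M / Real.log ρ := by
  have hM0 : 0 < M := by linarith
  have hM1 : 1 ≤ M := by linarith
  have hlρ : 0 < Real.log ρ := Real.log_pos hρ1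
  have hρ0 : 0 < ρ := by linarith
  obtain ⟨ℓ, hℓ⟩ : ∃ x, x = Real.log M := ⟨_, rfl⟩
  have hℓ0 : 0 < ℓ := by rw [hℓ]; exact Real.log_pos (by linarith)
  obtain ⟨R₀, hR₀d⟩ : ∃ x, x = M ^ (1 / 2 - θ / 4) := ⟨_, rfl⟩
  have hR₀ : 0 < R₀ := by rw [hR₀d]; positivity
  have hR₀2 : R₀ ^ 2 = M ^ (1 - θ / 2) := by
    rw [hR₀d, ← Real.rpow_natCast, ← Real.rpow_mul hM0.le]
    congr 1
    push_cast
    ring
  obtain ⟨I, hId⟩ : ∃ x : ℕ, x = ⌊θ / 4 * ℓ / Real.log ρ⌋₊ := ⟨_, rfl⟩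
  have hI1 : (I : ℝ) ≤ θ / 4 * ℓ / Real.log ρ := by rw [hId]; exact Nat.floor_le (by positivity)
  have hI2 : θ / 4 * ℓ / Real.log ρ < I + 1 := by rw [hId]; exact Nat.lt_floor_add_one _
  have hIℓ : (I : ℝ) ≤ ℓ / Real.log ρ := by
    refine hI1.trans ?_
    apply div_le_div_of_nonneg_right _ hlρ.le
    nlinarith
  have hρI : ρ ^ I ≤ M ^ (θ / 4) := by
    rw [← Real.log_le_log_iff (by positivity) (by positivity), Real.log_pow, Real.log_rpow hM0, ← hℓ]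
    rwa [le_div_iff₀ hlρ] at hI1
  have hρI2 : M ^ (θ / 4) ≤ ρ * ρ ^ I := by
    rw [← pow_succ', ← Real.log_le_log_iff (by positivity) (by positivity), Real.log_pow, Real.log_rpow hM0, ← hℓ]
    rw [div_lt_iff₀ hlρ] at hI2
    push_cast
    exact hI2.le
  refine ⟨R₀, I, hR₀, hR₀2, ?_, ?_, by rw [← hℓ]; exact hIℓ⟩
  · calc (R₀ * ρ ^ I) ^ 2 = R₀ ^ 2 * (ρ ^ I) ^ 2 := by ring
      _ ≤ M ^ (1 - θ / 2) * (M ^ (θ / 4)) ^ 2 := by rw [hR₀2]; gcongr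
      _ = M := by
          rw [← Real.rpow_natCast, ← Real.rpow_mul hM0.le, ← Real.rpow_add hM0]
          conv_rhs => rw [← Real.rpow_one M]
          congr 1
          push_cast
          ring
  · have h1 : M ^ (θ / 4) / 2 ≤ ρ ^ I := by
      rw [div_le_iff₀ (by norm_num)]
      refine hρI2.trans ?_
      have : 0 < ρ ^ I := by positivity
      nlinarith
    calc M / 4 = M ^ (1 - θ / 2) * (M ^ (θ / 4) / 2) ^ 2 := by
          rw [div_pow, ← Real.rpow_natCast (M ^ (θ / 4)), ← Real.rpow_mul hM0.le, mul_div_assoc', ← Real.rpow_add hM0]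
          congr 1
          · conv_lhs => rw [← Real.rpow_one M]
            congr 1
            push_cast
            ring
          · norm_num
      _ ≤ M ^ (1 - θ / 2) * (ρ ^ I) ^ 2 := by gcongr
      _ = (R₀ * ρ ^ I) ^ 2 := by rw [← hR₀2]; ring

/-- the densities -/
theorem dens {θ c2 c3 c4 : ℝ} (hθ : 0 < θ) (hθ1 : θ ≤ 1) (hc2 : 0 < c2) (hc3 : 0 < c3) (h34 : c3 < c4) (h24 : c2 ≤ c4)
    (hc4' : c4 ≤ 1 / 16) :
    ∀ᶠ M : ℝ in atTop, ∀ D1 : ℝ, M / 4 ≤ D1 → D1 ≤ M →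
      sA M c3 c4 3 (M ^ (1 - θ / 2) / M ^ c2) D1 ≤ 288 * 12000 ∧
      sA M c3 c4 3 (M ^ (1 - θ / 2) / M ^ c2) D1 - sA M c3 c4 3 (M ^ (1 - θ / 2)) D1 ≤ 288 * 12000 * c2 ∧
      (c4 - c3) / 24000 * (θ / 48000) ≤ sA M c3 c4 3 (M ^ (1 - θ / 2)) D1 := by
  have hc4 : 0 < c4 := by linarith
  filter_upwards [s1_lo hc3 h34 (by linarith), sA_bd hc3.le h34 (by linarith) 3, eventually_ge_atTop (64 : ℝ),
    ev_log (12 / θ), ev_log (1 / c2), ev_rp (show 0 < θ / 2 by positivity) 4]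
    with M hs1 hsA hM64 hl1 hl2 hMθ
  intro D1 hD1M2 hD1M
  have hM0 : 0 < M := by linarith
  have hM1 : 1 ≤ M := by linarith
  have hM1' : 1 < M := by linarith
  obtain ⟨ℓ, hℓ⟩ : ∃ x, x = Real.log M := ⟨_, rfl⟩
  rw [← hℓ] at hl1 hl2 hsA
  have hℓ12 : 12 ≤ ℓ := by
    refine le_trans ?_ hl1
    rw [le_div_iff₀ hθ]
    linarith
  have hℓ0 : 0 < ℓ := by linarith
  obtain ⟨D0, hD0e⟩ : ∃ x, x = M ^ (1 - θ / 2) := ⟨_, rfl⟩
  rw [← hD0e]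
  have hD0p : 0 < D0 := by rw [hD0e]; positivity
  have hD01 : D0 ≤ D1 := by
    refine le_trans ?_ hD1M2
    rw [le_div_iff₀ (by norm_num), hD0e]
    calc M ^ (1 - θ / 2) * 4 ≤ M ^ (1 - θ / 2) * M ^ (θ / 2) := by gcongr
      _ = M := by rw [← Real.rpow_add hM0]; ring_nf; rw [Real.rpow_one]
  have hMc2 : 1 ≤ M ^ c2 := Real.one_le_rpow hM1 hc2.le
  have hD00' : D0 / M ^ c2 ≤ D0 := div_le_self hD0p.le hMc2
  have hD0' : M ^ c4 * M ^ c4 ≤ D0 / M ^ c2 := by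
    rw [le_div_iff₀ (by positivity), hD0e, ← Real.rpow_add hM0, ← Real.rpow_add hM0]
    exact Real.rpow_le_rpow_of_exponent_le hM1 (by linarith)
  have hD0'1 : 1 ≤ D0 / M ^ c2 := by
    refine le_trans ?_ hD0'
    have : 1 ≤ M ^ c4 := Real.one_le_rpow hM1 hc4.le
    nlinarith
  have hD1E : D1 ≤ M ^ 3 := hD1M.trans (by
    calc M = M ^ 1 := (pow_one M).symm
      _ ≤ M ^ 3 := pow_le_pow_right₀ hM1 (by norm_num))
  have hs1' : s1 M c3 c4 ≤ 288 := by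
    have := s1_le (c3 := c3) hM1' hc4.le
    linarith
  have hs10 : 0 ≤ s1 M c3 c4 := s1_nonneg hM1 _ _
  refine ⟨?_, ?_, ?_⟩
  · refine (hsA (D0 / M ^ c2) D1 hD0' (hD00'.trans hD01) hD1E).1.trans ?_
    have h1 : Real.log (D1 / (D0 / M ^ c2)) ≤ ℓ := by
      rw [hℓ]
      apply Real.log_le_log (div_pos (by linarith) (by linarith))
      exact (div_le_self (by linarith) hD0'1).trans hD1M
    have h2 : 6000 * (Real.log (D1 / (D0 / M ^ c2)) + 1) / ℓ ≤ 12000 := by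
      rw [div_le_iff₀ hℓ0]
      linarith
    have h3 : 0 ≤ 6000 * (Real.log (D1 / (D0 / M ^ c2)) + 1) / ℓ := by
      have : 0 ≤ Real.log (D1 / (D0 / M ^ c2)) := Real.log_nonneg (by
        rw [le_div_iff₀ (by linarith)]
        linarith)
      positivity
    exact mul_le_mul hs1' h2 h3 (by norm_num)
  · rw [sA_sub hD00' hD01]
    refine (hsA (D0 / M ^ c2) D0 hD0' hD00' (hD01.trans hD1E)).1.trans ?_
    have h1 : Real.log (D0 / (D0 / M ^ c2)) = c2 * ℓ := by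
      rw [hℓ, ← Real.log_rpow hM0]
      congr 1
      field_simp
    rw [h1]
    have h2 : 6000 * (c2 * ℓ + 1) / ℓ ≤ 12000 * c2 := by
      rw [div_le_iff₀ hℓ0]
      rw [div_le_iff₀ hc2] at hl2
      linarith
    calc s1 M c3 c4 * (6000 * (c2 * ℓ + 1) / ℓ) ≤ 288 * (12000 * c2) :=
          mul_le_mul hs1' h2 (by positivity) (by norm_num)
      _ = _ := by ring
  · refine le_trans ?_ (hsA D0 D1 (hD0'.trans hD00') hD01 hD1E).2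
    have h1 : θ / 2 * ℓ - 2 ≤ Real.log (D1 / D0) := by
      have h2 : M ^ (θ / 2) / 4 ≤ D1 / D0 := by
        rw [le_div_iff₀ hD0p]
        calc M ^ (θ / 2) / 4 * D0 = M / 4 := by
              rw [hD0e, div_mul_eq_mul_div, ← Real.rpow_add hM0]
              congr 1
              conv_rhs => rw [← Real.rpow_one M]
              congr 1
              ring
          _ ≤ D1 := hD1M2
      have h3 := Real.log_le_log (by positivity) h2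
      rw [Real.log_div (by positivity) (by norm_num), Real.log_rpow hM0, ← hℓ] at h3
      have h4 : Real.log 4 ≤ 2 := by
        rw [show (4 : ℝ) = 2 ^ 2 by norm_num, Real.log_pow]
        have := Real.log_two_lt_d9
        push_cast
        linarith
      linarith
    have h5 : θ / 48000 ≤ 1 / 12000 * (Real.log (D1 / D0) - 1) / ℓ := by
      rw [le_div_iff₀ hℓ0]
      rw [div_le_iff₀ hθ] at hl1
      linarith
    exact mul_le_mul hs1 h5 (by positivity) hs10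

/-- the bilinear errors of `l` -/
noncomputable def TT (M c1 c2 c3 c4 R₀ ρ : ℝ) (I q : ℕ) [NeZero q] (l : ℤ) : ℝ :=
  ∑ b : ZMod q, |∑ i ∈ range I, Th (bc M c1 c2 c3 c4 3 (R₀ * ρ ^ i) (R₀ * ρ ^ (i + 1)))
    (ind q b) (R₀ * ρ ^ i) (M / (8 * (R₀ * ρ ^ i))) l|

/-- the sum of the bilinear errors -/
theorem TT_sum {M L ε0 θ c1 c2 c3 c4 R₀ ρ C1 : ℝ} {I q A : ℕ} [NeZero q] (hM1 : 1 ≤ M) (hρ1 : 1 < ρ) (hρ2 : ρ ≤ 2)
    (hε02 : ε0 ≤ θ / 8) (hθ : 0 < θ) (hL1 : 1 ≤ L) (hθL : M ^ θ ≤ L) (hL3 : L ≤ M ^ (1 - ε0))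
    (hR₀ : 0 < R₀) (hR₀2 : R₀ ^ 2 = M ^ (1 - θ / 2)) (hD1M : (R₀ * ρ ^ I) ^ 2 ≤ M)
    (hcell : ∀ L R R' : ℝ, 1 ≤ L → L ≤ M ^ (1 - ε0) →
      0 < R → M ^ (1 + ε0) ≤ R ^ 2 * L → R ^ 2 ≤ L * M ^ (1 - ε0) → R ≤ R' → R' ≤ 2 * R →
      ∀ γ : ZI → ℝ, (∀ v, |γ v| ≤ 1) →
      ∑ l ∈ Icc (1 : ℤ) ⌊L⌋, |Th (bc M c1 c2 c3 c4 3 R R') γ R (M / (8 * R)) l| ≤ C1 * L * M / (Real.log M) ^ A) :
    ∑ l ∈ Icc (1 : ℤ) ⌊L⌋, TT M c1 c2 c3 c4 R₀ ρ I q l ≤ q * (I * (C1 * L * M / (Real.log M) ^ A)) := by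
  have hM0 : 0 < M := by linarith
  unfold TT
  calc ∑ l ∈ Icc (1 : ℤ) ⌊L⌋, ∑ b : ZMod q, |∑ i ∈ range I, Th (bc M c1 c2 c3 c4 3 (R₀ * ρ ^ i) (R₀ * ρ ^ (i + 1)))
        (ind q b) (R₀ * ρ ^ i) (M / (8 * (R₀ * ρ ^ i))) l| =
        ∑ b : ZMod q, ∑ l ∈ Icc (1 : ℤ) ⌊L⌋, |∑ i ∈ range I, Th (bc M c1 c2 c3 c4 3 (R₀ * ρ ^ i) (R₀ * ρ ^ (i + 1)))
        (ind q b) (R₀ * ρ ^ i) (M / (8 * (R₀ * ρ ^ i))) l| := sum_comm
    _ ≤ ∑ b : ZMod q, ∑ i ∈ range I, C1 * L * M / (Real.log M) ^ A := by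
        refine sum_le_sum fun b _ => ?_
        calc ∑ l ∈ Icc (1 : ℤ) ⌊L⌋, |∑ i ∈ range I, Th (bc M c1 c2 c3 c4 3 (R₀ * ρ ^ i) (R₀ * ρ ^ (i + 1)))
              (ind q b) (R₀ * ρ ^ i) (M / (8 * (R₀ * ρ ^ i))) l| ≤
              ∑ l ∈ Icc (1 : ℤ) ⌊L⌋, ∑ i ∈ range I, |Th (bc M c1 c2 c3 c4 3 (R₀ * ρ ^ i) (R₀ * ρ ^ (i + 1)))
              (ind q b) (R₀ * ρ ^ i) (M / (8 * (R₀ * ρ ^ i))) l| := sum_le_sum fun l _ => abs_sum_le_sum_abs _ _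
          _ = ∑ i ∈ range I, ∑ l ∈ Icc (1 : ℤ) ⌊L⌋, |Th (bc M c1 c2 c3 c4 3 (R₀ * ρ ^ i) (R₀ * ρ ^ (i + 1)))
              (ind q b) (R₀ * ρ ^ i) (M / (8 * (R₀ * ρ ^ i))) l| := sum_comm
          _ ≤ _ := by
              refine sum_le_sum fun i hi => ?_
              rw [mem_range] at hi
              have hRi : R₀ ≤ R₀ * ρ ^ i := le_mul_of_one_le_right hR₀.le (one_le_pow₀ hρ1.le)
              have hRi2 : R₀ * ρ ^ i ≤ R₀ * ρ ^ I := by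
                apply mul_le_mul_of_nonneg_left _ hR₀.le
                exact pow_le_pow_right₀ hρ1.le hi.le
              have hRi0 : 0 < R₀ * ρ ^ i := by positivity
              have g1 : R₀ ^ 2 ≤ (R₀ * ρ ^ i) ^ 2 := pow_le_pow_left₀ hR₀.le hRi 2
              have g2 : (R₀ * ρ ^ i) ^ 2 ≤ (R₀ * ρ ^ I) ^ 2 := pow_le_pow_left₀ hRi0.le hRi2 2
              refine hcell L (R₀ * ρ ^ i) (R₀ * ρ ^ (i + 1)) hL1 hL3 hRi0 ?_ ?_ ?_ ?_ (ind q b) (fun v => ?_)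
              · calc M ^ (1 + ε0) ≤ M ^ (1 - θ / 2 + θ) :=
                      Real.rpow_le_rpow_of_exponent_le hM1 (by linarith)
                  _ = M ^ (1 - θ / 2) * M ^ θ := by rw [Real.rpow_add hM0]
                  _ ≤ (R₀ * ρ ^ i) ^ 2 * L := by
                      rw [← hR₀2]
                      exact mul_le_mul g1 hθL (by positivity) (by positivity)
              · calc (R₀ * ρ ^ i) ^ 2 ≤ M := g2.trans hD1M
                  _ = M ^ ε0 * M ^ (1 - ε0) := by rw [← Real.rpow_add hM0]; ring_nf; rw [Real.rpow_one]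
                  _ ≤ L * M ^ (1 - ε0) := by
                      apply mul_le_mul_of_nonneg_right _ (by positivity)
                      exact (Real.rpow_le_rpow_of_exponent_le hM1 (by linarith)).trans hθL
              · apply mul_le_mul_of_nonneg_left _ hR₀.le
                exact pow_le_pow_right₀ hρ1.le (Nat.le_succ i)
              · rw [pow_succ]
                nlinarith
              · rw [abs_of_nonneg (ind_nonneg _ _ _)]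
                exact ind_le _ _ _
    _ = _ := by
        rw [sum_const, sum_const, card_univ, ZMod.card, card_range, nsmul_eq_mul, nsmul_eq_mul]

open Classical in
/-- the linear errors of `l` -/
noncomputable def EE2 (M c1 c2 c3 c4 D0 D1 X Y : ℝ) (l : ℤ) : ℝ :=
  |∑ i ∈ (bg D0 D1) ×ˢ (bg (M ^ c1) (M ^ c2)) ×ˢ (bg (M ^ c1) (M ^ c2)),
        (bA M c3 c4 3 i.1 * (if nn i.2.1 ≠ nn i.2.2 then f2 M c1 c2 i.2.1 * f2 M c1 c2 i.2.2 else 0)) *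
        (ca X Y l (i.1 * (i.2.1 * i.2.2)) - 2 * (Y - X) / nz (i.1 * (i.2.1 * i.2.2)))|

noncomputable def EE1 (M c1 c2 c3 c4 D0 D1 X Y : ℝ) (l : ℤ) : ℝ :=
  |∑ i ∈ (bg D0 D1) ×ˢ (bg (M ^ c1) (M ^ c2)) ×ˢ ({1} : Finset ZI),
        (bA M c3 c4 3 i.1 * f2 M c1 c2 i.2.1) *
        (ca X Y l (i.1 * i.2.1) - 2 * (Y - X) / nz (i.1 * i.2.1))|

noncomputable def EE0 (M c3 c4 D0 D1 X Y : ℝ) (l : ℤ) : ℝ :=
  |∑ i ∈ (bg D0 D1) ×ˢ ({1} : Finset ZI) ×ˢ ({1} : Finset ZI),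
        bA M c3 c4 3 i.1 * (ca X Y l i.1 - 2 * (Y - X) / nz i.1)|

open Classical in
/-- a fixed `l`: the number -/
theorem fixl2 {M c1 c2 c3 c4 R₀ ρ κ η cA CA : ℝ} {q I : ℕ} [NeZero q] {l : ℤ} (hM : 2 ≤ M) (hR₀ : 0 < R₀)
    (hκ : 0 < κ) (hκ1 : κ ≤ 1 / 10) (hρ : ρ = 1 + κ) (hD1 : 1 ≤ (R₀ * ρ ^ I) ^ 2) (hMc : 1 ≤ M ^ c2) (hη : 0 ≤ η)
    (hl : (l : ℝ) ^ 2 + (M / 8 / ρ) ^ 2 ≤ (M / 8) ^ 2) (hcA : 0 < cA) (hCA : 0 < CA) (hl' : |(l : ℝ)| ≤ M)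
    (hs : 1 ≤ s2 M c1 c2) (hCAb : sA M c3 c4 3 (R₀ ^ 2 / M ^ c2) ((R₀ * ρ ^ I) ^ 2) ≤ CA)
    (hδA : sA M c3 c4 3 (R₀ ^ 2 / M ^ c2) ((R₀ * ρ ^ I) ^ 2) - sA M c3 c4 3 (R₀ ^ 2) ((R₀ * ρ ^ I) ^ 2) ≤ CA * c2)
    (hcAb : cA ≤ sA M c3 c4 3 (R₀ ^ 2) ((R₀ * ρ ^ I) ^ 2))
    (hT : TT M c1 c2 c3 c4 R₀ ρ I q l ≤ η)
    (hE2 : EE2 M c1 c2 c3 c4 (R₀ ^ 2 / M ^ c2) ((R₀ * ρ ^ I) ^ 2) (M / 8 / ρ) (2 * ρ * (M / 8)) l ≤ η)
    (hE1 : EE1 M c1 c2 c3 c4 (R₀ ^ 2 / M ^ c2) ((R₀ * ρ ^ I) ^ 2) (M / 8 / ρ) (2 * ρ * (M / 8)) l ≤ η)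
    (hE0 : EE0 M c3 c4 (R₀ ^ 2 / M ^ c2) ((R₀ * ρ ^ I) ^ 2) (M / 8 / ρ) (2 * ρ * (M / 8)) l ≤ η)
    (hE0' : EE0 M c3 c4 (R₀ ^ 2) ((R₀ * ρ ^ I) ^ 2) (ρ * (M / 8)) (2 * (M / 8) / ρ) l ≤ η)
    (hκ2 : κ ≤ cA / (480 * CA * q ^ 2)) (hσ' : 640 * CA * q ^ 2 / (κ * cA) ≤ s2 M c1 c2)
    (hc22 : c2 ≤ cA / (64 * CA * q ^ 2)) (hη1 : η * (3 + κ / 2 + 6 / κ) ≤ M / 8 * cA / (32 * q ^ 2))
    (hη2 : η ≤ M / 8 * cA / 8) (b : ZMod q) :
    cA / 2304 / q * M ≤ (((an 0 (M / 4)).filter (fun m : ℤ => ((om (⟨l, m⟩ : ZI) : ℕ) : ZMod q) = b)).card : ℝ) := by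
  have hM1 : 1 ≤ M := by linarith
  have hM0 : 0 < M := by linarith
  have hρ0 : 0 < ρ := by rw [hρ]; linarith
  have hqR : (1 : ℝ) ≤ q := by exact_mod_cast Nat.pos_of_ne_zero (NeZero.ne q)
  have hTb : ∀ b : ZMod q, |∑ i ∈ range I, Th (bc M c1 c2 c3 c4 3 (R₀ * ρ ^ i) (R₀ * ρ ^ (i + 1))) (ind q b)
      (R₀ * ρ ^ i) (M / (8 * (R₀ * ρ ^ i))) l| ≤ η := by
    intro b
    refine le_trans ?_ hT
    exact single_le_sum (f := fun b => |∑ i ∈ range I, Th (bc M c1 c2 c3 c4 3 (R₀ * ρ ^ i) (R₀ * ρ ^ (i + 1)))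
      (ind q b) (R₀ * ρ ^ i) (M / (8 * (R₀ * ρ ^ i))) l|) (fun b' _ => abs_nonneg _) (mem_univ b)
  have hfix := fixl (q := q) (l := l) hM1 hR₀ hκ hκ1 hρ hD1 hMc hη hl hs hCAb hδA hcAb hcA.le hTb hE2 hE1 hE0 hE0' b
  have hfin := fin_arith (M := M) (cA := cA) (CA := CA) (κ := κ) (σ := s2 M c1 c2) (c2 := c2) (η := η) (q := q)
    hM0 hcA hCA hκ hqR (by linarith) hκ2 hσ' hc22 hη1 hη2
  have hX6 : 2 * (M / 8) / ρ ≤ M / 4 := by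
    rw [div_le_iff₀ hρ0, hρ]
    nlinarith
  have hcard := YY_card (c3 := c3) (c4 := c4) (D0 := R₀ ^ 2) (D1 := (R₀ * ρ ^ I) ^ 2) (X := ρ * (M / 8))
    (Y := 2 * (M / 8) / ρ) (M := M) hM (by positivity) (by linarith) (q := q) b (l := l) hl'
  have hmono : (((an (ρ * (M / 8)) (2 * (M / 8) / ρ)).filter (fun m : ℤ => ((om (⟨l, m⟩ : ZI) : ℕ) : ZMod q) = b)).card : ℝ) ≤
      (((an 0 (M / 4)).filter (fun m : ℤ => ((om (⟨l, m⟩ : ZI) : ℕ) : ZMod q) = b)).card : ℝ) := by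
    have : (an (ρ * (M / 8)) (2 * (M / 8) / ρ)).filter (fun m : ℤ => ((om (⟨l, m⟩ : ZI) : ℕ) : ZMod q) = b) ⊆
        (an 0 (M / 4)).filter (fun m : ℤ => ((om (⟨l, m⟩ : ZI) : ℕ) : ZMod q) = b) := by
      apply filter_subset_filter
      intro m hm
      rw [mem_an] at hm ⊢
      exact ⟨lt_of_le_of_lt (by positivity) hm.1, hm.2.trans hX6⟩
    exact_mod_cast card_le_card this
  have h5 := hfin.trans (hfix.trans hcard)
  have hq0 : (0 : ℝ) < q := by linarith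
  have h6 : M / 8 * cA / (2 * q) = 144 * (cA / 2304 / q * M) := by
    field_simp
    norm_num
  rw [h6] at h5
  linarith

/-- the size of the exceptional sets -/
theorem szT {q I ℓ lρ C1 L M η : ℝ} {A : ℕ} (hq : 0 ≤ q) (hℓ0 : 0 < ℓ) (hlρ : 0 < lρ) (hC1 : 0 < C1) (hL0 : 0 < L)
    (hM0 : 0 < M) (hη : η = M / ℓ) (hIℓ : I ≤ ℓ / lρ) (hl5 : 2 * q * C1 / lρ ≤ ℓ) :
    q * (I * (C1 * L * M / ℓ ^ (A + 3))) / η ≤ L / ℓ ^ A / 2 := by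
  have hη0 : 0 < η := by rw [hη]; positivity
  calc q * (I * (C1 * L * M / ℓ ^ (A + 3))) / η ≤ q * (ℓ / lρ * (C1 * L * M / ℓ ^ (A + 3))) / η := by gcongr
    _ = L / ℓ ^ A / 2 * ((2 * q * C1 / lρ) / ℓ) := by
        rw [hη, pow_add]
        field_simp
    _ ≤ L / ℓ ^ A / 2 * 1 := by
        apply mul_le_mul_of_nonneg_left _ (by positivity)
        rw [div_le_one hℓ0]
        exact hl5
    _ = _ := mul_one _

theorem szE {F ℓ L M η ε0 : ℝ} {A : ℕ} (hF : 0 < F) (hℓ0 : 0 < ℓ) (hL0 : 0 < L)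
    (hM0 : 0 < M) (hη : η = M / ℓ) (hMF : 8 * F ≤ M ^ (ε0 / 40)) (hlA : ℓ ^ (A + 1) ≤ M ^ (ε0 / 40)) :
    F * (L * M ^ (1 - ε0 / 20)) / η ≤ L / ℓ ^ A / 8 := by
  have h1 : 8 * F * ℓ ^ (A + 1) ≤ M ^ (ε0 / 20) := by
    calc 8 * F * ℓ ^ (A + 1) ≤ M ^ (ε0 / 40) * M ^ (ε0 / 40) := by
          apply mul_le_mul hMF hlA (by positivity) (by positivity)
      _ = M ^ (ε0 / 20) := by rw [← Real.rpow_add hM0]; ring_nf
  have h2 : M ^ (1 - ε0 / 20) = M / M ^ (ε0 / 20) := by rw [Real.rpow_sub hM0, Real.rpow_one]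
  rw [h2, hη]
  have h3 : F * (L * (M / M ^ (ε0 / 20))) / (M / ℓ) = L / ℓ ^ A / 8 * ((8 * F * ℓ ^ (A + 1)) / M ^ (ε0 / 20)) := by
    rw [pow_succ]
    field_simp
  rw [h3]
  calc L / ℓ ^ A / 8 * ((8 * F * ℓ ^ (A + 1)) / M ^ (ε0 / 20)) ≤ L / ℓ ^ A / 8 * 1 := by
        apply mul_le_mul_of_nonneg_left _ (by positivity)
        rw [div_le_one (by positivity)]
        exact h1
    _ = _ := mul_one _

open Classical in
theorem union5 {S : Finset ℤ} {P : ℤ → Prop} {F0 F1 F2 F3 F4 : ℤ → ℝ} {η x y : ℝ}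
    (hP : ∀ l ∈ S, F0 l ≤ η → F1 l ≤ η → F2 l ≤ η → F3 l ≤ η → F4 l ≤ η → P l)
    (m0 : ((S.filter (fun l => η < F0 l)).card : ℝ) ≤ x) (m1 : ((S.filter (fun l => η < F1 l)).card : ℝ) ≤ y)
    (m2 : ((S.filter (fun l => η < F2 l)).card : ℝ) ≤ y) (m3 : ((S.filter (fun l => η < F3 l)).card : ℝ) ≤ y)
    (m4 : ((S.filter (fun l => η < F4 l)).card : ℝ) ≤ y) :
    ((S.filter (fun l => ¬ P l)).card : ℝ) ≤ x + 4 * y := by
  have hsub : S.filter (fun l => ¬ P l) ⊆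
      S.filter (fun l => η < F0 l) ∪ (S.filter (fun l => η < F1 l) ∪ (S.filter (fun l => η < F2 l) ∪
        (S.filter (fun l => η < F3 l) ∪ S.filter (fun l => η < F4 l)))) := by
    intro l hl
    rw [mem_filter] at hl
    obtain ⟨hlS, hl⟩ := hl
    by_contra hnot
    apply hl
    simp only [mem_union, mem_filter, not_or, not_and, not_lt] at hnot
    obtain ⟨n0, n1, n2, n3, n4⟩ := hnot
    exact hP l hlS (n0 hlS) (n1 hlS) (n2 hlS) (n3 hlS) (n4 hlS)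
  have hfinal := card_le_card hsub
  have h1 := card_union_le (S.filter (fun l => η < F0 l)) (S.filter (fun l => η < F1 l) ∪ (S.filter (fun l => η < F2 l) ∪
      (S.filter (fun l => η < F3 l) ∪ S.filter (fun l => η < F4 l))))
  have h2 := card_union_le (S.filter (fun l => η < F1 l)) (S.filter (fun l => η < F2 l) ∪
      (S.filter (fun l => η < F3 l) ∪ S.filter (fun l => η < F4 l)))
  have h3 := card_union_le (S.filter (fun l => η < F2 l)) (S.filter (fun l => η < F3 l) ∪ S.filter (fun l => η < F4 l))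
  have h4 := card_union_le (S.filter (fun l => η < F3 l)) (S.filter (fun l => η < F4 l))
  have hR : ((S.filter (fun l => ¬ P l)).card : ℝ) ≤
      ((S.filter (fun l => η < F0 l)).card : ℝ) + (((S.filter (fun l => η < F1 l)).card : ℝ) +
        (((S.filter (fun l => η < F2 l)).card : ℝ) + (((S.filter (fun l => η < F3 l)).card : ℝ) +
        ((S.filter (fun l => η < F4 l)).card : ℝ)))) := by
    exact_mod_cast (by omega)
  linarith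

open Classical in
/-- **almost all `l`** -/
theorem main_avg {ε θ : ℝ} (hε : 0 < ε) (hε1 : ε ≤ 1) (hθ : 0 < θ) (hθ1 : θ ≤ 1) : ∃ c : ℝ, 0 < c ∧
    ∀ (q A : ℕ), 1 ≤ q → ∀ᶠ M : ℝ in atTop, ∀ L : ℝ, M ^ θ ≤ L → L ≤ M ^ (1 - ε) →
      (((Icc (1 : ℤ) ⌊L⌋).filter (fun l => ¬ ∀ b : ZMod q, c / q * M ≤
        (((an 0 (M / 4)).filter (fun m : ℤ => ((om (⟨l, m⟩ : ZI) : ℕ) : ZMod q) = b)).card : ℝ))).card : ℝ) ≤
        L / (Real.log M) ^ A := by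
  obtain ⟨ε0, hε0⟩ : ∃ x, x = min (ε / 2) (θ / 8) := ⟨_, rfl⟩
  have hε00 : 0 < ε0 := by rw [hε0]; exact lt_min (by positivity) (by positivity)
  have hε01 : ε0 ≤ ε / 2 := by rw [hε0]; exact min_le_left _ _
  have hε02 : ε0 ≤ θ / 8 := by rw [hε0]; exact min_le_right _ _
  obtain ⟨c4, hc4d⟩ : ∃ x, x = ε0 / 2 := ⟨_, rfl⟩
  obtain ⟨c3, hc3d⟩ : ∃ x, x = ε0 / 4 := ⟨_, rfl⟩
  have hc3 : 0 < c3 := by rw [hc3d]; positivity
  have h34 : c3 < c4 := by rw [hc3d, hc4d]; linarith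
  have hc4 : 0 < c4 := by linarith
  have hc4' : c4 ≤ 1 / 16 := by rw [hc4d]; linarith
  obtain ⟨cA, hcAd⟩ : ∃ x, x = (c4 - c3) / 24000 * (θ / 48000) := ⟨_, rfl⟩
  have hcA : 0 < cA := by
    rw [hcAd]
    have : 0 < c4 - c3 := by linarith
    positivity
  obtain ⟨CA, hCAd⟩ : ∃ x : ℝ, x = 288 * 12000 := ⟨_, rfl⟩
  have hCA : 0 < CA := by rw [hCAd]; norm_num
  refine ⟨cA / 2304, by positivity, ?_⟩
  intro q A hq
  have : NeZero q := ⟨by omega⟩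
  have hqR : (1 : ℝ) ≤ q := by exact_mod_cast hq
  obtain ⟨κ, hκd⟩ : ∃ x : ℝ, x = min (1 / 10) (cA / (480 * CA * q ^ 2)) := ⟨_, rfl⟩
  have hκ : 0 < κ := by rw [hκd]; exact lt_min (by norm_num) (by positivity)
  have hκ1 : κ ≤ 1 / 10 := by rw [hκd]; exact min_le_left _ _
  have hκ2 : κ ≤ cA / (480 * CA * q ^ 2) := by rw [hκd]; exact min_le_right _ _
  obtain ⟨c2, hc2d⟩ : ∃ x : ℝ, x = min c3 (cA / (64 * CA * q ^ 2)) := ⟨_, rfl⟩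
  have hc2 : 0 < c2 := by rw [hc2d]; exact lt_min hc3 (by positivity)
  have h23 : c2 ≤ c3 := by rw [hc2d]; exact min_le_left _ _
  have hc22 : c2 ≤ cA / (64 * CA * q ^ 2) := by rw [hc2d]; exact min_le_right _ _
  obtain ⟨K, hKd⟩ : ∃ x : ℕ, x = ⌈48000 * (640 * CA * q ^ 2 / (κ * cA) + 1)⌉₊ := ⟨_, rfl⟩
  have hK : 48000 * (640 * CA * q ^ 2 / (κ * cA) + 1) ≤ K := by rw [hKd]; exact Nat.le_ceil _
  obtain ⟨c1, hc1d⟩ : ∃ x : ℝ, x = c2 / 2 ^ K := ⟨_, rfl⟩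
  have hc1 : 0 < c1 := by rw [hc1d]; positivity
  have h12 : c1 ≤ c2 := by rw [hc1d]; exact div_le_self hc2.le (one_le_pow₀ (by norm_num))
  obtain ⟨ρ, hρ⟩ : ∃ x : ℝ, x = 1 + κ := ⟨_, rfl⟩
  have hρ0 : 0 < ρ := by rw [hρ]; linarith
  have hρ1 : 1 < ρ := by rw [hρ]; linarith
  have hlρ : 0 < Real.log ρ := Real.log_pos hρ1
  have hρ2 : ρ ≤ 2 := by rw [hρ]; linarith
  obtain ⟨C1, hC1, hcell⟩ := cell hc1 h12 h23 h34 (le_of_eq hc4d) (by linarith) (A + 3)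
  obtain ⟨F, hF, hav⟩ := e_av (ε := ε0) hε00 (by linarith) hc1 h12 h23 h34
  have hinv : 0 < 1 - 1 / ρ ^ 2 := by
    rw [sub_pos, div_lt_one (by positivity)]
    exact one_lt_pow₀ hρ1 (by norm_num)
  have hs2 := s2_lo hc2 (by linarith) K
  rw [← hc1d] at hs2
  filter_upwards [hcell, hav, hs2, dens hθ hθ1 hc2 hc3 h34 (by linarith) hc4', eventually_ge_atTop (64 : ℝ),
    ev_log 1, ev_log ((3 + κ / 2 + 6 / κ) * (256 * q ^ 2 / cA)), ev_log (64 / cA),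
    ev_log (2 * q * C1 / Real.log ρ), ev_rp (show 0 < 2 * ε by positivity) (64 / (1 - 1 / ρ ^ 2)),
    logpow (A + 1) (show 0 < ε0 / 40 by positivity) one_pos, ev_rp (show 0 < ε0 / 40 by positivity) (8 * F)]
    with M hcell hav hs2 hdens hM64 hl1 hl3 hl4 hl5 hMρ hlA hMF
  intro L hθL hLε
  have hM0 : 0 < M := by linarith only [hM64]
  have hM1 : 1 ≤ M := by linarith only [hM64]
  obtain ⟨ℓ, hℓ⟩ : ∃ x, x = Real.log M := ⟨_, rfl⟩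
  rw [← hℓ] at hl1 hl3 hl4 hl5 hlA hcell ⊢
  rw [one_mul] at hlA
  have hℓ0 : 0 < ℓ := by linarith only [hl1]
  have hL1 : 1 ≤ L := (Real.one_le_rpow hM1 hθ.le).trans hθL
  have hL0 : 0 < L := by linarith only [hL1]
  have hL2 : L ≤ M ^ (1 - 2 * ε0) := hLε.trans (Real.rpow_le_rpow_of_exponent_le hM1 (by linarith only [hε01]))
  have hL3 : L ≤ M ^ (1 - ε0) := hLε.trans (Real.rpow_le_rpow_of_exponent_le hM1 (by linarith only [hε01, hε00]))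
  obtain ⟨R₀, I, hR₀, hR₀2, hD1M, hD1M2, hIℓ⟩ := par hρ1 hρ2 hθ hθ1 (M := M) (by linarith only [hM64])
  rw [← hℓ] at hIℓ
  have hMc2 : 1 ≤ M ^ c2 := Real.one_le_rpow hM1 hc2.le
  have hD11 : 1 ≤ (R₀ * ρ ^ I) ^ 2 := by linarith only [hD1M2, hM64]
  obtain ⟨d1, d2, d3⟩ := hdens ((R₀ * ρ ^ I) ^ 2) hD1M2 hD1M
  rw [← hR₀2] at d1 d2 d3
  rw [← hCAd] at d1 d2
  rw [← hcAd] at d3
  have hσ : 640 * CA * q ^ 2 / (κ * cA) + 1 ≤ s2 M c1 c2 := by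
    refine le_trans ?_ hs2
    rw [le_div_iff₀ (by norm_num)]
    linarith only [hK]
  have hσ0 : 0 ≤ 640 * CA * q ^ 2 / (κ * cA) := by positivity
  obtain ⟨η, hη⟩ : ∃ x, x = M / ℓ := ⟨_, rfl⟩
  have hη0 : 0 < η := by rw [hη]; positivity
  have hη1 : η * (3 + κ / 2 + 6 / κ) ≤ M / 8 * cA / (32 * q ^ 2) := by
    rw [hη, le_div_iff₀ (by positivity)]
    have h1 : (3 + κ / 2 + 6 / κ) * (256 * q ^ 2) ≤ ℓ * cA := by
      rw [mul_div_assoc', div_le_iff₀ hcA] at hl3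
      exact hl3
    calc M / ℓ * (3 + κ / 2 + 6 / κ) * (32 * q ^ 2) = M / 8 * ((3 + κ / 2 + 6 / κ) * (256 * q ^ 2)) / ℓ := by ring
      _ ≤ M / 8 * (ℓ * cA) / ℓ := by gcongr
      _ = M / 8 * cA := by field_simp
  have hη2 : η ≤ M / 8 * cA / 8 := by
    rw [hη, div_le_iff₀ hℓ0]
    rw [div_le_iff₀ hcA] at hl4
    calc M = M / 64 * 64 := by ring
      _ ≤ M / 64 * (ℓ * cA) := by gcongr
      _ = _ := by ring
  have hX1 : M / 16 ≤ M / 8 / ρ := by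
    rw [le_div_iff₀ hρ0]
    nlinarith only [hρ2, hM0]
  have hX2 : M / 8 / ρ ≤ 2 * ρ * (M / 8) := by
    rw [div_le_iff₀ hρ0]
    nlinarith only [hρ1, hM0, mul_pos hM0 hρ0]
  have hX3 : 2 * ρ * (M / 8) ≤ M := by nlinarith only [hρ2, hM0]
  have hX4 : M / 16 ≤ ρ * (M / 8) := by nlinarith only [hρ1, hM0]
  have hρs : ρ ^ 2 ≤ 2 := by rw [hρ]; nlinarith only [hκ, hκ1]
  have hX5 : ρ * (M / 8) ≤ 2 * (M / 8) / ρ := by
    rw [le_div_iff₀ hρ0]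
    nlinarith only [hρs, hM0]
  have hX6 : 2 * (M / 8) / ρ ≤ M := by
    rw [div_le_iff₀ hρ0]
    nlinarith only [hρ1, hM0]
  have hDL : (R₀ * ρ ^ I) ^ 2 * M ^ (2 * c2) ≤ L * M ^ (1 - 2 * ε0) := by
    calc (R₀ * ρ ^ I) ^ 2 * M ^ (2 * c2) ≤ M * M ^ (2 * c2) := by gcongr
      _ = M ^ (1 + 2 * c2) := by rw [Real.rpow_add hM0, Real.rpow_one]
      _ ≤ M ^ (θ + (1 - 2 * ε0)) := Real.rpow_le_rpow_of_exponent_le hM1 (by linarith only [h23, hc3d, hε02, hε00])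
      _ = M ^ θ * M ^ (1 - 2 * ε0) := by rw [Real.rpow_add hM0]
      _ ≤ _ := by gcongr
  have hD01 : 1 ≤ R₀ ^ 2 / M ^ c2 := by
    rw [le_div_iff₀ (by positivity), hR₀2, one_mul]
    exact Real.rpow_le_rpow_of_exponent_le hM1 (by linarith only [hθ1, h23, h34, hc4'])
  have hD02 : 1 ≤ R₀ ^ 2 := hD01.trans (div_le_self (sq_nonneg _) hMc2)
  have hao := hav L (R₀ ^ 2 / M ^ c2) ((R₀ * ρ ^ I) ^ 2) (M / 8 / ρ) (2 * ρ * (M / 8)) hL1 hL2 hD01 hD11 hDL hX1 hX2 hX3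
  have hai := hav L (R₀ ^ 2) ((R₀ * ρ ^ I) ^ 2) (ρ * (M / 8)) (2 * (M / 8) / ρ) hL1 hL2 hD02 hD11 hDL hX4 hX5 hX6
  rw [hℓ] at hcell
  have hTs := TT_sum (q := q) hM1 hρ1 hρ2 hε02 hθ hL1 hθL hL3 hR₀ hR₀2 hD1M hcell
  rw [← hℓ] at hTs
  have m0 := markov (S := Icc (1 : ℤ) ⌊L⌋) (F := TT M c1 c2 c3 c4 R₀ ρ I q)
    (fun l _ => sum_nonneg fun b _ => abs_nonneg _) hη0 hTs
  have m1 := markov (S := Icc (1 : ℤ) ⌊L⌋)
    (F := EE2 M c1 c2 c3 c4 (R₀ ^ 2 / M ^ c2) ((R₀ * ρ ^ I) ^ 2) (M / 8 / ρ) (2 * ρ * (M / 8)))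
    (fun l _ => abs_nonneg _) hη0 hao.1
  have m2 := markov (S := Icc (1 : ℤ) ⌊L⌋)
    (F := EE1 M c1 c2 c3 c4 (R₀ ^ 2 / M ^ c2) ((R₀ * ρ ^ I) ^ 2) (M / 8 / ρ) (2 * ρ * (M / 8)))
    (fun l _ => abs_nonneg _) hη0 hao.2.1
  have m3 := markov (S := Icc (1 : ℤ) ⌊L⌋)
    (F := EE0 M c3 c4 (R₀ ^ 2 / M ^ c2) ((R₀ * ρ ^ I) ^ 2) (M / 8 / ρ) (2 * ρ * (M / 8)))
    (fun l _ => abs_nonneg _) hη0 hao.2.2
  have m4 := markov (S := Icc (1 : ℤ) ⌊L⌋)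
    (F := EE0 M c3 c4 (R₀ ^ 2) ((R₀ * ρ ^ I) ^ 2) (ρ * (M / 8)) (2 * (M / 8) / ρ))
    (fun l _ => abs_nonneg _) hη0 hai.2.2
  have hbT := szT (A := A) (by positivity) hℓ0 hlρ hC1 hL0 hM0 hη hIℓ hl5
  have hbE := szE (A := A) hF hℓ0 hL0 hM0 hη hMF hlA
  have hfin := union5 (P := fun l => ∀ b : ZMod q, cA / 2304 / q * M ≤
        (((an 0 (M / 4)).filter (fun m : ℤ => ((om (⟨l, m⟩ : ZI) : ℕ) : ZMod q) = b)).card : ℝ)) ?_
    (m0.trans hbT) (m1.trans hbE) (m2.trans hbE) (m3.trans hbE) (m4.trans hbE)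
  · refine hfin.trans (le_of_eq ?_)
    ring
  · intro l hlS n0 n1 n2 n3 n4 b
    rw [mem_Icc] at hlS
    have hlR : (l : ℝ) ≤ L := Int.le_floor.1 hlS.2
    have hlR0 : (1 : ℝ) ≤ l := by exact_mod_cast hlS.1
    have hlM : (l : ℝ) ≤ M ^ (1 - ε) := hlR.trans hLε
    have hl2 : (l : ℝ) ^ 2 + (M / 8 / ρ) ^ 2 ≤ (M / 8) ^ 2 := by
      have h1 : (l : ℝ) ^ 2 ≤ M ^ 2 / M ^ (2 * ε) := by
        calc (l : ℝ) ^ 2 ≤ (M ^ (1 - ε)) ^ 2 := pow_le_pow_left₀ (by linarith only [hlR0]) hlM 2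
          _ = M ^ (2 - 2 * ε) := by
              rw [← Real.rpow_natCast, ← Real.rpow_mul hM0.le]
              congr 1
              push_cast
              ring
          _ = M ^ 2 / M ^ (2 * ε) := by
              rw [Real.rpow_sub hM0]
              norm_num
      have h2 : M ^ 2 / M ^ (2 * ε) ≤ M ^ 2 / 64 * (1 - 1 / ρ ^ 2) := by
        rw [div_le_iff₀ (by positivity)]
        rw [div_le_iff₀ hinv] at hMρ
        nlinarith only [mul_le_mul_of_nonneg_left hMρ (sq_nonneg M)]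
      have h3 : (M / 8) ^ 2 - (M / 8 / ρ) ^ 2 = M ^ 2 / 64 * (1 - 1 / ρ ^ 2) := by
        field_simp
        ring
      linarith only [h1, h2, h3]
    have hl3 : |(l : ℝ)| ≤ M := by
      rw [abs_of_nonneg (by linarith only [hlR0])]
      refine hlM.trans ?_
      calc M ^ (1 - ε) ≤ M ^ (1 : ℝ) := Real.rpow_le_rpow_of_exponent_le hM1 (by linarith only [hε])
        _ = M := Real.rpow_one M
    exact fixl2 (by linarith only [hM64]) hR₀ hκ hκ1 hρ hD11 hMc2 hη0.le hl2 hcA hCA hl3 (by linarith only [hσ, hσ0]) d1 d2 d3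
      n0 n1 n2 n3 n4 hκ2 (by linarith only [hσ]) hc22 hη1 hη2 b

end Pool.Agent.J6H16.PF
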