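import Pool.Agent.N782.GN.All2

/-!
# Project PF (helper16): parity in thin families.  The mean value theorem for primitive numbers, the primes of degree one
-/

set_option autoImplicit false

namespace Pool.Agent.J6H16.PF

open Finset Filter Topology
open Pool.Agent.N782.GN Pool.Agent.N855.GN
open Pool.Agent.H304R3.HK (UH bb LamK)
open Pool.Agent.N546.GN.LSB (AA cA an)

/-- two primitive numbers on the same ray are equal -/
theorem prim_ray {V : ℝ} {t t' : ZI} (ht : t ∈ bl V) (ht' : t' ∈ bl V) (hp : ct t = 1) (hp' : ct t' = 1)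
    (h : an t = an t') : t = t' := by
  obtain ⟨w, hw, hwθ, hr⟩ := Pool.Agent.N546.GN.LSB.ray V (an t) ⟨t, ht, rfl⟩
  obtain ⟨g, hg, hgt⟩ := hr t ht rfl
  obtain ⟨g', hg', hgt'⟩ := hr t' ht' h.symm
  have key : ∀ (g : ℕ) (z : ZI), ct z = 1 → z = (g : ZI) * w → g = 1 := by
    intro g z hz hzg
    have h1 : g ∣ ct z := (Pool.Agent.N864.GN.MB.dvd_ct g z).1 ⟨w, hzg⟩
    rw [hz] at h1
    exact Nat.dvd_one.1 h1
  rw [hgt, hgt', key g t hp hgt, key g' t' hp' hgt']

/-- the mean value theorem for coefficients supported on the primitive numbers -/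
theorem lsbp {V : ℝ} (hV : 2 ≤ V) {K : ℕ} (hK : 1 ≤ K) (c : ZI → ℂ) (hc : ∀ t, ct t ≠ 1 → c t = 0) :
    ∑ k ∈ Icc (-(K : ℤ)) K, ‖∑ t ∈ bl V, c t * ph k 0 t‖ ^ 2 ≤ 72 * (K + V) * ∑ t ∈ bl V, ‖c t‖ ^ 2 := by
  classical
  simp only [Pool.Agent.N546.GN.LSB.sum_ph]
  refine (Pool.Agent.N546.GN.LSB.all V hV K hK _).trans ?_
  have hKV : (0 : ℝ) ≤ 72 * (K + V) := by
    have : (0 : ℝ) ≤ K := Nat.cast_nonneg _
    linarith
  refine mul_le_mul_of_nonneg_left ?_ hKV
  have hmap : ∀ t ∈ bl V, an t ∈ AA V := fun t ht => mem_image_of_mem _ ht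
  rw [← sum_fiberwise_of_maps_to hmap (fun t => ‖c t‖ ^ 2)]
  refine sum_le_sum fun θ _ => ?_
  unfold cA
  set F := (bl V).filter (fun t => an t = θ) with hF
  by_cases h : ∃ t ∈ F, ct t = 1
  · obtain ⟨t, ht, hp⟩ := h
    have h1 : ∑ t' ∈ F, c t' = c t := by
      refine sum_eq_single_of_mem t ht fun t' ht' hne => ?_
      by_contra hcon
      apply hne
      have hp' : ct t' = 1 := by
        by_contra hx
        exact hcon (hc t' hx)
      rw [hF, mem_filter] at ht ht'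
      exact prim_ray ht'.1 ht.1 hp' hp (by rw [ht'.2, ht.2])
    rw [h1]
    exact single_le_sum (f := fun t => ‖c t‖ ^ 2) (fun t _ => sq_nonneg _) ht
  · push Not at h
    have h1 : ∑ t' ∈ F, c t' = 0 := sum_eq_zero fun t' ht' => hc t' (h t' ht')
    rw [h1, norm_zero]
    have : 0 ≤ ∑ t ∈ F, ‖c t‖ ^ 2 := sum_nonneg fun t _ => sq_nonneg _
    simpa using this

/-- the norm of `t` is a prime number -/
def np (t : ZI) : Prop := (Zsqrtd.norm t).natAbs.Prime

open Classical in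
/-- `log N(t)` if `N(t)` is a prime number, `0` otherwise -/
noncomputable def Lp (t : ZI) : ℝ := if np t then Real.log (nz t) else 0

theorem nz_natAbs (z : ZI) : nz z = ((Zsqrtd.norm z).natAbs : ℝ) := by
  unfold nz
  rw [Nat.cast_natAbs]
  push_cast
  rw [abs_of_nonneg]
  exact_mod_cast GaussianInt.norm_nonneg z

theorem np_ne {t : ZI} (h : np t) : t ≠ 0 := by
  rintro rfl
  unfold np at h
  simp at h
  exact Nat.not_prime_zero h

theorem np_prime {t : ZI} (h : np t) : Prime t := by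
  rw [← irreducible_iff_prime]
  refine ⟨fun hu => ?_, fun a b hab => ?_⟩
  · have h1 := Zsqrtd.norm_eq_one_iff.2 hu
    unfold np at h
    rw [h1] at h
    exact Nat.not_prime_one h
  · unfold np at h
    rw [hab, Zsqrtd.norm_mul, Int.natAbs_mul] at h
    rcases Nat.prime_mul_iff.1 h with ⟨-, h2⟩ | ⟨-, h2⟩
    · exact Or.inr (Zsqrtd.norm_eq_one_iff.1 h2)
    · exact Or.inl (Zsqrtd.norm_eq_one_iff.1 h2)

theorem Lp_nonneg (t : ZI) : 0 ≤ Lp t := by
  unfold Lp
  split_ifs with h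
  · exact Real.log_nonneg (nz_one_le (np_ne h))
  · exact le_rfl

theorem Lp_le {t : ZI} (ht : t ≠ 0) : Lp t ≤ Real.log (nz t) := by
  unfold Lp
  split_ifs with h
  · exact le_rfl
  · exact Real.log_nonneg (nz_one_le ht)

theorem Lp_zero : Lp 0 = 0 := by
  unfold Lp
  rw [if_neg]
  exact fun h => np_ne h rfl

theorem LamK_np {t : ZI} (h : np t) : LamK t = Lp t := by
  unfold Lp
  rw [if_pos h]
  exact Pool.Agent.N157.GN.LamK_pow (np_prime h) one_pos (by rw [pow_one])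

theorem Lp_le_LamK (t : ZI) : Lp t ≤ LamK t := by
  by_cases h : np t
  · rw [LamK_np h]
  · unfold Lp
    rw [if_neg h]
    exact (c_mub.2.2.2.2.2 t).1

/-- a number of prime norm is coprime to the smaller rational integers -/
theorem cop_np {t : ZI} (h : np t) {q : ℕ} (hq : 1 ≤ q) (hqt : (q : ℝ) < nz t) : IsCoprime t ((q : ℕ) : ZI) := by
  rw [(np_prime h).coprime_iff_not_dvd]
  intro hd
  have h1 : Zsqrtd.norm t ∣ Zsqrtd.norm ((q : ℕ) : ZI) := by
    obtain ⟨e, he⟩ := hd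
    rw [he, Zsqrtd.norm_mul]
    exact dvd_mul_right _ _
  have h2 : (Zsqrtd.norm t).natAbs ∣ (Zsqrtd.norm ((q : ℕ) : ZI)).natAbs := Int.natAbs_dvd_natAbs.2 h1
  rw [Zsqrtd.norm_natCast, Int.natAbs_mul, Int.natAbs_natCast] at h2
  unfold np at h
  have h3 : (Zsqrtd.norm t).natAbs ∣ q := by
    rcases (Nat.Prime.dvd_mul h).1 h2 with h3 | h3 <;> exact h3
  have h4 := Nat.le_of_dvd hq h3
  rw [nz_natAbs] at hqt
  have h5 : ((Zsqrtd.norm t).natAbs : ℝ) ≤ q := by exact_mod_cast h4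
  linarith

end Pool.Agent.J6H16.PF
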