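import Pool.Agent.J6H16.PF.Pa

/-!
# Project PF (helper16): tools: partial summation, the hyperbola identity, the known estimates in terms of a large parameter
-/

set_option autoImplicit false

namespace Pool.Agent.J6H16.PF

open Finset Filter Topology MeasureTheory
open Pool.Agent.N782.GN Pool.Agent.N855.GN
open Pool.Agent.H304R3.HK (UH bb LamK)

/-- the weight `log N(b)` by partial summation -/
theorem abel_log (S : Finset ZI) (a : ZI → ℂ) (D Z B : ℝ) (hD : 1 ≤ D) (hDZ : D ≤ Z)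
    (hS : ∀ b ∈ S, D < nz b ∧ nz b ≤ Z)
    (hB : ∀ x : ℝ, D ≤ x → x ≤ Z → ‖∑ b ∈ S with x < nz b, a b‖ ≤ B) :
    ‖∑ b ∈ S, a b * (Real.log (nz b) : ℂ)‖ ≤ B * Real.log Z := by
  classical
  have hD0 : 0 < D := by linarith
  have hZ0 : 0 < Z := by linarith
  have hBS : ‖∑ b ∈ S, a b‖ ≤ B := by
    have h := hB D le_rfl hDZ
    rwa [filter_true_of_mem (fun b hb => (hS b hb).1)] at h
  have hB0 : 0 ≤ B := (norm_nonneg _).trans hBS
  -- the integrand
  have hint : ∀ b ∈ S, IntervalIntegrable (fun x : ℝ => if x < nz b then (x⁻¹ : ℝ) else 0) volume D Z := by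
    intro b _
    have h1 : IntervalIntegrable (fun x : ℝ => x⁻¹) volume D Z := by
      apply ContinuousOn.intervalIntegrable
      intro x hx
      rw [Set.uIcc_of_le hDZ] at hx
      exact (continuousAt_inv₀ (by linarith [hx.1] : x ≠ 0)).continuousWithinAt
    have h2 : (fun x : ℝ => if x < nz b then (x⁻¹ : ℝ) else 0) = Set.indicator (Set.Iio (nz b)) (fun x => x⁻¹) := by
      funext x
      rw [Set.indicator_apply]
      rfl
    rw [h2]
    rw [intervalIntegrable_iff] at h1 ⊢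
    exact h1.indicator measurableSet_Iio
  have hlog : ∀ b ∈ S, Real.log (nz b) = Real.log D + ∫ x in D..Z, (if x < nz b then (x⁻¹ : ℝ) else 0) := by
    intro b hb
    obtain ⟨h1, h2⟩ := hS b hb
    have h3 : ∫ x in D..Z, (if x < nz b then (x⁻¹ : ℝ) else 0) =
        (∫ x in D..nz b, (if x < nz b then (x⁻¹ : ℝ) else 0)) + ∫ x in nz b..Z, (if x < nz b then (x⁻¹ : ℝ) else 0) := by
      rw [intervalIntegral.integral_add_adjacent_intervals]
      · exact (hint b hb).mono_set (by rw [Set.uIcc_of_le h1.le, Set.uIcc_of_le hDZ]; exact Set.Icc_subset_Icc_right h2)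
      · exact (hint b hb).mono_set (by rw [Set.uIcc_of_le h2, Set.uIcc_of_le hDZ]; exact Set.Icc_subset_Icc_left h1.le)
    have h4 : ∫ x in D..nz b, (if x < nz b then (x⁻¹ : ℝ) else 0) = ∫ x in D..nz b, (x⁻¹ : ℝ) := by
      rw [intervalIntegral.integral_of_le h1.le, intervalIntegral.integral_of_le h1.le,
        integral_Ioc_eq_integral_Ioo, integral_Ioc_eq_integral_Ioo]
      exact setIntegral_congr_fun measurableSet_Ioo fun x hx => if_pos hx.2
    have h5 : ∫ x in nz b..Z, (if x < nz b then (x⁻¹ : ℝ) else 0) = 0 := by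
      rw [intervalIntegral.integral_of_le h2]
      exact setIntegral_eq_zero_of_forall_eq_zero fun x hx => if_neg (not_lt.2 hx.1.le)
    rw [h3, h4, h5, integral_inv_of_pos hD0 (by linarith), Real.log_div (by linarith) (by linarith)]
    ring
  have e1 : ∑ b ∈ S, a b * (Real.log (nz b) : ℂ) = (Real.log D : ℂ) * ∑ b ∈ S, a b +
      ∫ x in D..Z, (x⁻¹ : ℝ) • ∑ b ∈ S with x < nz b, a b := by
    have e2 : ∀ x : ℝ, (x⁻¹ : ℝ) • ∑ b ∈ S with x < nz b, a b =
        ∑ b ∈ S, a b * (((if x < nz b then (x⁻¹ : ℝ) else 0) : ℝ) : ℂ) := by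
      intro x
      rw [sum_filter, smul_sum]
      refine sum_congr rfl fun b _ => ?_
      split_ifs
      · rw [Complex.real_smul, mul_comm]
      · simp
    simp only [e2]
    rw [intervalIntegral.integral_finsetSum (fun b hb => by
      have h6 : IntervalIntegrable (fun x : ℝ => (((if x < nz b then (x⁻¹ : ℝ) else 0) : ℝ) : ℂ)) volume D Z :=
        ⟨(hint b hb).1.ofReal, (hint b hb).2.ofReal⟩
      exact h6.const_mul (a b))]
    rw [mul_sum, ← sum_add_distrib]
    refine sum_congr rfl fun b hb => ?_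
    rw [intervalIntegral.integral_const_mul, intervalIntegral.integral_ofReal, hlog b hb]
    push_cast
    ring
  rw [e1]
  have e3 : ‖∫ x in D..Z, (x⁻¹ : ℝ) • ∑ b ∈ S with x < nz b, a b‖ ≤ ∫ x in D..Z, B * x⁻¹ := by
    apply intervalIntegral.norm_integral_le_of_norm_le hDZ
    · refine ae_of_all _ fun x hx => ?_
      have hx0 : 0 < x := by linarith [hx.1]
      rw [norm_smul, Real.norm_of_nonneg (inv_nonneg.2 hx0.le), mul_comm]
      exact mul_le_mul_of_nonneg_right (hB x hx.1.le hx.2) (inv_nonneg.2 hx0.le)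
    · apply IntervalIntegrable.const_mul
      apply ContinuousOn.intervalIntegrable
      intro x hx
      rw [Set.uIcc_of_le hDZ] at hx
      exact (continuousAt_inv₀ (by linarith [hx.1] : x ≠ 0)).continuousWithinAt
  rw [intervalIntegral.integral_const_mul, integral_inv_of_pos hD0 hZ0,
    Real.log_div hZ0.ne' hD0.ne'] at e3
  have hlD : 0 ≤ Real.log D := Real.log_nonneg hD
  have e4 : ‖(Real.log D : ℂ) * ∑ b ∈ S, a b‖ ≤ Real.log D * B := by
    rw [norm_mul, Complex.norm_real, Real.norm_of_nonneg hlD]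
    exact mul_le_mul_of_nonneg_left hBS hlD
  calc _ ≤ ‖(Real.log D : ℂ) * ∑ b ∈ S, a b‖ + ‖∫ x in D..Z, (x⁻¹ : ℝ) • ∑ b ∈ S with x < nz b, a b‖ :=
        norm_add_le _ _
    _ ≤ Real.log D * B + B * (Real.log Z - Real.log D) := add_le_add e4 e3
    _ = B * Real.log Z := by ring

/-- the identity `Λ = - (μ log) * 1`, real functions -/
theorem hypR (F : ZI → ℝ) (X : ℝ) (hX : 1 ≤ X) (hF : ∀ z, z ∉ bl X → F z = 0) :
    ∑ z ∈ bl X, LamK z * F z = -(1 / 4) * ∑ b ∈ bl X, ∑ u ∈ bl X, mu b * Real.log (nz b) * F (b * u) := by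
  classical
  have h0 : F 0 = 0 := hF 0 fun h => ((mem_bl _ _).1 h).1 rfl
  have h := c_vau F X X 1 hX le_rfl hX h0 (fun z hz => hF z fun h => by
    have := ((mem_bl _ _).1 h).2
    linarith)
  have hL1 : ∀ z ∈ bl 1, LamK z = 0 := by
    intro z hz
    rw [mem_bl] at hz
    have h1 := c_mub.2.2.2.2.2 z
    have h2 : nz z = 1 := le_antisymm hz.2 (nz_one_le hz.1)
    have h3 := h1.2 hz.1
    rw [h2, Real.log_one] at h3
    exact le_antisymm h3 h1.1
  have e1 : ∑ z ∈ bl 1, LamK z * F z = 0 := sum_eq_zero fun z hz => by rw [hL1 z hz, zero_mul]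
  have e3 : ∑ b ∈ bl X, ∑ c ∈ bl 1, ∑ u ∈ bl X, mu b * LamK c * F (b * c * u) = 0 :=
    sum_eq_zero fun b _ => sum_eq_zero fun c hc => sum_eq_zero fun u _ => by rw [hL1 c hc]; ring
  have e4 : (bl X).filter (fun b => X < nz b) = ∅ := by
    rw [filter_eq_empty_iff]
    intro b hb
    exact not_lt.2 ((mem_bl _ _).1 hb).2
  rw [e1, e3, e4, sum_empty, zero_add, mul_zero, sub_zero, add_zero] at h
  rw [h]
  have e5 : ∑ b ∈ bl X, ∑ u ∈ bl X, mu b * (Real.log (nz (b * u)) * F (b * u)) = 0 := by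
    rw [← grp2 X mu (fun t => Real.log (nz t) * F t) (fun m hm => by rw [hF m hm, mul_zero])]
    refine sum_eq_zero fun m hm => ?_
    have h3 : ∑ b ∈ Dv m, mu b = if IsUnit m then 4 else 0 := c_mub.2.2.2.1 m ((mem_bl _ _).1 hm).1
    rw [h3]
    split_ifs with hu
    · rw [nz_unit hu, Real.log_one]
      ring
    · ring
  have e6 : ∑ b ∈ bl X, ∑ u ∈ bl X, mu b * Real.log (nz u) * F (b * u) =
      ∑ b ∈ bl X, ∑ u ∈ bl X, mu b * (Real.log (nz (b * u)) * F (b * u)) -
      ∑ b ∈ bl X, ∑ u ∈ bl X, mu b * Real.log (nz b) * F (b * u) := by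
    rw [← sum_sub_distrib]
    refine sum_congr rfl fun b hb => ?_
    rw [← sum_sub_distrib]
    refine sum_congr rfl fun u hu => ?_
    rw [Pool.Agent.N855.GN.nz_mul, Real.log_mul (nz_pos ((mem_bl _ _).1 hb).1).ne' (nz_pos ((mem_bl _ _).1 hu).1).ne']
    ring
  rw [e6, e5]
  ring

/-- the identity `Λ = - (μ log) * 1` -/
theorem hyp (F : ZI → ℂ) (X : ℝ) (hX : 1 ≤ X) (hF : ∀ z, z ∉ bl X → F z = 0) :
    ∑ z ∈ bl X, (LamK z : ℂ) * F z =
      -(1 / 4) * ∑ b ∈ bl X, ∑ u ∈ bl X, ((mu b * Real.log (nz b) : ℝ) : ℂ) * F (b * u) := by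
  have h1 := hypR (fun z => (F z).re) X hX (fun z hz => by rw [hF z hz]; rfl)
  have h2 := hypR (fun z => (F z).im) X hX (fun z hz => by rw [hF z hz]; rfl)
  apply Complex.ext
  · have e1 : (∑ z ∈ bl X, (LamK z : ℂ) * F z).re = ∑ z ∈ bl X, LamK z * (F z).re := by
      rw [Complex.re_sum]
      exact sum_congr rfl fun z _ => by rw [Complex.re_ofReal_mul]
    have e2 : (-(1 / 4) * ∑ b ∈ bl X, ∑ u ∈ bl X, ((mu b * Real.log (nz b) : ℝ) : ℂ) * F (b * u)).re =
        -(1 / 4) * ∑ b ∈ bl X, ∑ u ∈ bl X, mu b * Real.log (nz b) * (F (b * u)).re := by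
      have : (-(1 / 4) : ℂ) = ((-(1 / 4) : ℝ) : ℂ) := by push_cast; ring
      rw [this, Complex.re_ofReal_mul, Complex.re_sum]
      congr 1
      refine sum_congr rfl fun b _ => ?_
      rw [Complex.re_sum]
      exact sum_congr rfl fun u _ => by rw [Complex.re_ofReal_mul]
    rw [e1, e2, h1]
  · have e1 : (∑ z ∈ bl X, (LamK z : ℂ) * F z).im = ∑ z ∈ bl X, LamK z * (F z).im := by
      rw [Complex.im_sum]
      exact sum_congr rfl fun z _ => by rw [Complex.im_ofReal_mul]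
    have e2 : (-(1 / 4) * ∑ b ∈ bl X, ∑ u ∈ bl X, ((mu b * Real.log (nz b) : ℝ) : ℂ) * F (b * u)).im =
        -(1 / 4) * ∑ b ∈ bl X, ∑ u ∈ bl X, mu b * Real.log (nz b) * (F (b * u)).im := by
      have : (-(1 / 4) : ℂ) = ((-(1 / 4) : ℝ) : ℂ) := by push_cast; ring
      rw [this, Complex.im_ofReal_mul, Complex.im_sum]
      congr 1
      refine sum_congr rfl fun b _ => ?_
      rw [Complex.im_sum]
      exact sum_congr rfl fun u _ => by rw [Complex.im_ofReal_mul]
    rw [e1, e2, h2]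

open Classical in
/-- change of the variable in a class -/
theorem reidx {q : ℕ} {r b e f : ZI} {X X' : ℝ} (hb : b ≠ 0) (hef : e * b + f * ((q : ℕ) : ZI) = 1)
    (hX : X' ≤ X) (hX0 : 0 ≤ X') (G : ZI → ℂ) :
    ∑ u ∈ bl X, (if b * u ∈ cls q r X' then G u else 0) = ∑ u ∈ cls q (e * r) (X' / nz b), G u := by
  rw [← sum_filter]
  refine sum_congr ?_ fun _ _ => rfl
  have hbp := nz_pos hb
  have hb1 := nz_one_le hb
  ext u
  unfold cls
  simp only [mem_filter, mem_bl]
  constructor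
  · rintro ⟨⟨hu0, -⟩, ⟨-, h2⟩, h3⟩
    refine ⟨⟨hu0, ?_⟩, ?_⟩
    · rw [Pool.Agent.N855.GN.nz_mul] at h2
      rw [le_div_iff₀ hbp, mul_comm]
      exact h2
    · have h4 : u - e * r = e * (b * u - r) + f * u * ((q : ℕ) : ZI) := by linear_combination (-u) * hef
      rw [h4]
      exact dvd_add (Dvd.dvd.mul_left h3 _) (dvd_mul_left _ _)
  · rintro ⟨⟨hu0, h2⟩, h3⟩
    rw [le_div_iff₀ hbp] at h2
    refine ⟨⟨hu0, ?_⟩, ⟨mul_ne_zero hb hu0, ?_⟩, ?_⟩
    · have h5 : nz u ≤ nz u * nz b := le_mul_of_one_le_right (nz_nonneg u) hb1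
      linarith
    · rw [Pool.Agent.N855.GN.nz_mul, mul_comm]
      exact h2
    · have h4 : b * u - r = b * (u - e * r) - r * f * ((q : ℕ) : ZI) := by linear_combination r * hef
      rw [h4]
      exact dvd_sub (Dvd.dvd.mul_left h3 _) (dvd_mul_left _ _)

open Classical in
theorem reidx0 {q : ℕ} {r b : ZI} {X X' : ℝ} (hr : IsCoprime r ((q : ℕ) : ZI))
    (hb : ¬ IsCoprime b ((q : ℕ) : ZI)) (G : ZI → ℂ) :
    ∑ u ∈ bl X, (if b * u ∈ cls q r X' then G u else 0) = 0 := by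
  refine sum_eq_zero fun u _ => if_neg fun h => ?_
  unfold cls at h
  rw [mem_filter] at h
  exact hb (coprime_of hr u (by rw [mul_comm]; exact h.2))

end Pool.Agent.J6H16.PF
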