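import Pool.Agent.J6H16.PF.Pb

/-!
# Project PF (helper16): the known estimates in terms of a large parameter `M`
-/

set_option autoImplicit false

namespace Pool.Agent.J6H16.PF

open Finset Filter Topology MeasureTheory
open Pool.Agent.N782.GN Pool.Agent.N855.GN
open Pool.Agent.H304R3.HK (UH bb LamK)

theorem ev_log (K : ℝ) : ∀ᶠ M : ℝ in atTop, K ≤ Real.log M := Real.tendsto_log_atTop.eventually_ge_atTop K

theorem ev_rp {c : ℝ} (hc : 0 < c) (K : ℝ) : ∀ᶠ M : ℝ in atTop, K ≤ M ^ c :=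
  (tendsto_rpow_atTop hc).eventually_ge_atTop K

/-- the Moebius function in classes with frequencies -/
theorem pcm {ε : ℝ} (hε : 0 < ε) (A B E : ℕ) : ∃ C : ℝ, 0 < C ∧ ∀ᶠ M : ℝ in atTop,
    ∀ (Z : ℝ) (q : ℕ) (r : ZI) (k : ℤ), M ^ ε ≤ Z → 1 ≤ q → (q : ℝ) ≤ (Real.log M) ^ B →
      IsCoprime r ((q : ℕ) : ZI) → |(k : ℝ)| ≤ M ^ E →
      ‖∑ t ∈ cls q r Z, (mu t : ℂ) * ph k 0 t‖ ≤ C * Z / (Real.log M) ^ A := by
  obtain ⟨C, hC, h1⟩ := c_pc A (B + 1) ⌈E / ε⌉₊
  refine ⟨C / ε ^ A, by positivity, ?_⟩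
  filter_upwards [ev_log ((1 / ε) ^ (B + 1)), ev_rp hε 2, eventually_ge_atTop (3 : ℝ)] with V hV1 hV2 hV3
  intro Z q r k hZ hq hqB hr hk
  have hL := one_le_log hV3
  have hV0 : 0 < V := by linarith
  have hZ2 : 2 ≤ Z := hV2.trans hZ
  have hZ0 : 0 < Z := by linarith
  have hlZ : ε * Real.log V ≤ Real.log Z := by
    rw [← Real.log_rpow hV0]
    exact Real.log_le_log (by linarith) hZ
  have b1 : (q : ℝ) ≤ (Real.log Z) ^ (B + 1) := by
    refine hqB.trans ?_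
    have c1 : (Real.log V) ^ B ≤ (ε * Real.log V) ^ (B + 1) := by
      rw [mul_pow, pow_succ (Real.log V) B]
      have c2 : 1 ≤ ε ^ (B + 1) * Real.log V := by
        have c3 : ε ^ (B + 1) * (1 / ε) ^ (B + 1) = 1 := by
          rw [← mul_pow]
          have : ε * (1 / ε) = 1 := by field_simp
          rw [this, one_pow]
        rw [← c3]
        exact mul_le_mul_of_nonneg_left hV1 (by positivity)
      calc (Real.log V) ^ B = (Real.log V) ^ B * 1 := (mul_one _).symm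
        _ ≤ (Real.log V) ^ B * (ε ^ (B + 1) * Real.log V) := mul_le_mul_of_nonneg_left c2 (by positivity)
        _ = _ := by ring
    exact c1.trans (pow_le_pow_left₀ (by positivity) hlZ _)
  have b2 : |(k : ℝ)| ≤ Z ^ ⌈E / ε⌉₊ := by
    refine hk.trans ?_
    have c1 : (V ^ ε) ^ ((E : ℝ) / ε) = V ^ E := by
      rw [← Real.rpow_mul hV0.le]
      have : ε * ((E : ℝ) / ε) = E := by field_simp
      rw [this, Real.rpow_natCast]
    calc V ^ E = (V ^ ε) ^ ((E : ℝ) / ε) := c1.symm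
      _ ≤ Z ^ ((E : ℝ) / ε) := Real.rpow_le_rpow (by positivity) hZ (by positivity)
      _ ≤ Z ^ ((⌈(E : ℝ) / ε⌉₊ : ℕ) : ℝ) := Real.rpow_le_rpow_of_exponent_le (by linarith) (Nat.le_ceil _)
      _ = Z ^ ⌈(E : ℝ) / ε⌉₊ := Real.rpow_natCast _ _
  refine (h1 Z q r k hZ2 hq b1 hr b2).trans ?_
  have c1 : (ε * Real.log V) ^ A ≤ (Real.log Z) ^ A := pow_le_pow_left₀ (by positivity) hlZ _
  calc C * Z / (Real.log Z) ^ A ≤ C * Z / (ε * Real.log V) ^ A :=
        div_le_div_of_nonneg_left (by positivity) (by positivity) c1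
    _ = C / ε ^ A * Z / (Real.log V) ^ A := by
        rw [mul_pow]
        field_simp

/-- the frequencies `k ≠ 0` in classes -/
theorem em {ε : ℝ} (hε : 0 < ε) (A B E : ℕ) : ∀ᶠ M : ℝ in atTop,
    ∀ (Z : ℝ) (q : ℕ) (r : ZI) (k : ℤ), M ^ ε ≤ Z → 1 ≤ q → (q : ℝ) ≤ (Real.log M) ^ B → k ≠ 0 →
      |(k : ℝ)| ≤ M ^ E → ‖∑ t ∈ cls q r Z, ph k 0 t‖ ≤ Z / (Real.log M) ^ A := by
  obtain ⟨a, b, T₀, ha, hab, hb, hT₀, h⟩ := c_e B
  have g1 : ∀ᶠ x : ℝ in atTop, (((E : ℝ) + 1) * x) ^ b ≤ ε * x := by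
    filter_upwards [ev_rp (show 0 < 1 - b by linarith) (((E : ℝ) + 1) ^ b / ε), eventually_ge_atTop (1 : ℝ)] with x hx hx1
    have hx0 : 0 < x := by linarith
    rw [div_le_iff₀ hε] at hx
    rw [Real.mul_rpow (by positivity) hx0.le]
    have h3 : x ^ (1 - b) * x ^ b = x := by
      rw [← Real.rpow_add hx0, sub_add_cancel, Real.rpow_one]
    calc ((E : ℝ) + 1) ^ b * x ^ b ≤ (x ^ (1 - b) * ε) * x ^ b := mul_le_mul_of_nonneg_right hx (by positivity)
      _ = ε * (x ^ (1 - b) * x ^ b) := by ring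
      _ = ε * x := by rw [h3]
  have g2 : ∀ᶠ x : ℝ in atTop, (A : ℝ) * Real.log x ≤ ε * x * (((E : ℝ) + 1) * x) ^ (-a) := by
    have h1 := isLittleO_log_rpow_atTop (show 0 < 1 - a by linarith)
    have h2 := h1.def (show 0 < ε * ((E : ℝ) + 1) ^ (-a) / (A + 1) by positivity)
    filter_upwards [h2, eventually_ge_atTop (1 : ℝ)] with x hx hx1
    have hx0 : 0 < x := by linarith
    rw [Real.norm_of_nonneg (Real.log_nonneg hx1), Real.norm_of_nonneg (Real.rpow_nonneg hx0.le _)] at hx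
    have h3 : ε * x * (((E : ℝ) + 1) * x) ^ (-a) = ε * ((E : ℝ) + 1) ^ (-a) * x ^ (1 - a) := by
      rw [Real.mul_rpow (by positivity) hx0.le, show (1 : ℝ) - a = 1 + -a by ring, Real.rpow_add hx0, Real.rpow_one]
      ring
    rw [h3]
    have h4 : (A : ℝ) ≤ A + 1 := by linarith
    calc (A : ℝ) * Real.log x ≤ (A + 1) * (ε * ((E : ℝ) + 1) ^ (-a) / (A + 1) * x ^ (1 - a)) :=
          mul_le_mul h4 hx (Real.log_nonneg hx1) (by positivity)
      _ = ε * ((E : ℝ) + 1) ^ (-a) * x ^ (1 - a) := by field_simp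
  have g1' := Real.tendsto_log_atTop.eventually g1
  have g2' := Real.tendsto_log_atTop.eventually g2
  filter_upwards [g1', g2', eventually_ge_atTop T₀, eventually_ge_atTop (3 : ℝ)] with M g1 g2 hMT hM3
  intro Z q r k hZ hq hqB hk hkE
  have hM0 : 0 < M := by linarith
  have hM1 : 1 ≤ M := by linarith
  have hL := one_le_log hM3
  have hL0 : 0 < Real.log M := by linarith
  set T : ℝ := M ^ (E + 1) with hT
  have hlT : Real.log T = ((E : ℝ) + 1) * Real.log M := by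
    rw [hT, Real.log_pow]
    push_cast
    ring
  have hMTT : M ≤ T := by
    rw [hT]
    calc M = M ^ 1 := (pow_one M).symm
      _ ≤ M ^ (E + 1) := pow_le_pow_right₀ hM1 (by omega)
  have hZ0 : 0 < Z := lt_of_lt_of_le (by positivity) hZ
  have hMe : 1 ≤ M ^ ε := Real.one_le_rpow hM1 hε.le
  have e1 : Real.exp ((Real.log T) ^ b) ≤ Z := by
    refine le_trans ?_ hZ
    rw [Real.rpow_def_of_pos hM0, Real.exp_le_exp, hlT, mul_comm (Real.log M) ε]
    exact g1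
  have e2 : (q : ℝ) ≤ (Real.log T) ^ B := by
    refine hqB.trans (pow_le_pow_left₀ hL0.le ?_ B)
    rw [hlT]
    have : (0 : ℝ) ≤ E := Nat.cast_nonneg E
    nlinarith
  have e3 : |(k : ℝ)| ≤ T := hkE.trans (pow_le_pow_right₀ hM1 (Nat.le_succ E))
  have h1 := h T Z k 0 q r (hMT.trans hMTT) e1 hk e3 (by rw [abs_zero]; linarith) hq e2
  refine h1.trans ?_
  set δ := (Real.log T) ^ (-a) with hδ
  have hlT0 : 0 < Real.log T := by rw [hlT]; positivity
  have hδ0 : 0 < δ := Real.rpow_pos_of_pos hlT0 _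
  rw [sub_eq_add_neg, Real.rpow_add hZ0, Real.rpow_one, div_eq_mul_inv]
  refine mul_le_mul_of_nonneg_left ?_ hZ0.le
  rw [Real.rpow_neg hZ0.le]
  refine inv_anti₀ (by positivity) ?_
  calc (Real.log M) ^ A = Real.exp (A * Real.log (Real.log M)) := by
        rw [mul_comm, ← Real.rpow_def_of_pos hL0, Real.rpow_natCast]
    _ ≤ Real.exp (Real.log M * (ε * δ)) := by
        rw [Real.exp_le_exp]
        refine g2.trans (le_of_eq ?_)
        rw [hδ, hlT]
        ring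
    _ = (M ^ ε) ^ δ := by
        rw [← Real.rpow_mul hM0.le, Real.rpow_def_of_pos hM0]
    _ ≤ Z ^ δ := Real.rpow_le_rpow (by positivity) hZ hδ0.le

end Pool.Agent.J6H16.PF
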