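import Pool.Agent.J6H16.PF.Pc

/-!
# Project PF (helper16): the primes of degree one and the von Mangoldt function of `ℤ[i]`
-/

set_option autoImplicit false

namespace Pool.Agent.J6H16.PF

open Finset Filter Topology MeasureTheory
open Pool.Agent.N782.GN Pool.Agent.N855.GN
open Pool.Agent.H304R3.HK (UH bb LamK CS)

theorem lamdiff {Y : ℝ} (hY : 3 ≤ Y) : ∑ t ∈ bl Y, (LamK t - Lp t) ≤ 24 * Real.sqrt Y * (Real.log Y) ^ 3 := by
  classical
  have hL := one_le_log hY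
  set ℓ := Real.log Y with hℓ
  have hY0 : 0 < Y := by linarith
  set S := (bl Y).filter (fun t => LamK t ≠ Lp t) with hS
  have h1 : ∑ t ∈ bl Y, (LamK t - Lp t) = ∑ t ∈ S, (LamK t - Lp t) := by
    rw [hS, sum_filter]
    refine sum_congr rfl fun t _ => ?_
    split_ifs with h
    · rfl
    · rw [not_not] at h
      rw [h, sub_self]
  have h2 : ∀ t ∈ S, LamK t - Lp t ≤ ℓ := by
    intro t ht
    rw [hS, mem_filter, mem_bl] at ht
    have h3 := (c_mub.2.2.2.2.2 t).2 ht.1.1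
    have h4 := Lp_nonneg t
    have h5 : Real.log (nz t) ≤ ℓ := Real.log_le_log (nz_pos ht.1.1) ht.1.2
    linarith
  set T := ((Icc 1 ⌊Real.sqrt Y⌋₊) ×ˢ (Icc 2 ⌊2 * ℓ⌋₊)).filter (fun q => q.1.Prime) with hT
  have h3 : S ⊆ T.biUnion (fun q => (CS (q.1 ^ q.2)).image (fun p => (⟨p.1, p.2⟩ : ZI))) := by
    intro t ht
    rw [hS, mem_filter, mem_bl] at ht
    obtain ⟨⟨ht0, htY⟩, hne⟩ := ht
    set n := (Zsqrtd.norm t).natAbs with hn
    have hnn : Zsqrtd.norm t = n := by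
      rw [hn]
      exact (Int.natAbs_of_nonneg (GaussianInt.norm_nonneg t)).symm
    have hnY : (n : ℝ) ≤ Y := by rw [hn, ← nz_natAbs]; exact htY
    have hnp : ¬ n.Prime := fun h => hne (LamK_np h)
    have hpp : IsPrimePow n := by
      by_contra hcon
      apply hne
      have h4 : Lp t = 0 := by
        unfold Lp
        rw [if_neg]
        exact hnp
      rw [Pool.Agent.H304R3.HK.M4.LamK_npp hcon hnn, h4]
    obtain ⟨p, k, hp1, hk, hpk⟩ := hpp
    have hp : p.Prime := hp1.nat_prime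
    have hk2 : 2 ≤ k := by
      by_contra hcon
      have : k = 1 := by omega
      rw [this, pow_one] at hpk
      exact hnp (hpk ▸ hp)
    have hpkR : (p : ℝ) ^ k = n := by exact_mod_cast hpk
    have hp2 : (2 : ℝ) ≤ p := by exact_mod_cast hp.two_le
    rw [mem_biUnion]
    refine ⟨(p, k), ?_, ?_⟩
    · rw [hT, mem_filter, mem_product, mem_Icc, mem_Icc]
      refine ⟨⟨⟨hp.one_lt.le, ?_⟩, hk2, ?_⟩, hp⟩
      · apply Nat.le_floor
        apply Real.le_sqrt_of_sq_le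
        have h1 : (p : ℝ) ^ 2 ≤ (p : ℝ) ^ k := pow_le_pow_right₀ (by linarith) hk2
        rw [hpkR] at h1
        linarith
      · apply Nat.le_floor
        have h1 : (2 : ℝ) ^ k ≤ n := by
          rw [← hpkR]
          exact pow_le_pow_left₀ (by norm_num) hp2 k
        have h2 := Real.log_le_log (by positivity) (h1.trans hnY)
        rw [Real.log_pow] at h2
        have hk0 : (0 : ℝ) ≤ k := Nat.cast_nonneg k
        have hl2 := Real.log_two_gt_d9
        nlinarith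
    · rw [mem_image]
      refine ⟨(t.re, t.im), ?_, rfl⟩
      unfold CS
      have h5 : t.re ^ 2 + t.im ^ 2 = (n : ℤ) := by
        rw [← hnn, Zsqrtd.norm_def]
        ring
      have hn1 : (1 : ℤ) ≤ n := by
        have := GaussianInt.norm_pos.2 ht0
        omega
      rw [mem_filter, mem_product, mem_Icc, mem_Icc]
      simp only
      rw [hpk]
      refine ⟨⟨⟨?_, ?_⟩, ?_, ?_⟩, h5⟩
      all_goals nlinarith [sq_nonneg t.re, sq_nonneg t.im]
  have h4 : (S.card : ℝ) ≤ 24 * Real.sqrt Y * ℓ ^ 2 := by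
    have e1 : S.card ≤ ∑ q ∈ T, 4 * (q.2 + 1) := by
      refine (card_le_card h3).trans (card_biUnion_le.trans (sum_le_sum fun q hq => ?_))
      rw [hT, mem_filter, mem_product, mem_Icc, mem_Icc] at hq
      refine card_image_le.trans ?_
      have h5 := Pool.Agent.N407.GN.CS_card (q.1 ^ q.2) (Nat.one_le_pow _ _ hq.2.pos)
      rw [Nat.divisors_prime_pow hq.2, card_map, card_range] at h5
      exact h5
    have e2 : ∑ q ∈ T, 4 * (q.2 + 1) ≤ ∑ q ∈ T, 4 * (⌊2 * ℓ⌋₊ + 1) := by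
      refine sum_le_sum fun q hq => ?_
      rw [hT, mem_filter, mem_product, mem_Icc, mem_Icc] at hq
      omega
    rw [sum_const, smul_eq_mul] at e2
    have e3 : T.card ≤ ⌊Real.sqrt Y⌋₊ * ⌊2 * ℓ⌋₊ := by
      rw [hT]
      refine (card_filter_le _ _).trans ?_
      rw [card_product, Nat.card_Icc, Nat.card_Icc]
      have : ⌊2 * ℓ⌋₊ + 1 - 2 ≤ ⌊2 * ℓ⌋₊ := by omega
      calc _ ≤ (⌊Real.sqrt Y⌋₊ + 1 - 1) * ⌊2 * ℓ⌋₊ := Nat.mul_le_mul_left _ this
        _ = _ := by rw [Nat.add_sub_cancel]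
    have e4 : (T.card : ℝ) ≤ Real.sqrt Y * (2 * ℓ) := by
      calc (T.card : ℝ) ≤ ((⌊Real.sqrt Y⌋₊ * ⌊2 * ℓ⌋₊ : ℕ) : ℝ) := by exact_mod_cast e3
        _ = (⌊Real.sqrt Y⌋₊ : ℝ) * ⌊2 * ℓ⌋₊ := by push_cast; ring
        _ ≤ Real.sqrt Y * (2 * ℓ) := mul_le_mul (Nat.floor_le (Real.sqrt_nonneg _)) (Nat.floor_le (by linarith))
            (Nat.cast_nonneg _) (Real.sqrt_nonneg _)
    have e5 : (4 * (⌊2 * ℓ⌋₊ + 1 : ℕ) : ℝ) ≤ 12 * ℓ := by
      have := Nat.floor_le (show 0 ≤ 2 * ℓ by linarith)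
      push_cast
      linarith
    calc (S.card : ℝ) ≤ ((T.card * (4 * (⌊2 * ℓ⌋₊ + 1)) : ℕ) : ℝ) := by exact_mod_cast e1.trans e2
      _ = (T.card : ℝ) * (4 * (⌊2 * ℓ⌋₊ + 1 : ℕ) : ℝ) := by push_cast; ring
      _ ≤ (Real.sqrt Y * (2 * ℓ)) * (12 * ℓ) := mul_le_mul e4 e5 (by positivity) (by positivity)
      _ = 24 * Real.sqrt Y * ℓ ^ 2 := by ring
  rw [h1]
  refine (sum_le_sum h2).trans ?_
  rw [sum_const, nsmul_eq_mul]
  calc (S.card : ℝ) * ℓ ≤ (24 * Real.sqrt Y * ℓ ^ 2) * ℓ := mul_le_mul_of_nonneg_right h4 (by linarith)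
    _ = _ := by ring

/-- from `Λ` to the primes of degree one -/
theorem lp_lamK {Y : ℝ} (hY : 3 ≤ Y) (q : ℕ) (r : ZI) (F : ZI → ℂ) (hF : ∀ t, ‖F t‖ ≤ 1) :
    ‖∑ t ∈ cls q r Y, (Lp t : ℂ) * F t - ∑ t ∈ cls q r Y, (LamK t : ℂ) * F t‖ ≤
      24 * Real.sqrt Y * (Real.log Y) ^ 3 := by
  classical
  rw [← sum_sub_distrib]
  refine (norm_sum_le _ _).trans (le_trans ?_ (lamdiff hY))
  have h1 : ∀ t ∈ cls q r Y, ‖(Lp t : ℂ) * F t - (LamK t : ℂ) * F t‖ ≤ LamK t - Lp t := by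
    intro t _
    rw [← sub_mul, norm_mul, ← Complex.ofReal_sub, Complex.norm_real, Real.norm_eq_abs, abs_sub_comm,
      abs_of_nonneg (sub_nonneg.2 (Lp_le_LamK t))]
    exact mul_le_of_le_one_right (sub_nonneg.2 (Lp_le_LamK t)) (hF t)
  refine (sum_le_sum h1).trans ?_
  refine sum_le_sum_of_subset_of_nonneg ?_ fun t _ _ => sub_nonneg.2 (Lp_le_LamK t)
  unfold cls
  exact filter_subset _ _

end Pool.Agent.J6H16.PF
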