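import Pool.Agent.J6H16.PF.Pd

/-!
# Project PF (helper16): primes of degree one in classes, with frequencies `k ≠ 0`
-/

set_option autoImplicit false

namespace Pool.Agent.J6H16.PF

open Finset Filter Topology MeasureTheory
open Pool.Agent.N782.GN Pool.Agent.N855.GN
open Pool.Agent.H304R3.HK (UH bb LamK CS)

open Classical in
/-- `exp (i k arg t)` on a class -/
noncomputable def Fc (q : ℕ) (r : ZI) (k : ℤ) (Z : ℝ) (t : ZI) : ℂ := if t ∈ cls q r Z then ph k 0 t else 0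

theorem cls_sub (q : ℕ) (r : ZI) (Z : ℝ) : cls q r Z ⊆ bl Z := by
  classical
  unfold cls
  exact filter_subset _ _

theorem Fc_out {q : ℕ} {r : ZI} {k : ℤ} {Z : ℝ} (t : ZI) (ht : t ∉ bl Z) : Fc q r k Z t = 0 := by
  unfold Fc
  rw [if_neg fun h => ht (cls_sub q r Z h)]

theorem Fc_sum (q : ℕ) (r : ZI) (k : ℤ) (Z : ℝ) (g : ZI → ℂ) :
    ∑ t ∈ bl Z, g t * Fc q r k Z t = ∑ t ∈ cls q r Z, g t * ph k 0 t := by
  classical
  unfold Fc
  rw [← sum_subset (cls_sub q r Z) (f := fun t => g t * if t ∈ cls q r Z then ph k 0 t else 0)]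
  · exact sum_congr rfl fun t ht => by rw [if_pos ht]
  · intro t _ ht
    rw [if_neg ht, mul_zero]

theorem csplit (w V : ℝ) (hw : w ≤ V) (f : ZI → ℂ) :
    ∑ a ∈ bl V, f a = ∑ a ∈ bl w, f a + ∑ a ∈ bg w V, f a := by
  classical
  rw [← sum_filter_add_sum_filter_not (bl V) (fun a => nz a ≤ w)]
  congr 1
  · refine sum_congr ?_ fun _ _ => rfl
    ext a
    rw [mem_filter, mem_bl, mem_bl]
    constructor
    · rintro ⟨⟨h1, -⟩, h2⟩
      exact ⟨h1, h2⟩
    · rintro ⟨h1, h2⟩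
      exact ⟨⟨h1, h2.trans hw⟩, h2⟩
  · refine sum_congr ?_ fun _ _ => rfl
    ext a
    rw [mem_filter, mem_bg, mem_bl, not_le, and_assoc]

/-- the inner sum of the first part -/
theorem innerI {q : ℕ} {r b e f : ZI} {k : ℤ} {Z : ℝ} (hZ : 0 ≤ Z) (hb : b ≠ 0)
    (hef : e * b + f * ((q : ℕ) : ZI) = 1) :
    ∑ u ∈ bl Z, Fc q r k Z (b * u) = ph k 0 b * ∑ u ∈ cls q (e * r) (Z / nz b), ph k 0 u := by
  classical
  rw [← reidx hb hef le_rfl hZ, mul_sum]
  refine sum_congr rfl fun u hu => ?_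
  unfold Fc
  split_ifs
  · rw [ph_mul k hb ((mem_bl _ _).1 hu).1]
  · rw [mul_zero]

theorem innerI0 {q : ℕ} {r b : ZI} {k : ℤ} {Z : ℝ} (hr : IsCoprime r ((q : ℕ) : ZI))
    (hb : ¬ IsCoprime b ((q : ℕ) : ZI)) : ∑ u ∈ bl Z, Fc q r k Z (b * u) = 0 := by
  classical
  refine sum_eq_zero fun u _ => ?_
  unfold Fc
  rw [if_neg]
  intro h
  unfold cls at h
  rw [mem_filter] at h
  exact hb (coprime_of hr u (by rw [mul_comm]; exact h.2))

theorem sum_div_nz {Z V : ℝ} (hV : 3 ≤ V) (hZ : 0 ≤ Z) (S : Finset ZI) (hS : S ⊆ bl V) :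
    ∑ u ∈ S, Z / nz u ≤ 48 * Z * (Real.log V) ^ 2 := by
  calc ∑ u ∈ S, Z / nz u ≤ ∑ u ∈ bl V, Z / nz u :=
        sum_le_sum_of_subset_of_nonneg hS fun u _ _ => div_nonneg hZ (nz_nonneg u)
    _ = Z * ∑ u ∈ bl V, 1 / nz u := by
        rw [mul_sum]
        exact sum_congr rfl fun u _ => by ring
    _ ≤ Z * (48 * (Real.log V) ^ 2) := mul_le_mul_of_nonneg_left (sum_inv_nz hV) hZ
    _ = _ := by ring

/-- the second part of the hyperbola -/
theorem partII {q : ℕ} {r : ZI} {k : ℤ} {Z D c : ℝ} (hZ : 3 ≤ Z) (hD : 1 ≤ D) (hc : 0 ≤ c)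
    (hr : IsCoprime r ((q : ℕ) : ZI))
    (hP : ∀ r' : ZI, IsCoprime r' ((q : ℕ) : ZI) → ∀ Z' : ℝ, D ≤ Z' →
      ‖∑ t ∈ cls q r' Z', (mu t : ℂ) * ph k 0 t‖ ≤ c * Z') :
    ‖∑ b ∈ bg D Z, ∑ u ∈ bl Z, ((mu b * Real.log (nz b) : ℝ) : ℂ) * Fc q r k Z (b * u)‖ ≤
      96 * c * Z * (Real.log Z) ^ 3 := by
  classical
  have hZ0 : 0 < Z := by linarith
  have hL := one_le_log hZ
  rw [sum_comm]
  have key : ∀ u ∈ bl Z, ‖∑ b ∈ bg D Z, ((mu b * Real.log (nz b) : ℝ) : ℂ) * Fc q r k Z (b * u)‖ ≤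
      2 * c * Real.log Z * (Z / nz u) := by
    intro u hu
    have hu0 := ((mem_bl _ _).1 hu).1
    have hup := nz_pos hu0
    have hu1 := nz_one_le hu0
    by_cases hcop : IsCoprime u ((q : ℕ) : ZI)
    · obtain ⟨e, f, hef⟩ := hcop
      have hcr : IsCoprime (e * r) ((q : ℕ) : ZI) :=
        IsCoprime.mul_left ⟨u, f, by linear_combination hef⟩ hr
      set S := SA q (e * r) D (Z / nz u) with hS
      have hSs : S ⊆ bg D Z := by
        intro b hb
        rw [hS, mem_SA] at hb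
        rw [mem_bg]
        exact ⟨hb.1, hb.2.1.trans (div_le_self hZ0.le hu1), hb.2.2.2⟩
      have e1 : ∑ b ∈ bg D Z, ((mu b * Real.log (nz b) : ℝ) : ℂ) * Fc q r k Z (b * u) =
          ph k 0 u * ∑ b ∈ S, ((mu b : ℂ) * ph k 0 b) * (Real.log (nz b) : ℂ) := by
        rw [mul_sum, ← sum_subset hSs (f := fun b => ((mu b * Real.log (nz b) : ℝ) : ℂ) * Fc q r k Z (b * u))]
        · refine sum_congr rfl fun b hb => ?_
          rw [hS, mem_SA, le_div_iff₀ hup] at hb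
          obtain ⟨hb0, hb1, hb2, hb3⟩ := hb
          have hmem : b * u ∈ cls q r Z := by
            unfold cls
            rw [mem_filter, mem_bl, Pool.Agent.N855.GN.nz_mul]
            refine ⟨⟨mul_ne_zero hb0 hu0, hb1⟩, ?_⟩
            have h3 : b * u - r = u * (b - e * r) - r * f * ((q : ℕ) : ZI) := by
              linear_combination r * hef
            rw [h3]
            exact dvd_sub (Dvd.dvd.mul_left hb2 _) (dvd_mul_left _ _)
          unfold Fc
          rw [if_pos hmem, ph_mul k hb0 hu0]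
          push_cast
          ring
        · intro b hb hb'
          unfold Fc
          rw [if_neg, mul_zero]
          intro h
          apply hb'
          unfold cls at h
          rw [mem_filter, mem_bl, Pool.Agent.N855.GN.nz_mul] at h
          rw [hS, mem_SA, le_div_iff₀ hup]
          refine ⟨((mem_bg).1 hb).1, h.1.2, ?_, ((mem_bg).1 hb).2.2⟩
          have h4 : b - e * r = e * (b * u - r) + f * b * ((q : ℕ) : ZI) := by
            linear_combination (-b) * hef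
          rw [h4]
          exact dvd_add (Dvd.dvd.mul_left h.2 _) (dvd_mul_left _ _)
      rw [e1, norm_mul, norm_ph, one_mul]
      rcases le_or_gt (Z / nz u) D with hcase | hcase
      · rw [hS, SA_empty hcase, sum_empty, norm_zero]
        positivity
      · have h1 := abel_log S (fun b => (mu b : ℂ) * ph k 0 b) D (Z / nz u) (2 * c * (Z / nz u)) hD hcase.le
          (fun b hb => by
            rw [hS, mem_SA] at hb
            exact ⟨hb.2.2.2, hb.2.1⟩)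
          (fun x hx hx' => by
            have h2 : S.filter (fun b => x < nz b) = SA q (e * r) x (Z / nz u) := by
              ext b
              rw [mem_filter, hS, mem_SA, mem_SA]
              constructor
              · rintro ⟨⟨h1, h2, h3, -⟩, h5⟩
                exact ⟨h1, h2, h3, h5⟩
              · rintro ⟨h1, h2, h3, h5⟩
                exact ⟨⟨h1, h2, h3, lt_of_le_of_lt hx h5⟩, h5⟩
            rw [h2]
            exact diff_le (w := D) (hP (e * r) hcr) hc hx (by positivity))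
        refine h1.trans ?_
        have h2 : Real.log (Z / nz u) ≤ Real.log Z := Real.log_le_log (by positivity) (div_le_self hZ0.le hu1)
        calc 2 * c * (Z / nz u) * Real.log (Z / nz u) ≤ 2 * c * (Z / nz u) * Real.log Z :=
              mul_le_mul_of_nonneg_left h2 (by positivity)
          _ = _ := by ring
    · have e3 : ∑ b ∈ bg D Z, ((mu b * Real.log (nz b) : ℝ) : ℂ) * Fc q r k Z (b * u) = 0 := by
        refine sum_eq_zero fun b _ => ?_
        unfold Fc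
        rw [if_neg, mul_zero]
        intro h
        unfold cls at h
        rw [mem_filter] at h
        exact hcop (coprime_of hr b h.2)
      rw [e3, norm_zero]
      positivity
  refine (norm_sum_le _ _).trans ((sum_le_sum key).trans ?_)
  rw [← mul_sum]
  have h1 := sum_div_nz hZ hZ0.le (bl Z) (Subset.refl _)
  calc 2 * c * Real.log Z * ∑ u ∈ bl Z, Z / nz u ≤ 2 * c * Real.log Z * (48 * Z * (Real.log Z) ^ 2) :=
        mul_le_mul_of_nonneg_left h1 (by positivity)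
    _ = _ := by ring

/-- the first part of the hyperbola, `k ≠ 0` -/
theorem partI {q : ℕ} {r : ZI} {k : ℤ} {Z D c : ℝ} (hZ : 3 ≤ Z) (hD : 3 ≤ D) (hDD : D * D ≤ Z) (hc : 0 ≤ c)
    (hr : IsCoprime r ((q : ℕ) : ZI))
    (hP : ∀ r' : ZI, ∀ Z' : ℝ, D ≤ Z' → ‖∑ t ∈ cls q r' Z', ph k 0 t‖ ≤ c * Z') :
    ‖∑ b ∈ bl D, ∑ u ∈ bl Z, ((mu b * Real.log (nz b) : ℝ) : ℂ) * Fc q r k Z (b * u)‖ ≤
      48 * c * Z * (Real.log Z) ^ 3 := by
  classical
  have hZ0 : 0 < Z := by linarith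
  have hD0 : 0 < D := by linarith
  have hDZ : D ≤ Z := by nlinarith
  have hL := one_le_log hZ
  have key : ∀ b ∈ bl D, ‖∑ u ∈ bl Z, ((mu b * Real.log (nz b) : ℝ) : ℂ) * Fc q r k Z (b * u)‖ ≤
      c * Real.log Z * (Z / nz b) := by
    intro b hb
    have hb0 := ((mem_bl _ _).1 hb).1
    have hbp := nz_pos hb0
    have hb1 := nz_one_le hb0
    have hbD := ((mem_bl _ _).1 hb).2
    rw [← mul_sum, norm_mul, Complex.norm_real, Real.norm_eq_abs, abs_mul, abs_of_nonneg (Real.log_nonneg hb1)]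
    have h1 : |mu b| * Real.log (nz b) ≤ Real.log Z := by
      calc |mu b| * Real.log (nz b) ≤ 1 * Real.log (nz b) :=
            mul_le_mul_of_nonneg_right (abs_mu_le b) (Real.log_nonneg hb1)
        _ = Real.log (nz b) := one_mul _
        _ ≤ Real.log Z := Real.log_le_log hbp (hbD.trans hDZ)
    have h2 : ‖∑ u ∈ bl Z, Fc q r k Z (b * u)‖ ≤ c * (Z / nz b) := by
      by_cases hcop : IsCoprime b ((q : ℕ) : ZI)
      · obtain ⟨e, f, hef⟩ := hcop
        rw [innerI hZ0.le hb0 hef, norm_mul, norm_ph, one_mul]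
        apply hP
        rw [le_div_iff₀ hbp]
        calc D * nz b ≤ D * D := mul_le_mul_of_nonneg_left hbD hD0.le
          _ ≤ Z := hDD
      · rw [innerI0 hr hcop, norm_zero]
        positivity
    calc |mu b| * Real.log (nz b) * ‖∑ u ∈ bl Z, Fc q r k Z (b * u)‖ ≤ Real.log Z * (c * (Z / nz b)) :=
          mul_le_mul h1 h2 (norm_nonneg _) (by linarith)
      _ = _ := by ring
  refine (norm_sum_le _ _).trans ((sum_le_sum key).trans ?_)
  rw [← mul_sum]
  have h1 := sum_div_nz hD hZ0.le (bl D) (Subset.refl _)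
  have h2 : (Real.log D) ^ 2 ≤ (Real.log Z) ^ 2 :=
    pow_le_pow_left₀ (Real.log_nonneg (by linarith)) (Real.log_le_log hD0 hDZ) 2
  calc c * Real.log Z * ∑ u ∈ bl D, Z / nz u ≤ c * Real.log Z * (48 * Z * (Real.log Z) ^ 2) := by
        apply mul_le_mul_of_nonneg_left _ (by positivity)
        exact h1.trans (mul_le_mul_of_nonneg_left h2 (by positivity))
    _ = _ := by ring

/-- **primes of degree one in classes, with frequencies `k ≠ 0`** -/
theorem p1m {ε : ℝ} (hε : 0 < ε) (A B E : ℕ) : ∃ C : ℝ, 0 < C ∧ ∀ᶠ M : ℝ in atTop,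
    ∀ (Z : ℝ) (q : ℕ) (r : ZI) (k : ℤ), M ^ ε ≤ Z → Z ≤ M ^ E → 1 ≤ q → (q : ℝ) ≤ (Real.log M) ^ B →
      IsCoprime r ((q : ℕ) : ZI) → k ≠ 0 → |(k : ℝ)| ≤ M ^ E →
      ‖∑ t ∈ cls q r Z, (Lp t : ℂ) * ph k 0 t‖ ≤ C * Z / (Real.log M) ^ A := by
  obtain ⟨C1, hC1, h1⟩ := pcm (show 0 < ε / 2 by positivity) (A + 3) B E
  have h2 := em (show 0 < ε / 2 by positivity) (A + 3) B E
  have h3 := logpow (A + 3) (show 0 < ε / 2 by positivity) one_pos
  refine ⟨(96 * C1 + 48) * (E : ℝ) ^ 3 + 24 * (E : ℝ) ^ 3 + 1, by positivity, ?_⟩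
  filter_upwards [h1, h2, h3, ev_rp (show 0 < ε / 2 by positivity) 3, eventually_ge_atTop (3 : ℝ)] with M h1 h2 h3 h4 hM3
  intro Z q r k hMZ hZE hq hqB hr hk hkE
  have hM0 : 0 < M := by linarith
  have hL := one_le_log hM3
  set ℓ := Real.log M with hℓ
  set D := Real.sqrt Z with hD
  have hZ0 : 0 < Z := lt_of_lt_of_le (by positivity) hMZ
  have hDD : D * D = Z := Real.mul_self_sqrt hZ0.le
  have hMD : M ^ (ε / 2) ≤ D := by
    apply Real.le_sqrt_of_sq_le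
    refine le_trans (le_of_eq ?_) hMZ
    rw [← Real.rpow_natCast, ← Real.rpow_mul hM0.le]
    congr 1
    push_cast
    ring
  have hD3 : 3 ≤ D := h4.trans hMD
  have hZ3 : 3 ≤ Z := by nlinarith
  have hDZ : D ≤ Z := by nlinarith
  have hlZ : Real.log Z ≤ E * ℓ := by
    have := Real.log_le_log hZ0 hZE
    rwa [Real.log_pow] at this
  have hlZ0 : 0 ≤ Real.log Z := Real.log_nonneg (by linarith)
  have hlZ3 : (Real.log Z) ^ 3 ≤ (E : ℝ) ^ 3 * ℓ ^ 3 := by
    rw [← mul_pow]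
    exact pow_le_pow_left₀ hlZ0 hlZ 3
  -- the hyperbola
  have e1 := hyp (Fc q r k Z) Z (by linarith) (fun t ht => Fc_out t ht)
  rw [Fc_sum, csplit D Z hDZ] at e1
  have p1 := partI (q := q) (r := r) (k := k) (c := 1 / ℓ ^ (A + 3)) hZ3 hD3 hDD.le (by positivity) hr
    (fun r' Z' hZ' => by
      refine (h2 Z' q r' k (hMD.trans hZ') hq hqB hk hkE).trans (le_of_eq ?_)
      ring)
  have p2 := partII (q := q) (r := r) (k := k) (c := C1 / ℓ ^ (A + 3)) hZ3 (by linarith : 1 ≤ D) (by positivity) hr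
    (fun r' hr' Z' hZ' => by
      refine (h1 Z' q r' k (hMD.trans hZ') hq hqB hr' hkE).trans (le_of_eq ?_)
      ring)
  have e2 : ‖∑ t ∈ cls q r Z, (LamK t : ℂ) * ph k 0 t‖ ≤ (96 * C1 + 48) * (E : ℝ) ^ 3 * (Z / ℓ ^ A) := by
    rw [e1, norm_mul]
    have n1 : ‖(-(1 / 4) : ℂ)‖ ≤ 1 := by
      rw [norm_neg]
      norm_num
    have n2 : (Real.log Z) ^ 3 / ℓ ^ (A + 3) ≤ (E : ℝ) ^ 3 / ℓ ^ A := by
      rw [div_le_div_iff₀ (by positivity) (by positivity), pow_add]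
      calc (Real.log Z) ^ 3 * ℓ ^ A ≤ ((E : ℝ) ^ 3 * ℓ ^ 3) * ℓ ^ A := mul_le_mul_of_nonneg_right hlZ3 (by positivity)
        _ = _ := by ring
    refine (mul_le_of_le_one_left (norm_nonneg _) n1).trans ((norm_add_le _ _).trans ?_)
    have n3 : 48 * (1 / ℓ ^ (A + 3)) * Z * (Real.log Z) ^ 3 + 96 * (C1 / ℓ ^ (A + 3)) * Z * (Real.log Z) ^ 3 =
        (96 * C1 + 48) * Z * ((Real.log Z) ^ 3 / ℓ ^ (A + 3)) := by ring
    calc _ ≤ 48 * (1 / ℓ ^ (A + 3)) * Z * (Real.log Z) ^ 3 + 96 * (C1 / ℓ ^ (A + 3)) * Z * (Real.log Z) ^ 3 :=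
          add_le_add p1 p2
      _ = (96 * C1 + 48) * Z * ((Real.log Z) ^ 3 / ℓ ^ (A + 3)) := n3
      _ ≤ (96 * C1 + 48) * Z * ((E : ℝ) ^ 3 / ℓ ^ A) := mul_le_mul_of_nonneg_left n2 (by positivity)
      _ = _ := by ring
  have e3 := lp_lamK hZ3 q r (fun t => ph k 0 t) (fun t => (norm_ph k 0 t).le)
  have e4 : 24 * Real.sqrt Z * (Real.log Z) ^ 3 ≤ 24 * (E : ℝ) ^ 3 * (Z / ℓ ^ A) := by
    rw [← hD]
    have g1 : ℓ ^ (A + 3) ≤ D := by
      rw [one_mul] at h3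
      exact h3.trans hMD
    have g2 : D * ℓ ^ 3 ≤ Z / ℓ ^ A := by
      rw [le_div_iff₀ (by positivity)]
      calc D * ℓ ^ 3 * ℓ ^ A = D * ℓ ^ (A + 3) := by ring
        _ ≤ D * D := mul_le_mul_of_nonneg_left g1 (by linarith)
        _ = Z := hDD
    calc 24 * D * (Real.log Z) ^ 3 ≤ 24 * D * ((E : ℝ) ^ 3 * ℓ ^ 3) := mul_le_mul_of_nonneg_left hlZ3 (by positivity)
      _ = 24 * (E : ℝ) ^ 3 * (D * ℓ ^ 3) := by ring
      _ ≤ _ := mul_le_mul_of_nonneg_left g2 (by positivity)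
  have e5 : ‖∑ t ∈ cls q r Z, (Lp t : ℂ) * ph k 0 t‖ ≤
      24 * Real.sqrt Z * (Real.log Z) ^ 3 + (96 * C1 + 48) * (E : ℝ) ^ 3 * (Z / ℓ ^ A) := by
    have := norm_add_le (∑ t ∈ cls q r Z, (Lp t : ℂ) * ph k 0 t - ∑ t ∈ cls q r Z, (LamK t : ℂ) * ph k 0 t)
      (∑ t ∈ cls q r Z, (LamK t : ℂ) * ph k 0 t)
    rw [sub_add_cancel] at this
    linarith
  have e6 : 0 ≤ Z / ℓ ^ A := by positivity
  calc _ ≤ _ := e5
    _ ≤ ((96 * C1 + 48) * (E : ℝ) ^ 3 + 24 * (E : ℝ) ^ 3 + 1) * (Z / ℓ ^ A) := by nlinarith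
    _ = _ := by ring

end Pool.Agent.J6H16.PF
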