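import Pool.Agent.J6H16.PF.Pe

/-!
# Project PF (helper16): primes of degree one in classes, the main term
-/

set_option autoImplicit false

namespace Pool.Agent.J6H16.PF

open Finset Filter Topology MeasureTheory
open Pool.Agent.N782.GN Pool.Agent.N855.GN
open Pool.Agent.H304R3.HK (UH bb LamK CS)

open Classical in
/-- the sums of `μ(b) / N(b)` over the numbers coprime to `q` -/
theorem p0m {ε : ℝ} (hε : 0 < ε) (A B : ℕ) : ∃ C : ℝ, 0 < C ∧ ∀ᶠ M : ℝ in atTop,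
    ∀ (Z : ℝ) (q : ℕ), M ^ ε ≤ Z → 1 ≤ q → (q : ℝ) ≤ (Real.log M) ^ B →
      |∑ a ∈ (bl Z).filter (fun a => IsCoprime a ((q : ℕ) : ZI)), mu a / nz a| ≤ C / (Real.log M) ^ A := by
  obtain ⟨C, hC, h2⟩ := c_p0b A (B + 1)
  refine ⟨C / ε ^ A, by positivity, ?_⟩
  filter_upwards [ev_log ((1 / ε) ^ (B + 1)), ev_rp hε 2, eventually_ge_atTop (3 : ℝ)] with V hV1 hV2 hV3
  intro Z q hZ hq hqB
  have hL := one_le_log hV3
  have hV0 : 0 < V := by linarith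
  have hlZ : ε * Real.log V ≤ Real.log Z := by
    rw [← Real.log_rpow hV0]
    exact Real.log_le_log (by positivity) hZ
  have b1 : (q : ℝ) ≤ (Real.log Z) ^ (B + 1) := by
    refine hqB.trans ?_
    have c1 : (Real.log V) ^ B ≤ (ε * Real.log V) ^ (B + 1) := by
      rw [mul_pow, pow_succ (Real.log V) B]
      have c2 : 1 ≤ ε ^ (B + 1) * Real.log V := by
        have c3 : ε ^ (B + 1) * (1 / ε) ^ (B + 1) = 1 := by
          rw [← mul_pow]
          have : ε * (1 / ε) = 1 := by field_simp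
          rw [this, one_pow]
        rw [← c3]
        exact mul_le_mul_of_nonneg_left hV1 (by positivity)
      calc (Real.log V) ^ B = (Real.log V) ^ B * 1 := (mul_one _).symm
        _ ≤ (Real.log V) ^ B * (ε ^ (B + 1) * Real.log V) := mul_le_mul_of_nonneg_left c2 (by positivity)
        _ = _ := by ring
    exact c1.trans (pow_le_pow_left₀ (by positivity) hlZ _)
  have b2 := (h2 Z q (hV2.trans hZ) hq b1).2
  refine b2.trans ?_
  have c1 : (ε * Real.log V) ^ A ≤ (Real.log Z) ^ A := pow_le_pow_left₀ (by positivity) hlZ _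
  calc C / (Real.log Z) ^ A ≤ C / (ε * Real.log V) ^ A :=
        div_le_div_of_nonneg_left (by positivity) (by positivity) c1
    _ = C / ε ^ A / (Real.log V) ^ A := by
        rw [mul_pow]
        field_simp

/-- the number of the elements of a class -/
theorem el0 : ∃ C : ℝ, 0 < C ∧ ∀ (q : ℕ) (r : ZI) (Y : ℝ), 1 ≤ q → 1 ≤ Y →
    |((cls q r Y).card : ℝ) - Real.pi / (q : ℝ) ^ 2 * Y| ≤ C * Real.sqrt Y := by
  obtain ⟨C, hC, h⟩ := c_el
  refine ⟨C, hC, fun q r Y hq hY => ?_⟩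
  have h1 := h 0 0 q r Y hq hY
  have e1 : ∑ t ∈ cls q r Y, ph 0 0 t = (((cls q r Y).card : ℝ) : ℂ) := by
    rw [sum_congr rfl (g := fun _ => (1 : ℂ)) (fun t _ => by unfold ph; simp), sum_const, nsmul_eq_mul, mul_one]
    push_cast
    rfl
  rw [e1, if_pos rfl] at h1
  have e2 : ((Real.pi / (q : ℝ) ^ 2 : ℝ) : ℂ) * ((Y : ℂ) ^ (1 - ((0 : ℝ) : ℂ) * Complex.I) / (1 - ((0 : ℝ) : ℂ) * Complex.I)) =
      ((Real.pi / (q : ℝ) ^ 2 * Y : ℝ) : ℂ) := by
    push_cast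
    rw [zero_mul, sub_zero, Complex.cpow_one, div_one]
  rw [e2, ← Complex.ofReal_sub, Complex.norm_real, Real.norm_eq_abs] at h1
  refine h1.trans (le_of_eq ?_)
  push_cast
  simp

open Classical in
/-- the first part of the hyperbola, `k = 0` -/
theorem partI0 {C₀ : ℝ} (hC₀ : 0 < C₀) (hel : ∀ (q : ℕ) (r : ZI) (Y : ℝ), 1 ≤ q → 1 ≤ Y →
    |((cls q r Y).card : ℝ) - Real.pi / (q : ℝ) ^ 2 * Y| ≤ C₀ * Real.sqrt Y)
    {q : ℕ} (hq : 1 ≤ q) {r : ZI} {Z D : ℝ} (hD : 1 ≤ D) (hDZ : D ≤ Z)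
    (hr : IsCoprime r ((q : ℕ) : ZI)) :
    ‖∑ b ∈ bl D, ∑ u ∈ bl Z, ((mu b * Real.log (nz b) : ℝ) : ℂ) * Fc q r 0 Z (b * u) -
      ((Real.pi * Z / (q : ℝ) ^ 2 * ∑ b ∈ (bl D).filter (fun b => IsCoprime b ((q : ℕ) : ZI)),
        mu b / nz b * Real.log (nz b) : ℝ) : ℂ)‖ ≤ 9 * C₀ * (D * Real.sqrt Z * Real.log Z) := by
  have hZ0 : 0 < Z := by linarith
  have hlZ : 0 ≤ Real.log Z := Real.log_nonneg (by linarith)
  rw [sum_filter, mul_sum]
  push_cast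
  rw [← sum_sub_distrib]
  have key : ∀ b ∈ bl D, ‖∑ u ∈ bl Z, (mu b : ℂ) * (Real.log (nz b) : ℂ) * Fc q r 0 Z (b * u) -
      (Real.pi : ℂ) * Z / (q : ℂ) ^ 2 * ((if IsCoprime b ((q : ℕ) : ZI) then mu b / nz b * Real.log (nz b) else 0 : ℝ) : ℂ)‖ ≤
      C₀ * Real.sqrt Z * Real.log Z := by
    intro b hb
    have hb0 := ((mem_bl _ _).1 hb).1
    have hbp := nz_pos hb0
    have hb1 := nz_one_le hb0
    have hbD := ((mem_bl _ _).1 hb).2
    rw [← mul_sum]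
    by_cases hcop : IsCoprime b ((q : ℕ) : ZI)
    · obtain ⟨e, f, hef⟩ := id hcop
      rw [innerI hZ0.le hb0 hef, if_pos hcop]
      have e1 : ∑ u ∈ cls q (e * r) (Z / nz b), ph 0 0 u = (((cls q (e * r) (Z / nz b)).card : ℝ) : ℂ) := by
        rw [sum_congr rfl (g := fun _ => (1 : ℂ)) (fun t _ => by unfold ph; simp), sum_const, nsmul_eq_mul, mul_one]
        push_cast
        rfl
      have e2 : ph 0 0 b = 1 := by unfold ph; simp
      rw [e1, e2, one_mul]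
      have h1 := hel q (e * r) (Z / nz b) hq (by rw [le_div_iff₀ hbp]; linarith)
      have e3 : (mu b : ℂ) * (Real.log (nz b) : ℂ) * (((cls q (e * r) (Z / nz b)).card : ℝ) : ℂ) -
          (Real.pi : ℂ) * Z / (q : ℂ) ^ 2 * ((mu b / nz b * Real.log (nz b) : ℝ) : ℂ) =
          ((mu b * Real.log (nz b) * (((cls q (e * r) (Z / nz b)).card : ℝ) - Real.pi / (q : ℝ) ^ 2 * (Z / nz b)) : ℝ) : ℂ) := by
        push_cast
        ring
      rw [e3, Complex.norm_real, Real.norm_eq_abs, abs_mul, abs_mul, abs_of_nonneg (Real.log_nonneg hb1)]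
      have h2 : |mu b| * Real.log (nz b) ≤ Real.log Z := by
        calc |mu b| * Real.log (nz b) ≤ 1 * Real.log (nz b) :=
              mul_le_mul_of_nonneg_right (abs_mu_le b) (Real.log_nonneg hb1)
          _ = Real.log (nz b) := one_mul _
          _ ≤ Real.log Z := Real.log_le_log hbp (hbD.trans hDZ)
      have h3 : Real.sqrt (Z / nz b) ≤ Real.sqrt Z := Real.sqrt_le_sqrt (div_le_self hZ0.le hb1)
      calc |mu b| * Real.log (nz b) * |((cls q (e * r) (Z / nz b)).card : ℝ) - Real.pi / (q : ℝ) ^ 2 * (Z / nz b)| ≤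
            Real.log Z * (C₀ * Real.sqrt Z) :=
            mul_le_mul h2 (h1.trans (mul_le_mul_of_nonneg_left h3 hC₀.le)) (abs_nonneg _) hlZ
        _ = _ := by ring
    · rw [innerI0 hr hcop, if_neg hcop]
      simp only [mul_zero, Complex.ofReal_zero, sub_zero, norm_zero]
      positivity
  refine (norm_sum_le _ _).trans ((sum_le_sum key).trans ?_)
  rw [sum_const, nsmul_eq_mul]
  have h1 := card_bl hD
  calc ((bl D).card : ℝ) * (C₀ * Real.sqrt Z * Real.log Z) ≤ 9 * D * (C₀ * Real.sqrt Z * Real.log Z) :=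
        mul_le_mul_of_nonneg_right h1 (by positivity)
    _ = _ := by ring

open Classical in
/-- the density of the primes of degree one in the classes modulo `q` -/
noncomputable def dn (D : ℝ) (q : ℕ) : ℝ :=
  -(Real.pi / (4 * (q : ℝ) ^ 2)) * ∑ b ∈ (bl D).filter (fun b => IsCoprime b ((q : ℕ) : ZI)),
    mu b / nz b * Real.log (nz b)

open Classical in
/-- the density does not depend on the level -/
theorem dn_diff {D D' : ℝ} {q : ℕ} (hq : 1 ≤ q) (hD : 1 ≤ D) (hDD : D ≤ D') {c : ℝ}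
    (h : ∀ Z : ℝ, D ≤ Z → |∑ a ∈ (bl Z).filter (fun a => IsCoprime a ((q : ℕ) : ZI)), mu a / nz a| ≤ c) :
    |dn D' q - dn D q| ≤ 2 * c * Real.log D' := by
  set S := (bg D D').filter (fun b => IsCoprime b ((q : ℕ) : ZI)) with hS
  have hc : 0 ≤ c := (abs_nonneg _).trans (h D le_rfl)
  have hlog : 0 ≤ Real.log D' := Real.log_nonneg (by linarith)
  have e1 : ∀ (f : ZI → ℝ) (x : ℝ), D ≤ x → x ≤ D' → ∑ b ∈ (bl D').filter (fun b => IsCoprime b ((q : ℕ) : ZI)), f b -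
      ∑ b ∈ (bl x).filter (fun b => IsCoprime b ((q : ℕ) : ZI)), f b = ∑ b ∈ S.filter (fun b => x < nz b), f b := by
    intro f x hx hx'
    rw [sub_eq_iff_eq_add]
    have e2 : S.filter (fun b => x < nz b) = ((bl D').filter (fun b => IsCoprime b ((q : ℕ) : ZI))).filter
        (fun b => ¬ nz b ≤ x) := by
      ext b
      simp only [hS, mem_filter, mem_bg, mem_bl, not_le]
      constructor
      · rintro ⟨⟨⟨h1, h2, h3⟩, h4⟩, h5⟩
        exact ⟨⟨⟨h1, h2⟩, h4⟩, h5⟩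
      · rintro ⟨⟨⟨h1, h2⟩, h4⟩, h5⟩
        exact ⟨⟨⟨h1, h2, by linarith⟩, h4⟩, h5⟩
    have e3 : (bl x).filter (fun b => IsCoprime b ((q : ℕ) : ZI)) =
        ((bl D').filter (fun b => IsCoprime b ((q : ℕ) : ZI))).filter (fun b => nz b ≤ x) := by
      ext b
      simp only [mem_filter, mem_bl]
      constructor
      · rintro ⟨⟨h1, h2⟩, h4⟩
        exact ⟨⟨⟨h1, by linarith⟩, h4⟩, h2⟩
      · rintro ⟨⟨⟨h1, h2⟩, h4⟩, h5⟩
        exact ⟨⟨h1, h5⟩, h4⟩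
    rw [e2, e3, add_comm, sum_filter_add_sum_filter_not]
  have h1 := abel_log S (fun b => ((mu b / nz b : ℝ) : ℂ)) D D' (2 * c) hD hDD
    (fun b hb => by
      rw [hS, mem_filter, mem_bg] at hb
      exact ⟨hb.1.2.2, hb.1.2.1⟩)
    (fun x hx hx' => by
      rw [← Complex.ofReal_sum, Complex.norm_real, Real.norm_eq_abs, ← e1 (fun b => mu b / nz b) x hx hx']
      have := abs_sub (∑ b ∈ (bl D').filter (fun b => IsCoprime b ((q : ℕ) : ZI)), mu b / nz b)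
        (∑ b ∈ (bl x).filter (fun b => IsCoprime b ((q : ℕ) : ZI)), mu b / nz b)
      have h2 := h D' hDD
      have h3 := h x hx
      linarith)
  have e4 : dn D' q - dn D q = -(Real.pi / (4 * (q : ℝ) ^ 2)) * ∑ b ∈ S, mu b / nz b * Real.log (nz b) := by
    unfold dn
    rw [← mul_sub, e1 (fun b => mu b / nz b * Real.log (nz b)) D le_rfl hDD, filter_true_of_mem]
    intro b hb
    rw [hS, mem_filter, mem_bg] at hb
    exact hb.1.2.2
  have e5 : ‖∑ b ∈ S, ((mu b / nz b : ℝ) : ℂ) * (Real.log (nz b) : ℂ)‖ = |∑ b ∈ S, mu b / nz b * Real.log (nz b)| := by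
    rw [← Real.norm_eq_abs, ← Complex.norm_real]
    congr 1
    push_cast
    rfl
  rw [e5] at h1
  rw [e4, abs_mul, abs_neg, abs_of_nonneg (by positivity)]
  have hq1 : (1 : ℝ) ≤ q := by exact_mod_cast hq
  have h2 : Real.pi / (4 * (q : ℝ) ^ 2) ≤ 1 := by
    rw [div_le_one (by positivity)]
    nlinarith [Real.pi_le_four]
  calc Real.pi / (4 * (q : ℝ) ^ 2) * |∑ b ∈ S, mu b / nz b * Real.log (nz b)| ≤
        1 * |∑ b ∈ S, mu b / nz b * Real.log (nz b)| := mul_le_mul_of_nonneg_right h2 (abs_nonneg _)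
    _ ≤ _ := by rw [one_mul]; exact h1

/-- **primes of degree one in classes** -/
theorem p2m {ε : ℝ} (hε : 0 < ε) (A B E : ℕ) : ∃ C : ℝ, 0 < C ∧ ∀ᶠ M : ℝ in atTop,
    ∀ (Z : ℝ) (q : ℕ) (r : ZI), M ^ ε ≤ Z → Z ≤ M ^ E → 1 ≤ q → (q : ℝ) ≤ (Real.log M) ^ B →
      IsCoprime r ((q : ℕ) : ZI) →
      |∑ t ∈ cls q r Z, Lp t - dn (M ^ (ε / 4)) q * Z| ≤ C * Z / (Real.log M) ^ A := by
  classical
  obtain ⟨C₀, hC₀, hel⟩ := el0
  obtain ⟨C1, hC1, h1⟩ := pcm (show 0 < ε / 4 by positivity) (A + 3) B E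
  obtain ⟨C2, hC2, h2⟩ := p0m (show 0 < ε / 4 by positivity) (A + 1) B
  have h3 := logpow (A + 3) (show 0 < ε / 4 by positivity) one_pos
  refine ⟨96 * C1 * (E : ℝ) ^ 3 + 9 * C₀ * E + 2 * C2 * E + 24 * (E : ℝ) ^ 3 + 1, by positivity, ?_⟩
  filter_upwards [h1, h2, h3, ev_rp (show 0 < ε / 4 by positivity) 3, eventually_ge_atTop (3 : ℝ)] with M h1 h2 h3 h4 hM3
  intro Z q r hMZ hZE hq hqB hr
  have hM0 : 0 < M := by linarith
  have hM1 : 1 ≤ M := by linarith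
  have hL := one_le_log hM3
  set ℓ := Real.log M with hℓ
  set D0 := M ^ (ε / 4) with hD0
  set D := Real.sqrt (Real.sqrt Z) with hD
  have hZ0 : 0 < Z := lt_of_lt_of_le (by positivity) hMZ
  have hsD : D * D = Real.sqrt Z := Real.mul_self_sqrt (Real.sqrt_nonneg Z)
  have hsZ : Real.sqrt Z * Real.sqrt Z = Z := Real.mul_self_sqrt hZ0.le
  have hMD : D0 ≤ D := by
    apply Real.le_sqrt_of_sq_le
    apply Real.le_sqrt_of_sq_le
    refine le_trans (le_of_eq ?_) hMZ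
    rw [hD0, ← pow_mul, ← Real.rpow_natCast, ← Real.rpow_mul hM0.le]
    congr 1
    push_cast
    ring
  have hD3 : 3 ≤ D := h4.trans hMD
  have hDsZ : D ≤ Real.sqrt Z := by nlinarith
  have hsZ3 : 3 ≤ Real.sqrt Z := by linarith
  have hsZZ : Real.sqrt Z ≤ Z := by nlinarith
  have hZ3 : 3 ≤ Z := by linarith
  have hDZ : D ≤ Z := by linarith
  have hlZ : Real.log Z ≤ E * ℓ := by
    have := Real.log_le_log hZ0 hZE
    rwa [Real.log_pow] at this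
  have hlZ0 : 0 ≤ Real.log Z := Real.log_nonneg (by linarith)
  have hlZ3 : (Real.log Z) ^ 3 ≤ (E : ℝ) ^ 3 * ℓ ^ 3 := by
    rw [← mul_pow]
    exact pow_le_pow_left₀ hlZ0 hlZ 3
  have hE0 : (0 : ℝ) ≤ E := Nat.cast_nonneg E
  have hkE : |((0 : ℤ) : ℝ)| ≤ M ^ E := by
    rw [Int.cast_zero, abs_zero]
    positivity
  -- the hyperbola
  have e1 := hyp (Fc q r 0 Z) Z (by linarith) (fun t ht => Fc_out t ht)
  rw [Fc_sum, csplit D Z hDZ] at e1
  have p1 := partI0 hC₀ hel hq (Z := Z) (D := D) (by linarith) hDZ hr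
  have p2 := partII (q := q) (r := r) (k := 0) (c := C1 / ℓ ^ (A + 3)) hZ3 (by linarith : 1 ≤ D) (by positivity) hr
    (fun r' hr' Z' hZ' => by
      refine (h1 Z' q r' 0 (hMD.trans hZ') hq hqB hr' hkE).trans (le_of_eq ?_)
      ring)
  have p3 := dn_diff (q := q) hq (show 1 ≤ D0 by linarith) hMD (c := C2 / ℓ ^ (A + 1)) (fun Z' hZ' => h2 Z' q hZ' hq hqB)
  set Sg := ∑ b ∈ (bl D).filter (fun b => IsCoprime b ((q : ℕ) : ZI)), mu b / nz b * Real.log (nz b) with hSg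
  have hdn : dn D q = -(Real.pi / (4 * (q : ℝ) ^ 2)) * Sg := rfl
  have n2 : (Real.log Z) ^ 3 / ℓ ^ (A + 3) ≤ (E : ℝ) ^ 3 / ℓ ^ A := by
    rw [div_le_div_iff₀ (by positivity) (by positivity), pow_add]
    calc (Real.log Z) ^ 3 * ℓ ^ A ≤ ((E : ℝ) ^ 3 * ℓ ^ 3) * ℓ ^ A := mul_le_mul_of_nonneg_right hlZ3 (by positivity)
      _ = _ := by ring
  have e2 : ‖∑ t ∈ cls q r Z, (LamK t : ℂ) * ph 0 0 t - ((dn D q * Z : ℝ) : ℂ)‖ ≤
      9 * C₀ * (D * Real.sqrt Z * Real.log Z) + 96 * (C1 / ℓ ^ (A + 3)) * Z * (Real.log Z) ^ 3 := by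
    have g1 : ((dn D q * Z : ℝ) : ℂ) = -(1 / 4) * ((Real.pi * Z / (q : ℝ) ^ 2 * Sg : ℝ) : ℂ) := by
      rw [hdn]
      push_cast
      ring
    rw [e1, g1, ← mul_sub, norm_mul]
    have n1 : ‖(-(1 / 4) : ℂ)‖ ≤ 1 := by
      rw [norm_neg]
      norm_num
    refine (mul_le_of_le_one_left (norm_nonneg _) n1).trans ?_
    rw [add_sub_right_comm]
    exact (norm_add_le _ _).trans (add_le_add p1 p2)
  have e3 := lp_lamK hZ3 q r (fun t => ph 0 0 t) (fun t => (norm_ph 0 0 t).le)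
  have g1 : ℓ ^ (A + 3) ≤ D := by
    rw [one_mul] at h3
    exact h3.trans hMD
  have e4 : 24 * Real.sqrt Z * (Real.log Z) ^ 3 ≤ 24 * (E : ℝ) ^ 3 * (Z / ℓ ^ A) := by
    have g2 : Real.sqrt Z * ℓ ^ 3 ≤ Z / ℓ ^ A := by
      rw [le_div_iff₀ (by positivity)]
      calc Real.sqrt Z * ℓ ^ 3 * ℓ ^ A = Real.sqrt Z * ℓ ^ (A + 3) := by ring
        _ ≤ Real.sqrt Z * Real.sqrt Z := mul_le_mul_of_nonneg_left (g1.trans hDsZ) (by linarith)
        _ = Z := hsZ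
    calc 24 * Real.sqrt Z * (Real.log Z) ^ 3 ≤ 24 * Real.sqrt Z * ((E : ℝ) ^ 3 * ℓ ^ 3) :=
          mul_le_mul_of_nonneg_left hlZ3 (by positivity)
      _ = 24 * (E : ℝ) ^ 3 * (Real.sqrt Z * ℓ ^ 3) := by ring
      _ ≤ _ := mul_le_mul_of_nonneg_left g2 (by positivity)
  have e5 : 9 * C₀ * (D * Real.sqrt Z * Real.log Z) ≤ 9 * C₀ * E * (Z / ℓ ^ A) := by
    have g2 : D * Real.sqrt Z * ℓ ≤ Z / ℓ ^ A := by
      rw [le_div_iff₀ (by positivity)]
      have g3 : ℓ ^ (A + 1) ≤ D := (pow_le_pow_right₀ hL (by omega)).trans g1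
      calc D * Real.sqrt Z * ℓ * ℓ ^ A = D * Real.sqrt Z * ℓ ^ (A + 1) := by ring
        _ ≤ D * Real.sqrt Z * D := mul_le_mul_of_nonneg_left g3 (by positivity)
        _ = (D * D) * Real.sqrt Z := by ring
        _ = Z := by rw [hsD, hsZ]
    calc 9 * C₀ * (D * Real.sqrt Z * Real.log Z) ≤ 9 * C₀ * (D * Real.sqrt Z * (E * ℓ)) := by
          apply mul_le_mul_of_nonneg_left _ (by positivity)
          exact mul_le_mul_of_nonneg_left hlZ (by positivity)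
      _ = 9 * C₀ * E * (D * Real.sqrt Z * ℓ) := by ring
      _ ≤ _ := mul_le_mul_of_nonneg_left g2 (by positivity)
  have e6 : 96 * (C1 / ℓ ^ (A + 3)) * Z * (Real.log Z) ^ 3 ≤ 96 * C1 * (E : ℝ) ^ 3 * (Z / ℓ ^ A) := by
    calc 96 * (C1 / ℓ ^ (A + 3)) * Z * (Real.log Z) ^ 3 = 96 * C1 * Z * ((Real.log Z) ^ 3 / ℓ ^ (A + 3)) := by ring
      _ ≤ 96 * C1 * Z * ((E : ℝ) ^ 3 / ℓ ^ A) := mul_le_mul_of_nonneg_left n2 (by positivity)
      _ = _ := by ring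
  have e7 : |dn D q - dn D0 q| * Z ≤ 2 * C2 * E * (Z / ℓ ^ A) := by
    have g2 : Real.log D ≤ E * ℓ := (Real.log_le_log (by linarith) hDZ).trans hlZ
    calc |dn D q - dn D0 q| * Z ≤ (2 * (C2 / ℓ ^ (A + 1)) * Real.log D) * Z := mul_le_mul_of_nonneg_right p3 hZ0.le
      _ ≤ (2 * (C2 / ℓ ^ (A + 1)) * (E * ℓ)) * Z := by
          apply mul_le_mul_of_nonneg_right _ hZ0.le
          exact mul_le_mul_of_nonneg_left g2 (by positivity)
      _ = 2 * C2 * E * (Z / ℓ ^ A) := by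
          rw [pow_succ]
          field_simp
  -- together
  have t1 : ∑ t ∈ cls q r Z, (Lp t : ℂ) * ph 0 0 t = ((∑ t ∈ cls q r Z, Lp t : ℝ) : ℂ) := by
    push_cast
    refine sum_congr rfl fun t _ => ?_
    have : ph 0 0 t = 1 := by unfold ph; simp
    rw [this, mul_one]
  have t2 : ‖((∑ t ∈ cls q r Z, Lp t : ℝ) : ℂ) - ((dn D q * Z : ℝ) : ℂ)‖ ≤
      24 * Real.sqrt Z * (Real.log Z) ^ 3 +
        (9 * C₀ * (D * Real.sqrt Z * Real.log Z) + 96 * (C1 / ℓ ^ (A + 3)) * Z * (Real.log Z) ^ 3) := by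
    rw [← t1]
    have := norm_add_le (∑ t ∈ cls q r Z, (Lp t : ℂ) * ph 0 0 t - ∑ t ∈ cls q r Z, (LamK t : ℂ) * ph 0 0 t)
      (∑ t ∈ cls q r Z, (LamK t : ℂ) * ph 0 0 t - ((dn D q * Z : ℝ) : ℂ))
    rw [sub_add_sub_cancel] at this
    linarith
  rw [← Complex.ofReal_sub, Complex.norm_real, Real.norm_eq_abs] at t2
  have t3 : |∑ t ∈ cls q r Z, Lp t - dn D0 q * Z| ≤ |∑ t ∈ cls q r Z, Lp t - dn D q * Z| + |dn D q - dn D0 q| * Z := by
    have := abs_add_le (∑ t ∈ cls q r Z, Lp t - dn D q * Z) ((dn D q - dn D0 q) * Z)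
    rw [abs_mul, abs_of_pos hZ0] at this
    refine le_trans (le_of_eq ?_) this
    congr 1
    ring
  have t4 : 0 ≤ Z / ℓ ^ A := by positivity
  calc |∑ t ∈ cls q r Z, Lp t - dn D0 q * Z| ≤ _ := t3
    _ ≤ (96 * C1 * (E : ℝ) ^ 3 + 9 * C₀ * E + 2 * C2 * E + 24 * (E : ℝ) ^ 3 + 1) * (Z / ℓ ^ A) := by
        have : (96 * C1 * (E : ℝ) ^ 3 + 9 * C₀ * E + 2 * C2 * E + 24 * (E : ℝ) ^ 3 + 1) * (Z / ℓ ^ A) =
          96 * C1 * (E : ℝ) ^ 3 * (Z / ℓ ^ A) + 9 * C₀ * E * (Z / ℓ ^ A) + 2 * C2 * E * (Z / ℓ ^ A) +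
            24 * (E : ℝ) ^ 3 * (Z / ℓ ^ A) + Z / ℓ ^ A := by ring
        rw [this]
        linarith
    _ = _ := by ring

end Pool.Agent.J6H16.PF
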