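import Pool.Agent.J6H16.PF.Pf

/-!
# Project PF (helper16): Chebyshev's lower bound for the density, sums of `1 / N(t)` over the primes of degree one
-/

set_option autoImplicit false

namespace Pool.Agent.J6H16.PF

open Finset Filter Topology MeasureTheory
open Pool.Agent.N782.GN Pool.Agent.N855.GN
open Pool.Agent.H304R3.HK (UH bb LamK CS)

/-- a lower bound for the number of the elements -/
theorem card_bl_ge {y : ℝ} (hy : 1 ≤ y) : y / 8 ≤ ((bl y).card : ℝ) := by
  classical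
  set s := ⌊Real.sqrt (y / 2)⌋₊ with hs
  rcases lt_or_ge y 2 with h2 | h2
  · have h1 : (1 : ZI) ∈ bl y := by
      rw [mem_bl]
      refine ⟨one_ne_zero, ?_⟩
      rw [nz_unit isUnit_one]
      exact hy
    have h3 : 1 ≤ (bl y).card := card_pos.2 ⟨1, h1⟩
    have h4 : (1 : ℝ) ≤ ((bl y).card : ℝ) := by exact_mod_cast h3
    linarith
  · have hsub : ((Icc 1 s) ×ˢ (Icc 0 s)).image (fun p : ℕ × ℕ => (⟨(p.1 : ℤ), (p.2 : ℤ)⟩ : ZI)) ⊆ bl y := by
      intro z hz
      rw [mem_image] at hz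
      obtain ⟨p, hp, rfl⟩ := hz
      rw [mem_product, mem_Icc, mem_Icc] at hp
      have hs' : (s : ℝ) ≤ Real.sqrt (y / 2) := Nat.floor_le (Real.sqrt_nonneg _)
      have hsq : Real.sqrt (y / 2) ^ 2 = y / 2 := Real.sq_sqrt (by linarith)
      have h3 : (p.1 : ℝ) ≤ s := by exact_mod_cast hp.1.2
      have h4 : (p.2 : ℝ) ≤ s := by exact_mod_cast hp.2.2
      have h5 : (p.1 : ℝ) ^ 2 ≤ y / 2 := by
        rw [← hsq]
        exact pow_le_pow_left₀ (Nat.cast_nonneg _) (h3.trans hs') 2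
      have h6 : (p.2 : ℝ) ^ 2 ≤ y / 2 := by
        rw [← hsq]
        exact pow_le_pow_left₀ (Nat.cast_nonneg _) (h4.trans hs') 2
      rw [mem_bl]
      constructor
      · intro h
        have := congrArg Zsqrtd.re h
        simp at this
        omega
      · rw [nz_eq]
        push_cast
        linarith
    have hcard : s * (s + 1) ≤ (bl y).card := by
      refine le_trans (le_of_eq ?_) (card_le_card hsub)
      rw [card_image_of_injective, card_product, Nat.card_Icc, Nat.card_Icc]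
      · simp
      · intro p p' h
        have h1 := congrArg Zsqrtd.re h
        have h2 := congrArg Zsqrtd.im h
        simp at h1 h2
        exact Prod.ext h1 h2
    have hs1 : 1 ≤ s := by
      apply Nat.le_floor
      rw [Nat.cast_one]
      exact Real.one_le_sqrt.2 (by linarith)
    have hs2 : Real.sqrt (y / 2) < s + 1 := Nat.lt_floor_add_one _
    have h3 : (s : ℝ) * (s + 1) ≤ ((bl y).card : ℝ) := by exact_mod_cast hcard
    have h4 : (1 : ℝ) ≤ s := by exact_mod_cast hs1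
    have h5 : y / 2 < ((s : ℝ) + 1) ^ 2 := by
      have := Real.sq_sqrt (show 0 ≤ y / 2 by linarith)
      have h6 := Real.sqrt_nonneg (y / 2)
      nlinarith
    nlinarith

/-- the convolution identity -/
theorem tsum_id (X : ℝ) : ∑ c ∈ bl X, LamK c * ((bl (X / nz c)).card : ℝ) = 4 * ∑ z ∈ bl X, Real.log (nz z) := by
  classical
  have h1 := grp2 (R := ℝ) X LamK (fun t => if t ∈ bl X then 1 else 0) (fun m hm => if_neg hm)
  have h2 : ∑ m ∈ bl X, (∑ b ∈ Dv m, LamK b) * (if m ∈ bl X then (1 : ℝ) else 0) = 4 * ∑ z ∈ bl X, Real.log (nz z) := by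
    rw [mul_sum]
    refine sum_congr rfl fun m hm => ?_
    rw [if_pos hm, mul_one]
    exact c_mub.2.2.2.2.1 m ((mem_bl _ _).1 hm).1
  rw [← h2, h1]
  refine sum_congr rfl fun c hc => ?_
  have hc0 := ((mem_bl _ _).1 hc).1
  have hcp := nz_pos hc0
  have hc1 := nz_one_le hc0
  rw [← mul_sum]
  congr 1
  rw [← sum_filter, sum_const, nsmul_eq_mul, mul_one]
  norm_cast
  congr 1
  ext u
  rw [mem_filter, mem_bl, mem_bl, mem_bl, Pool.Agent.N855.GN.nz_mul, le_div_iff₀ hcp, mul_comm (nz u)]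
  constructor
  · rintro ⟨h3, h4⟩
    refine ⟨⟨h3, ?_⟩, mul_ne_zero hc0 h3, h4⟩
    exact (le_mul_of_one_le_left (nz_nonneg u) hc1).trans h4
  · rintro ⟨⟨h3, -⟩, -, h4⟩
    exact ⟨h3, h4⟩

theorem LamK_nonneg (t : ZI) : 0 ≤ LamK t := (c_mub.2.2.2.2.2 t).1

/-- an upper bound of the type of Mertens -/
theorem mert_up {x : ℝ} (hx : 1 ≤ x) : ∑ c ∈ bl x, LamK c / nz c ≤ 288 * Real.log x := by
  classical
  have h1 := tsum_id x
  have h2 : ∑ c ∈ bl x, LamK c / nz c * (x / 8) ≤ ∑ c ∈ bl x, LamK c * ((bl (x / nz c)).card : ℝ) := by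
    refine sum_le_sum fun c hc => ?_
    have hcp := nz_pos ((mem_bl _ _).1 hc).1
    have h3 := card_bl_ge (y := x / nz c) (by rw [le_div_iff₀ hcp, one_mul]; exact ((mem_bl _ _).1 hc).2)
    calc LamK c / nz c * (x / 8) = LamK c * (x / nz c / 8) := by ring
      _ ≤ _ := mul_le_mul_of_nonneg_left h3 (LamK_nonneg c)
  rw [h1, ← sum_mul] at h2
  have h3 : ∑ z ∈ bl x, Real.log (nz z) ≤ 9 * x * Real.log x := by
    calc ∑ z ∈ bl x, Real.log (nz z) ≤ ∑ z ∈ bl x, Real.log x :=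
          sum_le_sum fun z hz => Real.log_le_log (nz_pos ((mem_bl _ _).1 hz).1) ((mem_bl _ _).1 hz).2
      _ = ((bl x).card : ℝ) * Real.log x := by rw [sum_const, nsmul_eq_mul]
      _ ≤ _ := mul_le_mul_of_nonneg_right (card_bl hx) (Real.log_nonneg hx)
  have h4 : (∑ c ∈ bl x, LamK c / nz c) * (x / 8) ≤ 288 * Real.log x * (x / 8) := by
    calc _ ≤ 4 * (9 * x * Real.log x) := h2.trans (mul_le_mul_of_nonneg_left h3 (by norm_num))
      _ = _ := by ring
  exact le_of_mul_le_mul_right h4 (by linarith)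

/-- a lower bound of the type of Mertens -/
theorem mert_lo : ∀ᶠ X : ℝ in atTop, 1 / 100 * Real.log X ≤ ∑ c ∈ bl X, LamK c / nz c := by
  classical
  filter_upwards [eventually_ge_atTop (1000000 : ℝ)] with X hX
  have hX0 : 0 < X := by linarith
  have hl : 0 ≤ Real.log X := Real.log_nonneg (by linarith)
  have h1 := tsum_id X
  have h2 : ∑ c ∈ bl X, LamK c * ((bl (X / nz c)).card : ℝ) ≤ ∑ c ∈ bl X, LamK c / nz c * (9 * X) := by
    refine sum_le_sum fun c hc => ?_
    have hcp := nz_pos ((mem_bl _ _).1 hc).1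
    have h3 := card_bl (X := X / nz c) (by rw [le_div_iff₀ hcp, one_mul]; exact ((mem_bl _ _).1 hc).2)
    calc LamK c * ((bl (X / nz c)).card : ℝ) ≤ LamK c * (9 * (X / nz c)) := mul_le_mul_of_nonneg_left h3 (LamK_nonneg c)
      _ = _ := by ring
  rw [h1, ← sum_mul] at h2
  have hs : Real.sqrt X * Real.sqrt X = X := Real.mul_self_sqrt hX0.le
  have hs1 : 1000 ≤ Real.sqrt X := by
    apply Real.le_sqrt_of_sq_le
    linarith
  have h3 : (X / 8 - 9 * Real.sqrt X) * (1 / 2 * Real.log X) ≤ ∑ z ∈ bl X, Real.log (nz z) := by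
    set S := (bl X).filter (fun z => Real.sqrt X < nz z) with hS
    have e1 : X / 8 - 9 * Real.sqrt X ≤ (S.card : ℝ) := by
      have e2 := card_bl_ge (y := X) (by linarith)
      have e3 := card_bl (X := Real.sqrt X) (by linarith)
      have e4 : ((bl X).card : ℝ) ≤ S.card + (bl (Real.sqrt X)).card := by
        have : bl X ⊆ S ∪ bl (Real.sqrt X) := by
          intro z hz
          rw [mem_union]
          by_cases h : Real.sqrt X < nz z
          · left
            rw [hS, mem_filter]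
            exact ⟨hz, h⟩
          · right
            rw [mem_bl]
            exact ⟨((mem_bl _ _).1 hz).1, not_lt.1 h⟩
        exact_mod_cast (card_le_card this).trans (card_union_le _ _)
      linarith
    calc (X / 8 - 9 * Real.sqrt X) * (1 / 2 * Real.log X) ≤ (S.card : ℝ) * (1 / 2 * Real.log X) :=
          mul_le_mul_of_nonneg_right e1 (by positivity)
      _ = ∑ z ∈ S, 1 / 2 * Real.log X := by rw [sum_const, nsmul_eq_mul]
      _ ≤ ∑ z ∈ S, Real.log (nz z) := by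
          refine sum_le_sum fun z hz => ?_
          rw [hS, mem_filter] at hz
          have e5 := Real.log_le_log (by linarith : 0 < Real.sqrt X) hz.2.le
          rw [Real.log_sqrt hX0.le] at e5
          linarith
      _ ≤ _ := by
          rw [hS]
          refine sum_le_sum_of_subset_of_nonneg (filter_subset _ _) fun z hz _ => ?_
          exact Real.log_nonneg (nz_one_le ((mem_bl _ _).1 hz).1)
  have h4 : X / 16 ≤ X / 8 - 9 * Real.sqrt X := by nlinarith
  have h5 : X / 16 * (1 / 2 * Real.log X) ≤ (X / 8 - 9 * Real.sqrt X) * (1 / 2 * Real.log X) :=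
    mul_le_mul_of_nonneg_right h4 (by positivity)
  have h6 : 1 / 100 * Real.log X * (9 * X) ≤ (∑ c ∈ bl X, LamK c / nz c) * (9 * X) := by
    refine le_trans ?_ h2
    nlinarith
  exact le_of_mul_le_mul_right h6 (by linarith)

/-- dyadic upper bound -/
theorem dyad_up {w V : ℝ} (hw : 1 ≤ w) (hwV : w ≤ V) (f : ZI → ℝ) (hf : ∀ t, 0 ≤ f t) {c : ℝ}
    (hc : ∀ Z : ℝ, w ≤ Z → Z ≤ V → ∑ t ∈ bl Z, f t ≤ c * Z) :
    ∑ t ∈ bg w V, f t / nz t ≤ 2 * c * (2 * Real.log V + 1) := by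
  classical
  have hV1 : 1 ≤ V := hw.trans hwV
  have hc0 : 0 ≤ c := by
    have h1 := hc w le_rfl hwV
    have h2 : 0 ≤ ∑ t ∈ bl w, f t := sum_nonneg fun t _ => hf t
    by_contra hcon
    push Not at hcon
    nlinarith
  set I := ⌈2 * Real.log V⌉₊ with hI
  have hlV : 0 ≤ Real.log V := Real.log_nonneg hV1
  have hI1 : 2 * Real.log V / 1 ≤ I := by
    rw [div_one]
    exact Nat.le_ceil _
  have hI2 : (I : ℝ) ≤ 2 * Real.log V + 1 := (Nat.ceil_lt_add_one (by positivity)).le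
  have hbig : V ≤ w * (1 + 1) ^ I := by
    have := big_pow hV1 one_pos le_rfl hI1
    exact this.trans (le_mul_of_one_le_left (by positivity) hw)
  have hstep : ∀ t ∈ bg w V, f t / nz t ≤ ∑ i ∈ range I, (if t ∈ bl (As w V 1 (i + 1)) then f t / As w V 1 i else 0) := by
    intro t ht
    rw [mem_bg] at ht
    obtain ⟨i, hiI, hi⟩ := cellidx (η := 1) (by linarith) hwV zero_le_one hbig ht.2.2 ht.2.1
    have hi0 := (hi i hiI).2 rfl
    have hAi : w ≤ As w V 1 i := As_ge hwV (by linarith) zero_le_one i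
    refine le_trans ?_ (single_le_sum (f := fun i => if t ∈ bl (As w V 1 (i + 1)) then f t / As w V 1 i else 0)
      (fun j _ => ?_) hiI)
    · rw [if_pos ((mem_bl _ _).2 ⟨ht.1, hi0.2⟩)]
      exact div_le_div_of_nonneg_left (hf t) (by linarith) hi0.1.le
    · split_ifs
      · exact div_nonneg (hf t) (by linarith [As_ge hwV (by linarith) (zero_le_one : (0 : ℝ) ≤ 1) j])
      · exact le_rfl
  refine (sum_le_sum hstep).trans ?_
  rw [sum_comm]
  have hterm : ∀ i ∈ range I, ∑ t ∈ bg w V, (if t ∈ bl (As w V 1 (i + 1)) then f t / As w V 1 i else 0) ≤ 2 * c := by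
    intro i _
    have hAi : w ≤ As w V 1 i := As_ge hwV (by linarith) zero_le_one i
    have hAi0 : 0 < As w V 1 i := by linarith
    have hAi1 : w ≤ As w V 1 (i + 1) := As_ge hwV (by linarith) zero_le_one (i + 1)
    have h1 : ∑ t ∈ bg w V, (if t ∈ bl (As w V 1 (i + 1)) then f t / As w V 1 i else 0) ≤
        ∑ t ∈ bl (As w V 1 (i + 1)), f t / As w V 1 i := by
      rw [← sum_filter]
      refine sum_le_sum_of_subset_of_nonneg (fun t ht => (mem_filter.1 ht).2) fun t _ _ => div_nonneg (hf t) hAi0.le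
    refine h1.trans ?_
    rw [← sum_div, div_le_iff₀ hAi0]
    have h2 := hc _ hAi1 (As_le w V 1 (i + 1))
    have h3 := As_succ (w := w) (V := V) (η := 1) (by linarith) zero_le_one i
    calc ∑ t ∈ bl (As w V 1 (i + 1)), f t ≤ c * As w V 1 (i + 1) := h2
      _ ≤ c * ((1 + 1) * As w V 1 i) := mul_le_mul_of_nonneg_left h3 hc0
      _ = _ := by ring
  refine (sum_le_sum hterm).trans ?_
  rw [sum_const, card_range, nsmul_eq_mul]
  calc (I : ℝ) * (2 * c) ≤ (2 * Real.log V + 1) * (2 * c) := mul_le_mul_of_nonneg_right hI2 (by positivity)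
    _ = _ := by ring

/-- dyadic lower bound -/
theorem dyad_lo {w V : ℝ} (hw : 1 ≤ w) (hwV : w ≤ V) (f : ZI → ℝ) (hf : ∀ t, 0 ≤ f t) {c : ℝ} (hc0 : 0 ≤ c)
    (hc : ∀ Z : ℝ, w ≤ Z → 2 * Z ≤ V → c * Z ≤ ∑ t ∈ bg Z (2 * Z), f t) :
    c / 2 * (Real.log (V / w) - 1) ≤ ∑ t ∈ bg w V, f t / nz t := by
  classical
  have hw0 : 0 < w := by linarith
  have hV0 : 0 < V := by linarith
  set I := ⌊Real.log (V / w)⌋₊ with hI
  have hl : 0 ≤ Real.log (V / w) := Real.log_nonneg (by rw [le_div_iff₀ hw0]; linarith)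
  have hI1 : (I : ℝ) ≤ Real.log (V / w) := Nat.floor_le hl
  have hI2 : Real.log (V / w) - 1 ≤ I := by
    have := Nat.lt_floor_add_one (Real.log (V / w))
    linarith
  have hpow : w * 2 ^ I ≤ V := by
    have h1 : (2 : ℝ) ^ I ≤ V / w := by
      rw [← Real.log_le_log_iff (by positivity) (by positivity), Real.log_pow]
      have h2 := Real.log_two_lt_d9
      have h3 : (0 : ℝ) ≤ I := Nat.cast_nonneg I
      nlinarith
    rw [le_div_iff₀ hw0] at h1
    linarith
  have hterm : ∀ i ∈ range I, c / 2 ≤ ∑ t ∈ bg (w * 2 ^ i) (2 * (w * 2 ^ i)), f t / nz t := by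
    intro i hi
    rw [mem_range] at hi
    have hp : (1 : ℝ) ≤ 2 ^ i := one_le_pow₀ (by norm_num)
    have h1 : 2 * (w * 2 ^ i) ≤ V := by
      refine le_trans ?_ hpow
      calc 2 * (w * 2 ^ i) = w * 2 ^ (i + 1) := by rw [pow_succ]; ring
        _ ≤ w * 2 ^ I := by
          apply mul_le_mul_of_nonneg_left _ hw0.le
          exact pow_le_pow_right₀ (by norm_num) hi
    have h2 := hc (w * 2 ^ i) (le_mul_of_one_le_right hw0.le hp) h1
    have h3 : 0 < w * 2 ^ i := by positivity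
    have h4 : (∑ t ∈ bg (w * 2 ^ i) (2 * (w * 2 ^ i)), f t) / (2 * (w * 2 ^ i)) ≤
        ∑ t ∈ bg (w * 2 ^ i) (2 * (w * 2 ^ i)), f t / nz t := by
      rw [sum_div]
      refine sum_le_sum fun t ht => ?_
      rw [mem_bg] at ht
      exact div_le_div_of_nonneg_left (hf t) (nz_pos ht.1) ht.2.1
    refine le_trans ?_ h4
    rw [le_div_iff₀ (by positivity)]
    calc c / 2 * (2 * (w * 2 ^ i)) = c * (w * 2 ^ i) := by ring
      _ ≤ _ := h2
  have hsum : ∑ i ∈ range I, ∑ t ∈ bg (w * 2 ^ i) (2 * (w * 2 ^ i)), f t / nz t ≤ ∑ t ∈ bg w V, f t / nz t := by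
    rw [← sum_biUnion]
    · refine sum_le_sum_of_subset_of_nonneg ?_ fun t ht _ => div_nonneg (hf t) (nz_nonneg t)
      intro t ht
      rw [mem_biUnion] at ht
      obtain ⟨i, hi, ht⟩ := ht
      rw [mem_range] at hi
      rw [mem_bg] at ht ⊢
      have hp : (1 : ℝ) ≤ 2 ^ i := one_le_pow₀ (by norm_num)
      refine ⟨ht.1, ?_, lt_of_le_of_lt (le_mul_of_one_le_right hw0.le hp) ht.2.2⟩
      refine ht.2.1.trans (le_trans ?_ hpow)
      calc 2 * (w * 2 ^ i) = w * 2 ^ (i + 1) := by rw [pow_succ]; ring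
        _ ≤ w * 2 ^ I := by
          apply mul_le_mul_of_nonneg_left _ hw0.le
          exact pow_le_pow_right₀ (by norm_num) hi
    · intro i _ j _ hij
      rw [Function.onFun, disjoint_left]
      intro t hti htj
      rw [mem_bg] at hti htj
      rcases lt_or_gt_of_ne hij with h | h
      · have : 2 * (w * 2 ^ i) ≤ w * 2 ^ j := by
          calc 2 * (w * 2 ^ i) = w * 2 ^ (i + 1) := by rw [pow_succ]; ring
            _ ≤ w * 2 ^ j := by
              apply mul_le_mul_of_nonneg_left _ hw0.le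
              exact pow_le_pow_right₀ (by norm_num) h
        linarith [hti.2.1, htj.2.2]
      · have : 2 * (w * 2 ^ j) ≤ w * 2 ^ i := by
          calc 2 * (w * 2 ^ j) = w * 2 ^ (j + 1) := by rw [pow_succ]; ring
            _ ≤ w * 2 ^ i := by
              apply mul_le_mul_of_nonneg_left _ hw0.le
              exact pow_le_pow_right₀ (by norm_num) h
        linarith [htj.2.1, hti.2.2]
  have h5 : (I : ℝ) * (c / 2) ≤ ∑ i ∈ range I, ∑ t ∈ bg (w * 2 ^ i) (2 * (w * 2 ^ i)), f t / nz t := by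
    have := sum_le_sum hterm
    rw [sum_const, card_range, nsmul_eq_mul] at this
    exact this
  calc c / 2 * (Real.log (V / w) - 1) ≤ c / 2 * I := mul_le_mul_of_nonneg_left hI2 (by positivity)
    _ = (I : ℝ) * (c / 2) := mul_comm _ _
    _ ≤ _ := h5.trans hsum

theorem cls_one (r : ZI) (Z : ℝ) : cls 1 r Z = bl Z := by
  classical
  unfold cls
  rw [filter_true_of_mem]
  intro t _
  rw [Nat.cast_one]
  exact one_dvd _

/-- **the density is bounded below** -/
theorem dn_lo {ε : ℝ} (hε : 0 < ε) (hε1 : ε ≤ 1) : ∀ᶠ M : ℝ in atTop, 1 / 5000 ≤ dn (M ^ (ε / 4)) 1 := by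
  classical
  set ε' := min ε (1 / 100000) with hε'
  have hε'0 : 0 < ε' := lt_min hε (by norm_num)
  have hε'1 : ε' ≤ 1 / 100000 := min_le_right _ _
  obtain ⟨C, hC, h⟩ := p2m hε 1 0 1
  obtain ⟨C', hC', h'⟩ := p2m hε'0 1 0 1
  filter_upwards [h, h', mert_lo, ev_log (1000000 * (C + C' + 24) + 1000), eventually_ge_atTop (3 : ℝ),
    logpow 4 (show (0 : ℝ) < ε' / 2 by positivity) one_pos] with M h h' hlo hlog hM3 hlp
  have hM0 : 0 < M := by linarith
  have hM1 : 1 ≤ M := by linarith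
  have hL := one_le_log hM3
  set ℓ := Real.log M with hℓ
  have hcop : IsCoprime (1 : ZI) (((1 : ℕ) : ℕ) : ZI) := by
    rw [Nat.cast_one]
    exact isCoprime_one_left
  have hB : ((1 : ℕ) : ℝ) ≤ ℓ ^ 0 := by simp
  have hMM : M ≤ M ^ 1 := by rw [pow_one]
  have hMe : M ^ ε ≤ M := by
    calc M ^ ε ≤ M ^ (1 : ℝ) := Real.rpow_le_rpow_of_exponent_le hM1 hε1
      _ = M := Real.rpow_one M
  have hMe' : M ^ ε' ≤ M := by
    calc M ^ ε' ≤ M ^ (1 : ℝ) := Real.rpow_le_rpow_of_exponent_le hM1 (by linarith)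
      _ = M := Real.rpow_one M
  -- the two densities are close
  have a1 := h M 1 1 hMe hMM le_rfl hB hcop
  have a2 := h' M 1 1 hMe' hMM le_rfl hB hcop
  rw [cls_one, pow_one] at a1 a2
  set dn1 := dn (M ^ (ε / 4)) 1 with hdn1
  set dn2 := dn (M ^ (ε' / 4)) 1 with hdn2
  have a3 : (dn2 - dn1) * M ≤ (C + C') * M / ℓ := by
    rw [abs_le] at a1 a2
    have : (C + C') * M / ℓ = C * M / ℓ + C' * M / ℓ := by ring
    rw [this]
    linarith [a1.1, a1.2, a2.1, a2.2]
  have a4 : dn2 - dn1 ≤ (C + C') / ℓ := by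
    rw [mul_div_right_comm] at a3
    exact le_of_mul_le_mul_right a3 hM0
  -- the upper bound in terms of the density
  have hw1 : 1 ≤ M ^ ε' := Real.one_le_rpow hM1 hε'0.le
  have b1 : ∀ Z : ℝ, M ^ ε' ≤ Z → Z ≤ M → ∑ t ∈ bl Z, LamK t ≤ (dn2 + (C' + 24) / ℓ) * Z := by
    intro Z hZ1 hZ2
    have c1 := h' Z 1 1 hZ1 (by rw [pow_one]; exact hZ2) le_rfl hB hcop
    rw [cls_one, pow_one] at c1
    have hMe3 : 1 ≤ M ^ (ε' / 2) := Real.one_le_rpow hM1 (by positivity)
    have hsq : M ^ (ε' / 2) * M ^ (ε' / 2) = M ^ ε' := by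
      rw [← Real.rpow_add hM0]
      congr 1
      ring
    have hl4 : ℓ ^ 4 ≤ M ^ (ε' / 2) := by rw [one_mul] at hlp; exact hlp
    have hZ0 : 0 < Z := by linarith
    have hl4' : 1 ≤ ℓ ^ 4 := one_le_pow₀ hL
    have hsZ : M ^ (ε' / 2) ≤ Real.sqrt Z := by
      apply Real.le_sqrt_of_sq_le
      rw [sq, hsq]
      exact hZ1
    have hℓbig : 1000 ≤ ℓ := by nlinarith
    have hZ3 : 3 ≤ Z := by
      have : (3 : ℝ) ≤ ℓ ^ 4 := by
        calc (3 : ℝ) ≤ ℓ ^ 1 := by rw [pow_one]; linarith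
          _ ≤ ℓ ^ 4 := pow_le_pow_right₀ hL (by norm_num)
      nlinarith
    have c2 := lamdiff hZ3
    have c3 : 24 * Real.sqrt Z * (Real.log Z) ^ 3 ≤ 24 / ℓ * Z := by
      have d1 : Real.log Z ≤ ℓ := Real.log_le_log hZ0 hZ2
      have d2 : (Real.log Z) ^ 3 ≤ ℓ ^ 3 := pow_le_pow_left₀ (Real.log_nonneg (by linarith)) d1 3
      have d3 : Real.sqrt Z * Real.sqrt Z = Z := Real.mul_self_sqrt hZ0.le
      have d4 : Real.sqrt Z * ℓ ^ 3 * ℓ ≤ Z := by
        calc Real.sqrt Z * ℓ ^ 3 * ℓ = Real.sqrt Z * ℓ ^ 4 := by ring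
          _ ≤ Real.sqrt Z * Real.sqrt Z := mul_le_mul_of_nonneg_left (hl4.trans hsZ) (Real.sqrt_nonneg _)
          _ = Z := d3
      have d5 : Real.sqrt Z * ℓ ^ 3 ≤ Z / ℓ := by
        rw [le_div_iff₀ (by linarith)]
        exact d4
      calc 24 * Real.sqrt Z * (Real.log Z) ^ 3 ≤ 24 * Real.sqrt Z * ℓ ^ 3 :=
            mul_le_mul_of_nonneg_left d2 (by positivity)
        _ = 24 * (Real.sqrt Z * ℓ ^ 3) := by ring
        _ ≤ 24 * (Z / ℓ) := mul_le_mul_of_nonneg_left d5 (by norm_num)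
        _ = _ := by ring
    rw [sum_sub_distrib] at c2
    rw [abs_le] at c1
    have c4 : (dn2 + (C' + 24) / ℓ) * Z = dn2 * Z + C' * Z / ℓ + 24 / ℓ * Z := by ring
    rw [c4]
    linarith [c1.2]
  have b2 := dyad_up hw1 hMe' LamK LamK_nonneg b1
  have b3 := mert_up hw1
  rw [Real.log_rpow hM0] at b3
  have b4 : ∑ c ∈ bl M, LamK c / nz c = ∑ c ∈ bl (M ^ ε'), LamK c / nz c + ∑ c ∈ bg (M ^ ε') M, LamK c / nz c :=
    sum_split (M ^ ε') M hMe' _
  have b5 : 288 * (ε' * ℓ) ≤ 288 / 100000 * ℓ := by nlinarith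
  have b6 : 1 / 150 * ℓ ≤ 2 * (dn2 + (C' + 24) / ℓ) * (2 * ℓ + 1) := by
    have : 1 / 150 * ℓ ≤ 1 / 100 * ℓ - 288 / 100000 * ℓ := by nlinarith
    linarith
  have hX : (C + C' + 24) / ℓ ≤ 1 / 1000000 := by
    rw [div_le_iff₀ (by linarith)]
    nlinarith
  have hX2 : (C + C') / ℓ ≤ (C + C' + 24) / ℓ := div_le_div_of_nonneg_right (by linarith) (by linarith)
  have hX3 : (C' + 24) / ℓ ≤ (C + C' + 24) / ℓ := div_le_div_of_nonneg_right (by linarith) (by linarith)
  by_contra hcon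
  push Not at hcon
  have e1 : dn2 + (C' + 24) / ℓ ≤ 1 / 4000 := by linarith
  have hℓbig : 1000 ≤ ℓ := by nlinarith
  have e2 : 2 * (dn2 + (C' + 24) / ℓ) * (2 * ℓ + 1) ≤ 2 * (1 / 4000) * (2 * ℓ + 1) := by
    apply mul_le_mul_of_nonneg_right _ (by linarith)
    linarith
  linarith

end Pool.Agent.J6H16.PF
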