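import Pool.Agent.J6H16.PF.Pg

/-!
# Project PF (helper16): the mean square over the frequencies `k ≠ 0` of a product
-/

set_option autoImplicit false

namespace Pool.Agent.J6H16.PF

open Finset Filter Topology MeasureTheory
open Pool.Agent.N782.GN Pool.Agent.N855.GN
open Pool.Agent.H304R3.HK (UH bb LamK CS)

theorem sc7 (t : ZI) : sc 7 0 t = 1 := by
  unfold sc
  rw [if_pos]
  have h1 := Complex.neg_pi_lt_arg (t : ℂ)
  have h2 := Complex.arg_le_pi (t : ℂ)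
  have h3 := Real.pi_lt_d2
  have h4 := Real.pi_gt_three
  rcases le_or_gt 0 (Complex.arg (t : ℂ)) with h | h
  · refine ⟨0, ?_, ?_⟩
    · push_cast; linarith
    · push_cast; linarith
  · refine ⟨1, ?_, ?_⟩
    · push_cast; linarith
    · push_cast; linarith

/-- the indicator of the elements `t` of a class with `Y1 < N(t) ≤ Y2` -/
noncomputable def Jn (q : ℕ) (r : ZI) (Y1 Y2 : ℝ) (t : ZI) : ℝ := FF q r Y1 Y2 7 0 t

open Classical in
theorem Jn_eq (q : ℕ) (r : ZI) (Y1 Y2 : ℝ) (t : ZI) :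
    Jn q r Y1 Y2 t = if t ∈ (cls q r Y2).filter (fun t => Y1 < nz t) then 1 else 0 := by
  unfold Jn FF
  rw [sc7]
  unfold cls
  simp only [mem_filter, mem_bl]
  by_cases h : ((q : ℕ) : ZI) ∣ t - r ∧ Y1 < nz t ∧ nz t ≤ Y2 ∧ t ≠ 0
  · rw [if_pos h, if_pos ⟨⟨⟨h.2.2.2, h.2.2.1⟩, h.1⟩, h.2.1⟩]
  · rw [if_neg h, if_neg fun h' => h ⟨h'.1.2, h'.2, h'.1.1.2, h'.1.1.1⟩]

theorem Jn_err {q : ℕ} (hq : 1 ≤ q) {r : ZI} {I : ℕ} {w V η Y1 Y2 : ℝ} (hw : 1 ≤ w) (hwV : w ≤ V) (hη : 0 ≤ η)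
    (hI : V ≤ w * (1 + η) ^ I) {a m : ZI} (ha : a ∈ bg w V) (hm : m ∈ bl V) :
    |Jn q r Y1 Y2 (a * m) - Wt q r I w V η Y1 Y2 a m| ≤ sh η Y1 Y2 (nz (a * m)) := by
  have h := FF_err hq (r := r) (Y1 := Y1) (Y2 := Y2) (δ := 7) (x := 0) hw hwV hη hI ha hm
  rw [sc7, one_mul, one_mul] at h
  exact h

/-- the number of the elements of a thin shell -/
theorem shell : ∃ C : ℝ, 0 < C ∧ ∀ (Y V η : ℝ), 1 ≤ V → 0 ≤ η → η ≤ 1 → Y ≤ V →
    (((bl (2 * V)).filter (fun t => Y < nz t ∧ nz t ≤ (1 + η) * Y)).card : ℝ) ≤ C * (η * V + Real.sqrt V) := by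
  classical
  obtain ⟨C, hC, h⟩ := el0
  refine ⟨4 + 4 * C + 18, by positivity, fun Y V η hV hη0 hη1 hYV => ?_⟩
  have hsV : 1 ≤ Real.sqrt V := Real.one_le_sqrt.2 hV
  rcases lt_or_ge Y 1 with hY | hY
  · have h1 : ((bl (2 * V)).filter (fun t => Y < nz t ∧ nz t ≤ (1 + η) * Y)) ⊆ bl 2 := by
      intro t ht
      rw [mem_filter, mem_bl] at ht
      rw [mem_bl]
      refine ⟨ht.1.1, ?_⟩
      have h2 := nz_one_le ht.1.1
      nlinarith [ht.2.2]
    have h2 := card_bl (X := 2) (by norm_num)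
    have h3 : ((((bl (2 * V)).filter (fun t => Y < nz t ∧ nz t ≤ (1 + η) * Y)).card : ℕ) : ℝ) ≤ (bl 2).card := by
      exact_mod_cast card_le_card h1
    have h4 : 0 ≤ η * V := by positivity
    nlinarith
  · have hY' : 1 ≤ (1 + η) * Y := by nlinarith
    have h1 := h 1 0 Y le_rfl hY
    have h2 := h 1 0 ((1 + η) * Y) le_rfl hY'
    rw [cls_one] at h1 h2
    have e1 : ((bl (2 * V)).filter (fun t => Y < nz t ∧ nz t ≤ (1 + η) * Y)) ⊆ bl ((1 + η) * Y) \ bl Y := by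
      intro t ht
      rw [mem_filter, mem_bl] at ht
      refine Finset.mem_sdiff.2 ⟨(mem_bl _ _).2 ⟨ht.1.1, ht.2.2⟩, fun h5 => ?_⟩
      have h6 := (mem_bl _ _).1 h5
      linarith [ht.2.1, h6.2]
    have e2 : bl Y ⊆ bl ((1 + η) * Y) := by
      intro t ht
      rw [mem_bl] at ht ⊢
      exact ⟨ht.1, by nlinarith [ht.2]⟩
    have e3 : ((((bl (2 * V)).filter (fun t => Y < nz t ∧ nz t ≤ (1 + η) * Y)).card : ℕ) : ℝ) ≤
        ((bl ((1 + η) * Y)).card : ℝ) - ((bl Y).card : ℝ) := by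
      have e4 := card_le_card e1
      rw [card_sdiff_of_subset e2] at e4
      have e5 := card_le_card e2
      have e6 : (((bl ((1 + η) * Y)).card - (bl Y).card : ℕ) : ℝ) = ((bl ((1 + η) * Y)).card : ℝ) - ((bl Y).card : ℝ) := by
        push_cast [Nat.cast_sub e5]
        ring
      rw [← e6]
      exact_mod_cast e4
    rw [abs_le] at h1 h2
    have h3 : Real.sqrt Y ≤ Real.sqrt V := Real.sqrt_le_sqrt hYV
    have h4 : Real.sqrt ((1 + η) * Y) ≤ 2 * Real.sqrt V := by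
      have e7 : Real.sqrt (4 * V) = 2 * Real.sqrt V := by
        rw [Real.sqrt_mul (by norm_num : (0 : ℝ) ≤ 4) V]
        congr 1
        rw [show (4 : ℝ) = 2 ^ 2 by norm_num]
        exact Real.sqrt_sq (by norm_num)
      rw [← e7]
      exact Real.sqrt_le_sqrt (by nlinarith)
    have h5 : Real.pi / ((1 : ℕ) : ℝ) ^ 2 * ((1 + η) * Y) - Real.pi / ((1 : ℕ) : ℝ) ^ 2 * Y ≤ 4 * (η * V) := by
      rw [Nat.cast_one, one_pow, div_one]
      have h6 := Real.pi_le_four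
      have h7 : η * Y ≤ η * V := mul_le_mul_of_nonneg_left hYV hη0
      have h8 : 0 ≤ η * Y := by positivity
      nlinarith
    have h9 : 0 ≤ η * V := by positivity
    nlinarith [h1.1, h2.2, mul_le_mul_of_nonneg_left h3 hC.le, mul_le_mul_of_nonneg_left h4 hC.le]

/-- sum over the product set and the class -/
theorem cfC (f g : ZI → ℝ) (w0 w1 V : ℝ) (q : ℕ) (r : ZI) (Y1 Y2 : ℝ) (hw0 : 1 ≤ w0) (hw1 : w1 ≤ V) (hY2 : Y2 ≤ V) (k : ℤ) :
    ∑ t ∈ (cls q r Y2).filter (fun t => Y1 < nz t), (cf f g (bg w0 w1) (bl V) t : ℂ) * ph k 0 t =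
      ∑ a ∈ bg w0 w1, ∑ m ∈ bl V, (f a : ℂ) * (g m : ℂ) * ((Jn q r Y1 Y2 (a * m) : ℂ) * ph k 0 (a * m)) := by
  classical
  rcases le_or_gt w0 V with hwV | hwV
  · have hV1 : 1 ≤ V := hw0.trans hwV
    rw [grpC f g (fun t => (Jn q r Y1 Y2 t : ℂ) * ph k 0 t) (bg w0 w1) (bl V) (bl (V * V)) (fun a ha m hm => by
      rw [mem_bg] at ha
      rw [mem_bl] at hm ⊢
      refine ⟨mul_ne_zero ha.1 hm.1, ?_⟩
      rw [Pool.Agent.N855.GN.nz_mul]
      exact mul_le_mul (ha.2.1.trans hw1) hm.2 (nz_nonneg _) (by linarith))]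
    have hsub : (cls q r Y2).filter (fun t => Y1 < nz t) ⊆ bl (V * V) := by
      intro t ht
      rw [mem_filter] at ht
      have := (mem_bl _ _).1 (cls_sub q r Y2 ht.1)
      rw [mem_bl]
      exact ⟨this.1, by nlinarith [this.2]⟩
    rw [← sum_subset hsub (f := fun t => (cf f g (bg w0 w1) (bl V) t : ℂ) * ((Jn q r Y1 Y2 t : ℂ) * ph k 0 t))]
    · refine sum_congr rfl fun t ht => ?_
      rw [Jn_eq, if_pos ht]
      push_cast
      ring
    · intro t _ ht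
      rw [Jn_eq, if_neg ht]
      push_cast
      ring
  · have h1 : bg w0 w1 = ∅ := by
      rw [eq_empty_iff_forall_notMem]
      intro a ha
      rw [mem_bg] at ha
      linarith [ha.2.1, ha.2.2]
    rw [h1, sum_empty]
    refine sum_eq_zero fun t _ => ?_
    unfold cf
    rw [empty_product, filter_empty, sum_empty, Complex.ofReal_zero, zero_mul]

/-- the sum of a cell -/
noncomputable def Ca (f : ZI → ℝ) (q : ℕ) (w V η : ℝ) (p : ℕ × ZI × ZI) (k : ℤ) : ℂ :=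
  ∑ a ∈ SA q p.2.1 (As w V η p.1) (As w V η (p.1 + 1)), (f a : ℂ) * ph k 0 a

noncomputable def Cm (g : ZI → ℝ) (q : ℕ) (w V η Y1 Y2 : ℝ) (p : ℕ × ZI × ZI) (k : ℤ) : ℂ :=
  ∑ m ∈ SA q p.2.2 (Y1 / As w V η p.1) (Y2 / As w V η p.1), (g m : ℂ) * ph k 0 m

/-- the cells -/
theorem cells (f g : ZI → ℝ) {q : ℕ} {r : ZI} {I : ℕ} {w0 w1 V η Y1 Y2 : ℝ} (hw : 1 ≤ w0) (hw1 : w1 ≤ V)
    (hwV : w0 ≤ V) (hη : 0 ≤ η) (hY2 : 0 ≤ Y2) (hYV : Y2 ≤ V) (hf : ∀ a, f a ≠ 0 → nz a ≤ w1) (k : ℤ) :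
    ∑ a ∈ bg w0 w1, ∑ m ∈ bl V, (f a : ℂ) * (g m : ℂ) * ((Wt q r I w0 V η Y1 Y2 a m : ℂ) * ph k 0 (a * m)) =
      ∑ p ∈ Jx q r I, Ca f q w0 V η p k * Cm g q w0 V η Y1 Y2 p k := by
  classical
  have h1 : ∀ p ∈ Jx q r I, Ca f q w0 V η p k * Cm g q w0 V η Y1 Y2 p k = ∑ a ∈ bg w0 w1, ∑ m ∈ bl V,
      (f a : ℂ) * (g m : ℂ) * (((if a ∈ SA q p.2.1 (As w0 V η p.1) (As w0 V η (p.1 + 1)) ∧
        m ∈ SA q p.2.2 (Y1 / As w0 V η p.1) (Y2 / As w0 V η p.1) then 1 else 0 : ℝ) : ℂ) * ph k 0 (a * m)) := by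
    intro p _
    have hA : w0 ≤ As w0 V η p.1 := As_ge hwV (by linarith) hη p.1
    have hs1 : SA q p.2.1 (As w0 V η p.1) (As w0 V η (p.1 + 1)) ⊆ bg w0 V := by
      intro a ha
      rw [mem_SA] at ha
      rw [mem_bg]
      exact ⟨ha.1, ha.2.1.trans (As_le _ _ _ _), lt_of_le_of_lt hA ha.2.2.2⟩
    have hs2 : SA q p.2.2 (Y1 / As w0 V η p.1) (Y2 / As w0 V η p.1) ⊆ bl V := by
      intro m hm
      rw [mem_SA] at hm
      rw [mem_bl]
      exact ⟨hm.1, hm.2.1.trans ((div_le_self hY2 (hw.trans hA)).trans hYV)⟩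
    have hs3 : bg w0 w1 ⊆ bg w0 V := by
      intro a ha
      rw [mem_bg] at ha ⊢
      exact ⟨ha.1, ha.2.1.trans hw1, ha.2.2⟩
    rw [sum_subset hs3 (f := fun a => ∑ m ∈ bl V, (f a : ℂ) * (g m : ℂ) *
      (((if a ∈ SA q p.2.1 (As w0 V η p.1) (As w0 V η (p.1 + 1)) ∧
        m ∈ SA q p.2.2 (Y1 / As w0 V η p.1) (Y2 / As w0 V η p.1) then 1 else 0 : ℝ) : ℂ) * ph k 0 (a * m)))]
    · unfold Ca Cm
      rw [sum_mul, ← sum_subset hs1 (f := fun a => ∑ m ∈ bl V, (f a : ℂ) * (g m : ℂ) *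
        (((if a ∈ SA q p.2.1 (As w0 V η p.1) (As w0 V η (p.1 + 1)) ∧
          m ∈ SA q p.2.2 (Y1 / As w0 V η p.1) (Y2 / As w0 V η p.1) then 1 else 0 : ℝ) : ℂ) * ph k 0 (a * m)))]
      · refine sum_congr rfl fun a ha => ?_
        rw [mul_sum, ← sum_subset hs2 (f := fun m => (f a : ℂ) * (g m : ℂ) *
          (((if a ∈ SA q p.2.1 (As w0 V η p.1) (As w0 V η (p.1 + 1)) ∧
            m ∈ SA q p.2.2 (Y1 / As w0 V η p.1) (Y2 / As w0 V η p.1) then 1 else 0 : ℝ) : ℂ) * ph k 0 (a * m)))]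
        · refine sum_congr rfl fun m hm => ?_
          rw [if_pos ⟨ha, hm⟩, ph_mul k (mem_SA.1 ha).1 (mem_SA.1 hm).1]
          push_cast
          ring
        · intro m _ hm
          rw [if_neg fun h => hm h.2]
          push_cast
          ring
      · intro a _ ha
        refine sum_eq_zero fun m _ => ?_
        rw [if_neg fun h => ha h.1]
        push_cast
        ring
    · intro a ha ha'
      refine sum_eq_zero fun m _ => ?_
      have : f a = 0 := by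
        by_contra hcon
        apply ha'
        rw [mem_bg] at ha ⊢
        exact ⟨ha.1, hf a hcon, ha.2.2⟩
      rw [this]
      push_cast
      ring
  rw [sum_congr rfl h1]
  symm
  rw [sum_comm]
  refine sum_congr rfl fun a _ => ?_
  rw [sum_comm]
  refine sum_congr rfl fun m _ => ?_
  unfold Wt
  push_cast
  rw [sum_mul, mul_sum]

theorem norm_add_sq_le (x y : ℂ) : ‖x + y‖ ^ 2 ≤ 2 * ‖x‖ ^ 2 + 2 * ‖y‖ ^ 2 := by
  have h5 := norm_add_le x y
  nlinarith [sq_nonneg (‖x‖ - ‖y‖), norm_nonneg (x + y), norm_nonneg x, norm_nonneg y]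

theorem norm_sum_sq_le {ι : Type} (s : Finset ι) (f : ι → ℂ) : ‖∑ i ∈ s, f i‖ ^ 2 ≤ s.card * ∑ i ∈ s, ‖f i‖ ^ 2 := by
  calc ‖∑ i ∈ s, f i‖ ^ 2 ≤ (∑ i ∈ s, ‖f i‖) ^ 2 := pow_le_pow_left₀ (norm_nonneg _) (norm_sum_le s f) 2
    _ ≤ (s.card : ℝ) * ∑ i ∈ s, ‖f i‖ ^ 2 := sq_sum_le_card_mul_sum_sq (s := s) (f := fun i => ‖f i‖)

/-- **the mean square of a product over the frequencies `k ≠ 0`** -/
theorem ms_ne : ∃ Cs : ℝ, 0 < Cs ∧ ∀ (f g : ZI → ℝ) (q : ℕ) (r : ZI) (K I : ℕ) (w0 w1 V η Y1 Y2 c C0 C1 : ℝ),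
    1 ≤ q → IsCoprime r ((q : ℕ) : ZI) → 1 ≤ w0 → w1 ≤ V → w0 ≤ V → 0 < η → η ≤ 1 →
    V ≤ w0 * (1 + η) ^ I → 0 ≤ Y1 → Y1 ≤ Y2 → Y2 ≤ V → 0 ≤ c → 0 ≤ C0 → 0 ≤ C1 → 1 ≤ K → (K : ℝ) ≤ V / w1 → 1 ≤ w1 →
    2 ≤ V / w1 →
    (∀ a, f a ≠ 0 → nz a ≤ w1) →
    (∀ k : ℤ, k ≠ 0 → |(k : ℝ)| ≤ K → ∀ s : ZI, IsCoprime s ((q : ℕ) : ZI) → ∀ A0 A1 : ℝ, w0 ≤ A0 → A0 ≤ A1 →
      A1 ≤ 2 * A0 → ‖∑ a ∈ SA q s A0 A1, (f a : ℂ) * ph k 0 a‖ ≤ c * A0) →
    (∀ m, |g m| ≤ C1) → (∀ m, ct m ≠ 1 → g m = 0) → (∀ a m, f a ≠ 0 → g m ≠ 0 → ct (a * m) = 1) →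
    (∀ t ∈ bl (2 * V), cf (fun a => |f a|) (fun m => |g m|) (bg w0 w1) (bl V) t ≤ C0) →
    ∑ k ∈ (Icc (-(K : ℤ)) K).erase 0, ‖∑ t ∈ (cls q r Y2).filter (fun t => Y1 < nz t),
      (cf f g (bg w0 w1) (bl V) t : ℂ) * ph k 0 t‖ ^ 2 ≤
      Cs * (((I : ℝ) * q ^ 4) ^ 2 * c ^ 2 * C1 ^ 2 * V ^ 2 + C0 ^ 2 * V * (η * V + Real.sqrt V)) := by
  classical
  obtain ⟨C, hC, hsh⟩ := shell
  refine ⟨2600 + 1728 * C, by positivity, ?_⟩
  intro f g q r K I w0 w1 V η Y1 Y2 c C0 C1 hq hr hw0 hw1 hwV hη hη1 hI hY1 hY12 hY2V hc hC0 hC1 hK hKV hw10 hVw hf hA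
    hg hgp hfg hcf
  have hV1 : 1 ≤ V := hw0.trans hwV
  have hV0 : 0 < V := by linarith
  -- the two parts
  set Mk : ℤ → ℂ := fun k => ∑ p ∈ Jx q r I, Ca f q w0 V η p k * Cm g q w0 V η Y1 Y2 p k with hMk
  set e : ZI → ℂ := fun t => ∑ p ∈ (bg w0 w1 ×ˢ bl V).filter (fun p => p.1 * p.2 = t),
    (f p.1 : ℂ) * (g p.2 : ℂ) * ((Jn q r Y1 Y2 (p.1 * p.2) - Wt q r I w0 V η Y1 Y2 p.1 p.2 : ℝ) : ℂ) with he
  have hbgV : ∀ a ∈ bg w0 w1, a ∈ bg w0 V := by
    intro a ha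
    rw [mem_bg] at ha ⊢
    exact ⟨ha.1, ha.2.1.trans hw1, ha.2.2⟩
  have he_le : ∀ t, ‖e t‖ ≤ cf (fun a => |f a|) (fun m => |g m|) (bg w0 w1) (bl V) t * sh η Y1 Y2 (nz t) := by
    intro t
    rw [he]
    simp only
    refine (norm_sum_le _ _).trans ?_
    unfold cf
    rw [sum_mul]
    refine sum_le_sum fun p hp => ?_
    rw [mem_filter, mem_product] at hp
    rw [norm_mul, norm_mul, Complex.norm_real, Complex.norm_real, Complex.norm_real, Real.norm_eq_abs,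
      Real.norm_eq_abs, Real.norm_eq_abs]
    apply mul_le_mul_of_nonneg_left _ (by positivity)
    have := Jn_err hq (r := r) (Y1 := Y1) (Y2 := Y2) hw0 hwV hη.le hI (hbgV _ hp.1.1) hp.1.2
    rwa [hp.2] at this ⊢
  have he_p : ∀ t, ct t ≠ 1 → e t = 0 := by
    intro t ht
    rw [he]
    simp only
    refine sum_eq_zero fun p hp => ?_
    rw [mem_filter] at hp
    by_cases h1 : f p.1 = 0
    · rw [h1]; push_cast; ring
    by_cases h2 : g p.2 = 0
    · rw [h2]; push_cast; ring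
    exact absurd (by rw [← hp.2]; exact hfg _ _ h1 h2) ht
  have he_out : ∀ t, 2 * V < nz t → e t = 0 := by
    intro t ht
    have h1 := he_le t
    have h2 : sh η Y1 Y2 (nz t) = 0 := by
      unfold sh
      rw [if_neg, if_neg, add_zero]
      · rintro ⟨-, h⟩
        nlinarith
      · rintro ⟨-, h⟩
        nlinarith
    rw [h2, mul_zero] at h1
    exact norm_le_zero_iff.1 h1
  have hdecomp : ∀ k : ℤ, ∑ t ∈ (cls q r Y2).filter (fun t => Y1 < nz t), (cf f g (bg w0 w1) (bl V) t : ℂ) * ph k 0 t =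
      Mk k + ∑ t ∈ bl (2 * V), e t * ph k 0 t := by
    intro k
    rw [cfC f g w0 w1 V q r Y1 Y2 hw0 hw1 hY2V k, hMk]
    simp only
    rw [← cells f g hw0 hw1 hwV hη.le (hY1.trans hY12) hY2V hf k]
    have e1 : ∑ t ∈ bl (2 * V), e t * ph k 0 t = ∑ a ∈ bg w0 w1, ∑ m ∈ bl V, (f a : ℂ) * (g m : ℂ) *
        (((Jn q r Y1 Y2 (a * m) - Wt q r I w0 V η Y1 Y2 a m : ℝ) : ℂ) * ph k 0 (a * m)) := by
      have hsub : bl (2 * V) ⊆ bl (2 * V * V) := by
        intro t ht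
        rw [mem_bl] at ht ⊢
        exact ⟨ht.1, by nlinarith [ht.2]⟩
      rw [sum_subset hsub (f := fun t => e t * ph k 0 t) (fun t _ ht => by
        have : e t = 0 := by
          by_cases h0 : t = 0
          · apply he_p
            rw [h0]
            simp [ct]
          · apply he_out
            by_contra hcon
            exact ht ((mem_bl _ _).2 ⟨h0, not_lt.1 hcon⟩)
        rw [this, zero_mul])]
      rw [← sum_product', ← sum_fiberwise_of_maps_to (s := bg w0 w1 ×ˢ bl V) (t := bl (2 * V * V))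
        (g := fun p => p.1 * p.2) (fun p hp => by
          rw [mem_product, mem_bg, mem_bl] at hp
          rw [mem_bl, Pool.Agent.N855.GN.nz_mul]
          refine ⟨mul_ne_zero hp.1.1 hp.2.1, ?_⟩
          calc nz p.1 * nz p.2 ≤ V * V := mul_le_mul (hp.1.2.1.trans hw1) hp.2.2 (nz_nonneg _) hV0.le
            _ ≤ 2 * V * V := by nlinarith)]
      refine sum_congr rfl fun t _ => ?_
      rw [he]
      simp only
      rw [sum_mul]
      refine sum_congr rfl fun p hp => ?_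
      rw [(mem_filter.1 hp).2]
      ring
    rw [e1, ← sum_add_distrib]
    refine sum_congr rfl fun a _ => ?_
    rw [← sum_add_distrib]
    refine sum_congr rfl fun m _ => ?_
    push_cast
    ring
  -- the error
  have hE : ∑ k ∈ Icc (-(K : ℤ)) K, ‖∑ t ∈ bl (2 * V), e t * ph k 0 t‖ ^ 2 ≤
      864 * C * (C0 ^ 2 * V * (η * V + Real.sqrt V)) := by
    refine (lsbp (V := 2 * V) (by linarith) hK e he_p).trans ?_
    have hKV' : (K : ℝ) ≤ V := by
      refine hKV.trans ?_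
      rw [div_le_iff₀ (by linarith)]
      nlinarith
    have h1 : ∑ t ∈ bl (2 * V), ‖e t‖ ^ 2 ≤ C0 ^ 2 * (4 * C * (η * V + Real.sqrt V)) := by
      have h2 : ∀ t ∈ bl (2 * V), ‖e t‖ ^ 2 ≤ C0 ^ 2 * (2 * (if Y1 < nz t ∧ nz t ≤ (1 + η) * Y1 then 1 else 0) +
          2 * (if Y2 < nz t ∧ nz t ≤ (1 + η) * Y2 then 1 else 0)) := by
        intro t ht
        have h3 : ‖e t‖ ^ 2 ≤ (C0 * sh η Y1 Y2 (nz t)) ^ 2 := by
          apply pow_le_pow_left₀ (norm_nonneg _)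
          exact (he_le t).trans (mul_le_mul_of_nonneg_right (hcf t ht) (sh_nonneg _ _ _ _))
        refine h3.trans ?_
        rw [mul_pow]
        apply mul_le_mul_of_nonneg_left _ (by positivity)
        unfold sh
        split_ifs <;> norm_num
      refine (sum_le_sum h2).trans ?_
      rw [← mul_sum, sum_add_distrib, ← mul_sum, ← mul_sum, ← sum_filter, ← sum_filter, sum_const, sum_const,
        nsmul_eq_mul, nsmul_eq_mul, mul_one, mul_one]
      apply mul_le_mul_of_nonneg_left _ (by positivity)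
      have h4 := hsh Y1 V η hV1 hη.le hη1 (hY12.trans hY2V)
      have h5 := hsh Y2 V η hV1 hη.le hη1 hY2V
      linarith
    calc 72 * (K + 2 * V) * ∑ t ∈ bl (2 * V), ‖e t‖ ^ 2 ≤ 72 * (V + 2 * V) * (C0 ^ 2 * (4 * C * (η * V + Real.sqrt V))) := by
          apply mul_le_mul _ h1 (sum_nonneg fun t _ => sq_nonneg _) (by positivity)
          linarith
      _ = _ := by ring
  -- the cells
  have hM : ∑ k ∈ (Icc (-(K : ℤ)) K).erase 0, ‖Mk k‖ ^ 2 ≤ 1296 * (((I : ℝ) * q ^ 4) ^ 2 * c ^ 2 * C1 ^ 2 * V ^ 2) := by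
    have hJ : ((Jx q r I).card : ℝ) ≤ (I : ℝ) * q ^ 4 := by exact_mod_cast card_Jx q r I
    have h1 : ∀ p ∈ Jx q r I, ∑ k ∈ (Icc (-(K : ℤ)) K).erase 0, ‖Ca f q w0 V η p k * Cm g q w0 V η Y1 Y2 p k‖ ^ 2 ≤
        1296 * (c ^ 2 * C1 ^ 2 * V ^ 2) := by
      intro p hp
      unfold Jx at hp
      rw [mem_filter] at hp
      have hcop : IsCoprime p.2.1 ((q : ℕ) : ZI) := coprime_of hr p.2.2 (by rw [mul_comm]; exact hp.2)
      have hAge : w0 ≤ As w0 V η p.1 := As_ge hwV (by linarith) hη.le p.1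
      have hA0 : 0 < As w0 V η p.1 := by linarith
      rcases le_or_gt w1 (As w0 V η p.1) with hcase | hcase
      · -- empty cell
        have h2 : ∀ k : ℤ, Ca f q w0 V η p k = 0 := by
          intro k
          unfold Ca
          refine sum_eq_zero fun a ha => ?_
          rw [mem_SA] at ha
          have : f a = 0 := by
            by_contra hcon
            have := hf a hcon
            linarith [ha.2.2.2]
          rw [this]; push_cast; ring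
        have h3 : ∑ k ∈ (Icc (-(K : ℤ)) K).erase 0, ‖Ca f q w0 V η p k * Cm g q w0 V η Y1 Y2 p k‖ ^ 2 = 0 := by
          refine sum_eq_zero fun k _ => ?_
          rw [h2 k, zero_mul, norm_zero]
          norm_num
        rw [h3]
        positivity
      · set Ai := As w0 V η p.1 with hAi
        set Vm := V / Ai with hVm
        have hVm1 : V / w1 ≤ Vm := div_le_div_of_nonneg_left hV0.le hA0 hcase.le
        have hVm2 : 2 ≤ Vm := hVw.trans hVm1
        have hKVm : (K : ℝ) ≤ Vm := hKV.trans hVm1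
        have hCa : ∀ k ∈ (Icc (-(K : ℤ)) K).erase 0, ‖Ca f q w0 V η p k‖ ≤ c * Ai := by
          intro k hk
          rw [mem_erase, mem_Icc] at hk
          have hkK : |(k : ℝ)| ≤ K := by
            have : |k| ≤ (K : ℤ) := abs_le.2 hk.2
            exact_mod_cast this
          unfold Ca
          refine hA k hk.1 hkK p.2.1 hcop _ _ hAge (As_mono (by linarith) hη.le (Nat.le_succ _)) ?_
          refine (As_succ (by linarith) hη.le p.1).trans ?_
          apply mul_le_mul_of_nonneg_right _ hA0.le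
          linarith
        set S2 := SA q p.2.2 (Y1 / Ai) (Y2 / Ai) with hS2
        have hS2s : S2 ⊆ bl Vm := by
          intro m hm
          rw [hS2, mem_SA] at hm
          rw [mem_bl]
          exact ⟨hm.1, hm.2.1.trans (div_le_div_of_nonneg_right hY2V hA0.le)⟩
        set gg : ZI → ℂ := fun m => if m ∈ S2 then (g m : ℂ) else 0 with hgg
        have hCm : ∀ k : ℤ, Cm g q w0 V η Y1 Y2 p k = ∑ m ∈ bl Vm, gg m * ph k 0 m := by
          intro k
          unfold Cm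
          rw [← hAi, ← hS2, ← sum_subset hS2s (f := fun m => gg m * ph k 0 m)]
          · exact sum_congr rfl fun m hm => by rw [hgg]; simp only; rw [if_pos hm]
          · intro m _ hm
            rw [hgg]
            simp only
            rw [if_neg hm, zero_mul]
        have h2 := lsbp (V := Vm) hVm2 hK gg (fun m hm => by
          rw [hgg]
          simp only
          split_ifs
          · rw [hgp m hm]; push_cast; rfl
          · rfl)
        have h3 : ∑ m ∈ bl Vm, ‖gg m‖ ^ 2 ≤ 9 * Vm * C1 ^ 2 := by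
          calc ∑ m ∈ bl Vm, ‖gg m‖ ^ 2 ≤ ∑ m ∈ bl Vm, C1 ^ 2 := by
                refine sum_le_sum fun m _ => ?_
                apply pow_le_pow_left₀ (norm_nonneg _)
                rw [hgg]
                simp only
                split_ifs
                · rw [Complex.norm_real, Real.norm_eq_abs]
                  exact hg m
                · rw [norm_zero]
                  exact hC1
            _ = ((bl Vm).card : ℝ) * C1 ^ 2 := by rw [sum_const, nsmul_eq_mul]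
            _ ≤ 9 * Vm * C1 ^ 2 := mul_le_mul_of_nonneg_right (card_bl (by linarith)) (by positivity)
        calc ∑ k ∈ (Icc (-(K : ℤ)) K).erase 0, ‖Ca f q w0 V η p k * Cm g q w0 V η Y1 Y2 p k‖ ^ 2
            ≤ ∑ k ∈ (Icc (-(K : ℤ)) K).erase 0, (c * Ai) ^ 2 * ‖∑ m ∈ bl Vm, gg m * ph k 0 m‖ ^ 2 := by
              refine sum_le_sum fun k hk => ?_
              rw [norm_mul, mul_pow, hCm k]
              apply mul_le_mul_of_nonneg_right _ (by positivity)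
              exact pow_le_pow_left₀ (norm_nonneg _) (hCa k hk) 2
          _ ≤ ∑ k ∈ Icc (-(K : ℤ)) K, (c * Ai) ^ 2 * ‖∑ m ∈ bl Vm, gg m * ph k 0 m‖ ^ 2 :=
              sum_le_sum_of_subset_of_nonneg (erase_subset _ _) fun k _ _ => by positivity
          _ = (c * Ai) ^ 2 * ∑ k ∈ Icc (-(K : ℤ)) K, ‖∑ m ∈ bl Vm, gg m * ph k 0 m‖ ^ 2 := by rw [mul_sum]
          _ ≤ (c * Ai) ^ 2 * (72 * (K + Vm) * (9 * Vm * C1 ^ 2)) := by
              apply mul_le_mul_of_nonneg_left _ (by positivity)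
              exact h2.trans (mul_le_mul_of_nonneg_left h3 (by positivity))
          _ ≤ (c * Ai) ^ 2 * (72 * (Vm + Vm) * (9 * Vm * C1 ^ 2)) := by
              apply mul_le_mul_of_nonneg_left _ (by positivity)
              apply mul_le_mul_of_nonneg_right _ (by positivity)
              linarith
          _ = 1296 * (c ^ 2 * C1 ^ 2 * V ^ 2) := by
              rw [hVm]
              field_simp
              ring
    calc ∑ k ∈ (Icc (-(K : ℤ)) K).erase 0, ‖Mk k‖ ^ 2 ≤ ∑ k ∈ (Icc (-(K : ℤ)) K).erase 0, ((Jx q r I).card : ℝ) *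
          ∑ p ∈ Jx q r I, ‖Ca f q w0 V η p k * Cm g q w0 V η Y1 Y2 p k‖ ^ 2 :=
          sum_le_sum fun k _ => norm_sum_sq_le _ _
      _ = ((Jx q r I).card : ℝ) * ∑ p ∈ Jx q r I, ∑ k ∈ (Icc (-(K : ℤ)) K).erase 0,
          ‖Ca f q w0 V η p k * Cm g q w0 V η Y1 Y2 p k‖ ^ 2 := by rw [← mul_sum, sum_comm]
      _ ≤ ((Jx q r I).card : ℝ) * (((Jx q r I).card : ℝ) * (1296 * (c ^ 2 * C1 ^ 2 * V ^ 2))) := by
          apply mul_le_mul_of_nonneg_left _ (Nat.cast_nonneg _)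
          refine (sum_le_sum h1).trans (le_of_eq ?_)
          rw [sum_const, nsmul_eq_mul]
      _ = ((Jx q r I).card : ℝ) ^ 2 * (1296 * (c ^ 2 * C1 ^ 2 * V ^ 2)) := by ring
      _ ≤ ((I : ℝ) * q ^ 4) ^ 2 * (1296 * (c ^ 2 * C1 ^ 2 * V ^ 2)) := by
          apply mul_le_mul_of_nonneg_right _ (by positivity)
          exact pow_le_pow_left₀ (Nat.cast_nonneg _) hJ 2
      _ = _ := by ring
  simp only [hdecomp]
  calc ∑ k ∈ (Icc (-(K : ℤ)) K).erase 0, ‖Mk k + ∑ t ∈ bl (2 * V), e t * ph k 0 t‖ ^ 2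
      ≤ ∑ k ∈ (Icc (-(K : ℤ)) K).erase 0, (2 * ‖Mk k‖ ^ 2 + 2 * ‖∑ t ∈ bl (2 * V), e t * ph k 0 t‖ ^ 2) :=
        sum_le_sum fun k _ => norm_add_sq_le _ _
    _ = 2 * ∑ k ∈ (Icc (-(K : ℤ)) K).erase 0, ‖Mk k‖ ^ 2 +
        2 * ∑ k ∈ (Icc (-(K : ℤ)) K).erase 0, ‖∑ t ∈ bl (2 * V), e t * ph k 0 t‖ ^ 2 := by
        rw [sum_add_distrib, ← mul_sum, ← mul_sum]
    _ ≤ 2 * (1296 * (((I : ℝ) * q ^ 4) ^ 2 * c ^ 2 * C1 ^ 2 * V ^ 2)) +
        2 * (864 * C * (C0 ^ 2 * V * (η * V + Real.sqrt V))) := by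
        have := (sum_le_sum_of_subset_of_nonneg (erase_subset (0 : ℤ) (Icc (-(K : ℤ)) K))
          (f := fun k => ‖∑ t ∈ bl (2 * V), e t * ph k 0 t‖ ^ 2) fun k _ _ => sq_nonneg _).trans hE
        linarith
    _ ≤ _ := by
        have x1 : 0 ≤ ((I : ℝ) * q ^ 4) ^ 2 * c ^ 2 * C1 ^ 2 * V ^ 2 := by positivity
        have x2 : 0 ≤ C0 ^ 2 * V * (η * V + Real.sqrt V) := by positivity
        have x3 : 0 ≤ C * (((I : ℝ) * q ^ 4) ^ 2 * c ^ 2 * C1 ^ 2 * V ^ 2) := by positivity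
        nlinarith

end Pool.Agent.J6H16.PF
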