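import Pool.Agent.J6H16.PF.Cv

/-!
# Project PF (helper16): convolutions in classes, without frequencies
-/

set_option autoImplicit false

namespace Pool.Agent.J6H16.PF

open Finset Filter Topology MeasureTheory
open Pool.Agent.N782.GN Pool.Agent.N855.GN
open Pool.Agent.H304R3.HK (UH bb LamK CS)

open Classical in
/-- the elements of a class with `Y1 < N(t) ≤ Y2` -/
noncomputable def ci (q : ℕ) (r : ZI) (Y1 Y2 : ℝ) : Finset ZI := (cls q r Y2).filter (fun t => Y1 < nz t)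

theorem mem_ci {q : ℕ} {r : ZI} {Y1 Y2 : ℝ} {t : ZI} :
    t ∈ ci q r Y1 Y2 ↔ t ≠ 0 ∧ nz t ≤ Y2 ∧ ((q : ℕ) : ZI) ∣ t - r ∧ Y1 < nz t := by
  classical
  unfold ci cls
  rw [mem_filter, mem_filter, mem_bl]
  tauto

/-- sum over the product set and the class -/
theorem cfR (f g : ZI → ℝ) (w0 w1 V : ℝ) (q : ℕ) (r : ZI) (Y1 Y2 : ℝ) (hw0 : 1 ≤ w0) (hw1 : w1 ≤ V) (hY2 : Y2 ≤ V) :
    ∑ t ∈ ci q r Y1 Y2, cf f g (bg w0 w1) (bl V) t =
      ∑ a ∈ bg w0 w1, ∑ m ∈ bl V, f a * g m * Jn q r Y1 Y2 (a * m) := by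
  classical
  rcases le_or_gt w0 V with hwV | hwV
  · have hV1 : 1 ≤ V := hw0.trans hwV
    rw [grp f g (fun t => Jn q r Y1 Y2 t) (bg w0 w1) (bl V) (bl (V * V)) (fun a ha m hm => by
      rw [mem_bg] at ha
      rw [mem_bl] at hm ⊢
      refine ⟨mul_ne_zero ha.1 hm.1, ?_⟩
      rw [Pool.Agent.N855.GN.nz_mul]
      exact mul_le_mul (ha.2.1.trans hw1) hm.2 (nz_nonneg _) (by linarith))]
    have hsub : ci q r Y1 Y2 ⊆ bl (V * V) := by
      intro t ht
      rw [mem_ci] at ht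
      rw [mem_bl]
      exact ⟨ht.1, by nlinarith [ht.2.1]⟩
    rw [← sum_subset hsub (f := fun t => cf f g (bg w0 w1) (bl V) t * Jn q r Y1 Y2 t)]
    · refine sum_congr rfl fun t ht => ?_
      rw [Jn_eq, if_pos (by unfold ci at ht; exact ht), mul_one]
    · intro t _ ht
      rw [Jn_eq, if_neg (by unfold ci at ht; exact ht), mul_zero]
  · have h1 : bg w0 w1 = ∅ := by
      rw [eq_empty_iff_forall_notMem]
      intro a ha
      rw [mem_bg] at ha
      linarith [ha.2.1, ha.2.2]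
    rw [h1, sum_empty]
    refine sum_eq_zero fun t _ => ?_
    unfold cf
    rw [empty_product, filter_empty, sum_empty]

theorem Jn_mul {q : ℕ} {r a m e f : ZI} {Y1 Y2 : ℝ} (ha : a ≠ 0) (hef : e * a + f * ((q : ℕ) : ZI) = 1) :
    a * m ∈ ci q r Y1 Y2 ↔ m ∈ ci q (e * r) (Y1 / nz a) (Y2 / nz a) := by
  have hn := nz_pos ha
  rw [mem_ci, mem_ci, Pool.Agent.N855.GN.nz_mul, le_div_iff₀ hn, div_lt_iff₀ hn, mul_comm (nz a)]
  have h1 : a * m ≠ 0 ↔ m ≠ 0 := by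
    constructor
    · exact right_ne_zero_of_mul
    · exact mul_ne_zero ha
  have h2 : ((q : ℕ) : ZI) ∣ a * m - r ↔ ((q : ℕ) : ZI) ∣ m - e * r := by
    constructor
    · intro h
      have : m - e * r = e * (a * m - r) + f * m * ((q : ℕ) : ZI) := by linear_combination (-m) * hef
      rw [this]
      exact dvd_add (Dvd.dvd.mul_left h _) (dvd_mul_left _ _)
    · intro h
      have : a * m - r = a * (m - e * r) - r * f * ((q : ℕ) : ZI) := by linear_combination r * hef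
      rw [this]
      exact dvd_sub (Dvd.dvd.mul_left h _) (dvd_mul_left _ _)
  rw [h1, h2]

theorem inner_ci (g : ZI → ℝ) {q : ℕ} {r a e f : ZI} {Y1 Y2 V : ℝ} (hY2 : Y2 ≤ V) (hY0 : 0 ≤ Y2) (ha : a ≠ 0)
    (hef : e * a + f * ((q : ℕ) : ZI) = 1) :
    ∑ m ∈ bl V, g m * Jn q r Y1 Y2 (a * m) = ∑ m ∈ ci q (e * r) (Y1 / nz a) (Y2 / nz a), g m := by
  classical
  have hsub : ci q (e * r) (Y1 / nz a) (Y2 / nz a) ⊆ bl V := by
    intro m hm
    rw [mem_ci] at hm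
    rw [mem_bl]
    exact ⟨hm.1, hm.2.1.trans ((div_le_self hY0 (nz_one_le ha)).trans hY2)⟩
  rw [← sum_subset hsub (f := fun m => g m * Jn q r Y1 Y2 (a * m))]
  · refine sum_congr rfl fun m hm => ?_
    rw [← Jn_mul ha hef] at hm
    rw [Jn_eq, if_pos (by unfold ci at hm; exact hm), mul_one]
  · intro m _ hm
    rw [← Jn_mul ha hef] at hm
    rw [Jn_eq, if_neg (by unfold ci at hm; exact hm), mul_zero]

/-- regularity of a function in the classes -/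
def Reg (g : ZI → ℝ) (q : ℕ) (κ η X X' : ℝ) : Prop := ∀ s : ZI, IsCoprime s ((q : ℕ) : ZI) → ∀ Y1 Y2 : ℝ,
  X ≤ Y1 → Y1 ≤ Y2 → Y2 ≤ X' → |∑ t ∈ ci q s Y1 Y2, g t - κ * (Y2 - Y1)| ≤ η * Y2

/-- the step from `g` to `f * g` -/
theorem reg_step {f g : ZI → ℝ} {q : ℕ} {κ η X X' w0 w1 : ℝ} (hw0 : 1 ≤ w0) (hX : 0 ≤ X)
    (hf0 : ∀ a, 0 ≤ f a) (hf : ∀ a, f a ≠ 0 → w0 < nz a ∧ nz a ≤ w1) (hfc : ∀ a, f a ≠ 0 → IsCoprime a ((q : ℕ) : ZI))
    (hg : Reg g q κ η X X') : Reg (cv f g) q (κ * ∑ a ∈ bg w0 w1, f a / nz a) (η * ∑ a ∈ bg w0 w1, f a / nz a)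
      (X * w1) X' := by
  classical
  intro s hs Y1 Y2 hY1 hY12 hY2
  set V := max Y2 w1 with hV
  have e0 : ∀ t ∈ ci q s Y1 Y2, cv f g t = cf f g (bg w0 w1) (bl V) t := by
    intro t ht
    rw [mem_ci] at ht
    symm
    apply cf_cv (ht.2.1.trans (le_max_left _ _))
    · intro a ha
      exact ((mem_bg).1 ha).1
    · intro a ha _ h
      by_contra hcon
      apply h
      rw [mem_bg]
      exact ⟨ha, (hf a hcon).2, (hf a hcon).1⟩
  rw [sum_congr rfl e0, cfR f g w0 w1 V q s Y1 Y2 hw0 (le_max_right _ _) (le_max_left _ _)]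
  have e1 : ∀ a ∈ bg w0 w1, |∑ m ∈ bl V, f a * g m * Jn q s Y1 Y2 (a * m) - f a / nz a * (κ * (Y2 - Y1))| ≤
      f a / nz a * (η * Y2) := by
    intro a ha
    rw [mem_bg] at ha
    have hn := nz_pos ha.1
    have hn1 := nz_one_le ha.1
    by_cases h0 : f a = 0
    · rw [h0, zero_div, zero_mul, zero_mul, sub_zero]
      rw [sum_eq_zero fun m _ => by rw [zero_mul, zero_mul], abs_zero]
    · have hfa := hf0 a
      obtain ⟨e, f', hef⟩ := hfc a h0
      have hcr : IsCoprime (e * s) ((q : ℕ) : ZI) :=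
        IsCoprime.mul_left ⟨a, f', by linear_combination hef⟩ hs
      have hw1' : 0 ≤ X * w1 := mul_nonneg hX (hn.le.trans ha.2.1)
      have e2 : ∑ m ∈ bl V, f a * g m * Jn q s Y1 Y2 (a * m) = f a * ∑ m ∈ ci q (e * s) (Y1 / nz a) (Y2 / nz a), g m := by
        rw [← inner_ci g (le_max_left Y2 w1) (by linarith) ha.1 hef, mul_sum]
        exact sum_congr rfl fun m _ => by ring
      have e3 := hg (e * s) hcr (Y1 / nz a) (Y2 / nz a) (by
        rw [le_div_iff₀ hn]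
        exact (mul_le_mul_of_nonneg_left ha.2.1 hX).trans hY1) (by gcongr)
        ((div_le_self (by linarith) hn1).trans hY2)
      rw [e2]
      have e4 : f a * ∑ m ∈ ci q (e * s) (Y1 / nz a) (Y2 / nz a), g m - f a / nz a * (κ * (Y2 - Y1)) =
          f a * (∑ m ∈ ci q (e * s) (Y1 / nz a) (Y2 / nz a), g m - κ * (Y2 / nz a - Y1 / nz a)) := by
        field_simp
      rw [e4, abs_mul, abs_of_nonneg hfa]
      calc f a * |∑ m ∈ ci q (e * s) (Y1 / nz a) (Y2 / nz a), g m - κ * (Y2 / nz a - Y1 / nz a)| ≤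
            f a * (η * (Y2 / nz a)) := mul_le_mul_of_nonneg_left e3 hfa
        _ = _ := by ring
  have e5 : ∑ a ∈ bg w0 w1, ∑ m ∈ bl V, f a * g m * Jn q s Y1 Y2 (a * m) -
      (κ * ∑ a ∈ bg w0 w1, f a / nz a) * (Y2 - Y1) = ∑ a ∈ bg w0 w1, (∑ m ∈ bl V, f a * g m * Jn q s Y1 Y2 (a * m) -
      f a / nz a * (κ * (Y2 - Y1))) := by
    rw [sum_sub_distrib, ← sum_mul]
    ring
  rw [e5]
  refine (abs_sum_le_sum_abs _ _).trans ((sum_le_sum e1).trans (le_of_eq ?_))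
  rw [← sum_mul]
  ring

end Pool.Agent.J6H16.PF
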